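import Pool.Agent.Lib.MP_d6150d_an.Cells

set_option maxRecDepth 100000
set_option linter.defProp false

namespace Pool.Agent.Lib.MP_d6150d_an

noncomputable def d_m61440_m60928_4096_4608 : Cell :=
  ⟨-262783279038464,1099511627776,18691697672192,1099511627776,⟨0,-4503599627370496,0⟩,⟨0,4503599627370496,0⟩,0,-1,1,13107,1,(-159429186027520,0),⟨0,6728279588864,11775396875067596,[]⟩,[9478560616340,5161674919,9678033742,0,5996905,5596439],3,[⟨[225179981376412,471518224843,376904396093,-1436723652,2053584515,981446791],⟨0,120485171298304,713093737083091,[[-68475601844679827,540658836678989,377471896632178,-31205339227,-36805892153,-15964471271],[-72402811446473135,648290866590876,459957706290804],[0],[0],[-7442945324468596,119770674130022,89291687450509]]⟩,-43490,[⟨-27300,2,(-139637976727552,0),32⟩,⟨-11110,2,(-148434069749760,0),32⟩],13049,[⟨60560,3,(-184717953466368,0),32⟩,⟨108071,4,(-446401720877056,0),0⟩],3,0,[],0,[]⟩,⟨[281474976742753,845101581381,628917050268,-2961710207,4803667831,2017521600],⟨2,15951564550963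2,496679571773773,[[322372721197098837,-74901247659549575,-32202912625865155,0,-51272629446348234,3189019710808045],[-1630980765120207607,39109469387538890,-20517002683140876,0,72456152598583242,0],[2742423477153328496,153001615490542669,0],[0],[0],[-754965299704578913,-115852306943185400,0,0,-23303289959997340,0]]⟩,-136911,[⟨-89955,4,(57174604644352,0),6⟩,⟨-66477,3,(116548232544256,0),6⟩,⟨-54738,2,(-7696581394432,0),6⟩,⟨-42998,2,(-8796093022208,0),6⟩],104914,[⟨157877,5,(-422212465065984,0),0⟩,⟨210841,5,(-451899279015936,0),0⟩,⟨263805,5,(-493680720871424,0),1⟩],6,127027,[⟨176637,3,(0,0),33⟩,⟨226248,3,(0,0),33⟩],16452,[⟨22020,4,(0,0),33⟩,⟨27588,4,(0,0),33⟩,⟨33156,5,(0,0),33⟩,⟨38725,5,(0,0),33⟩,⟨49862,5,(0,0),33⟩,⟨60999,5,(0,0),33⟩,⟨105546,6,(0,0),33⟩]⟩]⟩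
def d_m61440_m60928_4096_4608_0 : sl d_m61440_m60928_4096_4608 0 4 := by decide +kernel
def d_m61440_m60928_4096_4608_4 : sl d_m61440_m60928_4096_4608 4 9 := by decide +kernel
def d_m61440_m60928_4096_4608_9 : sl d_m61440_m60928_4096_4608 9 13 := by decide +kernel
def d_m61440_m60928_4096_4608_13 : sl d_m61440_m60928_4096_4608 13 18 := by decide +kernel
def d_m61440_m60928_4096_4608_18 : sl d_m61440_m60928_4096_4608 18 19 := by decide +kernel
def d_m61440_m60928_4096_4608_19 : sl d_m61440_m60928_4096_4608 19 21 := by decide +kernel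
def d_m61440_m60928_4096_4608_21 : sl d_m61440_m60928_4096_4608 21 25 := by decide +kernel
def d_m61440_m60928_4096_4608_25 : sl d_m61440_m60928_4096_4608 25 28 := by decide +kernel
def d_m61440_m60928_4096_4608_28 : fr d_m61440_m60928_4096_4608 28 := by decide +kernel
theorem f_m61440_m60928_4096_4608 : fr d_m61440_m60928_4096_4608 0 :=
  (d_m61440_m60928_4096_4608_0.fr (d_m61440_m60928_4096_4608_4.fr (d_m61440_m60928_4096_4608_9.fr (d_m61440_m60928_4096_4608_13.fr (d_m61440_m60928_4096_4608_18.fr (d_m61440_m60928_4096_4608_19.fr (d_m61440_m60928_4096_4608_21.fr (d_m61440_m60928_4096_4608_25.fr d_m61440_m60928_4096_4608_28))))))))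

noncomputable def d_m60928_m60416_4096_4608 : Cell :=
  ⟨-260584255782912,1099511627776,18691697672192,1099511627776,⟨0,-4503599627370496,0⟩,⟨0,4503599627370496,0⟩,0,-1,1,13107,1,(-161628209283072,0),⟨0,6721576042496,11787140749030352,[]⟩,[9488863314997,5161674919,9690027552,0,5996905,5603892],3,[⟨[225179981375729,455403286536,371799062758,-1384300859,1956179467,960007211],⟨0,120457274195968,713338095812551,[[-67304457754967274,527962440521899,369731370031389,-30832299685,-36443889115,-15868923939],[-70971235069957734,631754191353729,449906101594695],[0],[0],[-7161776656258083,115886259889112,86957295735858]]⟩,-43538,[⟨-27329,2,(-140737488355328,0),32⟩,⟨-11120,2,(-149533581377536,0),32⟩],13049,[⟨59951,3,(-188016488349696,0),32⟩,⟨106853,4,(-454098302271488,0),0⟩],3,0,[],0,[]⟩,⟨[281474976738764,806844295609,618112079410,-2797072171,4484441146,1954568154],⟨2,159495867465728,496741161825588,[[264915374837951525,-7810603285432774,-180542160921593461,302168988650357,0,110061219620898304],[-1827880027042251849,0,151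138384048641825,0,0,-173199374470310869],[3239872585049566098,82611233025029339,49553077017503337],[0,0,0,0,0,66404335349060673],[0],[-987857203168907570,-77143234728851052,-76638659417387907,-1015024883317533,-1037013666448324,0]]⟩,-136278,[⟨-89663,4,(57174604644352,0),6⟩,⟨-66356,3,(116548232544256,0),6⟩,⟨-54702,2,(-8796093022208,0),6⟩,⟨-43048,2,(-9895604649984,0),6⟩],103809,[⟨154174,5,(-429909046460416,0),0⟩,⟨204540,5,(-456297325527040,0),0⟩,⟨254906,5,(-494780232499200,0),1⟩],6,126440,[⟨176344,3,(0,0),33⟩,⟨226248,3,(0,0),33⟩],15897,[⟨21500,4,(0,0),33⟩,⟨27103,4,(0,0),33⟩,⟨29904,4,(0,0),33⟩,⟨32706,5,(0,0),33⟩,⟨38309,5,(0,0),33⟩,⟨49515,5,(0,0),33⟩,⟨60721,5,(0,0),33⟩,⟨105546,6,(0,0),33⟩]⟩]⟩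
def d_m60928_m60416_4096_4608_0 : sl d_m60928_m60416_4096_4608 0 4 := by decide +kernel
def d_m60928_m60416_4096_4608_4 : sl d_m60928_m60416_4096_4608 4 9 := by decide +kernel
def d_m60928_m60416_4096_4608_9 : sl d_m60928_m60416_4096_4608 9 13 := by decide +kernel
def d_m60928_m60416_4096_4608_13 : sl d_m60928_m60416_4096_4608 13 18 := by decide +kernel
def d_m60928_m60416_4096_4608_18 : sl d_m60928_m60416_4096_4608 18 19 := by decide +kernel
def d_m60928_m60416_4096_4608_19 : sl d_m60928_m60416_4096_4608 19 21 := by decide +kernel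
def d_m60928_m60416_4096_4608_21 : sl d_m60928_m60416_4096_4608 21 25 := by decide +kernel
def d_m60928_m60416_4096_4608_25 : sl d_m60928_m60416_4096_4608 25 29 := by decide +kernel
def d_m60928_m60416_4096_4608_29 : fr d_m60928_m60416_4096_4608 29 := by decide +kernel
theorem f_m60928_m60416_4096_4608 : fr d_m60928_m60416_4096_4608 0 :=
  (d_m60928_m60416_4096_4608_0.fr (d_m60928_m60416_4096_4608_4.fr (d_m60928_m60416_4096_4608_9.fr (d_m60928_m60416_4096_4608_13.fr (d_m60928_m60416_4096_4608_18.fr (d_m60928_m60416_4096_4608_19.fr (d_m60928_m60416_4096_4608_21.fr (d_m60928_m60416_4096_4608_25.fr d_m60928_m60416_4096_4608_29))))))))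

noncomputable def d_m61440_m60416_4608_5120 : Cell :=
  ⟨-261683767410688,2199023255552,20890720927744,1099511627776,⟨0,-4503599627370496,0⟩,⟨0,4503599627370496,0⟩,0,-1,1,13107,1,(-160528697655296,0),⟨0,6713974587392,11800485866885757,[]⟩,[9503063646221,10347367305,9706459092,0,12023662,5614062],3,[⟨[225179981421664,910090561761,366962038856,-5531230185,3869156665,942387884],⟨0,121547835965440,706409737530645,[[-67927656714977689,1080972419326477,379201556210243,-123351841747,-72077271482,-15666614468],[-71678975635627314,1296226313424634,462656476491258],[0],[0],[-7245423168406204,239439462395598,90244577894144]]⟩,-43694,[⟨-27412,2,(-139637976727552,0),32⟩,⟨-11130,2,(-148434069749760,0),32⟩],13049,[⟨59706,3,(-186916976721920,0),32⟩,⟨106363,4,(-451899279015936,0),0⟩],3,0,[],0,[]⟩,⟨[281474976913085,1613026677998,609226751652,-11180559427,8856197362,1910131769],⟨2,160195486810112,494571751663733,[[272139377823813419,-142232945501815384,-2971117470134068,19701762115395419,1612900663748667,2138944953261870],[-145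1070895739498300,0,-201295120519182255,-15950921329482012,0,0],[2461375927113329651,397693508550432508,231217973722374265,0,0,341695350267754],[0],[0],[-679662371601909259,-255932449296872888,-70311071007255488,-11999191605799617,-4871486300152447,0]]⟩,-137560,[⟨-90323,4,(56075093016576,0),6⟩,⟨-66704,3,(115448720916480,0),6⟩,⟨-54895,2,(-7696581394432,0),6⟩,⟨-43085,2,(-9895604649984,0),6⟩],102654,[⟨156371,5,(-426610511577088,0),0⟩,⟨210088,5,(-455197813899264,0),1⟩,⟨263805,5,(-496979255754752,0),1⟩],6,126557,[⟨176402,3,(0,0),33⟩,⟨226248,3,(0,0),33⟩],18509,[⟨23948,4,(0,0),33⟩,⟨29388,4,(0,0),33⟩,⟨34828,4,(0,0),33⟩,⟨40268,5,(0,0),33⟩,⟨51147,5,(0,0),33⟩,⟨62027,5,(0,0),33⟩,⟨105546,6,(0,0),33⟩]⟩]⟩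
def d_m61440_m60416_4608_5120_0 : sl d_m61440_m60416_4608_5120 0 4 := by decide +kernel
def d_m61440_m60416_4608_5120_4 : sl d_m61440_m60416_4608_5120 4 9 := by decide +kernel
def d_m61440_m60416_4608_5120_9 : sl d_m61440_m60416_4608_5120 9 13 := by decide +kernel
def d_m61440_m60416_4608_5120_13 : sl d_m61440_m60416_4608_5120 13 18 := by decide +kernel
def d_m61440_m60416_4608_5120_18 : sl d_m61440_m60416_4608_5120 18 19 := by decide +kernel
def d_m61440_m60416_4608_5120_19 : sl d_m61440_m60416_4608_5120 19 21 := by decide +kernel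
def d_m61440_m60416_4608_5120_21 : sl d_m61440_m60416_4608_5120 21 25 := by decide +kernel
def d_m61440_m60416_4608_5120_25 : sl d_m61440_m60416_4608_5120 25 28 := by decide +kernel
def d_m61440_m60416_4608_5120_28 : fr d_m61440_m60416_4608_5120 28 := by decide +kernel
theorem f_m61440_m60416_4608_5120 : fr d_m61440_m60416_4608_5120 0 :=
  (d_m61440_m60416_4608_5120_0.fr (d_m61440_m60416_4608_5120_4.fr (d_m61440_m60416_4608_5120_9.fr (d_m61440_m60416_4608_5120_13.fr (d_m61440_m60416_4608_5120_18.fr (d_m61440_m60416_4608_5120_19.fr (d_m61440_m60416_4608_5120_21.fr (d_m61440_m60416_4608_5120_25.fr d_m61440_m60416_4608_5120_28))))))))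

noncomputable def d_m61440_m60416_5120_6144 : Cell :=
  ⟨-261683767410688,2199023255552,24189255811072,2199023255552,⟨0,-4503599627370496,0⟩,⟨0,4503599627370496,0⟩,0,-1,1,13107,1,(-160528697655296,0),⟨0,6699703533568,11825622128913560,[]⟩,[9532175128194,10383519174,19480424422,0,24137188,22539909],3,[⟨[225179981472037,886273055328,712494772284,-5377693709,7349755938,3610523119],⟨0,123000457723904,697391848031179,[[-67838628746422330,1087174951980980,761592226723632,-123394758657,-143264530436,-62322375999],[-71497196903768239,1303689246104002,929666473565037],[0],[0],[-7133115894669095,240567342812312,181570891536702]]⟩,-43969,[⟨-27560,2,(-139637976727552,0),32⟩,⟨-11150,2,(-148434069749760,0),32⟩],13049,[⟨58920,3,(-185817465094144,0),32⟩,⟨104791,4,(-452998790643712,0),0⟩],3,0,[],0,[]⟩,⟨[281474977100969,1559260077404,1177635698270,-10728037454,16555407153,7224149442],⟨2,161115623194624,491747236774601,[[235393843822385949,-131880173902066140,-51007318965601058,4406281918469680,0,0],[-1407041422447167283,191940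161436825317,-177334373520634674],[2318416705340165196,76279213315290002,0,0,4932346862772895,15570654416109300],[0,0,455974072220633063],[0,0,0,-7714584793112258,0,0],[-648078466325790097,-135839718374988846,-298268837072650066,0,-9801499953967481,-11485772083285725]]⟩,-138913,[⟨-91046,4,(54975581388800,0),6⟩,⟨-67113,3,(114349209288704,0),6⟩,⟨-55146,2,(-7696581394432,0),6⟩,⟨-49163,2,(-8796093022208,0),6⟩,⟨-43179,2,(-9895604649984,0),6⟩],100233,[⟨154757,5,(-425510999949312,0),0⟩,⟨209281,5,(-454098302271488,0),1⟩,⟨263805,5,(-491481697615872,1030792151040),1⟩],6,125636,[⟨175942,3,(0,0),33⟩,⟨226248,3,(0,0),33⟩],20566,[⟨25877,4,(0,0),33⟩,⟨31188,4,(0,0),33⟩,⟨36499,4,(0,0),33⟩,⟨41811,5,(0,0),33⟩,⟨52433,5,(0,0),33⟩,⟨63056,5,(0,0),33⟩,⟨84301,6,(0,0),33⟩,⟨105546,6,(0,0),33⟩]⟩]⟩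
def d_m61440_m60416_5120_6144_0 : sl d_m61440_m60416_5120_6144 0 4 := by decide +kernel
def d_m61440_m60416_5120_6144_4 : sl d_m61440_m60416_5120_6144 4 9 := by decide +kernel
def d_m61440_m60416_5120_6144_9 : sl d_m61440_m60416_5120_6144 9 13 := by decide +kernel
def d_m61440_m60416_5120_6144_13 : sl d_m61440_m60416_5120_6144 13 18 := by decide +kernel
def d_m61440_m60416_5120_6144_18 : sl d_m61440_m60416_5120_6144 18 20 := by decide +kernel
def d_m61440_m60416_5120_6144_20 : sl d_m61440_m60416_5120_6144 20 22 := by decide +kernel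
def d_m61440_m60416_5120_6144_22 : sl d_m61440_m60416_5120_6144 22 26 := by decide +kernel
def d_m61440_m60416_5120_6144_26 : sl d_m61440_m60416_5120_6144 26 30 := by decide +kernel
def d_m61440_m60416_5120_6144_30 : fr d_m61440_m60416_5120_6144 30 := by decide +kernel
theorem f_m61440_m60416_5120_6144 : fr d_m61440_m60416_5120_6144 0 :=
  (d_m61440_m60416_5120_6144_0.fr (d_m61440_m60416_5120_6144_4.fr (d_m61440_m60416_5120_6144_9.fr (d_m61440_m60416_5120_6144_13.fr (d_m61440_m60416_5120_6144_18.fr (d_m61440_m60416_5120_6144_20.fr (d_m61440_m60416_5120_6144_22.fr (d_m61440_m60416_5120_6144_26.fr d_m61440_m60416_5120_6144_30))))))))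

noncomputable def d_m60416_m59392_4096_5120 : Cell :=
  ⟨-257285720899584,2199023255552,19791209299968,2199023255552,⟨0,-4503599627370496,0⟩,⟨0,4056725460090880,0⟩,0,-1,1,13107,1,(-164926744166400,0),⟨0,6714872430592,11798908071249469,[]⟩,[9514011416591,10335364570,19438522814,0,24017471,22488152],3,[⟨[225179981466931,858603570420,721756162737,-5208064018,7177072324,3666830322],⟨0,122957140131840,697545053047951,[[-61448280484337138,983263243313572,696922978404539,-111676975008,-130420525983,-57219033162],[-64755733659633137,1178429957793921,850900503996057],[0],[0],[-6451393502908897,217010721135117,166278770812164]]⟩,-43819,[⟨-27475,2,(-142936511610880,0),32⟩,⟨-11130,2,(-151732604633088,0),32⟩],13049,[⟨59212,3,(-193514046488576,0),32⟩,⟨105375,4,(-463993906921472,0),0⟩],3,0,[],0,[]⟩,⟨[281474977070429,1495045002257,1192213184345,-10210560721,15942101981,7338375150],⟨2,161096684142592,491805048154043,[[372228363616097704,49298838120113310,-190479053496034136,18900374787556703,-1167769407015332,3000418561490028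4],[-1849759617037443155,155686359852839451,250696265531359084,-27192864269281406,0,-25005010437466734],[3013803374342059793,-248337718055907900,-104666331239175916],[0,0,-47215548266967914],[0],[-957122972084148107,47645008910180878,0,7961299797169003,0,5565835585606283]]⟩,-136278,[⟨-89658,4,(56075093016576,0),6⟩,⟨-66348,3,(115448720916480,0),6⟩,⟨-54693,2,(-9895604649984,0),6⟩,⟨-43038,3,(410117837160448,-2817498546176),6⟩],100808,[⟨149471,4,(-439804651110400,0),0⟩,⟨198134,5,(-463993906921472,0),0⟩,⟨246798,5,(-499178279010304,0),1⟩],6,125378,[⟨175813,3,(0,0),33⟩,⟨226248,3,(0,0),33⟩],15392,[⟨18209,4,(0,0),33⟩,⟨21026,4,(0,0),33⟩,⟨23843,4,(0,0),33⟩,⟨25252,4,(0,0),33⟩,⟨26661,4,(0,0),33⟩,⟨28069,4,(0,0),33⟩,⟨29478,4,(0,0),33⟩,⟨32295,5,(0,0),33⟩,⟨37930,5,(0,0),33⟩,⟨49199,5,(0,0),33⟩,⟨60469,5,(0,0),33⟩,⟨105546,6,(0,0),33⟩]⟩]⟩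
def d_m60416_m59392_4096_5120_0 : sl d_m60416_m59392_4096_5120 0 4 := by decide +kernel
def d_m60416_m59392_4096_5120_4 : sl d_m60416_m59392_4096_5120 4 9 := by decide +kernel
def d_m60416_m59392_4096_5120_9 : sl d_m60416_m59392_4096_5120 9 13 := by decide +kernel
def d_m60416_m59392_4096_5120_13 : sl d_m60416_m59392_4096_5120 13 18 := by decide +kernel
def d_m60416_m59392_4096_5120_18 : sl d_m60416_m59392_4096_5120 18 19 := by decide +kernel
def d_m60416_m59392_4096_5120_19 : sl d_m60416_m59392_4096_5120 19 21 := by decide +kernel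
def d_m60416_m59392_4096_5120_21 : sl d_m60416_m59392_4096_5120 21 25 := by decide +kernel
def d_m60416_m59392_4096_5120_25 : sl d_m60416_m59392_4096_5120 25 29 := by decide +kernel
def d_m60416_m59392_4096_5120_29 : sl d_m60416_m59392_4096_5120 29 33 := by decide +kernel
def d_m60416_m59392_4096_5120_33 : fr d_m60416_m59392_4096_5120 33 := by decide +kernel
theorem f_m60416_m59392_4096_5120 : fr d_m60416_m59392_4096_5120 0 :=
  (d_m60416_m59392_4096_5120_0.fr (d_m60416_m59392_4096_5120_4.fr (d_m60416_m59392_4096_5120_9.fr (d_m60416_m59392_4096_5120_13.fr (d_m60416_m59392_4096_5120_18.fr (d_m60416_m59392_4096_5120_19.fr (d_m60416_m59392_4096_5120_21.fr (d_m60416_m59392_4096_5120_25.fr (d_m60416_m59392_4096_5120_29.fr d_m60416_m59392_4096_5120_33)))))))))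

noncomputable def d_m60416_m59392_5120_6144 : Cell :=
  ⟨-257285720899584,2199023255552,24189255811072,2199023255552,⟨0,-3283704361254912,0⟩,⟨0,4503599627370496,-84442496368640⟩,0,-1,1,13107,1,(-164926744166400,0),⟨0,6686359617536,11849222443618741,[]⟩,[9552900596299,10383519174,19528698798,0,24137188,22599923],3,[⟨[225179981456323,830035606102,694038693566,-5031477527,6721477520,3467481875],⟨0,122890262151168,698192255197721,[[-49890520228029608,375711107847711,321146077631362,3069590786449,6431292630524,0],[-58638472769248146,0,155244716652773],[0,-526807627546125,-277875803019062,0,-9868666688862,-842396902769],[13356569833446352,0,0,3714665098481,0,0],[0],[-2248054917681534,-166889951159560,-121532232219292,0,-2920394376275,-830329982737]]⟩,-44064,[⟨-27617,2,(-142936511610880,0),32⟩,⟨-11170,2,(-151732604633088,0),32⟩],13049,[⟨57854,3,(-192414534860800,0),32⟩,⟨102659,4,(-467292441804800,0),0⟩],3,0,[],0,[]⟩,⟨[281474977020163,1433474444783,1140269423262,-9720657510,14656363251,6830522231],⟨2,161046883401728,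491957129731254,[[237994491085051807,0,-38212323362756913,0,0,1930419519056420],[188919864922522551,125137334552657,-25516894554398066],[46184931180068881,124496986476259,0]]⟩,-137631,[⟨-90457,4,(54975581388800,0),6⟩,⟨-43282,3,(149533581377536,0),6⟩],98393,[⟨147861,4,(-439804651110400,0),0⟩,⟨197329,5,(-462894395293696,0),1⟩,⟨246798,5,(-498078767382528,0),1⟩],6,124476,[⟨175362,3,(0,0),33⟩,⟨226248,3,(0,0),33⟩],19240,[⟨24634,4,(0,0),33⟩,⟨30028,4,(0,0),33⟩,⟨35422,4,(0,0),33⟩,⟨40816,5,(0,0),33⟩,⟨51604,5,(0,0),33⟩,⟨62393,5,(0,0),33⟩,⟨83969,6,(0,0),33⟩,⟨105546,6,(0,0),33⟩]⟩]⟩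
def d_m60416_m59392_5120_6144_0 : sl d_m60416_m59392_5120_6144 0 4 := by decide +kernel
def d_m60416_m59392_5120_6144_4 : sl d_m60416_m59392_5120_6144 4 9 := by decide +kernel
def d_m60416_m59392_5120_6144_9 : sl d_m60416_m59392_5120_6144 9 13 := by decide +kernel
def d_m60416_m59392_5120_6144_13 : sl d_m60416_m59392_5120_6144 13 17 := by decide +kernel
def d_m60416_m59392_5120_6144_17 : sl d_m60416_m59392_5120_6144 17 19 := by decide +kernel
def d_m60416_m59392_5120_6144_19 : sl d_m60416_m59392_5120_6144 19 23 := by decide +kernel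
def d_m60416_m59392_5120_6144_23 : sl d_m60416_m59392_5120_6144 23 27 := by decide +kernel
def d_m60416_m59392_5120_6144_27 : fr d_m60416_m59392_5120_6144 27 := by decide +kernel
theorem f_m60416_m59392_5120_6144 : fr d_m60416_m59392_5120_6144 0 :=
  (d_m60416_m59392_5120_6144_0.fr (d_m60416_m59392_5120_6144_4.fr (d_m60416_m59392_5120_6144_9.fr (d_m60416_m59392_5120_6144_13.fr (d_m60416_m59392_5120_6144_17.fr (d_m60416_m59392_5120_6144_19.fr (d_m60416_m59392_5120_6144_23.fr d_m60416_m59392_5120_6144_27)))))))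

noncomputable def d_m61440_m60416_6144_7168 : Cell :=
  ⟨-261683767410688,2199023255552,28587302322176,2199023255552,⟨0,-4503599627370496,0⟩,⟨0,4503599627370496,0⟩,0,-1,1,13107,1,(-160528697655296,0),⟨0,6671262810112,11876036749801843,[]⟩,[9571148150400,10431913834,19570807970,0,24257528,22651948],3,[⟨[225179981460701,856298444161,685008535731,-5188560473,6876923008,3415202534],⟨0,122931488423936,698050592674877,[[-66201566112081669,1059062535600387,740452493029902,-122714734561,-142120297495,-61812942589],[-69453573412667175,1267032014030638,902458856821462],[0],[0],[-6713607288499000,232000741173614,175458030296657]]⟩,-44216,[⟨-27703,2,(-139637976727552,0),32⟩,⟨-11190,2,(-148434069749760,0),32⟩],13049,[⟨57575,3,(-185817465094144,0),32⟩,⟨102101,4,(-457396837154816,0),0⟩],3,0,[],0,[]⟩,⟨[281474977044931,1492952589984,1126083384724,-10185163344,15188307158,6725114910],⟨2,161065139372032,491901368683371,[[196196050926220133,-161457791439842369,-45801280221264286,9335386845819564,0,-11020496549051640],[-118458936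7773057334,190699768884999220,-59500135479035497],[1766381944333510717,136669473104077437,0,0,16252944660732151,17137703828764684],[205584271936652155,0,178224096217016459],[0,0,0,-17283452610701097,0,0],[-579452110641578090,-165276694041292255,-117017278922623397,0,-22478207801560203,0]]⟩,-140344,[⟨-91885,4,(53876069761024,0),6⟩,⟨-67656,3,(112150186033152,0),6⟩,⟨-55541,2,(-7696581394432,0),6⟩,⟨-43426,2,(-9895604649984,0),6⟩],97844,[⟨139334,4,(-425510999949312,0),0⟩,⟨180824,5,(-438705139482624,0),1⟩,⟨222314,5,(-469491465060352,0),1⟩,⟨263805,5,(-501377302265856,0),1⟩],6,124741,[⟨175494,3,(0,0),33⟩,⟨226248,3,(0,0),33⟩],24680,[⟨30393,4,(0,0),33⟩,⟨36107,4,(0,0),33⟩,⟨41821,4,(0,0),33⟩,⟨47535,4,(0,0),33⟩,⟨58962,5,(0,0),33⟩,⟨70390,5,(0,0),33⟩,⟨93245,5,(0,0),33⟩,⟨116101,6,(0,0),33⟩]⟩]⟩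
def d_m61440_m60416_6144_7168_0 : sl d_m61440_m60416_6144_7168 0 4 := by decide +kernel
def d_m61440_m60416_6144_7168_4 : sl d_m61440_m60416_6144_7168 4 9 := by decide +kernel
def d_m61440_m60416_6144_7168_9 : sl d_m61440_m60416_6144_7168 9 13 := by decide +kernel
def d_m61440_m60416_6144_7168_13 : sl d_m61440_m60416_6144_7168 13 18 := by decide +kernel
def d_m61440_m60416_6144_7168_18 : sl d_m61440_m60416_6144_7168 18 20 := by decide +kernel
def d_m61440_m60416_6144_7168_20 : sl d_m61440_m60416_6144_7168 20 22 := by decide +kernel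
def d_m61440_m60416_6144_7168_22 : sl d_m61440_m60416_6144_7168 22 26 := by decide +kernel
def d_m61440_m60416_6144_7168_26 : sl d_m61440_m60416_6144_7168 26 30 := by decide +kernel
def d_m61440_m60416_6144_7168_30 : fr d_m61440_m60416_6144_7168 30 := by decide +kernel
theorem f_m61440_m60416_6144_7168 : fr d_m61440_m60416_6144_7168 0 :=
  (d_m61440_m60416_6144_7168_0.fr (d_m61440_m60416_6144_7168_4.fr (d_m61440_m60416_6144_7168_9.fr (d_m61440_m60416_6144_7168_13.fr (d_m61440_m60416_6144_7168_18.fr (d_m61440_m60416_6144_7168_20.fr (d_m61440_m60416_6144_7168_22.fr (d_m61440_m60416_6144_7168_26.fr d_m61440_m60416_6144_7168_30))))))))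

noncomputable def d_m61440_m60416_7168_8192 : Cell :=
  ⟨-261683767410688,2199023255552,32985348833280,2199023255552,⟨0,-4503599627370496,0⟩,⟨0,4440656881647616,0⟩,0,-1,1,13107,1,(-160528697655296,0),⟨0,6642956763136,11926641310754400,[]⟩,[9610302026027,10480549800,19661640835,0,24378493,22764569],3,[⟨[225179981450997,828173228041,658659671664,-5015307434,6449327379,3236855400],⟨0,122867885801472,698675542226831,[[-67333720907535516,1005755649468956,701552304829576,-121109598370,-140177597096,-61229986034],[-74865098403821959,1197327285129858,852117712824497],[0],[10934553721551938],[0,215278544877464,163844044085660]]⟩,-44468,[⟨-27849,2,(-139637976727552,0),32⟩,⟨-11230,2,(-148434069749760,0),32⟩],13050,[⟨56328,3,(-184717953466368,0),32⟩,⟨99607,4,(-460695372038144,0),0⟩],3,0,[],0,[]⟩,⟨[281474976999329,1432069962052,1077456582780,-9701665050,13989646076,6280885565],⟨2,161016682971136,492049401595744,[[170741035475921011,-115830572031896771,-62010951378852610,0,-1483764749285287,-5433067546205102],[-10070294605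91787543,195429378680848876,0,-152085321327698,-45675731667948403,0],[1556176770477552417,5440556355766384,16881630393733570,0,49140990823869539,0],[0,0,83353594442162052,0,0,9324390942356492],[0],[-389019309325493757,-79314247704826816,-67590331662200784]]⟩,-141859,[⟨-92768,4,(52776558133248,0),6⟩,⟨-68222,3,(109951162777600,0),6⟩,⟨-55949,2,(-7696581394432,0),6⟩,⟨-43676,2,(-9895604649984,0),6⟩],95617,[⟨137664,4,(-425510999949312,0),1⟩,⟨179711,5,(-438705139482624,0),1⟩,⟨221758,5,(-469491465060352,0),1⟩,⟨263805,5,(-501377302265856,0),1⟩],6,123876,[⟨175062,3,(0,0),33⟩,⟨226248,4,(0,0),33⟩],28793,[⟨34975,4,(0,0),33⟩,⟨41157,4,(0,0),33⟩,⟨53522,4,(0,0),33⟩,⟨78252,5,(0,0),33⟩,⟨127711,6,(0,0),33⟩]⟩]⟩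
def d_m61440_m60416_7168_8192_0 : sl d_m61440_m60416_7168_8192 0 4 := by decide +kernel
def d_m61440_m60416_7168_8192_4 : sl d_m61440_m60416_7168_8192 4 9 := by decide +kernel
def d_m61440_m60416_7168_8192_9 : sl d_m61440_m60416_7168_8192 9 13 := by decide +kernel
def d_m61440_m60416_7168_8192_13 : sl d_m61440_m60416_7168_8192 13 18 := by decide +kernel
def d_m61440_m60416_7168_8192_18 : sl d_m61440_m60416_7168_8192 18 20 := by decide +kernel
def d_m61440_m60416_7168_8192_20 : sl d_m61440_m60416_7168_8192 20 22 := by decide +kernel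
def d_m61440_m60416_7168_8192_22 : sl d_m61440_m60416_7168_8192 22 26 := by decide +kernel
def d_m61440_m60416_7168_8192_26 : sl d_m61440_m60416_7168_8192 26 27 := by decide +kernel
def d_m61440_m60416_7168_8192_27 : fr d_m61440_m60416_7168_8192 27 := by decide +kernel
theorem f_m61440_m60416_7168_8192 : fr d_m61440_m60416_7168_8192 0 :=
  (d_m61440_m60416_7168_8192_0.fr (d_m61440_m60416_7168_8192_4.fr (d_m61440_m60416_7168_8192_9.fr (d_m61440_m60416_7168_8192_13.fr (d_m61440_m60416_7168_8192_18.fr (d_m61440_m60416_7168_8192_20.fr (d_m61440_m60416_7168_8192_22.fr (d_m61440_m60416_7168_8192_26.fr d_m61440_m60416_7168_8192_27))))))))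

noncomputable def d_m60416_m59392_6144_7168 : Cell :=
  ⟨-257285720899584,2199023255552,28587302322176,2199023255552,⟨0,-4503599627370496,0⟩,⟨0,3684046852849664,0⟩,0,-1,1,13107,1,(-164926744166400,0),⟨0,6657981808640,11899726455349424,[]⟩,[9591970214058,10431913834,19619323025,0,24257528,22712274],3,[⟨[225179981447217,803177104293,667476579887,-4869329749,6308832209,3285480295],⟨0,122828836110336,698805089507154,[[-53990122031018896,866663428980054,611176119480208,-102566520815,-119235734128,-52225679829],[-56421785032209428,1034733892609222,744248956416064],[0],[0],[-5301673118722313,188160416618271,144338840096277]]⟩,-44313,[⟨-27762,2,(-142936511610880,0),32⟩,⟨-11210,2,(-151732604633088,0),32⟩],13050,[⟨56595,3,(-192414534860800,0),32⟩,⟨100141,4,(-470590976688128,0),0⟩],3,0,[],0,[]⟩,⟨[281474976979001,1376702653377,1091277846332,-9282016212,13524757505,6378316761],⟨2,160999925612544,492100615569995,[[16333400473040490,-6244901334749133,-16246498023956036,12282354044949114,4007962632572253,0],[-632955308332953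612,65235775427150560,-95169624331323226,-16291684927129206,0,0],[1421183438472827419,0,115221376777224421,0,0,9339898317539712],[0,-54769878434056003,0,0,-5717599991247249,0],[0],[-471004913328875233,0,-41303652084519262,3259784874276436,0,-7026900976104190]]⟩,-139062,[⟨-91296,4,(53876069761024,0),6⟩,⟨-67413,3,(112150186033152,0),6⟩,⟨-55472,2,(-9895604649984,0),6⟩,⟨-43530,2,(-12094627905536,0),6⟩],96141,[⟨133805,4,(-439804651110400,0),0⟩,⟨171469,5,(-449700255760384,0),1⟩,⟨209133,5,(-476088534827008,0),1⟩,⟨246798,5,(-502476813893632,0),1⟩],6,123602,[⟨174925,3,(0,0),33⟩,⟨226248,3,(0,0),33⟩],23089,[⟨28242,4,(0,0),33⟩,⟨33396,4,(0,0),33⟩,⟨38549,4,(0,0),33⟩,⟨43703,4,(0,0),33⟩,⟨54010,5,(0,0),33⟩,⟨64317,5,(0,0),33⟩,⟨84931,5,(0,0),33⟩,⟨105546,6,(0,0),33⟩]⟩]⟩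
def d_m60416_m59392_6144_7168_0 : sl d_m60416_m59392_6144_7168 0 4 := by decide +kernel
def d_m60416_m59392_6144_7168_4 : sl d_m60416_m59392_6144_7168 4 9 := by decide +kernel
def d_m60416_m59392_6144_7168_9 : sl d_m60416_m59392_6144_7168 9 13 := by decide +kernel
def d_m60416_m59392_6144_7168_13 : sl d_m60416_m59392_6144_7168 13 18 := by decide +kernel
def d_m60416_m59392_6144_7168_18 : sl d_m60416_m59392_6144_7168 18 20 := by decide +kernel
def d_m60416_m59392_6144_7168_20 : sl d_m60416_m59392_6144_7168 20 22 := by decide +kernel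
def d_m60416_m59392_6144_7168_22 : sl d_m60416_m59392_6144_7168 22 26 := by decide +kernel
def d_m60416_m59392_6144_7168_26 : sl d_m60416_m59392_6144_7168 26 30 := by decide +kernel
def d_m60416_m59392_6144_7168_30 : fr d_m60416_m59392_6144_7168 30 := by decide +kernel
theorem f_m60416_m59392_6144_7168 : fr d_m60416_m59392_6144_7168 0 :=
  (d_m60416_m59392_6144_7168_0.fr (d_m60416_m59392_6144_7168_4.fr (d_m60416_m59392_6144_7168_9.fr (d_m60416_m59392_6144_7168_13.fr (d_m60416_m59392_6144_7168_18.fr (d_m60416_m59392_6144_7168_20.fr (d_m60416_m59392_6144_7168_22.fr (d_m60416_m59392_6144_7168_26.fr d_m60416_m59392_6144_7168_30))))))))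

noncomputable def d_m60416_m59392_7168_8192 : Cell :=
  ⟨-257285720899584,2199023255552,32985348833280,2199023255552,⟨0,-4503599627370496,0⟩,⟨0,3696111415984128,0⟩,0,-1,1,13107,1,(-164926744166400,0),⟨0,6629738348544,11950420679945069,[]⟩,[9631221166883,10480549800,19710397822,0,24378493,22825209],3,[⟨[225179981439350,777851650438,641960204593,-4719916311,5933557619,3118782875],⟨0,122772590755840,699396157621602,[[-55637288250277202,830860413213212,583153676553208,-102625012792,-119275775049,-52471535082],[-61514010548023843,986286953531778,707032752869549],[0],[8742043688094779],[0,175546583715294,135164752064864]]⟩,-44567,[⟨-27909,2,(-141836999983104,0),32⟩,⟨-11251,2,(-151732604633088,0),32⟩],13050,[⟨55423,3,(-191315023233024,0),32⟩,⟨97797,4,(-473889511571456,0),0⟩],3,0,[],0,[]⟩,⟨[281474976944933,1324124534850,1044888130951,-8887081499,12522227241,5973366690],⟨2,160956512796672,492233343792563,[[13655258721847887,-58555543500651852,-33208783932157650,18142634152712758,0,2323367352990489],[-49669039298827518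1,121026189772539970,0,-22911636842030832,1442243871871272,0],[1121142870804144332,0,29827280620420633],[0],[0,-58330132900418809,0],[-357005428987793575,0,-24490072260960133,2797379138305077,-2489793910226775,-629165282898256]]⟩,-140577,[⟨-92179,4,(52776558133248,0),6⟩,⟨-67980,3,(109951162777600,0),6⟩,⟨-55881,2,(-9895604649984,0),6⟩,⟨-43781,2,(-12094627905536,0),6⟩],94033,[⟨132224,4,(-439804651110400,0),1⟩,⟨170415,5,(-449700255760384,0),1⟩,⟨208606,5,(-474989023199232,0),1⟩,⟨246798,5,(-502476813893632,0),1⟩],5,122756,[⟨174502,3,(0,0),33⟩,⟨226248,4,(0,0),33⟩],26937,[⟨36763,4,(0,0),33⟩,⟨46589,4,(0,0),33⟩,⟨56415,5,(0,0),33⟩,⟨66241,5,(0,0),33⟩,⟨85893,5,(0,0),33⟩,⟨105546,5,(0,0),33⟩]⟩]⟩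
def d_m60416_m59392_7168_8192_0 : sl d_m60416_m59392_7168_8192 0 4 := by decide +kernel
def d_m60416_m59392_7168_8192_4 : sl d_m60416_m59392_7168_8192 4 9 := by decide +kernel
def d_m60416_m59392_7168_8192_9 : sl d_m60416_m59392_7168_8192 9 13 := by decide +kernel
def d_m60416_m59392_7168_8192_13 : sl d_m60416_m59392_7168_8192 13 18 := by decide +kernel
def d_m60416_m59392_7168_8192_18 : sl d_m60416_m59392_7168_8192 18 20 := by decide +kernel
def d_m60416_m59392_7168_8192_20 : sl d_m60416_m59392_7168_8192 20 22 := by decide +kernel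
def d_m60416_m59392_7168_8192_22 : sl d_m60416_m59392_7168_8192 22 26 := by decide +kernel
def d_m60416_m59392_7168_8192_26 : sl d_m60416_m59392_7168_8192 26 28 := by decide +kernel
def d_m60416_m59392_7168_8192_28 : fr d_m60416_m59392_7168_8192 28 := by decide +kernel
theorem f_m60416_m59392_7168_8192 : fr d_m60416_m59392_7168_8192 0 :=
  (d_m60416_m59392_7168_8192_0.fr (d_m60416_m59392_7168_8192_4.fr (d_m60416_m59392_7168_8192_9.fr (d_m60416_m59392_7168_8192_13.fr (d_m60416_m59392_7168_8192_18.fr (d_m60416_m59392_7168_8192_20.fr (d_m60416_m59392_7168_8192_22.fr (d_m60416_m59392_7168_8192_26.fr d_m60416_m59392_7168_8192_28))))))))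

noncomputable def d_m59392_m57344_4096_4608 : Cell :=
  ⟨-250688651132928,4398046511104,18691697672192,1099511627776,⟨0,-4315136462422016,0⟩,⟨0,4503599627370496,-84442496368640⟩,0,-1,1,13107,1,(-171523813933056,0),⟨0,6701465272320,11822513341924748,[]⟩,[9535225414361,20646699678,9743999701,0,23987622,5637432],3,[⟨[225179981783404,1574006043757,350664288251,-19124553585,6413120410,876070556],⟨0,123383277158400,695065245094889,[[-66033309359715935,1937290967747476,339101317853388,-502468013231,-2259409574114,-14468161112],[-73971494235744807,2310055932145431,411354944907266,0,-2198403045584,0],[0],[11168429005461754],[0,417963139177499,78574025719145],[0,0,0,-75201145586,0,0]]⟩,-43922,[⟨-27536,2,(-146235046494208,0),32⟩,⟨-11150,2,(-157230162771968,0),32⟩],13049,[⟨58071,3,(-202310139510784,0),32⟩,⟨103094,4,(-481586092965888,0),0⟩],3,0,[],0,[]⟩,⟨[281474978050732,2680004484799,575164501017,-36072572883,13703110197,1722108132],⟨2,161358666596352,491006551986094,[[466346284101424851,4669636296796078,-414275106790048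14,0,0,1632146341876784],[361941717280463127,15974400932729096,-28508624661872698],[40079608568336656,11304751479851618,0]]⟩,-134276,[⟨-88692,4,(57174604644352,0),6⟩,⟨-43108,3,(150633093005312,0),6⟩],98624,[⟨143208,4,(-457396837154816,0),0⟩,⟨187792,5,(-476088534827008,0),0⟩,⟨232376,5,(-504675837149184,0),1⟩],6,124583,[⟨175415,3,(0,0),33⟩,⟨226248,3,(0,0),33⟩],14492,[⟨17337,4,(0,0),33⟩,⟨20182,4,(0,0),33⟩,⟨25873,4,(0,0),33⟩,⟨37255,5,(0,0),33⟩,⟨48637,5,(0,0),33⟩,⟨60019,5,(0,0),33⟩,⟨82782,6,(0,0),33⟩,⟨105546,6,(0,0),33⟩]⟩]⟩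
def d_m59392_m57344_4096_4608_0 : sl d_m59392_m57344_4096_4608 0 4 := by decide +kernel
def d_m59392_m57344_4096_4608_4 : sl d_m59392_m57344_4096_4608 4 9 := by decide +kernel
def d_m59392_m57344_4096_4608_9 : sl d_m59392_m57344_4096_4608 9 13 := by decide +kernel
def d_m59392_m57344_4096_4608_13 : sl d_m59392_m57344_4096_4608 13 17 := by decide +kernel
def d_m59392_m57344_4096_4608_17 : sl d_m59392_m57344_4096_4608 17 19 := by decide +kernel
def d_m59392_m57344_4096_4608_19 : sl d_m59392_m57344_4096_4608 19 23 := by decide +kernel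
def d_m59392_m57344_4096_4608_23 : sl d_m59392_m57344_4096_4608 23 27 := by decide +kernel
def d_m59392_m57344_4096_4608_27 : fr d_m59392_m57344_4096_4608 27 := by decide +kernel
theorem f_m59392_m57344_4096_4608 : fr d_m59392_m57344_4096_4608 0 :=
  (d_m59392_m57344_4096_4608_0.fr (d_m59392_m57344_4096_4608_4.fr (d_m59392_m57344_4096_4608_9.fr (d_m59392_m57344_4096_4608_13.fr (d_m59392_m57344_4096_4608_17.fr (d_m59392_m57344_4096_4608_19.fr (d_m59392_m57344_4096_4608_23.fr d_m59392_m57344_4096_4608_27)))))))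

noncomputable def d_m59392_m57344_4608_5120 : Cell :=
  ⟨-250688651132928,4398046511104,20890720927744,1099511627776,⟨0,-4490336768360448,0⟩,⟨0,4503599627370496,-84442496368640⟩,0,-1,1,13107,1,(-171523813933056,0),⟨0,6687223578624,11847691540084208,[]⟩,[9554696956800,20694734611,9766577405,0,24047325,5651425],3,[⟨[225179981766027,1548818658832,343932811771,-18829101371,6216403552,852552848],⟨0,123342126252032,695433284031574,[[-69364934589671123,1759847065055133,308828222862711,-35588091161332,-11297708948563,-1210855660318],[-78443977071267458,1973278099495782,352487221050453,-45380047972791,-14482669638713,-1547354045092],[0],[13041370043746627],[0,0,0,-10012470982612,-3251133882857,-343835114971],[-586429561646687,-260806336981471,-50282541672173]]⟩,-44045,[⟨-27608,2,(-146235046494208,0),32⟩,⟨-11170,2,(-157230162771968,0),32⟩],13049,[⟨57426,3,(-202310139510784,0),32⟩,⟨101804,4,(-482685604593664,0),0⟩],3,0,[],0,[]⟩,⟨[281474977977115,2628387055060,562744635724,-35305063353,13178230012,1663758577],⟨2,16132975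8208000,491094534631151,[[417510466212840761,1567194975545980,-34957941332810601,0,0,1131891810806379],[325083951708422859,5620310515045889,-22660045129267775],[47496957529649241,4053032146902559,0]]⟩,-134925,[⟨-89078,4,(56075093016576,0),6⟩,⟨-43230,3,(149533581377536,0),6⟩],97480,[⟨131204,4,(-457396837154816,0),0⟩,⟨164928,5,(-466192930177024,0),0⟩,⟨198652,5,(-487083651104768,0),1⟩,⟨232376,5,(-507974372032512,0),1⟩],6,124133,[⟨175190,3,(0,0),33⟩,⟨226248,3,(0,0),33⟩],16304,[⟨19092,4,(0,0),33⟩,⟨21881,4,(0,0),33⟩,⟨27459,4,(0,0),33⟩,⟨38614,5,(0,0),33⟩,⟨49769,5,(0,0),33⟩,⟨60925,5,(0,0),33⟩,⟨83235,6,(0,0),33⟩,⟨105546,6,(0,0),33⟩]⟩]⟩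
def d_m59392_m57344_4608_5120_0 : sl d_m59392_m57344_4608_5120 0 4 := by decide +kernel
def d_m59392_m57344_4608_5120_4 : sl d_m59392_m57344_4608_5120 4 9 := by decide +kernel
def d_m59392_m57344_4608_5120_9 : sl d_m59392_m57344_4608_5120 9 13 := by decide +kernel
def d_m59392_m57344_4608_5120_13 : sl d_m59392_m57344_4608_5120 13 18 := by decide +kernel
def d_m59392_m57344_4608_5120_18 : sl d_m59392_m57344_4608_5120 18 20 := by decide +kernel
def d_m59392_m57344_4608_5120_20 : sl d_m59392_m57344_4608_5120 20 24 := by decide +kernel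
def d_m59392_m57344_4608_5120_24 : sl d_m59392_m57344_4608_5120 24 28 := by decide +kernel
def d_m59392_m57344_4608_5120_28 : fr d_m59392_m57344_4608_5120 28 := by decide +kernel
theorem f_m59392_m57344_4608_5120 : fr d_m59392_m57344_4608_5120 0 :=
  (d_m59392_m57344_4608_5120_0.fr (d_m59392_m57344_4608_5120_4.fr (d_m59392_m57344_4608_5120_9.fr (d_m59392_m57344_4608_5120_13.fr (d_m59392_m57344_4608_5120_18.fr (d_m59392_m57344_4608_5120_20.fr (d_m59392_m57344_4608_5120_24.fr d_m59392_m57344_4608_5120_28)))))))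

noncomputable def d_m59392_m57344_5120_6144 : Cell :=
  ⟨-250688651132928,4398046511104,24189255811072,2199023255552,⟨0,-4242572989956096,0⟩,⟨0,4503599627370496,-84442496368640⟩,0,-1,1,13107,1,(-171523813933056,0),⟨0,6673015701504,11872917144669406,[]⟩,[9583988678726,20767038348,19601110361,0,48274376,22689944],3,[⟨[225179981898462,1512373593766,668188031369,-18407627664,11876292697,3276715855],⟨0,124790423355392,686715668914305,[[-67670231179706912,1762354838567419,501024905619772,8592976997752,-193600530463,1250066675803],[-79777584986851341,1999395220005414,346086739801832],[0,0,-299899586028827,-23290197104367,-1978902369703,-3710700380016],[18336975616539908],[0],[-3089675145388210,-281172814530580,-157320734919788,-14526810179835,-2057381850508,-2441502588369]]⟩,-44323,[⟨-27757,2,(-146235046494208,0),32⟩,⟨-11190,2,(-157230162771968,0),32⟩],13049,[⟨56752,3,(-202310139510784,0),32⟩,⟨100455,4,(-484884627849216,0),0⟩],3,0,[],0,[]⟩,⟨[281474978394263,2554445148558,1089514071232,-34224177621,24893904309,632847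4004],⟨2,162220391923712,488398292968300,[[301191441559195165,0,-49322254311567995,0,0,1523521832571613],[259309105335474236,344722359787498,-30806865715254126],[94250553735318092,343624182785322,0]]⟩,-136278,[⟨-89803,4,(54975581388800,0),6⟩,⟨-43327,3,(147334558121984,0),6⟩],95413,[⟨129653,4,(-457396837154816,0),0⟩,⟨163894,5,(-466192930177024,0),0⟩,⟨198135,5,(-485984139476992,0),1⟩,⟨232376,5,(-507974372032512,0),1⟩],6,123252,[⟨174750,3,(0,0),33⟩,⟨226248,3,(0,0),33⟩],18116,[⟨19482,3,(0,0),33⟩,⟨20848,4,(0,0),33⟩,⟨23580,4,(0,0),33⟩,⟨26312,4,(0,0),33⟩,⟨29044,4,(0,0),33⟩,⟨34508,4,(0,0),33⟩,⟨39973,4,(0,0),33⟩,⟨50902,5,(0,0),33⟩,⟨61831,5,(0,0),33⟩,⟨83688,6,(0,0),33⟩,⟨105546,6,(0,0),33⟩]⟩]⟩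
def d_m59392_m57344_5120_6144_0 : sl d_m59392_m57344_5120_6144 0 4 := by decide +kernel
def d_m59392_m57344_5120_6144_4 : sl d_m59392_m57344_5120_6144 4 9 := by decide +kernel
def d_m59392_m57344_5120_6144_9 : sl d_m59392_m57344_5120_6144 9 13 := by decide +kernel
def d_m59392_m57344_5120_6144_13 : sl d_m59392_m57344_5120_6144 13 18 := by decide +kernel
def d_m59392_m57344_5120_6144_18 : sl d_m59392_m57344_5120_6144 18 20 := by decide +kernel
def d_m59392_m57344_5120_6144_20 : sl d_m59392_m57344_5120_6144 20 24 := by decide +kernel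
def d_m59392_m57344_5120_6144_24 : sl d_m59392_m57344_5120_6144 24 28 := by decide +kernel
def d_m59392_m57344_5120_6144_28 : sl d_m59392_m57344_5120_6144 28 31 := by decide +kernel
def d_m59392_m57344_5120_6144_31 : fr d_m59392_m57344_5120_6144 31 := by decide +kernel
theorem f_m59392_m57344_5120_6144 : fr d_m59392_m57344_5120_6144 0 :=
  (d_m59392_m57344_5120_6144_0.fr (d_m59392_m57344_5120_6144_4.fr (d_m59392_m57344_5120_6144_9.fr (d_m59392_m57344_5120_6144_13.fr (d_m59392_m57344_5120_6144_18.fr (d_m59392_m57344_5120_6144_20.fr (d_m59392_m57344_5120_6144_24.fr (d_m59392_m57344_5120_6144_28.fr d_m59392_m57344_5120_6144_31))))))))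

noncomputable def d_m59392_m57344_6144_7168 : Cell :=
  ⟨-250688651132928,4398046511104,28587302322176,2199023255552,⟨0,-4077826634416128,0⟩,⟨0,4503599627370496,-84442496368640⟩,0,-1,1,13107,1,(-171523813933056,0),⟨0,6644700807168,11923510859802940,[]⟩,[9623203189193,20863827668,19692095608,0,48515055,22802764],3,[⟨[225179981853042,1466030413833,642833641221,-17881958615,11190959132,3111653493],⟨0,124695404412928,687507279283825,[[-63192277341638020,1717268903513008,532119662399020,923562599636,14436726731422,-2242772923306],[-74498271262479373,1967199513285931,491577674527244,0,27410905417081,-2069057983705],[0,0,-166781807091702,-17236785501549,0,0],[17521844724811545],[0],[-3229095449404081,-292597525701561,-138259528977306,-16970666604252,-13487321581842,-154652851315]]⟩,-44574,[⟨-27902,2,(-146235046494208,0),32⟩,⟨-11230,2,(-157230162771968,0),32⟩],13050,[⟨55578,3,(-201210627883008,0),32⟩,⟨98106,4,(-488183162732544,0),0⟩],3,0,[],0,[]⟩,⟨[281474978210720,2461627709323,1043699895044,-32898241427,23128197592,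5932033802],⟨2,162157863370752,488586620981006,[[192146764448982018,4135576799208391,-32314116636796933,25324539131569,0,4342596151724372],[180877101971020089,12648610299279127,-20770171047889351],[112803299831251239,9485783397962254,0]]⟩,-137709,[⟨-90644,4,(53876069761024,0),6⟩,⟨-43578,3,(146235046494208,0),6⟩],93363,[⟨128116,4,(-457396837154816,0),0⟩,⟨162869,5,(-465093418549248,0),1⟩,⟨197622,5,(-485984139476992,0),1⟩,⟨232376,5,(-507974372032512,0),1⟩],6,122399,[⟨174323,3,(0,0),33⟩,⟨226248,3,(0,0),33⟩],21739,[⟨24357,4,(0,0),33⟩,⟨26976,4,(0,0),33⟩,⟨29595,4,(0,0),33⟩,⟨32214,4,(0,0),33⟩,⟨37452,4,(0,0),33⟩,⟨42690,4,(0,0),33⟩,⟨53166,5,(0,0),33⟩,⟨63642,5,(0,0),33⟩,⟨84594,5,(0,0),33⟩,⟨105546,6,(0,0),33⟩]⟩]⟩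
def d_m59392_m57344_6144_7168_0 : sl d_m59392_m57344_6144_7168 0 4 := by decide +kernel
def d_m59392_m57344_6144_7168_4 : sl d_m59392_m57344_6144_7168 4 9 := by decide +kernel
def d_m59392_m57344_6144_7168_9 : sl d_m59392_m57344_6144_7168 9 13 := by decide +kernel
def d_m59392_m57344_6144_7168_13 : sl d_m59392_m57344_6144_7168 13 18 := by decide +kernel
def d_m59392_m57344_6144_7168_18 : sl d_m59392_m57344_6144_7168 18 20 := by decide +kernel
def d_m59392_m57344_6144_7168_20 : sl d_m59392_m57344_6144_7168 20 24 := by decide +kernel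
def d_m59392_m57344_6144_7168_24 : sl d_m59392_m57344_6144_7168 24 28 := by decide +kernel
def d_m59392_m57344_6144_7168_28 : sl d_m59392_m57344_6144_7168 28 30 := by decide +kernel
def d_m59392_m57344_6144_7168_30 : fr d_m59392_m57344_6144_7168 30 := by decide +kernel
theorem f_m59392_m57344_6144_7168 : fr d_m59392_m57344_6144_7168 0 :=
  (d_m59392_m57344_6144_7168_0.fr (d_m59392_m57344_6144_7168_4.fr (d_m59392_m57344_6144_7168_9.fr (d_m59392_m57344_6144_7168_13.fr (d_m59392_m57344_6144_7168_18.fr (d_m59392_m57344_6144_7168_20.fr (d_m59392_m57344_6144_7168_24.fr (d_m59392_m57344_6144_7168_28.fr d_m59392_m57344_6144_7168_30))))))))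

noncomputable def d_m59392_m57344_7168_8192 : Cell :=
  ⟨-250688651132928,4398046511104,32985348833280,2199023255552,⟨0,-4189470014308352,0⟩,⟨0,4503599627370496,-84442496368640⟩,0,-1,1,13107,1,(-171523813933056,0),⟨0,6616519999488,11974295061310437,[]⟩,[9662599757189,20961099599,19783533303,0,48756987,22916169],3,[⟨[225179981813033,1422066310924,618411659483,-17394094094,10563398601,2959889115],⟨0,124607586041856,688266477950745,[[-63908803207816451,1897981501775984,663423921549869,-6738822752762,-3862089200730,0],[-75191325116408021,2298994066883723,817680336463436,0,0,175122163868],[0,0,0,0,0,-1762593576151],[17765485957125160],[0,445702826284959,163004241895867],[-3411567074657278,0,-3360150355709,-7420650444208,-3770721877912,-1920050389518]]⟩,-44829,[⟨-28050,2,(-146235046494208,0),32⟩,⟨-11271,2,(-157230162771968,0),32⟩],13050,[⟨54480,3,(-201210627883008,0),32⟩,⟨95911,4,(-490382185988096,0),0⟩],3,0,[],0,[]⟩,⟨[281474978054312,2374810805068,1000115667698,-31689612068,21545237566,5574507702],⟨2,1620974695219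20,488768657198940,[[169448370681813263,4095692511861012,-18041305612298045,0,0,2572423439426367],[154551384751043261,6142715367829599,0],[79496771861621651],[0,0,-24546891604411233],[10669213975136159]]⟩,-139224,[⟨-91528,4,(52776558133248,0),6⟩,⟨-43831,3,(144036023238656,0),6⟩],91437,[⟨126671,4,(-458496348782592,0),0⟩,⟨161906,5,(-465093418549248,0),1⟩,⟨197141,5,(-484884627849216,0),1⟩,⟨232376,5,(-507974372032512,0),1⟩],5,121575,[⟨173911,3,(0,0),33⟩,⟨226248,4,(0,0),33⟩],25363,[⟨30374,4,(0,0),33⟩,⟨35385,4,(0,0),33⟩,⟨40396,4,(0,0),33⟩,⟨45408,4,(0,0),33⟩,⟨55431,4,(0,0),33⟩,⟨65454,5,(0,0),33⟩,⟨85500,5,(0,0),33⟩,⟨105546,5,(0,0),33⟩]⟩]⟩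
def d_m59392_m57344_7168_8192_0 : sl d_m59392_m57344_7168_8192 0 4 := by decide +kernel
def d_m59392_m57344_7168_8192_4 : sl d_m59392_m57344_7168_8192 4 9 := by decide +kernel
def d_m59392_m57344_7168_8192_9 : sl d_m59392_m57344_7168_8192 9 13 := by decide +kernel
def d_m59392_m57344_7168_8192_13 : sl d_m59392_m57344_7168_8192 13 18 := by decide +kernel
def d_m59392_m57344_7168_8192_18 : sl d_m59392_m57344_7168_8192 18 20 := by decide +kernel
def d_m59392_m57344_7168_8192_20 : sl d_m59392_m57344_7168_8192 20 24 := by decide +kernel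
def d_m59392_m57344_7168_8192_24 : sl d_m59392_m57344_7168_8192 24 28 := by decide +kernel
def d_m59392_m57344_7168_8192_28 : fr d_m59392_m57344_7168_8192 28 := by decide +kernel
theorem f_m59392_m57344_7168_8192 : fr d_m59392_m57344_7168_8192 0 :=
  (d_m59392_m57344_7168_8192_0.fr (d_m59392_m57344_7168_8192_4.fr (d_m59392_m57344_7168_8192_9.fr (d_m59392_m57344_7168_8192_13.fr (d_m59392_m57344_7168_8192_18.fr (d_m59392_m57344_7168_8192_20.fr (d_m59392_m57344_7168_8192_24.fr d_m59392_m57344_7168_8192_28)))))))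

noncomputable def d_m61440_m60416_8192_10240 : Cell :=
  ⟨-261683767410688,2199023255552,39582418599936,4398046511104,⟨0,-4503599627370496,0⟩,⟨0,4302088351776768,0⟩,0,-1,1,13107,1,(-160528697655296,0),⟨0,6614784671744,11977436385774762,[]⟩,[9669373145496,10554014061,39597573936,0,49122384,91738567],3,[⟨[225179981553000,789068482730,1242105435264,-4781325830,11760200786,11987715752],⟨0,125739124195328,681439736632333,[[-65522608361386598,514380591766056,828178333962893,-1942745473657,-12989012225944,-3973456536087],[-72725772616748714,0,370763757826610,-1888476774918,-15695203818473,-3864523449210],[0,-712074933268104,-716321972427520],[10475962094771005],[0,0,0,0,-2827849880650,0],[0,-220662006389843,-284281762440387]]⟩,-45042,[⟨-28156,2,(-139637976727552,0),32⟩,⟨-11270,1,(-148434069749760,0),32⟩],13050,[⟨55077,3,(-184717953466368,0),32⟩,⟨97105,4,(-465093418549248,0),0⟩],3,0,[],0,[]⟩,⟨[281474977345309,1349483254996,2018587176510,-9069053880,24895758026,22798967553],⟨2,162785870675968,486701715556106,[[8521776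9950329599,-62174402715031165,-99534539836478148,0,-4659009855061787,0],[-821114152935068550,158470531451962148,57464881880506967,-5799040270093014,0,13160174767407648],[1256191895498241426,0,0,0,3267609204468957,0],[168757669683342043,-92264354811962489,92290277381302490,5962205018587313,0,0],[0,0,0,0,0,-10359599705426239],[-434884304518930460,0,-91494778264597862]]⟩,-145178,[⟨-94529,4,(50577534877696,0),6⟩,⟨-69204,3,(106652627894272,0),6⟩,⟨-56542,2,(-7696581394432,0),6⟩,⟨-43879,2,(-9895604649984,0),6⟩],91759,[⟨134770,4,(-426610511577088,0),1⟩,⟨177782,5,(-436506116227072,0),1⟩,⟨220793,5,(-468391953432576,0),1⟩,⟨263805,5,(-500277790638080,0),1⟩],6,122246,[⟨174247,3,(0,0),33⟩,⟨226248,4,(0,0),33⟩],32907,[⟨36268,4,(0,0),33⟩,⟨39630,4,(0,0),33⟩,⟨42991,4,(0,0),33⟩,⟨46353,4,(0,0),33⟩,⟨49714,4,(0,0),33⟩,⟨53076,4,(0,0),33⟩,⟨56438,4,(0,0),33⟩,⟨59800,4,(0,0),33⟩,⟨73247,5,(0,0),33⟩,⟨86694,5,(0,0),33⟩,⟨113588,5,(0,0),33⟩,⟨140482,6,(0,0),33⟩]⟩]⟩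
def d_m61440_m60416_8192_10240_0 : sl d_m61440_m60416_8192_10240 0 4 := by decide +kernel
def d_m61440_m60416_8192_10240_4 : sl d_m61440_m60416_8192_10240 4 9 := by decide +kernel
def d_m61440_m60416_8192_10240_9 : sl d_m61440_m60416_8192_10240 9 13 := by decide +kernel
def d_m61440_m60416_8192_10240_13 : sl d_m61440_m60416_8192_10240 13 18 := by decide +kernel
def d_m61440_m60416_8192_10240_18 : sl d_m61440_m60416_8192_10240 18 20 := by decide +kernel
def d_m61440_m60416_8192_10240_20 : sl d_m61440_m60416_8192_10240 20 22 := by decide +kernel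
def d_m61440_m60416_8192_10240_22 : sl d_m61440_m60416_8192_10240 22 26 := by decide +kernel
def d_m61440_m60416_8192_10240_26 : sl d_m61440_m60416_8192_10240 26 30 := by decide +kernel
def d_m61440_m60416_8192_10240_30 : sl d_m61440_m60416_8192_10240 30 34 := by decide +kernel
def d_m61440_m60416_8192_10240_34 : fr d_m61440_m60416_8192_10240 34 := by decide +kernel
theorem f_m61440_m60416_8192_10240 : fr d_m61440_m60416_8192_10240 0 :=
  (d_m61440_m60416_8192_10240_0.fr (d_m61440_m60416_8192_10240_4.fr (d_m61440_m60416_8192_10240_9.fr (d_m61440_m60416_8192_10240_13.fr (d_m61440_m60416_8192_10240_18.fr (d_m61440_m60416_8192_10240_20.fr (d_m61440_m60416_8192_10240_22.fr (d_m61440_m60416_8192_10240_26.fr (d_m61440_m60416_8192_10240_30.fr d_m61440_m60416_8192_10240_34)))))))))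

noncomputable def d_m60416_m59392_8192_10240 : Cell :=
  ⟨-257285720899584,2199023255552,39582418599936,4398046511104,⟨0,-3166842596098048,0⟩,⟨0,4503599627370496,-84442496368640⟩,0,-1,1,13107,1,(-164926744166400,0),⟨0,6601628581888,12001305691889852,[]⟩,[9690438809614,10554014061,39695818705,0,49122384,91983023],3,[⟨[225179981526504,742443880193,1210911388777,-4516799149,10861712749,11575112726],⟨0,125621310128128,682255781196837,[[-45483244133271315,900179455617538,1109935978864711,-2321328758693,-7980572147690,-5027143730249],[-53085232607530854,1352577626657414,1585949394731124,-2310372569088,-9149299217991,-5071182742374],[0],[12185948793478340,-606340811382827,-550518056145294],[0,0,0,0,-1225394615049,0],[-2366032707589996,138516329627302,56917493979653]]⟩,-45142,[⟨-28217,2,(-141836999983104,0),32⟩,⟨-11291,2,(-151732604633088,0),32⟩],13050,[⟨54245,3,(-191315023233024,0),32⟩,⟨95440,4,(-477188046454784,0),0⟩],3,0,[],0,[]⟩,⟨[281474977227292,1252122957981,1959176969479,-8364192360,22436356920,21761009399],⟨2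,162717958144000,486904846914463,[[118458587666172883,0,-28010001041301916,0,0,1520676072967271],[84567677427863921,255854667756111,-17017300006091736],[19570470926794771,245247049506199,0]]⟩,-143896,[⟨-93941,4,(50577534877696,0),6⟩,⟨-43986,3,(141836999983104,0),6⟩],90366,[⟨129474,4,(-440904162738176,0),1⟩,⟨168582,5,(-448600744132608,0),1⟩,⟨207690,5,(-473889511571456,0),1⟩,⟨246798,5,(-501377302265856,0),1⟩],5,121167,[⟨163423,3,(0,0),33⟩,⟨205680,3,(0,0),33⟩],30786,[⟨36843,4,(0,0),33⟩,⟨39872,4,(0,0),33⟩,⟨42901,4,(0,0),33⟩,⟨45930,4,(0,0),33⟩,⟨48959,4,(0,0),33⟩,⟨51988,4,(0,0),33⟩,⟨55017,4,(0,0),33⟩,⟨67132,5,(0,0),33⟩,⟨79248,5,(0,0),33⟩,⟨103479,5,(0,0),33⟩,⟨127711,5,(0,0),33⟩]⟩]⟩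
def d_m60416_m59392_8192_10240_0 : sl d_m60416_m59392_8192_10240 0 4 := by decide +kernel
def d_m60416_m59392_8192_10240_4 : sl d_m60416_m59392_8192_10240 4 9 := by decide +kernel
def d_m60416_m59392_8192_10240_9 : sl d_m60416_m59392_8192_10240 9 13 := by decide +kernel
def d_m60416_m59392_8192_10240_13 : sl d_m60416_m59392_8192_10240 13 18 := by decide +kernel
def d_m60416_m59392_8192_10240_18 : sl d_m60416_m59392_8192_10240 18 20 := by decide +kernel
def d_m60416_m59392_8192_10240_20 : sl d_m60416_m59392_8192_10240 20 24 := by decide +kernel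
def d_m60416_m59392_8192_10240_24 : sl d_m60416_m59392_8192_10240 24 28 := by decide +kernel
def d_m60416_m59392_8192_10240_28 : sl d_m60416_m59392_8192_10240 28 31 := by decide +kernel
def d_m60416_m59392_8192_10240_31 : fr d_m60416_m59392_8192_10240 31 := by decide +kernel
theorem f_m60416_m59392_8192_10240 : fr d_m60416_m59392_8192_10240 0 :=
  (d_m60416_m59392_8192_10240_0.fr (d_m60416_m59392_8192_10240_4.fr (d_m60416_m59392_8192_10240_9.fr (d_m60416_m59392_8192_10240_13.fr (d_m60416_m59392_8192_10240_18.fr (d_m60416_m59392_8192_10240_20.fr (d_m60416_m59392_8192_10240_24.fr (d_m60416_m59392_8192_10240_28.fr d_m60416_m59392_8192_10240_31))))))))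

noncomputable def d_m61440_m60416_10240_12288 : Cell :=
  ⟨-261683767410688,2199023255552,48378511622144,4398046511104,⟨0,-4503599627370496,0⟩,⟨0,4000388374069248,0⟩,0,-1,1,13107,1,(-160528697655296,0),⟨0,6558839668736,12079600378927759,[]⟩,[9748777065016,10652749838,39966355618,0,49613844,92653646],3,[⟨[225179981517063,741738082449,1147937080699,-4508955930,10462818869,10880832753],⟨0,125565398089728,682914170070325,[[-61316391954284756,918871539389564,752558325075780,-4131470269397,245563366362,4158797782081],[-70508387974806108,1102879853424289,227848407361430,-4252790023189,0,0],[0,0,-803352978733951,0,-843561181768,0],[14585931774177826,0,0,0,0,12929220838990],[0,206048303786194,0],[-2349940266275661,0,-302032764773101,0,0,-8130451620403]]⟩,-45570,[⟨-28461,2,(-139637976727552,0),32⟩,⟨-11352,1,(-148434069749760,0),32⟩],13050,[⟨52993,2,(-183618441838592,0),32⟩,⟨92937,4,(-471690488315904,0),0⟩],3,0,[],0,[]⟩,⟨[281474977194418,1252477883543,1851542942759,-8360398033,21526551612,20206826462],⟨2,162670196752384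,487047806600737,[[-13686950544310512,-51747092236788712,-48185122748084621,0,3702577502415394,-87673137258707],[-497253388770901431,124273594151332567,46634509472444008,-2004905639272268,0,0],[972770164686589364,0,242517023636211,0,0,2239809723495221],[0,-68913294991268938,0],[0],[-281880450427042217,0,-22462534062045363,1743390361368266,-6317247671427226,0]]⟩,-148951,[⟨-96676,4,(47278999994368,0),6⟩,⟨-70538,3,(103354093010944,0),6⟩,⟨-57469,2,(-7696581394432,0),6⟩,⟨-44400,2,(-9895604649984,0),6⟩],88150,[⟨132063,4,(-427710023204864,0),1⟩,⟨175977,5,(-435406604599296,0),1⟩,⟨219891,5,(-467292441804800,0),1⟩,⟨263805,5,(-500277790638080,0),1⟩],5,120778,[⟨163229,3,(0,0),33⟩,⟨205680,3,(0,0),33⟩],41135,[⟨48222,4,(0,0),33⟩,⟨55309,4,(0,0),33⟩,⟨62396,4,(0,0),33⟩,⟨69483,4,(0,0),33⟩,⟨83657,5,(0,0),33⟩,⟨97832,5,(0,0),33⟩,⟨126181,5,(0,0),33⟩,⟨154530,5,(0,0),33⟩]⟩]⟩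
def d_m61440_m60416_10240_12288_0 : sl d_m61440_m60416_10240_12288 0 4 := by decide +kernel
def d_m61440_m60416_10240_12288_4 : sl d_m61440_m60416_10240_12288 4 9 := by decide +kernel
def d_m61440_m60416_10240_12288_9 : sl d_m61440_m60416_10240_12288 9 13 := by decide +kernel
def d_m61440_m60416_10240_12288_13 : sl d_m61440_m60416_10240_12288 13 18 := by decide +kernel
def d_m61440_m60416_10240_12288_18 : sl d_m61440_m60416_10240_12288 18 20 := by decide +kernel
def d_m61440_m60416_10240_12288_20 : sl d_m61440_m60416_10240_12288 20 22 := by decide +kernel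
def d_m61440_m60416_10240_12288_22 : sl d_m61440_m60416_10240_12288 22 26 := by decide +kernel
def d_m61440_m60416_10240_12288_26 : sl d_m61440_m60416_10240_12288 26 30 := by decide +kernel
def d_m61440_m60416_10240_12288_30 : fr d_m61440_m60416_10240_12288 30 := by decide +kernel
theorem f_m61440_m60416_10240_12288 : fr d_m61440_m60416_10240_12288 0 :=
  (d_m61440_m60416_10240_12288_0.fr (d_m61440_m60416_10240_12288_4.fr (d_m61440_m60416_10240_12288_9.fr (d_m61440_m60416_10240_12288_13.fr (d_m61440_m60416_10240_12288_18.fr (d_m61440_m60416_10240_12288_20.fr (d_m61440_m60416_10240_12288_22.fr (d_m61440_m60416_10240_12288_26.fr d_m61440_m60416_10240_12288_30))))))))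

noncomputable def d_m60416_m59392_10240_12288 : Cell :=
  ⟨-257285720899584,2199023255552,48378511622144,4398046511104,⟨0,-3293406692376576,0⟩,⟨0,4503599627370496,-84442496368640⟩,0,-1,1,13107,1,(-164926744166400,0),⟨0,6545807245312,12103650380653443,[]⟩,[9770039804200,10652749838,40065583307,0,49613844,92900653],3,[⟨[225179981496900,699292727524,1119242515809,-4278441881,9707208186,10532958191],⟨0,125459518455808,683661472207386,[[-45522453822480821,858619543779972,1025770241749363,-5527444506632,-19330333204641,-14359665369650],[-52437496079311683,1262573508034442,1414711837258517,-7009283333807,-25927264381108,-18884426630694],[0],[11434540042787874,-536845610322296,-424308515786380],[0,0,0,-1515309096988,-6718652988070,-4572504886853],[-2208711691035849,116718850751711,17021404608430]]⟩,-45675,[⟨-28524,2,(-141836999983104,0),32⟩,⟨-11373,1,(-151732604633088,0),32⟩],13050,[⟨52269,2,(-190215511605248,0),32⟩,⟨91489,4,(-484884627849216,0),0⟩],3,0,[],0,[]⟩,⟨[281474977110919,1166575274836,1798364132731,-77700684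46,19548277141,19365665207],⟨2,162608160964608,487233617621918,[[80659224061008411,0,-19062724686511481,0,0,984443046040359],[59529599156145483,141095406847309,-10604734982330351],[25166813136566862,126156272123287,0]]⟩,-147669,[⟨-96089,4,(48378511622144,0),6⟩,⟨-44509,3,(137438953472000,0),6⟩],86923,[⟨126891,4,(-440904162738176,0),1⟩,⟨166860,5,(-447501232504832,0),1⟩,⟨206829,5,(-472789999943680,0),1⟩,⟨246798,5,(-501377302265856,0),1⟩],5,119739,[⟨162709,3,(0,0),33⟩,⟨205680,3,(0,0),33⟩],38483,[⟨44857,4,(0,0),33⟩,⟨51232,4,(0,0),33⟩,⟨57607,4,(0,0),33⟩,⟨63982,4,(0,0),33⟩,⟨76732,4,(0,0),33⟩,⟨89482,5,(0,0),33⟩,⟨114982,5,(0,0),33⟩,⟨140482,5,(0,0),33⟩]⟩]⟩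
def d_m60416_m59392_10240_12288_0 : sl d_m60416_m59392_10240_12288 0 4 := by decide +kernel
def d_m60416_m59392_10240_12288_4 : sl d_m60416_m59392_10240_12288 4 9 := by decide +kernel
def d_m60416_m59392_10240_12288_9 : sl d_m60416_m59392_10240_12288 9 13 := by decide +kernel
def d_m60416_m59392_10240_12288_13 : sl d_m60416_m59392_10240_12288 13 18 := by decide +kernel
def d_m60416_m59392_10240_12288_18 : sl d_m60416_m59392_10240_12288 18 20 := by decide +kernel
def d_m60416_m59392_10240_12288_20 : sl d_m60416_m59392_10240_12288 20 24 := by decide +kernel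
def d_m60416_m59392_10240_12288_24 : sl d_m60416_m59392_10240_12288 24 28 := by decide +kernel
def d_m60416_m59392_10240_12288_28 : fr d_m60416_m59392_10240_12288 28 := by decide +kernel
theorem f_m60416_m59392_10240_12288 : fr d_m60416_m59392_10240_12288 0 :=
  (d_m60416_m59392_10240_12288_0.fr (d_m60416_m59392_10240_12288_4.fr (d_m60416_m59392_10240_12288_9.fr (d_m60416_m59392_10240_12288_13.fr (d_m60416_m59392_10240_12288_18.fr (d_m60416_m59392_10240_12288_20.fr (d_m60416_m59392_10240_12288_24.fr d_m60416_m59392_10240_12288_28)))))))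

noncomputable def d_m59392_m57344_8192_9216 : Cell :=
  ⟨-250688651132928,4398046511104,37383395344384,2199023255552,⟨0,-4371782786088960,0⟩,⟨0,4503599627370496,-84442496368640⟩,0,-1,1,13107,1,(-171523813933056,0),⟨0,6588472492032,12025270324156645,[]⟩,[9702179288144,21058856652,19875425796,0,49000178,23030163],3,[⟨[225179981777622,1380265427178,594840945773,-16940135159,9986951608,2820010018],⟨0,124526316421120,688986137724637,[[-65535358038368255,2186369253167394,771622738535072,-19127042744971,-7369012965320,-3378918673479],[-76624602638025758,2923667426857343,1056842467892599,-13833793202226,0,-3578321426796],[0,0,0,5592715012750,6815922421720,0],[17721348374767136,-783739286702485,-298235718300001],[0,0,0,0,0,-42984188150],[-3416713782594632,0,0,0,-578511920959,0]]⟩,-45088,[⟨-28200,2,(-146235046494208,0),32⟩,⟨-11312,2,(-157230162771968,0),32⟩],13050,[⟨53452,3,(-200111116255232,0),32⟩,⟨93854,4,(-493680720871424,0),0⟩],3,0,[],0,[]⟩,⟨[281474977920058,2293350475761,958526310311,-30583646393,20119396483,52507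37712],⟨2,162040901074944,488939286204696,[[177003354601707975,0,-21066114696602106,0,0,773337864789442],[130940786863497647,690022825460655,-12041064760185011],[32573279750785308,640734324874985,0]]⟩,-140833,[⟨-92461,4,(51677046505472,0),6⟩,⟨-44088,3,(141836999983104,0),6⟩],89621,[⟨125309,4,(-458496348782592,0),1⟩,⟨160998,5,(-463993906921472,0),1⟩,⟨196687,5,(-484884627849216,0),1⟩,⟨232376,5,(-507974372032512,0),1⟩],5,120784,[⟨163232,3,(0,0),33⟩,⟨205680,3,(0,0),33⟩],28986,[⟨33771,4,(0,0),33⟩,⟨38556,4,(0,0),33⟩,⟨48126,4,(0,0),33⟩,⟨67266,5,(0,0),33⟩,⟨86406,5,(0,0),33⟩,⟨105546,5,(0,0),33⟩]⟩]⟩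
def d_m59392_m57344_8192_9216_0 : sl d_m59392_m57344_8192_9216 0 4 := by decide +kernel
def d_m59392_m57344_8192_9216_4 : sl d_m59392_m57344_8192_9216 4 9 := by decide +kernel
def d_m59392_m57344_8192_9216_9 : sl d_m59392_m57344_8192_9216 9 13 := by decide +kernel
def d_m59392_m57344_8192_9216_13 : sl d_m59392_m57344_8192_9216 13 18 := by decide +kernel
def d_m59392_m57344_8192_9216_18 : sl d_m59392_m57344_8192_9216 18 20 := by decide +kernel
def d_m59392_m57344_8192_9216_20 : sl d_m59392_m57344_8192_9216 20 24 := by decide +kernel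
def d_m59392_m57344_8192_9216_24 : sl d_m59392_m57344_8192_9216 24 26 := by decide +kernel
def d_m59392_m57344_8192_9216_26 : fr d_m59392_m57344_8192_9216 26 := by decide +kernel
theorem f_m59392_m57344_8192_9216 : fr d_m59392_m57344_8192_9216 0 :=
  (d_m59392_m57344_8192_9216_0.fr (d_m59392_m57344_8192_9216_4.fr (d_m59392_m57344_8192_9216_9.fr (d_m59392_m57344_8192_9216_13.fr (d_m59392_m57344_8192_9216_18.fr (d_m59392_m57344_8192_9216_20.fr (d_m59392_m57344_8192_9216_24.fr d_m59392_m57344_8192_9216_26)))))))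

noncomputable def d_m59392_m57344_9216_10240 : Cell :=
  ⟨-250688651132928,4398046511104,41781441855488,2199023255552,⟨0,-4240489930817536,0⟩,⟨0,4503599627370496,-84442496368640⟩,0,-1,1,13107,1,(-171523813933056,0),⟨0,6560557629440,12076437224283768,[]⟩,[9741942692189,21157101351,19967775450,0,49244634,23144750],3,[⟨[225179981746141,1340438207710,572049688226,-16516712008,9455943409,2690804728],⟨0,124449673117696,689677526743106,[[-61340911244407027,2366597721078525,716778246772285,-23675579562457,-28569086392093,-6229598318023],[-71072452489698812,3455445446252360,981784727698274,-28361713266301,-38414434320629,-9174563167845],[0],[15906650643422327,-1409679530027905,-277694587228592,0,0,2971164665289],[0,0,0,-4778326578394,-10015141201903,0],[-3083471068817069,276563003837369,0]]⟩,-45352,[⟨-28353,2,(-146235046494208,0),32⟩,⟨-11353,2,(-157230162771968,0),32⟩],13050,[⟨52485,2,(-200111116255232,0),32⟩,⟨91920,4,(-496979255754752,0),0⟩],3,0,[],0,[]⟩,⟨[281474977804057,2216693308713,918729946622,-29568034931,18829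556970,4956459695],⟨2,161987489431552,489100502635727,[[141315734055058508,0,-16335409706814765,0,0,523446147668611],[107207649338072477,765481916105437,-8840679718364702],[34084124903014417,722979983105623,0]]⟩,-142543,[⟨-93446,4,(50577534877696,0),6⟩,⟨-44349,3,(139637976727552,0),6⟩],87905,[⟨124022,4,(-458496348782592,0),1⟩,⟨160140,5,(-463993906921472,0),1⟩,⟨196258,5,(-484884627849216,0),1⟩,⟨232376,5,(-507974372032512,0),1⟩],5,120028,[⟨162854,3,(0,0),33⟩,⟨205680,3,(0,0),33⟩],32610,[⟨37828,4,(0,0),33⟩,⟨43046,4,(0,0),33⟩,⟨53482,4,(0,0),33⟩,⟨74355,5,(0,0),33⟩,⟨95228,5,(0,0),33⟩,⟨116101,5,(0,0),33⟩]⟩]⟩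
def d_m59392_m57344_9216_10240_0 : sl d_m59392_m57344_9216_10240 0 4 := by decide +kernel
def d_m59392_m57344_9216_10240_4 : sl d_m59392_m57344_9216_10240 4 9 := by decide +kernel
def d_m59392_m57344_9216_10240_9 : sl d_m59392_m57344_9216_10240 9 13 := by decide +kernel
def d_m59392_m57344_9216_10240_13 : sl d_m59392_m57344_9216_10240 13 18 := by decide +kernel
def d_m59392_m57344_9216_10240_18 : sl d_m59392_m57344_9216_10240 18 20 := by decide +kernel
def d_m59392_m57344_9216_10240_20 : sl d_m59392_m57344_9216_10240 20 24 := by decide +kernel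
def d_m59392_m57344_9216_10240_24 : sl d_m59392_m57344_9216_10240 24 26 := by decide +kernel
def d_m59392_m57344_9216_10240_26 : fr d_m59392_m57344_9216_10240 26 := by decide +kernel
theorem f_m59392_m57344_9216_10240 : fr d_m59392_m57344_9216_10240 0 :=
  (d_m59392_m57344_9216_10240_0.fr (d_m59392_m57344_9216_10240_4.fr (d_m59392_m57344_9216_10240_9.fr (d_m59392_m57344_9216_10240_13.fr (d_m59392_m57344_9216_10240_18.fr (d_m59392_m57344_9216_10240_20.fr (d_m59392_m57344_9216_10240_24.fr d_m59392_m57344_9216_10240_26)))))))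

noncomputable def d_m59392_m57344_10240_12288 : Cell :=
  ⟨-250688651132928,4398046511104,48378511622144,4398046511104,⟨0,-4469205529264128,0⟩,⟨0,4503599627370496,-84442496368640⟩,0,-1,1,13107,1,(-171523813933056,0),⟨0,6532774821888,12127796338609230,[]⟩,[9801933419867,21305499676,40214424840,0,99227689,93271165],3,[⟨[225179982036463,1284084388360,1078396058989,-15933125470,17468658637,10059177179],⟨0,127262039015424,673214017705968,[[-64826307041313340,2500943579927396,1651221451453596,-48770064427193,-63044142891631,-10959591228294],[-74666589433799116,3651830496126458,2371629716377112,-64924514690751,-84705367173752,-12486217515256],[0],[16195558993703710,-1506041190554962,-855792040744316],[0,0,0,-16413610340309,-22033749754847,-1573333713351],[-3107532990261392,308665552287503,109090319214582]]⟩,-45949,[⟨-28672,2,(-146235046494208,0),32⟩,⟨-11394,2,(-157230162771968,0),32⟩],13050,[⟨51516,2,(-199011604627456,0),32⟩,⟨89983,4,(-501377302265856,0),0⟩],3,0,[],0,[]⟩,⟨[281474978623402,2109799812569,1724096440575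,-28193395537,34225326583,18251200865],⟨2,163685720260608,484026110477511,[[109502930721959495,4602354259844161,-20856051963485837,0,0,718845812236913],[83451802648004760,9201223011213847,-17251686282639456],[39842661234790993],[0],[3758339272371829,6665249231943361,0]]⟩,-146316,[⟨-95441,4,(47278999994368,0),6⟩,⟨-44566,3,(136339441844224,0),6⟩],84866,[⟨121743,4,(-459595860410368,0),1⟩,⟨158621,5,(-462894395293696,0),1⟩,⟨195498,5,(-483785116221440,0),1⟩,⟨232376,5,(-506874860404736,0),1⟩],5,118641,[⟨162160,3,(0,0),33⟩,⟨205680,3,(0,0),33⟩],36234,[⟨39092,3,(0,0),33⟩,⟨41951,4,(0,0),33⟩,⟨47668,4,(0,0),33⟩,⟨53385,4,(0,0),33⟩,⟨59103,4,(0,0),33⟩,⟨70537,4,(0,0),33⟩,⟨81972,5,(0,0),33⟩,⟨104841,5,(0,0),33⟩,⟨127711,5,(0,0),33⟩]⟩]⟩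
def d_m59392_m57344_10240_12288_0 : sl d_m59392_m57344_10240_12288 0 4 := by decide +kernel
def d_m59392_m57344_10240_12288_4 : sl d_m59392_m57344_10240_12288 4 9 := by decide +kernel
def d_m59392_m57344_10240_12288_9 : sl d_m59392_m57344_10240_12288 9 13 := by decide +kernel
def d_m59392_m57344_10240_12288_13 : sl d_m59392_m57344_10240_12288 13 18 := by decide +kernel
def d_m59392_m57344_10240_12288_18 : sl d_m59392_m57344_10240_12288 18 20 := by decide +kernel
def d_m59392_m57344_10240_12288_20 : sl d_m59392_m57344_10240_12288 20 24 := by decide +kernel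
def d_m59392_m57344_10240_12288_24 : sl d_m59392_m57344_10240_12288 24 28 := by decide +kernel
def d_m59392_m57344_10240_12288_28 : sl d_m59392_m57344_10240_12288 28 29 := by decide +kernel
def d_m59392_m57344_10240_12288_29 : fr d_m59392_m57344_10240_12288 29 := by decide +kernel
theorem f_m59392_m57344_10240_12288 : fr d_m59392_m57344_10240_12288 0 :=
  (d_m59392_m57344_10240_12288_0.fr (d_m59392_m57344_10240_12288_4.fr (d_m59392_m57344_10240_12288_9.fr (d_m59392_m57344_10240_12288_13.fr (d_m59392_m57344_10240_12288_18.fr (d_m59392_m57344_10240_12288_20.fr (d_m59392_m57344_10240_12288_24.fr (d_m59392_m57344_10240_12288_28.fr d_m59392_m57344_10240_12288_29))))))))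

noncomputable def d_m61440_m60416_12288_14336 : Cell :=
  ⟨-261683767410688,2199023255552,57174604644352,4398046511104,⟨0,-4503599627370496,0⟩,⟨0,3631725561249792,0⟩,0,-1,1,13107,1,(-160528697655296,0),⟨0,6503422558208,12182533340836913,[]⟩,[9828920735573,10752473661,40338816652,0,50110435,93578257],3,[⟨[225179981489505,699053180755,1059755129930,-4273780458,9366945585,9936181626],⟨0,125413424168960,684279557920623,[[-54340279552486716,857807609294624,1269169030900512,-1371937066684,-3529292671154,-2763617205107],[-62440120174901941,1053329490033112,1728268049950708,745287419115,0,0],[0],[13378726291483442,-47933764700576,-481304144878534],[0,167822150058035,0],[-2498967801984111,0,0,-2229173164222,-3835277360000,-2834553861410]]⟩,-46117,[⟨-28777,2,(-138538465099776,0),32⟩,⟨-11436,1,(-148434069749760,0),32⟩],13050,[⟨51151,2,(-183618441838592,0),32⟩,⟨89253,4,(-479387069710336,0),1⟩],3,0,[],0,[]⟩,⟨[281474977086658,1167612723180,1698397225749,-7771650009,18796944159,18066191514],⟨2,162566086328320,48735972118095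6,[[-53526531672226282,-19407278310560032,-39630252294033637,1771462423557032,0,0],[-308804976448060808,56634527221899478,38692994013125787,-2193901353440998,0,-3112099774030269],[700872947874592895,-17605666121747109,0],[0],[0,-15450940936109043,0],[-208434394889629203,0,-12297148757219381,134506819016392,-476879502282180,5309562616856145]]⟩,-153286,[⟨-99111,4,(45079976738816,0),6⟩,⟨-72024,3,(98956046499840,0),6⟩,⟨-58480,2,(-7696581394432,0),6⟩,⟨-44936,2,(-9895604649984,0),6⟩],84924,[⟨129644,4,(-427710023204864,0),1⟩,⟨174364,5,(-434307092971520,0),1⟩,⟨219084,5,(-466192930177024,0),1⟩,⟨263805,5,(-500277790638080,0),1⟩],5,119513,[⟨162596,3,(0,0),33⟩,⟨205680,4,(0,0),33⟩],49362,[⟨56900,4,(0,0),33⟩,⟨64439,4,(0,0),33⟩,⟨79517,4,(0,0),33⟩,⟨94595,4,(0,0),33⟩,⟨109673,5,(0,0),33⟩,⟨139828,5,(0,0),33⟩,⟨169984,5,(0,0),33⟩]⟩]⟩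
def d_m61440_m60416_12288_14336_0 : sl d_m61440_m60416_12288_14336 0 4 := by decide +kernel
def d_m61440_m60416_12288_14336_4 : sl d_m61440_m60416_12288_14336 4 9 := by decide +kernel
def d_m61440_m60416_12288_14336_9 : sl d_m61440_m60416_12288_14336 9 13 := by decide +kernel
def d_m61440_m60416_12288_14336_13 : sl d_m61440_m60416_12288_14336 13 18 := by decide +kernel
def d_m61440_m60416_12288_14336_18 : sl d_m61440_m60416_12288_14336 18 20 := by decide +kernel
def d_m61440_m60416_12288_14336_20 : sl d_m61440_m60416_12288_14336 20 22 := by decide +kernel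
def d_m61440_m60416_12288_14336_22 : sl d_m61440_m60416_12288_14336 22 26 := by decide +kernel
def d_m61440_m60416_12288_14336_26 : sl d_m61440_m60416_12288_14336 26 29 := by decide +kernel
def d_m61440_m60416_12288_14336_29 : fr d_m61440_m60416_12288_14336 29 := by decide +kernel
theorem f_m61440_m60416_12288_14336 : fr d_m61440_m60416_12288_14336 0 :=
  (d_m61440_m60416_12288_14336_0.fr (d_m61440_m60416_12288_14336_4.fr (d_m61440_m60416_12288_14336_9.fr (d_m61440_m60416_12288_14336_13.fr (d_m61440_m60416_12288_14336_18.fr (d_m61440_m60416_12288_14336_20.fr (d_m61440_m60416_12288_14336_22.fr (d_m61440_m60416_12288_14336_26.fr d_m61440_m60416_12288_14336_29))))))))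

noncomputable def d_m60416_m59392_12288_14336 : Cell :=
  ⟨-257285720899584,2199023255552,57174604644352,4398046511104,⟨0,-3500295267024896,0⟩,⟨0,4503599627370496,-84442496368640⟩,0,-1,1,13107,1,(-164926744166400,0),⟨0,6490512556032,12206765137041984,[]⟩,[9850382521946,10752473661,40439037521,0,50110435,93827844],3,[⟨[225179981473888,660107034978,1033157488523,-4070990066,8724729970,9640242325],⟨0,125319588020224,684956606588999,[[-46832804884268787,781618895178229,1042327235865749,-3655470534111,-2846749185856,-4299502698922],[-53215169658882708,1053062046562664,1421322094807348,-3709489111057,0,-1042573500470],[0,0,0,0,0,3485124852128],[10914456763604251,-308276072568747,-406925443593355,0,-829125020566,0],[0,0,0,0,2014961375665,0],[-2060812513869625,19149072503409,8307115834415]]⟩,-46225,[⟨-28841,2,(-141836999983104,0),32⟩,⟨-11457,1,(-151732604633088,0),32⟩],13050,[⟨50515,2,(-189115999977472,0),32⟩,⟨87980,4,(-491481697615872,0),1⟩],3,0,[],0,[]⟩,⟨[281474977025909,1090890960661,1650238875371,-7269666552,1717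8343866,17374185458],⟨2,162508599132160,487532124152293,[[66945404681244861,0,-12177222750643999,0,-17413296422360,0],[44812970128334405,814495647576531,-9381003414986786],[20998656848012110,967590797744651,0]]⟩,-152004,[⟨-98526,4,(45079976738816,0),6⟩,⟨-45048,3,(133040906960896,0),6⟩],83833,[⟨124574,4,(-442003674365952,0),1⟩,⟨165315,5,(-446401720877056,0),1⟩,⟨206056,5,(-471690488315904,0),1⟩,⟨246798,5,(-501377302265856,0),1⟩],5,118513,[⟨162096,3,(0,0),33⟩,⟨205680,4,(0,0),33⟩],46180,[⟨59723,4,(0,0),33⟩,⟨73267,4,(0,0),33⟩,⟨86811,4,(0,0),33⟩,⟨100355,5,(0,0),33⟩,⟨127442,5,(0,0),33⟩,⟨154530,5,(0,0),33⟩]⟩]⟩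
def d_m60416_m59392_12288_14336_0 : sl d_m60416_m59392_12288_14336 0 4 := by decide +kernel
def d_m60416_m59392_12288_14336_4 : sl d_m60416_m59392_12288_14336 4 9 := by decide +kernel
def d_m60416_m59392_12288_14336_9 : sl d_m60416_m59392_12288_14336 9 13 := by decide +kernel
def d_m60416_m59392_12288_14336_13 : sl d_m60416_m59392_12288_14336 13 18 := by decide +kernel
def d_m60416_m59392_12288_14336_18 : sl d_m60416_m59392_12288_14336 18 20 := by decide +kernel
def d_m60416_m59392_12288_14336_20 : sl d_m60416_m59392_12288_14336 20 24 := by decide +kernel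
def d_m60416_m59392_12288_14336_24 : sl d_m60416_m59392_12288_14336 24 26 := by decide +kernel
def d_m60416_m59392_12288_14336_26 : fr d_m60416_m59392_12288_14336 26 := by decide +kernel
theorem f_m60416_m59392_12288_14336 : fr d_m60416_m59392_12288_14336 0 :=
  (d_m60416_m59392_12288_14336_0.fr (d_m60416_m59392_12288_14336_4.fr (d_m60416_m59392_12288_14336_9.fr (d_m60416_m59392_12288_14336_13.fr (d_m60416_m59392_12288_14336_18.fr (d_m60416_m59392_12288_14336_20.fr (d_m60416_m59392_12288_14336_24.fr d_m60416_m59392_12288_14336_26)))))))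

end Pool.Agent.Lib.MP_d6150d_an
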