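import Pool.Agent.Lib.MP_d6150d_an.Cells

set_option maxRecDepth 100000
set_option linter.defProp false

namespace Pool.Agent.Lib.MP_d6150d_an

noncomputable def d_m61440_m60416_14336_16384 : Cell :=
  ⟨-261683767410688,2199023255552,65970697666560,4398046511104,⟨0,-4503599627370496,0⟩,⟨0,3286036528496640,0⟩,0,-1,1,13107,1,(-160528697655296,0),⟨0,6448528031744,12286239898641157,[]⟩,[9909811539311,10853195845,40714995370,0,50612211,94512503],3,[⟨[225179981467994,660234327269,976627994981,-4068752649,8431204564,9124346062],⟨0,125280474103808,685529320566102,[[-47396645604991490,977550838645538,1168086166541476,-2905108028632,-23728009114447,-8901671772578],[-53650072958426342,1446726876761232,1647314577904839,-2885113035368,-31836785806643,-10741922164805],[0],[10814193619511882,-626268505541855,-555411340197194,0,0,1798702118655],[0,0,0,0,-8249126310129,0],[-2027917132229909,138925447737452,55734617176553]]⟩,-46682,[⟨-29101,2,(-138538465099776,0),32⟩,⟨-11520,1,(-148434069749760,0),32⟩],13050,[⟨49507,2,(-182518930210816,0),32⟩,⟨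85965,4,(-485984139476992,0),1⟩],3,0,[],0,[]⟩,⟨[281474977007531,1092445161899,1556595485019,-7275086090,16547885886,16276737755],⟨2,162469351653376,487649896571118,[[-60359058278325087,-7819757536938305,-32939892034916313,0,0,5846712652493568],[-173015855903589355,25940798839525673,37012609593626851,-345722834221496,-386072813373602,-1178343064960182],[462786170743493863],[0],[0,-14707425217975252,0],[-131640768980796148,0,-12614528052771784,0,0,-4699664552412506]]⟩,-158329,[⟨-101909,4,(41781441855488,0),6⟩,⟨-73699,3,(94557999988736,0),6⟩,⟨-59594,3,(151732604633088,0),6⟩,⟨-45489,2,(-8796093022208,0),6⟩],82018,[⟨127464,4,(-429909046460416,0),1⟩,⟨172911,5,(-433207581343744,0),1⟩,⟨218358,5,(-465093418549248,0),1⟩,⟨263805,5,(-500277790638080,0),1⟩],5,118507,[⟨162093,3,(0,0),33⟩,⟨205680,4,(0,0),33⟩],57589,[⟨73763,4,(0,0),33⟩,⟨89937,4,(0,0),33⟩,⟨106111,4,(0,0),33⟩,⟨122285,5,(0,0),33⟩,⟨154633,5,(0,0),33⟩,⟨186982,5,(0,0),33⟩]⟩]⟩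
def d_m61440_m60416_14336_16384_0 : sl d_m61440_m60416_14336_16384 0 4 := by decide +kernel
def d_m61440_m60416_14336_16384_4 : sl d_m61440_m60416_14336_16384 4 9 := by decide +kernel
def d_m61440_m60416_14336_16384_9 : sl d_m61440_m60416_14336_16384 9 13 := by decide +kernel
def d_m61440_m60416_14336_16384_13 : sl d_m61440_m60416_14336_16384 13 18 := by decide +kernel
def d_m61440_m60416_14336_16384_18 : sl d_m61440_m60416_14336_16384 18 20 := by decide +kernel
def d_m61440_m60416_14336_16384_20 : sl d_m61440_m60416_14336_16384 20 22 := by decide +kernel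
def d_m61440_m60416_14336_16384_22 : sl d_m61440_m60416_14336_16384 22 26 := by decide +kernel
def d_m61440_m60416_14336_16384_26 : sl d_m61440_m60416_14336_16384 26 28 := by decide +kernel
def d_m61440_m60416_14336_16384_28 : fr d_m61440_m60416_14336_16384 28 := by decide +kernel
theorem f_m61440_m60416_14336_16384 : fr d_m61440_m60416_14336_16384 0 :=
  (d_m61440_m60416_14336_16384_0.fr (d_m61440_m60416_14336_16384_4.fr (d_m61440_m60416_14336_16384_9.fr (d_m61440_m60416_14336_16384_13.fr (d_m61440_m60416_14336_16384_18.fr (d_m61440_m60416_14336_16384_20.fr (d_m61440_m60416_14336_16384_22.fr (d_m61440_m60416_14336_16384_26.fr d_m61440_m60416_14336_16384_28))))))))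

noncomputable def d_m60416_m59392_14336_16384 : Cell :=
  ⟨-257285720899584,2199023255552,65970697666560,4398046511104,⟨0,-3714884718034944,0⟩,⟨0,4503599627370496,-84442496368640⟩,0,-1,1,13107,1,(-164926744166400,0),⟨0,6435739205632,12310654592004205,[]⟩,[9931474365586,10853195845,40816219791,0,50612211,94764696],3,[⟨[225179981455715,624254739254,951808699846,-3888903253,7880527779,8870777458],⟨0,125195570053120,686153797199724,[[-48083992428131532,850033911909933,1222454803021396,-4708481730186,-24200132197852,-9901864935579],[-53961829558174370,1172437262484573,1817569689096997,-5529547384624,-32939163804080,-12089765416741],[0],[10522815926236019,-385234930434962,-782831807086996],[0,0,0,-751114497341,-8925715520048,-2261394399167],[-2011133920480040,43561953938983,167310358090820]]⟩,-46794,[⟨-29168,2,(-141836999983104,0),32⟩,⟨-11541,1,(-151732604633088,0),32⟩],13050,[⟨48942,2,(-189115999977472,0),32⟩,⟨84834,4,(-498078767382528,0),1⟩],3,0,[],0,[]⟩,⟨[281474976962301,1023216208111,1512551483281,-6842783279,15204947953,15700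579941],⟨2,162418173214720,487803556454699,[[38735762895542975,2876542103316472,-7686961384662911],[29948115037501164,3859909782436801,-5437380209376293,0,0,205224803160499],[37485110691275837,0,-2653092603068206]]⟩,-157047,[⟨-101326,4,(41781441855488,0),6⟩,⟨-45604,3,(127543348822016,0),6⟩],81038,[⟨122478,4,(-443103185993728,0),1⟩,⟨163918,5,(-445302209249280,0),1⟩,⟨205358,5,(-471690488315904,0),1⟩,⟨246798,5,(-501377302265856,0),1⟩],5,117547,[⟨161613,3,(0,0),33⟩,⟨205680,4,(0,0),33⟩],53877,[⟨68390,4,(0,0),33⟩,⟨82903,4,(0,0),33⟩,⟨97416,4,(0,0),33⟩,⟨111930,4,(0,0),33⟩,⟨140957,5,(0,0),33⟩,⟨169984,5,(0,0),33⟩]⟩]⟩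
def d_m60416_m59392_14336_16384_0 : sl d_m60416_m59392_14336_16384 0 4 := by decide +kernel
def d_m60416_m59392_14336_16384_4 : sl d_m60416_m59392_14336_16384 4 9 := by decide +kernel
def d_m60416_m59392_14336_16384_9 : sl d_m60416_m59392_14336_16384 9 13 := by decide +kernel
def d_m60416_m59392_14336_16384_13 : sl d_m60416_m59392_14336_16384 13 18 := by decide +kernel
def d_m60416_m59392_14336_16384_18 : sl d_m60416_m59392_14336_16384 18 20 := by decide +kernel
def d_m60416_m59392_14336_16384_20 : sl d_m60416_m59392_14336_16384 20 24 := by decide +kernel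
def d_m60416_m59392_14336_16384_24 : sl d_m60416_m59392_14336_16384 24 26 := by decide +kernel
def d_m60416_m59392_14336_16384_26 : fr d_m60416_m59392_14336_16384 26 := by decide +kernel
theorem f_m60416_m59392_14336_16384 : fr d_m60416_m59392_14336_16384 0 :=
  (d_m60416_m59392_14336_16384_0.fr (d_m60416_m59392_14336_16384_4.fr (d_m60416_m59392_14336_16384_9.fr (d_m60416_m59392_14336_16384_13.fr (d_m60416_m59392_14336_16384_18.fr (d_m60416_m59392_14336_16384_20.fr (d_m60416_m59392_14336_16384_24.fr d_m60416_m59392_14336_16384_26)))))))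

noncomputable def d_m59392_m57344_12288_14336 : Cell :=
  ⟨-250688651132928,4398046511104,57174604644352,4398046511104,⟨0,-4503599627370496,0⟩,⟨0,4415776136101888,-84442496368640⟩,0,-1,1,13107,1,(-171523813933056,0),⟨0,6477602553856,12231093522387433,[]⟩,[9882574703248,21504947321,40589368826,0,100220870,94202224],3,[⟨[225179981933123,1214374784814,995128709827,-15236617067,15781783410,9235092448],⟨0,127069610639360,674768126842787,[[-60857165196931919,2224442959294520,1449922129084711,-30916646279165,-15724115707711,-17820610812807],[-68855003146732920,3125232083589610,2014381829637455,-36558021982368,0,-22465530555984],[0,0,0,0,20106780653609,0],[13741273494642304,-1120866273212229,-635902714815931],[0,0,0,0,0,-4655190948392],[-2545956027958144,173682897983606,45677348934729,5844144845670,4240165247230,0]]⟩,-46504,[⟨-28991,2,(-145135534866432,0),32⟩,⟨-11478,1,(-157230162771968,0),32⟩],13050,[⟨49850,2,(-199011604627456,0),32⟩,⟨86650,4,(-507974372032512,0),1⟩],3,0,[],0,[]⟩,⟨[281474978270570,1979946349106,1582510506274,-26589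113473,30314937325,16449079619],⟨2,163562362961920,484391158605691,[[85693644242493552,0,-15055808456352681,1810650220090,-141849215910900,0],[65204747435226635,2691084924599720,-10874448589048335],[38348531677247376,3435803432832121,0]]⟩,-150651,[⟨-97881,4,(45079976738816,0),6⟩,⟨-45110,3,(130841883705344,0),6⟩],81987,[⟨119584,4,(-460695372038144,0),1⟩,⟨157181,4,(-461794883665920,0),1⟩,⟨194778,5,(-482685604593664,0),1⟩,⟨232376,5,(-506874860404736,0),1⟩],5,117458,[⟨161569,3,(0,0),33⟩,⟨205680,4,(0,0),33⟩],43481,[⟨50421,4,(0,0),33⟩,⟨57362,4,(0,0),33⟩,⟨64302,4,(0,0),33⟩,⟨71243,4,(0,0),33⟩,⟨85124,4,(0,0),33⟩,⟨99005,5,(0,0),33⟩,⟨126767,5,(0,0),33⟩,⟨154530,5,(0,0),33⟩]⟩]⟩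
def d_m59392_m57344_12288_14336_0 : sl d_m59392_m57344_12288_14336 0 4 := by decide +kernel
def d_m59392_m57344_12288_14336_4 : sl d_m59392_m57344_12288_14336 4 9 := by decide +kernel
def d_m59392_m57344_12288_14336_9 : sl d_m59392_m57344_12288_14336 9 13 := by decide +kernel
def d_m59392_m57344_12288_14336_13 : sl d_m59392_m57344_12288_14336 13 18 := by decide +kernel
def d_m59392_m57344_12288_14336_18 : sl d_m59392_m57344_12288_14336 18 20 := by decide +kernel
def d_m59392_m57344_12288_14336_20 : sl d_m59392_m57344_12288_14336 20 24 := by decide +kernel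
def d_m59392_m57344_12288_14336_24 : sl d_m59392_m57344_12288_14336 24 28 := by decide +kernel
def d_m59392_m57344_12288_14336_28 : fr d_m59392_m57344_12288_14336 28 := by decide +kernel
theorem f_m59392_m57344_12288_14336 : fr d_m59392_m57344_12288_14336 0 :=
  (d_m59392_m57344_12288_14336_0.fr (d_m59392_m57344_12288_14336_4.fr (d_m59392_m57344_12288_14336_9.fr (d_m59392_m57344_12288_14336_13.fr (d_m59392_m57344_12288_14336_18.fr (d_m59392_m57344_12288_14336_20.fr (d_m59392_m57344_12288_14336_24.fr d_m59392_m57344_12288_14336_28)))))))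

noncomputable def d_m59392_m57344_14336_16384 : Cell :=
  ⟨-250688651132928,4398046511104,65970697666560,4398046511104,⟨0,-4503599627370496,0⟩,⟨0,4191883785928704,-84442496368640⟩,0,-1,1,13107,1,(-171523813933056,0),⟨0,6422950379520,12335166510248873,[]⟩,[9963968101536,21706391690,40968056423,0,101224421,95142986],3,[⟨[225179981849980,1150093815388,916184606966,-14620069974,14320848283,8522152032],⟨0,126900117241856,676188961485816,[[-55240168914597074,2215454557204527,1468056803489771,-36125549335698,-66166229882812,-9988571454986],[-61523566635381921,3303795915325821,2202286198535775,-46238350236722,-98334544822170,-11809378989201],[0],[11436076192470938,-1501412536884568,-978408761982325,9988904037414,32521434343925,1808297818663],[0],[-2121833293198886,369151112058761,220236085833670]]⟩,-47079,[⟨-29321,2,(-145135534866432,0),32⟩,⟨-11562,1,(-156130651144192,0),32⟩],13051,[⟨48350,2,(-197912092999680,0),32⟩,⟨83650,4,(-514571441799168,0),1⟩],3,0,[],0,[]⟩,⟨[281474977998952,1862464578555,1450238777210,-25201633365,27017034389,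14924714250],⟨2,163448355422208,484729028352044,[[68081754894071445,0,-10755217014414117,6741129721667,-96044028351314,0],[51211609970150656,923188634706623,-7187611295187796,0,0,429919173347631],[27817326061857123,655216771059096,0]]⟩,-155694,[⟨-100682,4,(41781441855488,0),6⟩,⟨-45670,3,(126443837194240,0),6⟩],79370,[⟨117621,4,(-461794883665920,0),1⟩,⟨155873,4,(-461794883665920,0),1⟩,⟨194124,5,(-482685604593664,0),1⟩,⟨232376,5,(-506874860404736,0),1⟩],5,116534,[⟨161107,3,(0,0),33⟩,⟨205680,4,(0,0),33⟩],50728,[⟨57215,4,(0,0),33⟩,⟨63703,4,(0,0),33⟩,⟨76678,4,(0,0),33⟩,⟨89653,4,(0,0),33⟩,⟨102629,4,(0,0),33⟩,⟨128579,5,(0,0),33⟩,⟨154530,5,(0,0),33⟩]⟩]⟩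
def d_m59392_m57344_14336_16384_0 : sl d_m59392_m57344_14336_16384 0 4 := by decide +kernel
def d_m59392_m57344_14336_16384_4 : sl d_m59392_m57344_14336_16384 4 9 := by decide +kernel
def d_m59392_m57344_14336_16384_9 : sl d_m59392_m57344_14336_16384 9 13 := by decide +kernel
def d_m59392_m57344_14336_16384_13 : sl d_m59392_m57344_14336_16384 13 18 := by decide +kernel
def d_m59392_m57344_14336_16384_18 : sl d_m59392_m57344_14336_16384 18 20 := by decide +kernel
def d_m59392_m57344_14336_16384_20 : sl d_m59392_m57344_14336_16384 20 24 := by decide +kernel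
def d_m59392_m57344_14336_16384_24 : sl d_m59392_m57344_14336_16384 24 27 := by decide +kernel
def d_m59392_m57344_14336_16384_27 : fr d_m59392_m57344_14336_16384 27 := by decide +kernel
theorem f_m59392_m57344_14336_16384 : fr d_m59392_m57344_14336_16384 0 :=
  (d_m59392_m57344_14336_16384_0.fr (d_m59392_m57344_14336_16384_4.fr (d_m59392_m57344_14336_16384_9.fr (d_m59392_m57344_14336_16384_13.fr (d_m59392_m57344_14336_16384_18.fr (d_m59392_m57344_14336_16384_20.fr (d_m59392_m57344_14336_16384_24.fr d_m59392_m57344_14336_16384_27)))))))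

noncomputable def d_m57344_m55296_4096_5120 : Cell :=
  ⟨-241892558110720,4398046511104,19791209299968,2199023255552,⟨0,-4503599627370496,0⟩,⟨0,2954946089582592,-84442496368640⟩,0,-1,1,13107,1,(-180319906955264,0),⟨0,6674650955776,11870008374329761,[]⟩,[9586214028443,20670729141,19606645109,0,48034941,22697114],3,[⟨[225179981809465,1385991910881,661634940213,-17039669745,10816007095,3217799629],⟨0,124570758152192,688045703538149,[[-49503965588774750,1248952779866026,488582065966580,4335565971607,0,-687121437902],[-58357365393321291,1314975252585287,576572056286814,0,0,-359852891482],[0,-128359068669656,0,-12863525088159,-2851585607722,0],[13387526682336816],[0,0,37919489482114],[-2237116203854618,-227211369478409,-59332054642258,-8385738941883,-2770320023039,-311816449983]]⟩,-44268,[⟨-27730,2,(-151732604633088,0),32⟩,⟨-11191,2,(-163827232538624,0),32⟩],13049,[⟨56214,3,(-214404767416320,0),32⟩,⟨99380,4,(-503576325521408,0),0⟩],3,0,[],0,[]⟩,⟨[281474978026361,2299501480254,1074491574433,-30730011798,22026689353,6158484538],⟨2,1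62099094421504,488763757754142,[[314778374889853484,2966442039234766,-54087416293670404,0,0,3028319058430522],[246340631974235373,10604415895412966,-32512112189059686],[66341003424079619,7637913888987140,0]]⟩,-131979,[⟨-87637,4,(56075093016576,0),6⟩,⟨-43294,3,(180319906955264,481036337152),6⟩],94583,[⟨151430,5,(-478287558082560,0),0⟩,⟨208277,5,(-502476813893632,0),0⟩],6,121422,[⟨173835,3,(0,0),33⟩,⟨226248,3,(0,0),33⟩],12989,[⟨15881,3,(0,0),33⟩,⟨18773,4,(0,0),33⟩,⟨21665,4,(0,0),33⟩,⟨24558,4,(0,0),33⟩,⟨30343,4,(0,0),33⟩,⟨36128,5,(0,0),33⟩,⟨47697,5,(0,0),33⟩,⟨59267,5,(0,0),33⟩,⟨82406,6,(0,0),33⟩,⟨105546,6,(0,0),33⟩]⟩]⟩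
def d_m57344_m55296_4096_5120_0 : sl d_m57344_m55296_4096_5120 0 4 := by decide +kernel
def d_m57344_m55296_4096_5120_4 : sl d_m57344_m55296_4096_5120 4 9 := by decide +kernel
def d_m57344_m55296_4096_5120_9 : sl d_m57344_m55296_4096_5120 9 14 := by decide +kernel
def d_m57344_m55296_4096_5120_14 : sl d_m57344_m55296_4096_5120 14 16 := by decide +kernel
def d_m57344_m55296_4096_5120_16 : sl d_m57344_m55296_4096_5120 16 18 := by decide +kernel
def d_m57344_m55296_4096_5120_18 : sl d_m57344_m55296_4096_5120 18 22 := by decide +kernel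
def d_m57344_m55296_4096_5120_22 : sl d_m57344_m55296_4096_5120 22 26 := by decide +kernel
def d_m57344_m55296_4096_5120_26 : sl d_m57344_m55296_4096_5120 26 28 := by decide +kernel
def d_m57344_m55296_4096_5120_28 : fr d_m57344_m55296_4096_5120 28 := by decide +kernel
theorem f_m57344_m55296_4096_5120 : fr d_m57344_m55296_4096_5120 0 :=
  (d_m57344_m55296_4096_5120_0.fr (d_m57344_m55296_4096_5120_4.fr (d_m57344_m55296_4096_5120_9.fr (d_m57344_m55296_4096_5120_14.fr (d_m57344_m55296_4096_5120_16.fr (d_m57344_m55296_4096_5120_18.fr (d_m57344_m55296_4096_5120_22.fr (d_m57344_m55296_4096_5120_26.fr d_m57344_m55296_4096_5120_28))))))))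

noncomputable def d_m57344_m55296_5120_6144 : Cell :=
  ⟨-241892558110720,4398046511104,24189255811072,2199023255552,⟨0,-4503599627370496,0⟩,⟨0,3108065968652288,-84442496368640⟩,0,-1,1,13107,1,(-180319906955264,0),⟨0,6646327869440,11920591979816217,[]⟩,[9625439614936,20767038348,19697659112,0,48274376,22809972],3,[⟨[225179981773884,1345039092174,636732033271,-16600974562,10218793912,3058450410],⟨0,124488012267520,688766975661067,[[-50518797904450198,1420305954675696,308706175383687,0,14397176255448,1007038402059],[-59574525790101007,1652608194874781,13014176301100,7327396511313,26379395111740,0],[0,0,-448378349359400,-2016061002953,0,-3897763403791],[14007341256268094],[0,95585646735947,0],[-2564991359695684,-171431770626395,-162550771024703,-9906108451367,-12426958854934,-2880980084229]]⟩,-44519,[⟨-27875,2,(-151732604633088,0),32⟩,⟨-11231,2,(-163827232538624,0),32⟩],13050,[⟨55085,3,(-213305255788544,0),32⟩,⟨97121,4,(-506874860404736,0),0⟩],3,0,[],0,[]⟩,⟨[281474977893853,2220922081037,1029922645602,-29683455454,20554852444,5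782181428],⟨2,162042016628736,488935920220010,[[249823908921808563,2828191177537394,-38022405876174569,0,0,2417972125289944],[193716991224752771,9909469789738348,-21414651201629424],[58663416714022325,7080458212014427,0]]⟩,-133332,[⟨-88438,4,(54975581388800,0),6⟩,⟨-43543,3,(146235046494208,0),6⟩],92596,[⟨150436,5,(-477188046454784,0),0⟩,⟨208277,5,(-502476813893632,0),1⟩],6,120588,[⟨173418,3,(0,0),33⟩,⟨226248,3,(0,0),33⟩],16237,[⟨21818,4,(0,0),33⟩,⟨27400,4,(0,0),33⟩,⟨38564,4,(0,0),33⟩,⟨49727,5,(0,0),33⟩,⟨60891,5,(0,0),33⟩,⟨83218,6,(0,0),33⟩,⟨105546,6,(0,0),33⟩]⟩]⟩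
def d_m57344_m55296_5120_6144_0 : sl d_m57344_m55296_5120_6144 0 4 := by decide +kernel
def d_m57344_m55296_5120_6144_4 : sl d_m57344_m55296_5120_6144 4 9 := by decide +kernel
def d_m57344_m55296_5120_6144_9 : sl d_m57344_m55296_5120_6144 9 14 := by decide +kernel
def d_m57344_m55296_5120_6144_14 : sl d_m57344_m55296_5120_6144 14 16 := by decide +kernel
def d_m57344_m55296_5120_6144_16 : sl d_m57344_m55296_5120_6144 16 18 := by decide +kernel
def d_m57344_m55296_5120_6144_18 : sl d_m57344_m55296_5120_6144 18 22 := by decide +kernel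
def d_m57344_m55296_5120_6144_22 : sl d_m57344_m55296_5120_6144 22 25 := by decide +kernel
def d_m57344_m55296_5120_6144_25 : fr d_m57344_m55296_5120_6144 25 := by decide +kernel
theorem f_m57344_m55296_5120_6144 : fr d_m57344_m55296_5120_6144 0 :=
  (d_m57344_m55296_5120_6144_0.fr (d_m57344_m55296_5120_6144_4.fr (d_m57344_m55296_5120_6144_9.fr (d_m57344_m55296_5120_6144_14.fr (d_m57344_m55296_5120_6144_16.fr (d_m57344_m55296_5120_6144_18.fr (d_m57344_m55296_5120_6144_22.fr d_m57344_m55296_5120_6144_25)))))))

noncomputable def d_m57344_m55296_6144_7168 : Cell :=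
  ⟨-241892558110720,4398046511104,28587302322176,2199023255552,⟨0,-4503599627370496,0⟩,⟨0,3037280612646912,-84442496368640⟩,0,-1,1,13107,1,(-180319906955264,0),⟨0,6618138804224,11971366045880485,[]⟩,[9664847316510,20863827668,19789125718,0,48515055,22923416],3,[⟨[225179981742312,1306014893480,612719343764,-16191749732,9669563712,2911681486],⟨0,124410393985024,689457056695560,[[-48450566020372177,1604097746075555,592223602229648,-10935592979102,-4578699622513,-2493437171328],[-56983493740968575,2122788927434386,813724665353051,-3379214243446,0,-2561030683354],[0,0,0,7746406495972,3123550946953,0],[13443306398840929,-507457909046580,-231130912814227],[0,45347154908436,0],[-2578807813730962,0,0,0,-1601570550134,0]]⟩,-44773,[⟨-28022,2,(-151732604633088,0),32⟩,⟨-11271,2,(-163827232538624,0),32⟩],13050,[⟨54027,3,(-213305255788544,0),32⟩,⟨95005,4,(-509073883660288,0),0⟩],3,0,[],0,[]⟩,⟨[281474977779532,2146898499932,987439649409,-28721187871,19225549219,5441717521],⟨2,161987702882304,489099858153897,[[196790964729582629,0,-26656086107086085,0,0,1427196023252797],[154260956782064930,486982734211811,-14047591693394812],[53951694263360599,482296186770956,0]]⟩,-134763,[⟨-89279,4,(53876069761024,0),6⟩,⟨-43795,3,(144036023238656,0),6⟩],90725,[⟨149501,5,(-477188046454784,0),0⟩,⟨208277,5,(-502476813893632,0),1⟩],6,119781,[⟨162730,3,(0,0),33⟩,⟨205680,3,(0,0),33⟩],19484,[⟨24862,4,(0,0),33⟩,⟨30241,4,(0,0),33⟩,⟨40999,4,(0,0),33⟩,⟨62515,5,(0,0),33⟩,⟨84030,5,(0,0),33⟩,⟨105546,6,(0,0),33⟩]⟩]⟩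
def d_m57344_m55296_6144_7168_0 : sl d_m57344_m55296_6144_7168 0 4 := by decide +kernel
def d_m57344_m55296_6144_7168_4 : sl d_m57344_m55296_6144_7168 4 9 := by decide +kernel
def d_m57344_m55296_6144_7168_9 : sl d_m57344_m55296_6144_7168 9 14 := by decide +kernel
def d_m57344_m55296_6144_7168_14 : sl d_m57344_m55296_6144_7168 14 16 := by decide +kernel
def d_m57344_m55296_6144_7168_16 : sl d_m57344_m55296_6144_7168 16 18 := by decide +kernel
def d_m57344_m55296_6144_7168_18 : sl d_m57344_m55296_6144_7168 18 22 := by decide +kernel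
def d_m57344_m55296_6144_7168_22 : sl d_m57344_m55296_6144_7168 22 24 := by decide +kernel
def d_m57344_m55296_6144_7168_24 : fr d_m57344_m55296_6144_7168 24 := by decide +kernel
theorem f_m57344_m55296_6144_7168 : fr d_m57344_m55296_6144_7168 0 :=
  (d_m57344_m55296_6144_7168_0.fr (d_m57344_m55296_6144_7168_4.fr (d_m57344_m55296_6144_7168_9.fr (d_m57344_m55296_6144_7168_14.fr (d_m57344_m55296_6144_7168_16.fr (d_m57344_m55296_6144_7168_18.fr (d_m57344_m55296_6144_7168_22.fr d_m57344_m55296_6144_7168_24)))))))

noncomputable def d_m57344_m55296_7168_8192 : Cell :=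
  ⟨-241892558110720,4398046511104,32985348833280,2199023255552,⟨0,-4503599627370496,0⟩,⟨0,3081200948215808,-84442496368640⟩,0,-1,1,13107,1,(-180319906955264,0),⟨0,6590083170304,12022331147470504,[]⟩,[9704438038902,20961099599,19881047277,0,48756987,23037449],3,[⟨[225179981714179,1268755742202,589521233046,-15809172874,9163069938,2776191450],⟨0,124337988304896,690126023353883,[[-47522776175293095,1911727673524122,596898170940487,-19425664147177,-11889351557384,-1564065094312],[-55363168621806587,2836940108356592,825732221265000,-23502988234283,-14372708657227,-1582864292288],[0],[12605165108967918,-1219823234537521,-238779622669740],[0,0,0,-4185122746244,-2522948849863,0],[-2414399773332334,260590690004679,0]]⟩,-45032,[⟨-28172,2,(-151732604633088,0),32⟩,⟨-11312,2,(-163827232538624,0),32⟩],13050,[⟨53033,3,(-212205744160768,0),32⟩,⟨93017,4,(-512372418543616,0),0⟩],3,0,[],0,[]⟩,⟨[281474977680290,2076984977601,946830049231,-27833659633,18020114414,5132510910],⟨2,161934675410944,489260019875736,[[159027655891323259,0,-20031429006301487,0,0,943790220736512],[126765557492138365,265140966255187,-10171889417895012],[53678998490242365,249543094465210,0]]⟩,-136278,[⟨-90165,4,(52776558133248,0),6⟩,⟨-44051,3,(141836999983104,0),6⟩],88960,[⟨148618,5,(-477188046454784,0),1⟩,⟨208277,5,(-502476813893632,0),1⟩],5,119002,[⟨162341,3,(0,0),33⟩,⟨205680,3,(0,0),33⟩],22732,[⟨33083,4,(0,0),33⟩,⟨43435,4,(0,0),33⟩,⟨64139,5,(0,0),33⟩,⟨84842,5,(0,0),33⟩,⟨105546,5,(0,0),33⟩]⟩]⟩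
def d_m57344_m55296_7168_8192_0 : sl d_m57344_m55296_7168_8192 0 4 := by decide +kernel
def d_m57344_m55296_7168_8192_4 : sl d_m57344_m55296_7168_8192 4 9 := by decide +kernel
def d_m57344_m55296_7168_8192_9 : sl d_m57344_m55296_7168_8192 9 14 := by decide +kernel
def d_m57344_m55296_7168_8192_14 : sl d_m57344_m55296_7168_8192 14 16 := by decide +kernel
def d_m57344_m55296_7168_8192_16 : sl d_m57344_m55296_7168_8192 16 18 := by decide +kernel
def d_m57344_m55296_7168_8192_18 : sl d_m57344_m55296_7168_8192 18 22 := by decide +kernel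
def d_m57344_m55296_7168_8192_22 : sl d_m57344_m55296_7168_8192 22 23 := by decide +kernel
def d_m57344_m55296_7168_8192_23 : fr d_m57344_m55296_7168_8192 23 := by decide +kernel
theorem f_m57344_m55296_7168_8192 : fr d_m57344_m55296_7168_8192 0 :=
  (d_m57344_m55296_7168_8192_0.fr (d_m57344_m55296_7168_8192_4.fr (d_m57344_m55296_7168_8192_9.fr (d_m57344_m55296_7168_8192_14.fr (d_m57344_m55296_7168_8192_16.fr (d_m57344_m55296_7168_8192_18.fr (d_m57344_m55296_7168_8192_22.fr d_m57344_m55296_7168_8192_23)))))))

noncomputable def d_m55296_m53248_4096_5120 : Cell :=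
  ⟨-233096465088512,4398046511104,19791209299968,2199023255552,⟨0,4503599627370496,-84442496368640⟩,⟨0,4503599627370496,-84442496368640⟩,0,1,1,13107,1,(-189115999977472,0),⟨0,6647836639232,11917886553162891,[]⟩,[9627472731851,20670729141,19702714992,0,48034941,22816521],3,[⟨[225179981713703,1237939877638,631647920031,-15536437260,9399266067,3014584569],⟨0,124309859991552,689844048990236,[[84371322018484323,-3081857219291290,-1117823002296467,354442205083,211352928134,105355691988],[89381689155893374,-3733545611787900,-1370964203080218],[0],[0],[9225171512813740,-714916009197191,-271176202602183]]⟩,-44468,[⟨-27850,2,(-158329674399744,0),32⟩,⟨-11231,2,(-171523813933056,0),32⟩],13050,[⟨54685,3,(-225399883694080,0),32⟩,⟨96320,4,(-523367534821376,0),0⟩],3,0,[],0,[]⟩,⟨[281474977671442,2016435683484,1018729195972,-27145613866,18492999431,5662711810],⟨2,161940458307584,489242548468901,[[-189260497343412988,-9447813161442859,49653562081600522],[-440258100427535695,-25716619851247108,85775092498909399,-5944823023075,0,0],[-291058228588813776,-17278381439264568,0],[0],[0,-202397067309814,46626385222304822]]⟩,-128660,[⟨-86085,4,(57174604644352,0),6⟩,⟨-64797,3,(113249697660928,0),6⟩,⟨-43509,2,(-23089744183296,0),6⟩],91967,[⟨115963,4,(-495879744126976,0),0⟩,⟨139959,4,(-494780232499200,0),0⟩,⟨187951,5,(-507974372032512,0),0⟩],6,118369,[⟨172308,3,(0,0),33⟩,⟨226248,3,(0,0),33⟩],11721,[⟨14653,3,(0,0),33⟩,⟨17585,4,(0,0),33⟩,⟨23449,4,(0,0),33⟩,⟨35177,5,(0,0),33⟩,⟨46905,5,(0,0),33⟩,⟨58633,5,(0,0),33⟩,⟨82089,6,(0,0),33⟩,⟨105546,6,(0,0),33⟩]⟩]⟩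
def d_m55296_m53248_4096_5120_0 : sl d_m55296_m53248_4096_5120 0 4 := by decide +kernel
def d_m55296_m53248_4096_5120_4 : sl d_m55296_m53248_4096_5120 4 9 := by decide +kernel
def d_m55296_m53248_4096_5120_9 : sl d_m55296_m53248_4096_5120 9 13 := by decide +kernel
def d_m55296_m53248_4096_5120_13 : sl d_m55296_m53248_4096_5120 13 18 := by decide +kernel
def d_m55296_m53248_4096_5120_18 : sl d_m55296_m53248_4096_5120 18 20 := by decide +kernel
def d_m55296_m53248_4096_5120_20 : sl d_m55296_m53248_4096_5120 20 24 := by decide +kernel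
def d_m55296_m53248_4096_5120_24 : sl d_m55296_m53248_4096_5120 24 28 := by decide +kernel
def d_m55296_m53248_4096_5120_28 : fr d_m55296_m53248_4096_5120 28 := by decide +kernel
theorem f_m55296_m53248_4096_5120 : fr d_m55296_m53248_4096_5120 0 :=
  (d_m55296_m53248_4096_5120_0.fr (d_m55296_m53248_4096_5120_4.fr (d_m55296_m53248_4096_5120_9.fr (d_m55296_m53248_4096_5120_13.fr (d_m55296_m53248_4096_5120_18.fr (d_m55296_m53248_4096_5120_20.fr (d_m55296_m53248_4096_5120_24.fr d_m55296_m53248_4096_5120_28)))))))

noncomputable def d_m55296_m53248_5120_6144 : Cell :=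
  ⟨-233096465088512,4398046511104,24189255811072,2199023255552,⟨0,4503599627370496,0⟩,⟨0,4503599627370496,0⟩,0,1,1,13107,1,(-189115999977472,0),⟨0,6619640037376,11968651228211701,[]⟩,[9666890551147,20767038348,19794207863,0,48274376,22930000],3,[⟨[225179981688156,1202858734972,607967377135,-15187946488,8912344637,2871806358],⟨0,124241678172160,690490418141140,[[78065246690699535,-2856025240931985,-1028711918107670,350241939035,209909790393,103755930486],[81327847942580742,-3435995471068673,-1254094651279467],[0],[0],[7431522264981657,-642656436485394,-243230355747936]]⟩,-44722,[⟨-27997,2,(-157230162771968,0),32⟩,⟨-11272,2,(-171523813933056,0),32⟩],13050,[⟨53657,3,(-225399883694080,0),32⟩,⟨94265,4,(-525566558076928,0),0⟩],3,0,[],0,[]⟩,⟨[281474977584360,1952001888441,977104639904,-26359584783,17351920186,5335284806],⟨2,161890151825408,489394577832771,[[-388037854605265272,-31807953494938539,67704577780847389,0,1113766938660231,-3440240603703958],[-114789205361498448,0,0,1016473315964099,0,-2704624624942826],[-81019597777973250,0,-7522819450005444],[0,0,0,852561199174651,0,0],[0],[46240307679458214,14867271542750938,0]]⟩,-130013,[⟨-86887,4,(56075093016576,0),6⟩,⟨-65324,3,(111050674405376,0),6⟩,⟨-43760,2,(-23089744183296,0),6⟩],90140,[⟨139045,4,(-493680720871424,0),0⟩,⟨187951,5,(-507974372032512,0),1⟩],6,117586,[⟨161633,3,(0,0),33⟩,⟨205680,3,(0,0),33⟩],14652,[⟨20332,4,(0,0),33⟩,⟨26013,4,(0,0),33⟩,⟨37375,4,(0,0),33⟩,⟨48737,5,(0,0),33⟩,⟨60099,5,(0,0),33⟩,⟨82822,6,(0,0),33⟩,⟨105546,6,(0,0),33⟩]⟩]⟩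
def d_m55296_m53248_5120_6144_0 : sl d_m55296_m53248_5120_6144 0 4 := by decide +kernel
def d_m55296_m53248_5120_6144_4 : sl d_m55296_m53248_5120_6144 4 9 := by decide +kernel
def d_m55296_m53248_5120_6144_9 : sl d_m55296_m53248_5120_6144 9 13 := by decide +kernel
def d_m55296_m53248_5120_6144_13 : sl d_m55296_m53248_5120_6144 13 17 := by decide +kernel
def d_m55296_m53248_5120_6144_17 : sl d_m55296_m53248_5120_6144 17 19 := by decide +kernel
def d_m55296_m53248_5120_6144_19 : sl d_m55296_m53248_5120_6144 19 23 := by decide +kernel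
def d_m55296_m53248_5120_6144_23 : sl d_m55296_m53248_5120_6144 23 26 := by decide +kernel
def d_m55296_m53248_5120_6144_26 : fr d_m55296_m53248_5120_6144 26 := by decide +kernel
theorem f_m55296_m53248_5120_6144 : fr d_m55296_m53248_5120_6144 0 :=
  (d_m55296_m53248_5120_6144_0.fr (d_m55296_m53248_5120_6144_4.fr (d_m55296_m53248_5120_6144_9.fr (d_m55296_m53248_5120_6144_13.fr (d_m55296_m53248_5120_6144_17.fr (d_m55296_m53248_5120_6144_19.fr (d_m55296_m53248_5120_6144_23.fr d_m55296_m53248_5120_6144_26)))))))

noncomputable def d_m55296_m53248_6144_7168 : Cell :=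
  ⟨-233096465088512,4398046511104,28587302322176,2199023255552,⟨0,4503599627370496,0⟩,⟨0,4503599627370496,0⟩,0,1,1,13107,1,(-189115999977472,0),⟨0,6591576866816,12019606914887451,[]⟩,[9706491443827,20863827668,19886155828,0,48515055,23044068],3,[⟨[225179981665269,1169247665078,585072947858,-14860927622,8461916631,2739838093],⟨0,124175856828416,691110945006843,[[75937690706411389,-2762836434770281,-987558986659735,347787541998,208394455335,102550598419],[78684712951504066,-3314151953095409,-1200646966716897],[0],[0],[6896353568106128,-613865843672458,-230839492196431]]⟩,-44980,[⟨-28146,2,(-157230162771968,0),32⟩,⟨-11312,2,(-171523813933056,0),32⟩],13050,[⟨52690,3,(-224300372066304,0),32⟩,⟨92331,4,(-528865092960256,0),0⟩],3,0,[],0,[]⟩,⟨[281474977508116,1890830744874,937263987080,-25630219987,16311950836,5037288004],⟨2,161842548441088,489538525499743,[[-288153726266277796,-42604913781096673,43614678355968541,2836063916593034,1076690011677142,-4333713172631071],[0,-26935811281662723,0],[-234774123278675409,58415951526574404,-1486844641809781],[0,0,0,-1329379861943846,0,0],[0],[85586774419702259,-3357118903737041,0,0,0,1149913455356103]]⟩,-131444,[⟨-87730,4,(54975581388800,0),6⟩,⟨-65873,3,(108851651149824,0),6⟩,⟨-44015,2,(-23089744183296,0),6⟩],88413,[⟨138182,4,(-493680720871424,0),0⟩,⟨187951,5,(-507974372032512,0),1⟩],6,116831,[⟨161255,3,(0,0),33⟩,⟨205680,3,(0,0),33⟩],17583,[⟨28578,4,(0,0),33⟩,⟨39573,4,(0,0),33⟩,⟨61564,5,(0,0),33⟩,⟨83555,5,(0,0),33⟩,⟨105546,6,(0,0),33⟩]⟩]⟩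
def d_m55296_m53248_6144_7168_0 : sl d_m55296_m53248_6144_7168 0 4 := by decide +kernel
def d_m55296_m53248_6144_7168_4 : sl d_m55296_m53248_6144_7168 4 9 := by decide +kernel
def d_m55296_m53248_6144_7168_9 : sl d_m55296_m53248_6144_7168 9 13 := by decide +kernel
def d_m55296_m53248_6144_7168_13 : sl d_m55296_m53248_6144_7168 13 17 := by decide +kernel
def d_m55296_m53248_6144_7168_17 : sl d_m55296_m53248_6144_7168 17 19 := by decide +kernel
def d_m55296_m53248_6144_7168_19 : sl d_m55296_m53248_6144_7168 19 23 := by decide +kernel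
def d_m55296_m53248_6144_7168_23 : sl d_m55296_m53248_6144_7168 23 24 := by decide +kernel
def d_m55296_m53248_6144_7168_24 : fr d_m55296_m53248_6144_7168 24 := by decide +kernel
theorem f_m55296_m53248_6144_7168 : fr d_m55296_m53248_6144_7168 0 :=
  (d_m55296_m53248_6144_7168_0.fr (d_m55296_m53248_6144_7168_4.fr (d_m55296_m53248_6144_7168_9.fr (d_m55296_m53248_6144_7168_13.fr (d_m55296_m53248_6144_7168_17.fr (d_m55296_m53248_6144_7168_19.fr (d_m55296_m53248_6144_7168_23.fr d_m55296_m53248_6144_7168_24)))))))

noncomputable def d_m55296_m53248_7168_8192 : Cell :=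
  ⟨-233096465088512,4398046511104,32985348833280,2199023255552,⟨0,4503599627370496,0⟩,⟨0,4503599627370496,0⟩,0,1,1,13107,1,(-189115999977472,0),⟨0,6563646406656,12070754189100579,[]⟩,[9746276320615,20961099599,19978561251,0,48756987,23158729],3,[⟨[225179981644691,1136992301558,562900891253,-14553516503,8044293541,2617626716],⟨0,124115969310720,691716444077653,[[77735243702255416,-2269169251061629,-893141352743079,11745914527671,32449600088340,1664297435361],[84953842023475150,-2540736582434118,-1075755393337523,11404185317547,41086777845561,1616619623805],[0],[-11347182131564112],[0,0,-195724318174416,0,8840354807551,0],[0,333962343492500,4584991021236]]⟩,-45242,[⟨-28298,2,(-157230162771968,0),32⟩,⟨-11354,2,(-171523813933056,0),32⟩],13050,[⟨51778,3,(-224300372066304,0),32⟩,⟨90507,4,(-532163627843584,0),0⟩],3,0,[],0,[]⟩,⟨[281474977441022,1832635159682,899036389248,-24951803611,15361021654,4765219927],⟨2,161796265082880,489678562648479,[[-213505792859139890,-33852278457823429,36889775401870404,-4107331485602765,1424590573216879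,-1116243019580666],[35314054401534033,-10220985144038755,-7165260613252764,8633042658514067,0,-1545597680513664],[-291228625997522141,16411037443256939,-2901143635566494],[0,0,0,0,-547458310940548,0],[0,15508438527606506,0],[104227974373728719,0,4367707426854764,-3123383624541018,0,239072819786106]]⟩,-132959,[⟨-88617,4,(52776558133248,0),6⟩,⟨-66446,3,(107752139522048,0),6⟩,⟨-44274,2,(-23089744183296,0),6⟩],86778,[⟨137364,4,(-493680720871424,0),1⟩,⟨187951,5,(-507974372032512,0),1⟩],5,116104,[⟨160892,3,(0,0),33⟩,⟨205680,3,(0,0),33⟩],20514,[⟨31143,4,(0,0),33⟩,⟨41772,4,(0,0),33⟩,⟨63030,5,(0,0),33⟩,⟨84288,5,(0,0),33⟩,⟨105546,5,(0,0),33⟩]⟩]⟩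
def d_m55296_m53248_7168_8192_0 : sl d_m55296_m53248_7168_8192 0 4 := by decide +kernel
def d_m55296_m53248_7168_8192_4 : sl d_m55296_m53248_7168_8192 4 9 := by decide +kernel
def d_m55296_m53248_7168_8192_9 : sl d_m55296_m53248_7168_8192 9 13 := by decide +kernel
def d_m55296_m53248_7168_8192_13 : sl d_m55296_m53248_7168_8192 13 17 := by decide +kernel
def d_m55296_m53248_7168_8192_17 : sl d_m55296_m53248_7168_8192 17 19 := by decide +kernel
def d_m55296_m53248_7168_8192_19 : sl d_m55296_m53248_7168_8192 19 23 := by decide +kernel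
def d_m55296_m53248_7168_8192_23 : sl d_m55296_m53248_7168_8192 23 24 := by decide +kernel
def d_m55296_m53248_7168_8192_24 : fr d_m55296_m53248_7168_8192 24 := by decide +kernel
theorem f_m55296_m53248_7168_8192 : fr d_m55296_m53248_7168_8192 0 :=
  (d_m55296_m53248_7168_8192_0.fr (d_m55296_m53248_7168_8192_4.fr (d_m55296_m53248_7168_8192_9.fr (d_m55296_m53248_7168_8192_13.fr (d_m55296_m53248_7168_8192_17.fr (d_m55296_m53248_7168_8192_19.fr (d_m55296_m53248_7168_8192_23.fr d_m55296_m53248_7168_8192_24)))))))

noncomputable def d_m53248_m51200_4096_5120 : Cell :=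
  ⟨-224300372066304,4398046511104,19791209299968,2199023255552,⟨0,4238295202529280,-84445835034624⟩,⟨0,4395937682161664,-84442496368640⟩,0,1,1,13107,1,(-197912092999680,0),⟨0,6621022257152,11966152533512410,[]⟩,[9668731435258,20670729141,19798784874,0,48034941,22935928],3,[⟨[225179981645799,1110061141091,604032714921,-14339117576,8261699171,2838990731],⟨0,124093361553408,691392150158792,[[81333009649559180,-2306708225775084,-953373204747684,1134332589475,2887969856610,1034660020839],[95469942355585893,-2617428201447013,-1168393429873728],[0,0,0,6890358111227,0,0],[-21151675999049473],[0,0,-231621859212042],[3211111757246333,368435974349331,0,7728346873441,2710878747847,1000234885112]]⟩,-44675,[⟨-27974,2,(-163827232538624,0),32⟩,⟨-11272,2,(-178120883699712,0),32⟩],13050,[⟨53356,3,(-236394999971840,0),32⟩,⟨93662,4,(-540959720865792,0),0⟩],3,0,[],0,[]⟩,⟨[281474977440812,1782144682823,968723549364,-24439226873,15803659934,5250072765],⟨2,161804365004800,489654049199242,[[-212215993042609654,0,30361406868290207],[-516824242180315430,-62883679710229,50668038485961204],[-348922208686716357,0,12981166835545376]]⟩,-124887,[⟨-84308,4,(58274116272128,0),6⟩,⟨-64018,3,(112150186033152,0),6⟩,⟨-43728,2,(-28587302322176,0),6⟩],89661,[⟨129708,4,(-509073883660288,0),0⟩,⟨169756,5,(-514571441799168,0),0⟩],6,114897,[⟨160288,3,(0,0),33⟩,⟨205680,3,(0,0),33⟩],10586,[⟨16521,4,(0,0),33⟩,⟨22456,4,(0,0),33⟩,⟨34326,5,(0,0),33⟩,⟨46196,5,(0,0),33⟩,⟨58066,5,(0,0),33⟩,⟨81806,6,(0,0),33⟩,⟨105546,6,(0,0),33⟩]⟩]⟩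
def d_m53248_m51200_4096_5120_0 : sl d_m53248_m51200_4096_5120 0 4 := by decide +kernel
def d_m53248_m51200_4096_5120_4 : sl d_m53248_m51200_4096_5120 4 9 := by decide +kernel
def d_m53248_m51200_4096_5120_9 : sl d_m53248_m51200_4096_5120 9 13 := by decide +kernel
def d_m53248_m51200_4096_5120_13 : sl d_m53248_m51200_4096_5120 13 17 := by decide +kernel
def d_m53248_m51200_4096_5120_17 : sl d_m53248_m51200_4096_5120 17 19 := by decide +kernel
def d_m53248_m51200_4096_5120_19 : sl d_m53248_m51200_4096_5120 19 23 := by decide +kernel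
def d_m53248_m51200_4096_5120_23 : sl d_m53248_m51200_4096_5120 23 26 := by decide +kernel
def d_m53248_m51200_4096_5120_26 : fr d_m53248_m51200_4096_5120 26 := by decide +kernel
theorem f_m53248_m51200_4096_5120 : fr d_m53248_m51200_4096_5120 0 :=
  (d_m53248_m51200_4096_5120_0.fr (d_m53248_m51200_4096_5120_4.fr (d_m53248_m51200_4096_5120_9.fr (d_m53248_m51200_4096_5120_13.fr (d_m53248_m51200_4096_5120_17.fr (d_m53248_m51200_4096_5120_19.fr (d_m53248_m51200_4096_5120_23.fr d_m53248_m51200_4096_5120_26)))))))

noncomputable def d_m51200_m49152_4096_5120 : Cell :=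
  ⟨-215504279044096,4398046511104,19791209299968,2199023255552,⟨0,4165177679282176,-84442496368640⟩,⟨0,2156404295073792,-84442496368640⟩,0,1,1,13107,1,(-206708186021888,0),⟨0,6594207940608,12014811046183381,[]⟩,[9709990138666,20670729141,19894854757,0,48034941,23055335],3,[⟨[225179981596040,997576226666,578368881202,-13367007340,7329527505,2685352771],⟨0,123908804444160,692751063308543,[[43384057815276100,-1398526805288788,-451529467167339,3609570233532,-10247346779048,-1428784248871],[51504589835416829,-1691642812777004,-435758464241159,-2839709089458,-19816085217236,0],[0,0,121886592646655,0,0,4468335549606],[-12291837073071095],[0,-324834903712125,0],[2157853981232718,0,115396489812398,6839615024418,9883021612779,3022354837467]]⟩,-44888,[⟨-28101,2,(-169324790677504,0),32⟩,⟨-11313,2,(-185817465094144,0),32⟩],13050,[⟨52183,3,(-246290604621824,0),32⟩,⟨91316,4,(-557452395282432,0),0⟩],3,0,[],0,[]⟩,⟨[281474977283127,1582904420394,923244101008,-22331891676,13691224585,4899743741],⟨2,161686182166528,490011956906699,[[-114691611031796692,0,17527903043276819],[-264073156573281211,-14502263779228,24118465840095264],[-181319302071718769]]⟩,-120553,[⟨-82252,3,(59373627899904,0),6⟩,⟨-63102,3,(113249697660928,0),6⟩,⟨-43951,2,(-34084860461056,0),6⟩],87602,[⟨120175,4,(-522268023193600,0),0⟩,⟨152748,5,(-521168511565824,0),0⟩],6,110910,[⟨158295,3,(0,0),33⟩,⟨205680,3,(0,0),33⟩],9525,[⟨15526,3,(0,0),33⟩,⟨21527,4,(0,0),33⟩,⟨33530,5,(0,0),33⟩,⟨45532,5,(0,0),33⟩,⟨57535,5,(0,0),33⟩,⟨81540,6,(0,0),33⟩,⟨105546,6,(0,0),33⟩]⟩]⟩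
def d_m51200_m49152_4096_5120_0 : sl d_m51200_m49152_4096_5120 0 4 := by decide +kernel
def d_m51200_m49152_4096_5120_4 : sl d_m51200_m49152_4096_5120 4 9 := by decide +kernel
def d_m51200_m49152_4096_5120_9 : sl d_m51200_m49152_4096_5120 9 13 := by decide +kernel
def d_m51200_m49152_4096_5120_13 : sl d_m51200_m49152_4096_5120 13 17 := by decide +kernel
def d_m51200_m49152_4096_5120_17 : sl d_m51200_m49152_4096_5120 17 19 := by decide +kernel
def d_m51200_m49152_4096_5120_19 : sl d_m51200_m49152_4096_5120 19 23 := by decide +kernel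
def d_m51200_m49152_4096_5120_23 : sl d_m51200_m49152_4096_5120 23 26 := by decide +kernel
def d_m51200_m49152_4096_5120_26 : fr d_m51200_m49152_4096_5120 26 := by decide +kernel
theorem f_m51200_m49152_4096_5120 : fr d_m51200_m49152_4096_5120 0 :=
  (d_m51200_m49152_4096_5120_0.fr (d_m51200_m49152_4096_5120_4.fr (d_m51200_m49152_4096_5120_9.fr (d_m51200_m49152_4096_5120_13.fr (d_m51200_m49152_4096_5120_17.fr (d_m51200_m49152_4096_5120_19.fr (d_m51200_m49152_4096_5120_23.fr d_m51200_m49152_4096_5120_26)))))))

noncomputable def d_m53248_m49152_5120_6144 : Cell :=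
  ⟨-219902325555200,8796093022208,24189255811072,2199023255552,⟨0,3503628161646592,-84442496368640⟩,⟨0,3775009965211648,-84442496368640⟩,0,1,1,13107,1,(-202310139510784,0),⟨0,6592952139776,12017099558096128,[]⟩,[9729066716001,41534076696,19939030990,0,96548751,23110042],3,[⟨[225179983986510,2047002483914,568652008462,-54299430378,14808551280,2636041675],⟨0,127360480772096,672247247736108,[[60147448492377470,-4370761091672766,-405097632616955,36388297217414,3877952176305,-18199333311006],[70866079586699124,-5844682177463200,0,0,0,-25786370715899],[0,0,602688928756735,0,0,262257822333],[-16187940568389553,1527737791040092,0,37254407328640,0,0],[0,-31960612335865,0,0,-3526267792466,0],[2710053465701102,0,209766098061615,0,0,7837891393956]]⟩,-45241,[⟨-28277,2,(-166026255794176,0),32⟩,⟨-11312,2,(-181419418583040,0),32⟩],13050,[⟨52273,3,(-240793046482944,0),32⟩,⟨91497,4,(-550855325515776,0),0⟩],3,0,[],0,[]⟩,⟨[281474983194998,3257551497828,906979491144,-91142464354,27739429736,4793593091],⟨2,163809476214784,483660434999884,[[-130196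952589519018,-1598835182954,14644316021331381],[-307566705777959029,0,19555611739707891],[-205172872872279829]]⟩,-126240,[⟨-85069,4,(54975581388800,0),6⟩,⟨-64483,3,(108851651149824,0),6⟩,⟨-43897,2,(-30786325577728,0),6⟩],86272,[⟨128014,4,(-515670953426944,0),0⟩,⟨169756,5,(-520068999938048,0),0⟩],6,114174,[⟨159927,3,(0,0),33⟩,⟨205680,3,(0,0),33⟩],13233,[⟨14675,3,(0,0),33⟩,⟨16117,3,(0,0),33⟩,⟨19002,3,(0,0),33⟩,⟨24772,4,(0,0),33⟩,⟨36311,4,(0,0),33⟩,⟨47850,5,(0,0),33⟩,⟨59389,5,(0,0),33⟩,⟨82467,6,(0,0),33⟩,⟨105546,6,(0,0),33⟩]⟩]⟩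
def d_m53248_m49152_5120_6144_0 : sl d_m53248_m49152_5120_6144 0 4 := by decide +kernel
def d_m53248_m49152_5120_6144_4 : sl d_m53248_m49152_5120_6144 4 9 := by decide +kernel
def d_m53248_m49152_5120_6144_9 : sl d_m53248_m49152_5120_6144 9 13 := by decide +kernel
def d_m53248_m49152_5120_6144_13 : sl d_m53248_m49152_5120_6144 13 17 := by decide +kernel
def d_m53248_m49152_5120_6144_17 : sl d_m53248_m49152_5120_6144 17 19 := by decide +kernel
def d_m53248_m49152_5120_6144_19 : sl d_m53248_m49152_5120_6144 19 23 := by decide +kernel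
def d_m53248_m49152_5120_6144_23 : sl d_m53248_m49152_5120_6144 23 27 := by decide +kernel
def d_m53248_m49152_5120_6144_27 : sl d_m53248_m49152_5120_6144 27 28 := by decide +kernel
def d_m53248_m49152_5120_6144_28 : fr d_m53248_m49152_5120_6144 28 := by decide +kernel
theorem f_m53248_m49152_5120_6144 : fr d_m53248_m49152_5120_6144 0 :=
  (d_m53248_m49152_5120_6144_0.fr (d_m53248_m49152_5120_6144_4.fr (d_m53248_m49152_5120_6144_9.fr (d_m53248_m49152_5120_6144_13.fr (d_m53248_m49152_5120_6144_17.fr (d_m53248_m49152_5120_6144_19.fr (d_m53248_m49152_5120_6144_23.fr (d_m53248_m49152_5120_6144_27.fr d_m53248_m49152_5120_6144_28))))))))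

noncomputable def d_m53248_m49152_6144_7168 : Cell :=
  ⟨-219902325555200,8796093022208,28587302322176,2199023255552,⟨0,3590171752660992,-84442496368640⟩,⟨0,4353185577697280,-84442496368640⟩,0,1,1,13107,1,(-202310139510784,0),⟨0,6565014863872,12068238148233971,[]⟩,[9768957394097,41727655336,20031700994,0,97030110,23225047],3,[⟨[225179983842829,1991468373021,547138610439,-53330368018,14117769457,2521765145],⟨0,127260356182016,673038552103233,[[66927224013923305,-5086948329205161,-842365351711499,145836458670745,9829742461270,1664538039109],[78236277842313641,-7005237956282703,-1046656358015359,168144807662176,0,686421615509],[0],[-17581316340749320,2204417761799782,0,0,2653605547540,0],[0,0,-218276981425152,0,-6894110770394,0],[3097579313393328,-187169588147108,0,-22396713645757,0,950792613892]]⟩,-45504,[⟨-28429,2,(-166026255794176,0),32⟩,⟨-11353,2,(-181419418583040,0),32⟩],13050,[⟨51390,3,(-240793046482944,0),32⟩,⟨89730,4,(-554153860399104,0),0⟩],3,0,[],0,[]⟩,⟨[281474982764877,3161087210509,870259432990,-89104086425,26226082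379,4543423030],⟨2,163744308002816,483852925821307,[[-122673480389143220,-5605190368458,10991487139955240,0,0,-46803358479839],[-288268339761143121,0,14481824548588012],[-189572863884968248]]⟩,-127671,[⟨-85914,3,(53876069761024,0),6⟩,⟨-65035,3,(107752139522048,0),6⟩,⟨-44156,2,(-30786325577728,0),6⟩],84749,[⟨127252,4,(-515670953426944,0),0⟩,⟨169756,5,(-518969488310272,0),1⟩],6,113477,[⟨159578,3,(0,0),33⟩,⟨205680,3,(0,0),33⟩],15880,[⟨18682,3,(0,0),33⟩,⟨21484,3,(0,0),33⟩,⟨27088,4,(0,0),33⟩,⟨38296,4,(0,0),33⟩,⟨49504,5,(0,0),33⟩,⟨60713,5,(0,0),33⟩,⟨83129,5,(0,0),33⟩,⟨105546,6,(0,0),33⟩]⟩]⟩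
def d_m53248_m49152_6144_7168_0 : sl d_m53248_m49152_6144_7168 0 4 := by decide +kernel
def d_m53248_m49152_6144_7168_4 : sl d_m53248_m49152_6144_7168 4 9 := by decide +kernel
def d_m53248_m49152_6144_7168_9 : sl d_m53248_m49152_6144_7168 9 13 := by decide +kernel
def d_m53248_m49152_6144_7168_13 : sl d_m53248_m49152_6144_7168 13 17 := by decide +kernel
def d_m53248_m49152_6144_7168_17 : sl d_m53248_m49152_6144_7168 17 19 := by decide +kernel
def d_m53248_m49152_6144_7168_19 : sl d_m53248_m49152_6144_7168 19 23 := by decide +kernel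
def d_m53248_m49152_6144_7168_23 : sl d_m53248_m49152_6144_7168 23 27 := by decide +kernel
def d_m53248_m49152_6144_7168_27 : fr d_m53248_m49152_6144_7168 27 := by decide +kernel
theorem f_m53248_m49152_6144_7168 : fr d_m53248_m49152_6144_7168 0 :=
  (d_m53248_m49152_6144_7168_0.fr (d_m53248_m49152_6144_7168_4.fr (d_m53248_m49152_6144_7168_9.fr (d_m53248_m49152_6144_7168_13.fr (d_m53248_m49152_6144_7168_17.fr (d_m53248_m49152_6144_7168_19.fr (d_m53248_m49152_6144_7168_23.fr d_m53248_m49152_6144_7168_27)))))))

noncomputable def d_m53248_m49152_7168_8192 : Cell :=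
  ⟨-219902325555200,8796093022208,32985348833280,2199023255552,⟨0,4342791756840960,-84442496368640⟩,⟨0,4500210898173952,-84442496368640⟩,0,1,1,13107,1,(-202310139510784,0),⟨0,6537209643008,12119568880798449,[]⟩,[9809033501227,41922199198,20124832212,0,97513974,23340649],3,[⟨[225179983711237,1937849518701,526240647643,-52413986048,13473490427,2415558071],⟨0,127166149361664,673806109215343,[[77652328871194624,-6429548903116326,-1267206757748647,293213706929745,97409361235980,3336519659327],[89551115889050307,-9363404311881685,-1922922268321538,428683345082326,130257474447414,3321131453608],[0],[-19196404852459937,3800253854872074,852320847700703,-136695901028009,0,0],[0,0,0,0,33368165819691,0],[3459704806122291,-747877521088863,-179801853847271]]⟩,-45772,[⟨-28584,2,(-166026255794176,0),32⟩,⟨-11395,2,(-181419418583040,0),32⟩],13050,[⟨50553,3,(-239693534855168,0),32⟩,⟨88057,4,(-556352883654656,0),0⟩],3,0,[],0,[]⟩,⟨[281474982376874,3068563931939,834868760280,-87191374343,24830036302,4313685451],⟨2,163682821931008,484034681076108,[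[-107962942503976204,-7185006485563026,17907020068959584,0,0,-4159956298414],[-253659746734482333,-21661186003886743,30308753819626077,-11280490179665,0,0],[-169241129905070972,-16067447774020566,0],[0],[0,0,15315256677054915],[-2369273320823553]]⟩,-129186,[⟨-86803,3,(52776558133248,0),6⟩,⟨-65611,3,(105553116266496,0),6⟩,⟨-44419,2,(-30786325577728,0),6⟩],83299,[⟨104913,4,(-521168511565824,0),0⟩,⟨126527,4,(-514571441799168,0),1⟩,⟨169756,5,(-518969488310272,0),1⟩],6,112809,[⟨159244,3,(0,0),33⟩,⟨205680,3,(0,0),33⟩],18527,[⟨22058,3,(0,0),33⟩,⟨25590,3,(0,0),33⟩,⟨32654,4,(0,0),33⟩,⟨46781,4,(0,0),33⟩,⟨60908,5,(0,0),33⟩,⟨75036,5,(0,0),33⟩,⟨103291,5,(0,0),33⟩,⟨131546,6,(0,0),33⟩]⟩]⟩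
def d_m53248_m49152_7168_8192_0 : sl d_m53248_m49152_7168_8192 0 4 := by decide +kernel
def d_m53248_m49152_7168_8192_4 : sl d_m53248_m49152_7168_8192 4 9 := by decide +kernel
def d_m53248_m49152_7168_8192_9 : sl d_m53248_m49152_7168_8192 9 13 := by decide +kernel
def d_m53248_m49152_7168_8192_13 : sl d_m53248_m49152_7168_8192 13 18 := by decide +kernel
def d_m53248_m49152_7168_8192_18 : sl d_m53248_m49152_7168_8192 18 20 := by decide +kernel
def d_m53248_m49152_7168_8192_20 : sl d_m53248_m49152_7168_8192 20 24 := by decide +kernel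
def d_m53248_m49152_7168_8192_24 : sl d_m53248_m49152_7168_8192 24 28 := by decide +kernel
def d_m53248_m49152_7168_8192_28 : fr d_m53248_m49152_7168_8192 28 := by decide +kernel
theorem f_m53248_m49152_7168_8192 : fr d_m53248_m49152_7168_8192 0 :=
  (d_m53248_m49152_7168_8192_0.fr (d_m53248_m49152_7168_8192_4.fr (d_m53248_m49152_7168_8192_9.fr (d_m53248_m49152_7168_8192_13.fr (d_m53248_m49152_7168_8192_18.fr (d_m53248_m49152_7168_8192_20.fr (d_m53248_m49152_7168_8192_24.fr d_m53248_m49152_7168_8192_28)))))))

noncomputable def d_m57344_m55296_8192_10240 : Cell :=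
  ⟨-241892558110720,4398046511104,39582418599936,4398046511104,⟨0,-4503599627370496,0⟩,⟨0,3159931993718784,-84442496368640⟩,0,-1,1,13107,1,(-180319906955264,0),⟨0,6562160312320,12073487860511923,[]⟩,[9764168146011,21108028122,40039675395,0,98244769,92838620],3,[⟨[225179981995977,1215909926769,1112237483599,-15280541543,16947848474,10366911160],⟨0,127168239894528,673542358813761,[[-47964012619603534,1891228907751493,1250196051778189,-28722326868724,-48768644505044,-8463142834283],[-55414114160980025,2785907544008354,1790704865017447,-37045117546079,-65748581147477,-9610561165463],[0],[12119864577821561,-1182643077022321,-634517234823692],[0,0,0,-8476221694803,-17271884147829,-1168944712689],[-2297000112483330,253672407089035,74403025249146]]⟩,-45619,[⟨-28486,2,(-151732604633088,0),32⟩,⟨-11353,2,(-163827232538624,0),32⟩],13050,[⟨52036,3,(-212205744160768,0),32⟩,⟨91022,4,(-515670953426944,0),0⟩],3,0,[],0,[]⟩,⟨[281474978461729,1979095926989,1778123404132,-26626600581,32822507393,18876885707],⟨2,163647955664896,484137807880846,[[1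15504888874185818,1687171981768849,-29216444847212658,32986052331242,0,2072946296272756],[89802126417434354,7009930360725540,-12675256461273681],[57866914834779261,6493678658058907,0]]⟩,-139597,[⟨-91930,4,(50577534877696,0),6⟩,⟨-44262,3,(138538465099776,0),6⟩],85838,[⟨116447,4,(-480486581338112,0),1⟩,⟨147057,4,(-479387069710336,0),1⟩,⟨177667,5,(-493680720871424,0),1⟩,⟨208277,5,(-510173395288064,0),1⟩],5,117547,[⟨161613,3,(0,0),33⟩,⟨205680,3,(0,0),33⟩],25980,[⟨30952,3,(0,0),33⟩,⟨35925,4,(0,0),33⟩,⟨40898,4,(0,0),33⟩,⟨45871,4,(0,0),33⟩,⟨55817,4,(0,0),33⟩,⟨65763,5,(0,0),33⟩,⟨85654,5,(0,0),33⟩,⟨105546,5,(0,0),33⟩]⟩]⟩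
def d_m57344_m55296_8192_10240_0 : sl d_m57344_m55296_8192_10240 0 4 := by decide +kernel
def d_m57344_m55296_8192_10240_4 : sl d_m57344_m55296_8192_10240 4 9 := by decide +kernel
def d_m57344_m55296_8192_10240_9 : sl d_m57344_m55296_8192_10240 9 13 := by decide +kernel
def d_m57344_m55296_8192_10240_13 : sl d_m57344_m55296_8192_10240 13 18 := by decide +kernel
def d_m57344_m55296_8192_10240_18 : sl d_m57344_m55296_8192_10240 18 20 := by decide +kernel
def d_m57344_m55296_8192_10240_20 : sl d_m57344_m55296_8192_10240 20 24 := by decide +kernel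
def d_m57344_m55296_8192_10240_24 : sl d_m57344_m55296_8192_10240 24 28 := by decide +kernel
def d_m57344_m55296_8192_10240_28 : fr d_m57344_m55296_8192_10240 28 := by decide +kernel
theorem f_m57344_m55296_8192_10240 : fr d_m57344_m55296_8192_10240 0 :=
  (d_m57344_m55296_8192_10240_0.fr (d_m57344_m55296_8192_10240_4.fr (d_m57344_m55296_8192_10240_9.fr (d_m57344_m55296_8192_10240_13.fr (d_m57344_m55296_8192_10240_18.fr (d_m57344_m55296_8192_10240_20.fr (d_m57344_m55296_8192_10240_24.fr d_m57344_m55296_8192_10240_28)))))))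

noncomputable def d_m57344_m55296_10240_12288 : Cell :=
  ⟨-241892558110720,4398046511104,48378511622144,4398046511104,⟨0,-4503599627370496,0⟩,⟨0,3107013701664768,-84442496368640⟩,0,-1,1,13107,1,(-180319906955264,0),⟨0,6506709909504,12176378429526702,[]⟩,[9844458898236,21305499676,40412880218,0,99227689,93765181],3,[⟨[225179981900351,1150332279696,1027690435086,-14647507933,15334392018,9503737681],⟨0,126982466830336,675053610003001,[[-44698591841728394,1616686776596193,1093954107406010,-23267945247423,-11263612294357,-13547555108449],[-50712367910830597,2254564194554696,1520305984145949,-27581504485691,0,-16984307330863],[0,0,0,0,13776718877050,0],[10203171816563033,-783288635650778,-478110844986162],[0,0,0,0,0,-3477063742771],[-1867386921158272,111327271416100,32721755292299,4466060997006,2380929864401,0]]⟩,-46164,[⟨-28800,2,(-151732604633088,0),32⟩,⟨-11436,2,(-163827232538624,0),32⟩],13050,[⟨50326,2,(-211106232532992,0),32⟩,⟨87603,4,(-522268023193600,0),0⟩],3,0,[],0,[]⟩,⟨[281474978145868,1859549236587,1634052130476,-252091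89457,29145980658,16986539249],⟨2,163527392296960,484494746780519,[[91245518044594058,0,-12092812463295228,1592954288403,-63187465329626,1457956557428657],[70992603436208275],[25057980805481954],[0,319115842549686,-15644349283678134],[19841612270648704]]⟩,-143370,[⟨-94083,4,(47278999994368,0),6⟩,⟨-69439,3,(101155069755392,0),6⟩,⟨-44795,2,(-17592186044416,0),6⟩],82881,[⟨114230,4,(-481586092965888,0),1⟩,⟨145579,4,(-479387069710336,0),1⟩,⟨176928,5,(-492581209243648,0),1⟩,⟨208277,5,(-510173395288064,0),1⟩],5,116253,[⟨160966,3,(0,0),33⟩,⟨205680,3,(0,0),33⟩],32476,[⟨41609,4,(0,0),33⟩,⟨50743,4,(0,0),33⟩,⟨69011,4,(0,0),33⟩,⟨87278,5,(0,0),33⟩,⟨105546,5,(0,0),33⟩]⟩]⟩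
def d_m57344_m55296_10240_12288_0 : sl d_m57344_m55296_10240_12288 0 4 := by decide +kernel
def d_m57344_m55296_10240_12288_4 : sl d_m57344_m55296_10240_12288 4 9 := by decide +kernel
def d_m57344_m55296_10240_12288_9 : sl d_m57344_m55296_10240_12288 9 13 := by decide +kernel
def d_m57344_m55296_10240_12288_13 : sl d_m57344_m55296_10240_12288 13 18 := by decide +kernel
def d_m57344_m55296_10240_12288_18 : sl d_m57344_m55296_10240_12288 18 19 := by decide +kernel
def d_m57344_m55296_10240_12288_19 : sl d_m57344_m55296_10240_12288 19 21 := by decide +kernel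
def d_m57344_m55296_10240_12288_21 : sl d_m57344_m55296_10240_12288 21 25 := by decide +kernel
def d_m57344_m55296_10240_12288_25 : sl d_m57344_m55296_10240_12288 25 26 := by decide +kernel
def d_m57344_m55296_10240_12288_26 : fr d_m57344_m55296_10240_12288 26 := by decide +kernel
theorem f_m57344_m55296_10240_12288 : fr d_m57344_m55296_10240_12288 0 :=
  (d_m57344_m55296_10240_12288_0.fr (d_m57344_m55296_10240_12288_4.fr (d_m57344_m55296_10240_12288_9.fr (d_m57344_m55296_10240_12288_13.fr (d_m57344_m55296_10240_12288_18.fr (d_m57344_m55296_10240_12288_19.fr (d_m57344_m55296_10240_12288_21.fr (d_m57344_m55296_10240_12288_25.fr d_m57344_m55296_10240_12288_26))))))))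

noncomputable def d_m55296_m53248_8192_10240 : Cell :=
  ⟨-233096465088512,4398046511104,39582418599936,4398046511104,⟨0,2032039222050816,-84442496368640⟩,⟨0,-4503599627370496,0⟩,0,-1,1,13107,1,(-189115999977472,0),⟨0,6535848067072,12122093627737244,[]⟩,[9806299474247,21108028122,40236164932,0,98244769,93327532],3,[⟨[225179981873799,1090968504812,1061770268813,-14126078879,14945194084,9802661625],⟨0,126908381921280,675271479712683,[[-32201358964108926,1203461470249414,834812741517967,-25438220328561,-13264234511243,-12410690777801],[-36974215325320575,1716120736183947,1184404366694606,-34303541795784,0,-16101261247428],[0,0,0,0,21329844481372,0],[7848753061696660,-652524800085395,-408087721074756,1015772972349,0,0],[0,0,0,-8000820955844,0,-3709913512748],[-1455319621119251,115840977290247,44897875347288,0,8172061537066,0]]⟩,-45834,[⟨-28615,2,(-157230162771968,0),32⟩,⟨-11395,2,(-170424302305280,0),32⟩],13050,[⟨50861,3,(-223200860438528,0),32⟩,⟨88673,4,(-535462162726912,0),0⟩],3,0,[],0,[]⟩,⟨[281474978048200,1750463407631,16888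46246824,-24020271931,28159879829,17597897100],⟨2,163498787536896,484579510939569,[[84412017791181892,0,-6720576390734450,0,-1291063102198775,0],[69369690616288912,0,0,0,-2107448813858844,0],[44894043720300469],[0,0,-19249901852682104],[10123817332569941]]⟩,-136278,[⟨-90384,4,(50577534877696,0),6⟩,⟨-67437,3,(104453604638720,0),6⟩,⟨-44489,2,(-23089744183296,0),6⟩],83870,[⟨135910,4,(-494780232499200,0),1⟩,⟨187951,5,(-507974372032512,0),1⟩],5,114752,[⟨160216,3,(0,0),33⟩,⟨205680,3,(0,0),33⟩],23444,[⟨33706,4,(0,0),33⟩,⟨43969,4,(0,0),33⟩,⟨54232,4,(0,0),33⟩,⟨64495,5,(0,0),33⟩,⟨85020,5,(0,0),33⟩,⟨105546,5,(0,0),33⟩]⟩]⟩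
def d_m55296_m53248_8192_10240_0 : sl d_m55296_m53248_8192_10240 0 4 := by decide +kernel
def d_m55296_m53248_8192_10240_4 : sl d_m55296_m53248_8192_10240 4 9 := by decide +kernel
def d_m55296_m53248_8192_10240_9 : sl d_m55296_m53248_8192_10240 9 13 := by decide +kernel
def d_m55296_m53248_8192_10240_13 : sl d_m55296_m53248_8192_10240 13 17 := by decide +kernel
def d_m55296_m53248_8192_10240_17 : sl d_m55296_m53248_8192_10240 17 19 := by decide +kernel
def d_m55296_m53248_8192_10240_19 : sl d_m55296_m53248_8192_10240 19 23 := by decide +kernel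
def d_m55296_m53248_8192_10240_23 : sl d_m55296_m53248_8192_10240 23 25 := by decide +kernel
def d_m55296_m53248_8192_10240_25 : fr d_m55296_m53248_8192_10240 25 := by decide +kernel
theorem f_m55296_m53248_8192_10240 : fr d_m55296_m53248_8192_10240 0 :=
  (d_m55296_m53248_8192_10240_0.fr (d_m55296_m53248_8192_10240_4.fr (d_m55296_m53248_8192_10240_9.fr (d_m55296_m53248_8192_10240_13.fr (d_m55296_m53248_8192_10240_17.fr (d_m55296_m53248_8192_10240_19.fr (d_m55296_m53248_8192_10240_23.fr d_m55296_m53248_8192_10240_25)))))))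

noncomputable def d_m55296_m53248_10240_12288 : Cell :=
  ⟨-233096465088512,4398046511104,48378511622144,4398046511104,⟨0,-4503599627370496,0⟩,⟨0,2044958483677184,-84442496368640⟩,0,-1,1,13107,1,(-189115999977472,0),⟨0,6480645062656,12225351310690877,[]⟩,[9886984376605,21305499676,40611335595,0,99227689,94259196],3,[⟨[225179981801254,1033417379676,980445842825,-13610193055,13596551717,9018183840],⟨0,126747288600576,676644068089641,[[-30267527075979358,1152159633884810,832815356081454,-21749814437083,-20467048687272,-10832122981477],[-33998354686839069,1645159278238191,1227831570348437,-28723004901347,-24934866476011,-14035972341907],[0],[6528434557490715,-636290469379499,-505424650760363],[0,0,0,-7102577053196,0,-3257964063035],[-1183551966306501,119160124445567,97025205140271,0,4583159644650,0]]⟩,-46386,[⟨-28932,2,(-157230162771968,0),32⟩,⟨-11478,2,(-170424302305280,0),32⟩],13050,[⟨49279,2,(-222101348810752,0),32⟩,⟨85508,4,(-542059232493568,0),0⟩],3,0,[],0,[]⟩,⟨[281474977823764,1649035686429,1551928148519,-22913270430,25198397927,15913576453],⟨2,163389256237056,484904358792683,[[61869189693593020,2228019024292065,-12498809647709516,0,0,1879331167651300],[43518974170547053,4720318144119059,-4952902647103402],[37289064772080597,1237429668671688,0]]⟩,-140051,[⟨-92540,4,(48378511622144,0),6⟩,⟨-45028,3,(133040906960896,0),6⟩],81106,[⟨134528,4,(-494780232499200,0),1⟩,⟨187951,5,(-506874860404736,0),1⟩],5,113561,[⟨159620,3,(0,0),33⟩,⟨205680,3,(0,0),33⟩],29306,[⟨38836,3,(0,0),33⟩,⟨48366,4,(0,0),33⟩,⟨67426,4,(0,0),33⟩,⟨105546,5,(0,0),33⟩]⟩]⟩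
def d_m55296_m53248_10240_12288_0 : sl d_m55296_m53248_10240_12288 0 4 := by decide +kernel
def d_m55296_m53248_10240_12288_4 : sl d_m55296_m53248_10240_12288 4 9 := by decide +kernel
def d_m55296_m53248_10240_12288_9 : sl d_m55296_m53248_10240_12288 9 14 := by decide +kernel
def d_m55296_m53248_10240_12288_14 : sl d_m55296_m53248_10240_12288 14 16 := by decide +kernel
def d_m55296_m53248_10240_12288_16 : sl d_m55296_m53248_10240_12288 16 18 := by decide +kernel
def d_m55296_m53248_10240_12288_18 : sl d_m55296_m53248_10240_12288 18 22 := by decide +kernel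
def d_m55296_m53248_10240_12288_22 : fr d_m55296_m53248_10240_12288 22 := by decide +kernel
theorem f_m55296_m53248_10240_12288 : fr d_m55296_m53248_10240_12288 0 :=
  (d_m55296_m53248_10240_12288_0.fr (d_m55296_m53248_10240_12288_4.fr (d_m55296_m53248_10240_12288_9.fr (d_m55296_m53248_10240_12288_14.fr (d_m55296_m53248_10240_12288_16.fr (d_m55296_m53248_10240_12288_18.fr d_m55296_m53248_10240_12288_22))))))

noncomputable def d_m57344_m55296_12288_14336 : Cell :=
  ⟨-241892558110720,4398046511104,57174604644352,4398046511104,⟨0,-4503599627370496,0⟩,⟨0,2959932546613248,-84442496368640⟩,0,-1,1,13107,1,(-180319906955264,0),⟨0,6451782483968,12280042379798903,[]⟩,[9925498275995,21504947321,40789810565,0,100220870,94701397],3,[⟨[225179981823137,1089663750424,947653599960,-14085310974,13934939848,8757207389],⟨0,126817512587264,676453698127360,[[-40737208431592344,1626830278783197,1115647321130762,-27387058638982,-49906790578147,-8498996580341],[-45485546100529908,2418210201546005,1676882369800082,-35627558494701,-74075369698490,-10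433911821824],[0],[8521324418448075,-1088909448414863,-747207889747515,8173620011378,24423944803243,1934232886711],[0],[-1561009315334971,265131151993431,168184214244479]]⟩,-46727,[⟨-29124,2,(-150633093005312,0),32⟩,⟨-11520,2,(-163827232538624,0),32⟩],13050,[⟨48789,2,(-210006720905216,0),32⟩,⟨84528,4,(-528865092960256,0),1⟩],3,0,[],0,[]⟩,⟨[281474977901113,1750815942060,1499691935331,-23975961467,26035254100,15388541825],⟨2,163416531664896,484823424610399,[[52484574117937079,3580279119956459,-9810380435685550,0,0,360666730893350],[34183874732309612,6336020090690786,-5850172825149835],[43721092406465652],[0],[0,2125620006631520,0],[15697173953215259]]⟩,-147705,[⟨-96525,4,(45079976738816,0),6⟩,⟨-70935,3,(96757023244288,0),6⟩,⟨-45345,2,(-17592186044416,0),6⟩],80196,[⟨112216,4,(-482685604593664,0),1⟩,⟨144236,4,(-478287558082560,0),1⟩,⟨176256,5,(-492581209243648,0),1⟩,⟨208277,5,(-510173395288064,0),1⟩],5,115161,[⟨160420,3,(0,0),33⟩,⟨205680,4,(0,0),33⟩],38971,[⟨50063,4,(0,0),33⟩,⟨61156,4,(0,0),33⟩,⟨83341,4,(0,0),33⟩,⟨105526,5,(0,0),33⟩,⟨127711,5,(0,0),33⟩]⟩]⟩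
def d_m57344_m55296_12288_14336_0 : sl d_m57344_m55296_12288_14336 0 4 := by decide +kernel
def d_m57344_m55296_12288_14336_4 : sl d_m57344_m55296_12288_14336 4 9 := by decide +kernel
def d_m57344_m55296_12288_14336_9 : sl d_m57344_m55296_12288_14336 9 13 := by decide +kernel
def d_m57344_m55296_12288_14336_13 : sl d_m57344_m55296_12288_14336 13 18 := by decide +kernel
def d_m57344_m55296_12288_14336_18 : sl d_m57344_m55296_12288_14336 18 19 := by decide +kernel
def d_m57344_m55296_12288_14336_19 : sl d_m57344_m55296_12288_14336 19 21 := by decide +kernel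
def d_m57344_m55296_12288_14336_21 : sl d_m57344_m55296_12288_14336 21 25 := by decide +kernel
def d_m57344_m55296_12288_14336_25 : sl d_m57344_m55296_12288_14336 25 26 := by decide +kernel
def d_m57344_m55296_12288_14336_26 : fr d_m57344_m55296_12288_14336 26 := by decide +kernel
theorem f_m57344_m55296_12288_14336 : fr d_m57344_m55296_12288_14336 0 :=
  (d_m57344_m55296_12288_14336_0.fr (d_m57344_m55296_12288_14336_4.fr (d_m57344_m55296_12288_14336_9.fr (d_m57344_m55296_12288_14336_13.fr (d_m57344_m55296_12288_14336_18.fr (d_m57344_m55296_12288_14336_19.fr (d_m57344_m55296_12288_14336_21.fr (d_m57344_m55296_12288_14336_25.fr d_m57344_m55296_12288_14336_26))))))))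

noncomputable def d_m57344_m55296_14336_15360 : Cell :=
  ⟨-241892558110720,4398046511104,63771674411008,2199023255552,⟨0,-4503599627370496,0⟩,⟨0,2948915955499008,-84442496368640⟩,0,-1,1,13107,1,(-180319906955264,0),⟨0,6397372727296,12384484353700910,[]⟩,[9986774754673,21655728840,20537436956,0,50486136,23852443],3,[⟨[225179981582041,1046942909025,445090197990,-13703254475,6501608932,2065630062],⟨0,123950598193152,694136234870139,[[-37899591350226901,1458683854708518,493035886461158,-25000978173032,-20276854379389,-1229058625812],[-41530581402814209,2129329303189132,729712961483334,-32394742796921,-29419177773443,-1218589472263],[0],[7104931258586672,-922065054034837,-314994579257718,7171704866388,9210688262421,0],[0],[-1267991347491202,219019801784174,69455683508490]]⟩,-46965,[⟨-29286,2,(-150633093005312,0),32⟩,⟨-11606,1,(-163827232538624,0),32⟩],13051,[⟨47432,2,(-210006720905216,0),32⟩,⟨81813,4,(-507974372032512,0),1⟩],2,0,[],0,[]⟩,⟨[281474977248916,1675268349065,702152371956,-23151206716,12002009828,3587002145],⟨2,1616296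23746560,490183424784745,[[41202445549210985,2522817579847176,-3794646350295189,2008449974113,0,62013077372300],[27033754672958852,5093134658659337,-2039453528335163],[37849371536926963],[0],[0,3386542359271177,0],[12464563192289727]]⟩,-150127,[⟨-98040,4,(42880953483264,0),6⟩,⟨-71997,3,(93458488360960,0),6⟩,⟨-45953,2,(-17592186044416,0),6⟩],78855,[⟨111210,4,(-483785116221440,0),1⟩,⟨143566,4,(-478287558082560,0),1⟩,⟨175921,5,(-491481697615872,0),1⟩,⟨208277,5,(-509073883660288,0),1⟩],5,114709,[⟨160194,3,(0,0),33⟩,⟨205680,4,(0,0),33⟩],45467,[⟨57343,4,(0,0),33⟩,⟨69220,4,(0,0),33⟩,⟨92974,4,(0,0),33⟩,⟨140482,5,(0,0),33⟩]⟩]⟩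
def d_m57344_m55296_14336_15360_0 : sl d_m57344_m55296_14336_15360 0 4 := by decide +kernel
def d_m57344_m55296_14336_15360_4 : sl d_m57344_m55296_14336_15360 4 9 := by decide +kernel
def d_m57344_m55296_14336_15360_9 : sl d_m57344_m55296_14336_15360 9 13 := by decide +kernel
def d_m57344_m55296_14336_15360_13 : sl d_m57344_m55296_14336_15360 13 18 := by decide +kernel
def d_m57344_m55296_14336_15360_18 : sl d_m57344_m55296_14336_15360 18 19 := by decide +kernel
def d_m57344_m55296_14336_15360_19 : sl d_m57344_m55296_14336_15360 19 21 := by decide +kernel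
def d_m57344_m55296_14336_15360_21 : sl d_m57344_m55296_14336_15360 21 25 := by decide +kernel
def d_m57344_m55296_14336_15360_25 : fr d_m57344_m55296_14336_15360 25 := by decide +kernel
theorem f_m57344_m55296_14336_15360 : fr d_m57344_m55296_14336_15360 0 :=
  (d_m57344_m55296_14336_15360_0.fr (d_m57344_m55296_14336_15360_4.fr (d_m57344_m55296_14336_15360_9.fr (d_m57344_m55296_14336_15360_13.fr (d_m57344_m55296_14336_15360_18.fr (d_m57344_m55296_14336_15360_19.fr (d_m57344_m55296_14336_15360_21.fr d_m57344_m55296_14336_15360_25)))))))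

noncomputable def d_m57344_m55296_15360_16384 : Cell :=
  ⟨-241892558110720,4398046511104,68169720922112,2199023255552,⟨0,-4503599627370496,0⟩,⟨0,2899579666169856,-84442496368640⟩,0,-1,1,13107,1,(-180319906955264,0),⟨0,6370360360960,12436998554473955,[]⟩,[10027862819932,21756953189,20633084273,0,50738329,23971304],3,[⟨[225179981569437,1019686175785,426485025219,-13465710803,6215658293,1990075348],⟨0,123908118020096,694636811053897,[[-36453302116512040,1386015550019706,464580847742044,-24038838746760,-19294192904466,-1182606517250],[-39601850734882251,2008344093046736,682681328841127,-31129989997720,-27956367854330,-1172092386080],[0],[6445772417505047,-855124437352030,-289823256344772,6869489312498,8729931430537,0],[0],[-1130390546190498,200856136801725,63013437897855]]⟩,-47260,[⟨-29455,2,(-150633093005312,0),32⟩,⟨-11649,1,(-163827232538624,0),32⟩],13051,[⟨46779,2,(-208907209277440,0),32⟩,⟨80508,4,(-506874860404736,0),1⟩],2,0,[],0,[]⟩,⟨[281474977210934,1627510936925,671504027365,-22643948702,11386481468,3429857883],⟨2,161591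735287808,490298358231297,[[42777953631856853,2556009367522787,-3657056251907808,0,-34692857300627,31965040516363],[31368437949166300,4942894040945696,-1834969845158711],[29310551630332173,1544291344949829,0]]⟩,-152748,[⟨-99495,3,(41781441855488,0),6⟩,⟨-46242,3,(123145302310912,0),6⟩],77663,[⟨110316,4,(-483785116221440,0),1⟩,⟨142970,4,(-478287558082560,0),1⟩,⟨175623,5,(-491481697615872,0),1⟩,⟨208277,5,(-509073883660288,0),1⟩],5,114329,[⟨186982,3,(0,0),33⟩],48715,[⟨71656,4,(0,0),33⟩,⟨94598,4,(0,0),33⟩,⟨140482,5,(0,0),33⟩]⟩]⟩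
def d_m57344_m55296_15360_16384_0 : sl d_m57344_m55296_15360_16384 0 4 := by decide +kernel
def d_m57344_m55296_15360_16384_4 : sl d_m57344_m55296_15360_16384 4 9 := by decide +kernel
def d_m57344_m55296_15360_16384_9 : sl d_m57344_m55296_15360_16384 9 13 := by decide +kernel
def d_m57344_m55296_15360_16384_13 : sl d_m57344_m55296_15360_16384 13 17 := by decide +kernel
def d_m57344_m55296_15360_16384_17 : sl d_m57344_m55296_15360_16384 17 19 := by decide +kernel
def d_m57344_m55296_15360_16384_19 : sl d_m57344_m55296_15360_16384 19 22 := by decide +kernel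
def d_m57344_m55296_15360_16384_22 : fr d_m57344_m55296_15360_16384 22 := by decide +kernel
theorem f_m57344_m55296_15360_16384 : fr d_m57344_m55296_15360_16384 0 :=
  (d_m57344_m55296_15360_16384_0.fr (d_m57344_m55296_15360_16384_4.fr (d_m57344_m55296_15360_16384_9.fr (d_m57344_m55296_15360_16384_13.fr (d_m57344_m55296_15360_16384_17.fr (d_m57344_m55296_15360_16384_19.fr d_m57344_m55296_15360_16384_22))))))

noncomputable def d_m55296_m53248_12288_14336 : Cell :=
  ⟨-233096465088512,4398046511104,57174604644352,4398046511104,⟨0,-4503599627370496,0⟩,⟨0,2625998839349248,-160793626673152⟩,0,-1,1,13107,1,(-189115999977472,0),⟨0,6425962479616,12329384598265883,[]⟩,[9968421848741,21504947321,40990252304,0,100220870,95200570],3,[⟨[225179981741876,979743904294,903178260289,-13148415088,12417969287,8337146682],⟨0,126603211833344,677936047988476,[[-35817567184807288,1249911300858265,831689137132711,-23870797743161,-38157553425003,-14384450685689],[-39924493104588490,1719375454872836,1125241349720222,-31693196880158,-57327942950213,-20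295754413441],[0],[7411824190490937,-584559661902411,-309998651430585,7795279267255,19324641390274,5698578296066],[0],[-1342875254013299,85716395827279,0]]⟩,-46957,[⟨-29260,2,(-156130651144192,0),32⟩,⟨-11563,2,(-170424302305280,0),32⟩],13051,[⟨47847,2,(-221001837182976,0),32⟩,⟨82644,4,(-523367534821376,0),1⟩],3,0,[],0,[]⟩,⟨[281474977646319,1555754793574,1423562289006,-21938518652,22663817790,14480633276],⟨2,163287346053120,485206994992448,[[64876262916123097,0,-10359069334742273,79726210298360,-673337461742446,298903379630501],[24669661839457612,3862240079260321,-4353213591618439],[59277573988448216,5799145179825887,0],[24412610067806588]]⟩,-144386,[⟨-94985,4,(45079976738816,0),6⟩,⟨-70285,3,(95657511616512,0),6⟩,⟨-45584,2,(-21990232555520,0),6⟩],78585,[⟨133268,4,(-494780232499200,0),1⟩,⟨187951,5,(-506874860404736,0),1⟩],5,112573,[⟨159126,3,(0,0),33⟩,⟨205680,4,(0,0),33⟩],35168,[⟨52762,4,(0,0),33⟩,⟨70357,4,(0,0),33⟩,⟨105546,5,(0,0),33⟩]⟩]⟩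
def d_m55296_m53248_12288_14336_0 : sl d_m55296_m53248_12288_14336 0 4 := by decide +kernel
def d_m55296_m53248_12288_14336_4 : sl d_m55296_m53248_12288_14336 4 9 := by decide +kernel
def d_m55296_m53248_12288_14336_9 : sl d_m55296_m53248_12288_14336 9 13 := by decide +kernel
def d_m55296_m53248_12288_14336_13 : sl d_m55296_m53248_12288_14336 13 17 := by decide +kernel
def d_m55296_m53248_12288_14336_17 : sl d_m55296_m53248_12288_14336 17 19 := by decide +kernel
def d_m55296_m53248_12288_14336_19 : sl d_m55296_m53248_12288_14336 19 22 := by decide +kernel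
def d_m55296_m53248_12288_14336_22 : fr d_m55296_m53248_12288_14336 22 := by decide +kernel
theorem f_m55296_m53248_12288_14336 : fr d_m55296_m53248_12288_14336 0 :=
  (d_m55296_m53248_12288_14336_0.fr (d_m55296_m53248_12288_14336_4.fr (d_m55296_m53248_12288_14336_9.fr (d_m55296_m53248_12288_14336_13.fr (d_m55296_m53248_12288_14336_17.fr (d_m55296_m53248_12288_14336_19.fr d_m55296_m53248_12288_14336_22))))))

noncomputable def d_m55296_m53248_14336_15360 : Cell :=
  ⟨-233096465088512,4398046511104,63771674411008,2199023255552,⟨0,-4503599627370496,0⟩,⟨0,2347478800138240,-129089100840960⟩,0,-1,1,13107,1,(-189115999977472,0),⟨0,6371795075072,12434198140444896,[]⟩,[10029999513644,21655728840,20638409228,0,50486136,23978213],3,[⟨[225179981545430,941704083738,423767314692,-12832702803,5814412790,1971174101],⟨0,123791812984832,695366549456585,[[-30381188458317112,987373230886566,343250834334091,-10934653404226,-14629456296788,-864386926861],[-33280817960852881,1277179128809101,459704635893759,-10943684840285,-21301827488472,-8510606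74392],[-311859120521696],[5302660254793030,-316986229016507,-123979706046192,0,6554793019065,0],[0],[-924883740194423]]⟩,-47202,[⟨-29426,2,(-156130651144192,0),32⟩,⟨-11650,1,(-170424302305280,0),32⟩],13051,[⟨46575,2,(-221001837182976,0),32⟩,⟨80100,4,(-521168511565824,0),1⟩],2,0,[],0,[]⟩,⟨[281474977137750,1490372569861,666029903178,-21280618238,10497184657,3385845525],⟨2,161522501877760,490508514860763,[[48545643493835686,1613085477833887,-4779628496016063,71420796094946,-228161156877546,173638520843596],[31586153949523469,3969494235965410,-209476646596076],[37701481335260676,1687477134492780,0]]⟩,-146808,[⟨-96503,3,(42880953483264,0),6⟩,⟨-46197,3,(124244813938688,0),6⟩],77325,[⟨132638,4,(-494780232499200,0),1⟩,⟨187951,5,(-506874860404736,0),1⟩],5,112173,[⟨186982,3,(0,0),33⟩],41030,[⟨59797,4,(0,0),33⟩,⟨78565,4,(0,0),33⟩,⟨116101,5,(0,0),33⟩]⟩]⟩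
def d_m55296_m53248_14336_15360_0 : sl d_m55296_m53248_14336_15360 0 4 := by decide +kernel
def d_m55296_m53248_14336_15360_4 : sl d_m55296_m53248_14336_15360 4 9 := by decide +kernel
def d_m55296_m53248_14336_15360_9 : sl d_m55296_m53248_14336_15360 9 14 := by decide +kernel
def d_m55296_m53248_14336_15360_14 : sl d_m55296_m53248_14336_15360 14 15 := by decide +kernel
def d_m55296_m53248_14336_15360_15 : sl d_m55296_m53248_14336_15360 15 17 := by decide +kernel
def d_m55296_m53248_14336_15360_17 : sl d_m55296_m53248_14336_15360 17 20 := by decide +kernel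
def d_m55296_m53248_14336_15360_20 : fr d_m55296_m53248_14336_15360 20 := by decide +kernel
theorem f_m55296_m53248_14336_15360 : fr d_m55296_m53248_14336_15360 0 :=
  (d_m55296_m53248_14336_15360_0.fr (d_m55296_m53248_14336_15360_4.fr (d_m55296_m53248_14336_15360_9.fr (d_m55296_m53248_14336_15360_14.fr (d_m55296_m53248_14336_15360_15.fr (d_m55296_m53248_14336_15360_17.fr d_m55296_m53248_14336_15360_20))))))

noncomputable def d_m55296_m53248_15360_16384 : Cell :=
  ⟨-233096465088512,4398046511104,68169720922112,2199023255552,⟨0,-4503599627370496,0⟩,⟨0,2368214902243328,-146989585006592⟩,0,-1,1,13107,1,(-189115999977472,0),⟨0,6344902967296,12486898964340728,[]⟩,[10071289622310,21756953189,20734560931,0,50738329,24097729],3,[⟨[225179981535708,917327587885,405719867892,-12635655297,5571355374,1901972161],⟨0,123754660888576,695834178967270,[[-30658001007920314,1050090700851824,360621596350748,-19692949706477,-12548646226352,-2402247231321],[-35740842258667736,1450366250653850,512966062158617,-24697542922578,-15891053931166,-30199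15334307],[-5525048820089979],[1711234309450135,-521699739022504,-194160062642487],[0,0,0,0,0,-264717210336],[-356933407886668,94384150431635,34383564534715,5122546645663,3511971101572,368740234081]]⟩,-47501,[⟨-29597,2,(-28587302322176,0),4⟩,⟨-11693,1,(-170424302305280,0),32⟩],13051,[⟨45962,2,(-219902325555200,0),32⟩,⟨78874,4,(-521168511565824,0),1⟩],2,0,[],0,[]⟩,⟨[281474977109966,1448797517767,636550851854,-20873606839,9988511579,3243929346],⟨2,161489120591872,490609907493891,[[42889586958010782,1449380154533924,-4195035638416145,0,0,211461037561144],[27907706506533982,4049756870528231,-245538428594079],[41155595687579340,1993339499654003,0]]⟩,-149429,[⟨-97959,3,(41781441855488,0),6⟩,⟨-46489,3,(122045790683136,0),6⟩],76199,[⟨132075,4,(-495879744126976,0),1⟩,⟨187951,5,(-506874860404736,0),1⟩],5,111845,[⟨186982,3,(0,0),33⟩],43960,[⟨64897,4,(0,0),33⟩,⟨85835,4,(0,0),33⟩,⟨127711,5,(0,0),33⟩]⟩]⟩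
def d_m55296_m53248_15360_16384_0 : sl d_m55296_m53248_15360_16384 0 4 := by decide +kernel
def d_m55296_m53248_15360_16384_4 : sl d_m55296_m53248_15360_16384 4 9 := by decide +kernel
def d_m55296_m53248_15360_16384_9 : sl d_m55296_m53248_15360_16384 9 14 := by decide +kernel
def d_m55296_m53248_15360_16384_14 : sl d_m55296_m53248_15360_16384 14 15 := by decide +kernel
def d_m55296_m53248_15360_16384_15 : sl d_m55296_m53248_15360_16384 15 17 := by decide +kernel
def d_m55296_m53248_15360_16384_17 : sl d_m55296_m53248_15360_16384 17 20 := by decide +kernel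
def d_m55296_m53248_15360_16384_20 : fr d_m55296_m53248_15360_16384 20 := by decide +kernel
theorem f_m55296_m53248_15360_16384 : fr d_m55296_m53248_15360_16384 0 :=
  (d_m55296_m53248_15360_16384_0.fr (d_m55296_m53248_15360_16384_4.fr (d_m55296_m53248_15360_16384_9.fr (d_m55296_m53248_15360_16384_14.fr (d_m55296_m53248_15360_16384_15.fr (d_m55296_m53248_15360_16384_17.fr d_m55296_m53248_15360_16384_20))))))

end Pool.Agent.Lib.MP_d6150d_an
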