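import Pool.Agent.Lib.MP_d6150d_an.Cells

set_option maxRecDepth 100000
set_option linter.defProp false

namespace Pool.Agent.Lib.MP_d6150d_an

noncomputable def d_m53248_m49152_8192_10240 : Cell :=
  ⟨-219902325555200,8796093022208,39582418599936,4398046511104,⟨0,4503599627370496,-84442496368640⟩,⟨0,4503599627370496,-84442496368640⟩,0,1,1,13107,1,(-202310139510784,0),⟨0,6509535887360,12171092333635765,[]⟩,[9869495490569,42216056244,40530899238,0,196489537,94060901],3,[⟨[225179984364654,1860789370729,991914823876,-51131178051,25171180698,9079576120],⟨0,130012192112640,657895262767012,[[78660583983461822,-6519213801742789,-2492034000135129,307191134114823,197751476596170,26900135260333],[89649535705427127,-9472200557691845,-3731470453306123,450501455274488,265070026811616,33060462850914],[0],[-18072522468093936,3845870054802746,1587949557005993,-144610290072950,0,0],[0,0,0,0,68421485692110,6291848322851],[3168665555465597,-771941483380409,-314290944792730]]⟩,-46379,[⟨-28908,2,(-166026255794176,0),32⟩,⟨-11436,2,(-181419418583040,0),32⟩],13050,[⟨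49722,3,(-239693534855168,0),32⟩,⟨86394,4,(-559651418537984,0),0⟩],3,0,[],0,[]⟩,⟨[281474983975008,2936659501736,1568097117797,-84538625076,45860911889,16011488947],⟨2,165340497444864,479181832197868,[[-98400596331752932,-1048464691464916,22747324087130826,0,0,-13548357552826],[-233224947133845757,-1433963477980347,44348858952026674],[-153550410940810189,0,9465731807658670],[0],[0,0,16588316593829150]]⟩,-132505,[⟨-88572,3,(50577534877696,0),6⟩,⟨-66606,3,(102254581383168,0),6⟩,⟨-44639,2,(-29686813949952,0),6⟩],80694,[⟨102959,4,(-523367534821376,0),0⟩,⟨125225,4,(-514571441799168,0),1⟩,⟨169756,5,(-518969488310272,0),1⟩],6,111575,[⟨158627,3,(0,0),33⟩,⟨205680,3,(0,0),33⟩],21175,[⟨22899,3,(0,0),33⟩,⟨24624,3,(0,0),33⟩,⟨26348,3,(0,0),33⟩,⟨28073,3,(0,0),33⟩,⟨31522,3,(0,0),33⟩,⟨34971,4,(0,0),33⟩,⟨41869,4,(0,0),33⟩,⟨48767,4,(0,0),33⟩,⟨62563,4,(0,0),33⟩,⟨76360,5,(0,0),33⟩,⟨103953,5,(0,0),33⟩,⟨131546,6,(0,0),33⟩]⟩]⟩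
def d_m53248_m49152_8192_10240_0 : sl d_m53248_m49152_8192_10240 0 4 := by decide +kernel
def d_m53248_m49152_8192_10240_4 : sl d_m53248_m49152_8192_10240 4 9 := by decide +kernel
def d_m53248_m49152_8192_10240_9 : sl d_m53248_m49152_8192_10240 9 13 := by decide +kernel
def d_m53248_m49152_8192_10240_13 : sl d_m53248_m49152_8192_10240 13 18 := by decide +kernel
def d_m53248_m49152_8192_10240_18 : sl d_m53248_m49152_8192_10240 18 20 := by decide +kernel
def d_m53248_m49152_8192_10240_20 : sl d_m53248_m49152_8192_10240 20 24 := by decide +kernel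
def d_m53248_m49152_8192_10240_24 : sl d_m53248_m49152_8192_10240 24 28 := by decide +kernel
def d_m53248_m49152_8192_10240_28 : sl d_m53248_m49152_8192_10240 28 32 := by decide +kernel
def d_m53248_m49152_8192_10240_32 : fr d_m53248_m49152_8192_10240 32 := by decide +kernel
theorem f_m53248_m49152_8192_10240 : fr d_m53248_m49152_8192_10240 0 :=
  (d_m53248_m49152_8192_10240_0.fr (d_m53248_m49152_8192_10240_4.fr (d_m53248_m49152_8192_10240_9.fr (d_m53248_m49152_8192_10240_13.fr (d_m53248_m49152_8192_10240_18.fr (d_m53248_m49152_8192_10240_20.fr (d_m53248_m49152_8192_10240_24.fr (d_m53248_m49152_8192_10240_28.fr d_m53248_m49152_8192_10240_32))))))))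

noncomputable def d_m53248_m49152_10240_12288 : Cell :=
  ⟨-219902325555200,8796093022208,48378511622144,4398046511104,⟨0,4503599627370496,-84442496368640⟩,⟨0,4503599627370496,-84442496368640⟩,0,1,1,13107,1,(-202310139510784,0),⟨0,6454580150272,12274719716368511,[]⟩,[9950771607938,42610999352,40909018661,0,198455377,95000219],3,[⟨[225179984032485,1763528716842,914646587772,-49569786636,23059164029,8392037960],⟨0,129787422048256,659550905863277,[[73814984642443344,-5904240495933009,-2229085220244847,227286448241248,137378162088945,44450434775985],[82424486446106029,-8370916501218337,-3288242360918744,281957112943618,169060638992578,59576491587298],[0],[-15050061617527904,3143669250690226,1352677934529131],[0,0,0,0,0,15371147697409],[2560134797342698,-556134996645425,-259776100805806,-55686449252682,-32538968880728,0]]⟩,-46944,[⟨-29232,2,(-164926744166400,0),32⟩,⟨-11520,2,(-181419418583040,0),32⟩],13050,[⟨48257,2,(-238594023227392,0),32⟩,⟨83464,4,(-566248488304640,0),0⟩],3,0,[],0,[]⟩,⟨[281474983027135,2771830480082,1439876887751,-81346408733,4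1415017812,14569326894],⟨2,165203137527808,479580253070179,[[-66056828688231389,-4007054889548368,13026743767543240,0,40959054856841,0],[-157426551462294011,-12865654937205312,28329302336135772,-68987938979236,0,-202018301734114],[-110243765702200832,-9721918808489474,15620678143875666],[0],[0,0,1368098311459890],[-6561707193654944]]⟩,-136278,[⟨-90732,3,(47278999994368,0),6⟩,⟨-67959,3,(97856534872064,0),6⟩,⟨-45186,2,(-29686813949952,0),6⟩],78212,[⟨101098,4,(-525566558076928,0),1⟩,⟨123984,4,(-514571441799168,0),1⟩,⟨169756,5,(-518969488310272,0),1⟩],5,110502,[⟨158091,3,(0,0),33⟩,⟨205680,3,(0,0),33⟩],26469,[⟨29752,3,(0,0),33⟩,⟨33036,3,(0,0),33⟩,⟨39603,3,(0,0),33⟩,⟨46170,4,(0,0),33⟩,⟨52738,4,(0,0),33⟩,⟨65872,4,(0,0),33⟩,⟨79007,4,(0,0),33⟩,⟨105276,5,(0,0),33⟩,⟨131546,5,(0,0),33⟩]⟩]⟩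
def d_m53248_m49152_10240_12288_0 : sl d_m53248_m49152_10240_12288 0 4 := by decide +kernel
def d_m53248_m49152_10240_12288_4 : sl d_m53248_m49152_10240_12288 4 9 := by decide +kernel
def d_m53248_m49152_10240_12288_9 : sl d_m53248_m49152_10240_12288 9 13 := by decide +kernel
def d_m53248_m49152_10240_12288_13 : sl d_m53248_m49152_10240_12288 13 18 := by decide +kernel
def d_m53248_m49152_10240_12288_18 : sl d_m53248_m49152_10240_12288 18 20 := by decide +kernel
def d_m53248_m49152_10240_12288_20 : sl d_m53248_m49152_10240_12288 20 24 := by decide +kernel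
def d_m53248_m49152_10240_12288_24 : sl d_m53248_m49152_10240_12288 24 28 := by decide +kernel
def d_m53248_m49152_10240_12288_28 : sl d_m53248_m49152_10240_12288 28 29 := by decide +kernel
def d_m53248_m49152_10240_12288_29 : fr d_m53248_m49152_10240_12288 29 := by decide +kernel
theorem f_m53248_m49152_10240_12288 : fr d_m53248_m49152_10240_12288 0 :=
  (d_m53248_m49152_10240_12288_0.fr (d_m53248_m49152_10240_12288_4.fr (d_m53248_m49152_10240_12288_9.fr (d_m53248_m49152_10240_12288_13.fr (d_m53248_m49152_10240_12288_18.fr (d_m53248_m49152_10240_12288_20.fr (d_m53248_m49152_10240_12288_24.fr (d_m53248_m49152_10240_12288_28.fr d_m53248_m49152_10240_12288_29))))))))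

noncomputable def d_m53248_m49152_12288_14336 : Cell :=
  ⟨-219902325555200,8796093022208,57174604644352,4398046511104,⟨0,4503599627370496,-84442496368640⟩,⟨0,4503599627370496,-84442496368640⟩,0,1,1,13107,1,(-202310139510784,0),⟨0,6400142409728,12379124938588705,[]⟩,[10032806211345,43009894643,41290914913,0,200441739,95949330],3,[⟨[225179983752742,1671916517173,840889754116,-48160367086,21198358693,7792721321],⟨0,129582683783168,661106332999519,[[69490125612152768,-5457583570881419,-2019014194099666,318465923647353,200807752417760,35172848265300],[76100429526403770,-7700630178200293,-2950365968589478,476613670498508,301643440319602,50718871647047],[0],[-12568525606556334,2924342622791530,1194348260331600,-159956046625466,-102018632357562,-15712614837141],[0],[2113610197756598,-561359045034203,-229639388499071]]⟩,-47529,[⟨-29567,2,(-37383395344384,0),4⟩,⟨-11605,2,(-181419418583040,0),32⟩],13051,[⟨46924,2,(-237494511599616,0),32⟩,⟨80798,4,(-542059232493568,0),0⟩],3,0,[],0,[]⟩,⟨[281474982249460,2618254063561,1318880987667,-78499964366,375630889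49,13333833487],⟨2,165076358332416,479948572303002,[[-45592786181285579,-1928712346505675,7955421846407331,111773013964196,0,-101949449903579],[-122138468885734063,-7160441868407066,17937071448095333,0,6248479733228,0],[-102997330089342599,-6068954532250446,12090569179323781,-131410856669767,0,0],[-7546187563391878,0,937346626083257],[0],[-12420611380931787,-385276138192179,0]]⟩,-140613,[⟨-93182,3,(43980465111040,0),6⟩,⟨-69466,3,(93458488360960,0),6⟩,⟨-45750,2,(-29686813949952,0),6⟩],75932,[⟨122844,4,(-517869976682496,0),1⟩,⟨169756,5,(-518969488310272,0),1⟩],5,109632,[⟨186982,3,(0,0),33⟩],31763,[⟨35693,3,(0,0),33⟩,⟨39624,3,(0,0),33⟩,⟨47485,3,(0,0),33⟩,⟨55346,4,(0,0),33⟩,⟨63208,4,(0,0),33⟩,⟨78931,4,(0,0),33⟩,⟨94654,4,(0,0),33⟩,⟨126100,5,(0,0),33⟩,⟨157546,5,(0,0),33⟩]⟩]⟩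
def d_m53248_m49152_12288_14336_0 : sl d_m53248_m49152_12288_14336 0 4 := by decide +kernel
def d_m53248_m49152_12288_14336_4 : sl d_m53248_m49152_12288_14336 4 9 := by decide +kernel
def d_m53248_m49152_12288_14336_9 : sl d_m53248_m49152_12288_14336 9 13 := by decide +kernel
def d_m53248_m49152_12288_14336_13 : sl d_m53248_m49152_12288_14336 13 16 := by decide +kernel
def d_m53248_m49152_12288_14336_16 : sl d_m53248_m49152_12288_14336 16 18 := by decide +kernel
def d_m53248_m49152_12288_14336_18 : sl d_m53248_m49152_12288_14336 18 22 := by decide +kernel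
def d_m53248_m49152_12288_14336_22 : sl d_m53248_m49152_12288_14336 22 26 := by decide +kernel
def d_m53248_m49152_12288_14336_26 : sl d_m53248_m49152_12288_14336 26 27 := by decide +kernel
def d_m53248_m49152_12288_14336_27 : fr d_m53248_m49152_12288_14336 27 := by decide +kernel
theorem f_m53248_m49152_12288_14336 : fr d_m53248_m49152_12288_14336 0 :=
  (d_m53248_m49152_12288_14336_0.fr (d_m53248_m49152_12288_14336_4.fr (d_m53248_m49152_12288_14336_9.fr (d_m53248_m49152_12288_14336_13.fr (d_m53248_m49152_12288_14336_16.fr (d_m53248_m49152_12288_14336_18.fr (d_m53248_m49152_12288_14336_22.fr (d_m53248_m49152_12288_14336_26.fr d_m53248_m49152_12288_14336_27))))))))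

noncomputable def d_m53248_m49152_14336_15360 : Cell :=
  ⟨-219902325555200,8796093022208,63771674411008,2199023255552,⟨0,4503599627370496,-84442496368640⟩,⟨0,4503599627370496,-84442496368640⟩,0,1,1,13107,1,(-202310139510784,0),⟨0,6346217422848,12484312657884117,[]⟩,[10094836401187,43311457680,20789867636,0,100972272,24166866],3,[⟨[225179983037949,1606464217533,393788892280,-47190619577,9972423772,1848381099],⟨0,126635773001728,678461868986503,[[64731300847830946,-4816895876785796,-855905179535793,211854713072747,70362993117680,4415056623610],[69534423896580847,-6559705817088512,-1197457440646799,265988056910100,88730039362628,4851751791911],[0],[-10331452616082210,2187854023568316,415008622641356],[0],[1685009074511361,-324286230273207,-56381418013644,-55407371957027,-19222991449862,-381866404133]]⟩,-47777,[⟨-29735,2,(-37383395344384,0),4⟩,⟨-11693,2,(-181419418583040,0),32⟩],13051,[⟨45726,2,(-237494511599616,0),32⟩,⟨78401,4,(-539860209238016,0),1⟩],2,0,[],0,[]⟩,⟨[281474980484019,2509477840222,616096904978,-76560209310,17501204524,3130468586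],⟨2,163307922063360,485145861329973,[[-26401606084639071,-2366476868082755,2557080871052463,0,0,-18085125562492],[-77698385178258087,-11927685438825561,5938944639969396,-107700263861416,29931667978002,0],[-90498043940980813,-14774912196212651,4627275350266982],[-34212432396163899,-2245830958712197,817347419841654],[0,0,0,-186704932834517,0,0],[0,-3507382809516609,0]]⟩,-143035,[⟨-94704,3,(42880953483264,0),6⟩,⟨-70538,3,(90159953477632,0),6⟩,⟨-46372,2,(-28587302322176,0),6⟩],74797,[⟨122276,4,(-518969488310272,0),1⟩,⟨169756,5,(-518969488310272,0),1⟩],5,109290,[⟨186982,3,(0,0),33⟩],37057,[⟨44587,3,(0,0),33⟩,⟨52118,3,(0,0),33⟩,⟨67179,4,(0,0),33⟩,⟨82240,4,(0,0),33⟩,⟨97301,4,(0,0),33⟩,⟨127423,5,(0,0),33⟩,⟨157546,5,(0,0),33⟩]⟩]⟩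
def d_m53248_m49152_14336_15360_0 : sl d_m53248_m49152_14336_15360 0 4 := by decide +kernel
def d_m53248_m49152_14336_15360_4 : sl d_m53248_m49152_14336_15360 4 9 := by decide +kernel
def d_m53248_m49152_14336_15360_9 : sl d_m53248_m49152_14336_15360 9 13 := by decide +kernel
def d_m53248_m49152_14336_15360_13 : sl d_m53248_m49152_14336_15360 13 16 := by decide +kernel
def d_m53248_m49152_14336_15360_16 : sl d_m53248_m49152_14336_15360 16 18 := by decide +kernel
def d_m53248_m49152_14336_15360_18 : sl d_m53248_m49152_14336_15360 18 22 := by decide +kernel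
def d_m53248_m49152_14336_15360_22 : sl d_m53248_m49152_14336_15360 22 25 := by decide +kernel
def d_m53248_m49152_14336_15360_25 : fr d_m53248_m49152_14336_15360 25 := by decide +kernel
theorem f_m53248_m49152_14336_15360 : fr d_m53248_m49152_14336_15360 0 :=
  (d_m53248_m49152_14336_15360_0.fr (d_m53248_m49152_14336_15360_4.fr (d_m53248_m49152_14336_15360_9.fr (d_m53248_m49152_14336_15360_13.fr (d_m53248_m49152_14336_15360_16.fr (d_m53248_m49152_14336_15360_18.fr (d_m53248_m49152_14336_15360_22.fr d_m53248_m49152_14336_15360_25)))))))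

noncomputable def d_m53248_m49152_15360_16384 : Cell :=
  ⟨-219902325555200,8796093022208,68169720922112,2199023255552,⟨0,3150130878349312,0⟩,⟨0,2109949928800256,0⟩,0,1,1,13107,1,(-202310139510784,0),⟨0,6319445639168,12537201413632040,[]⟩,[10136429573655,43513906378,20886775919,0,101476658,24287365],3,[⟨[225179982967846,1564289052391,376454490560,-46582967666,9584905747,1787245243],⟨0,126574398734336,679054706927795,[[23061751022346368,-1898974313165621,-313554486039260,106022753990759,27027060189274,606191425857],[23735710181872383,-2631195857400901,-417566731179349,154159861647547,34929340417261,0],[0],[-2402030900709027,964045057374622,110721429047356,-48668591694227,0,162068529518],[0,0,0,0,8086373702291,0],[253560999541999,-184732247490925,0,0,0,543642020961]]⟩,-48084,[⟨-29911,2,(-37383395344384,0),4⟩,⟨-11737,2,(-181419418583040,0),32⟩],13051,[⟨45151,2,(-236394999971840,0),32⟩,⟨77252,4,(-539860209238016,0),1⟩],2,0,[],0,[]⟩,⟨[281474980296212,2439814553757,588074566937,-75352848768,16716466732,3007197397],⟨2,163261457432576,48528393510052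1,[[-12355781876482008,-11159740010604989,758362969640156,-211170506619154,710352439406899,-87872867342831],[-3815863808971150,-10176260678047517,1655483672272592,2292536007640409,-473737967990447,23453769653302],[-96110354211482126,21362146497164855,-357759452219575,0,-123165266712183,0],[64172855806441336],[0],[0,-3942961599343425,0,-1854783717154562,0,-557304689631]]⟩,-145657,[⟨-96163,3,(40681930227712,0),6⟩,⟨-71416,3,(87960930222080,0),6⟩,⟨-46669,2,(-28587302322176,0),6⟩],73771,[⟨121763,4,(-518969488310272,0),1⟩,⟨169756,5,(-518969488310272,0),1⟩],4,109022,[⟨186982,3,(0,0),33⟩],39704,[⟨56164,3,(0,0),33⟩,⟨72625,4,(0,0),33⟩,⟨105546,4,(0,0),33⟩]⟩]⟩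
def d_m53248_m49152_15360_16384_0 : sl d_m53248_m49152_15360_16384 0 4 := by decide +kernel
def d_m53248_m49152_15360_16384_4 : sl d_m53248_m49152_15360_16384 4 9 := by decide +kernel
def d_m53248_m49152_15360_16384_9 : sl d_m53248_m49152_15360_16384 9 13 := by decide +kernel
def d_m53248_m49152_15360_16384_13 : sl d_m53248_m49152_15360_16384 13 16 := by decide +kernel
def d_m53248_m49152_15360_16384_16 : sl d_m53248_m49152_15360_16384 16 18 := by decide +kernel
def d_m53248_m49152_15360_16384_18 : sl d_m53248_m49152_15360_16384 18 21 := by decide +kernel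
def d_m53248_m49152_15360_16384_21 : fr d_m53248_m49152_15360_16384 21 := by decide +kernel
theorem f_m53248_m49152_15360_16384 : fr d_m53248_m49152_15360_16384 0 :=
  (d_m53248_m49152_15360_16384_0.fr (d_m53248_m49152_15360_16384_4.fr (d_m53248_m49152_15360_16384_9.fr (d_m53248_m49152_15360_16384_13.fr (d_m53248_m49152_15360_16384_16.fr (d_m53248_m49152_15360_16384_18.fr d_m53248_m49152_15360_16384_21))))))

noncomputable def d_m61440_m59392_16384_16896 : Cell :=
  ⟨-259484744155136,4398046511104,71468255805440,1099511627776,⟨0,-4503599627370496,0⟩,⟨0,2972198973210624,0⟩,0,-1,1,13107,1,(-162727720910848,0),⟨0,6394150846464,12390724694969049,[]⟩,[9971646661953,21833174557,10250703150,0,25464150,5951752],3,[⟨[225179981593866,1240346874073,228694310299,-15469839064,3828037909,534760504],⟨0,122910167072768,700613176772323,[[-40391978664735022,1519884477939667,267168692754307,-27709822779040,-8262515678100,-315705809458],[-44796292509525382,2136078535454949,396573953055600,-36147366908637,-10840624547326,-312900532985],[0],[8227006268848390,-7770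60917685413,-170299718997862],[0,0,0,-8571379285343,-2636815730753,0],[-1506057339036295,126952376349165,36328645247994]]⟩,-46923,[⟨-29265,2,(-139637976727552,0),32⟩,⟨-11606,1,(-149533581377536,0),32⟩],13051,[⟨48020,2,(-184717953466368,0),32⟩,⟨82989,4,(-474989023199232,0),1⟩],2,0,[],0,[]⟩,⟨[281474977326984,2032341677235,362864388041,-27190699568,7357392587,939907095],⟨2,160955492663296,492236463589001,[[-60902471949563104,0,1834094790877699,5234935999188018,0,-88505426297315],[-47552575553426097,31615704351069051,0,-6689200991408526,-902977158474298,0],[261176238518008832,0,-3410626336266251,0,0,115577837360256],[0],[0,-16155338160824855,0],[-72350485590445685,-10099186104102148,0,0,623943099670428,0]]⟩,-159724,[⟨-102896,4,(40681930227712,0),6⟩,⟨-74482,3,(92358976733184,0),6⟩,⟨-60275,3,(148434069749760,0),6⟩,⟨-46068,2,(-9895604649984,0),4⟩],80375,[⟨127257,4,(-436506116227072,0),1⟩,⟨174139,5,(-442003674365952,0),1⟩,⟨221021,5,(-473889511571456,0),1⟩,⟨267903,5,(-507974372032512,0),1⟩],5,118306,[⟨161993,3,(0,0),33⟩,⟨205680,4,(0,0),33⟩],66839,[⟨70593,4,(0,0),33⟩,⟨74347,4,(0,0),33⟩,⟨78101,4,(0,0),33⟩,⟨81856,4,(0,0),33⟩,⟨85610,4,(0,0),33⟩,⟨89365,4,(0,0),33⟩,⟨96874,4,(0,0),33⟩,⟨104383,4,(0,0),33⟩,⟨111892,4,(0,0),33⟩,⟨126910,4,(0,0),33⟩,⟨156946,5,(0,0),33⟩,⟨186982,5,(0,0),33⟩]⟩]⟩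
def d_m61440_m59392_16384_16896_0 : sl d_m61440_m59392_16384_16896 0 4 := by decide +kernel
def d_m61440_m59392_16384_16896_4 : sl d_m61440_m59392_16384_16896 4 9 := by decide +kernel
def d_m61440_m59392_16384_16896_9 : sl d_m61440_m59392_16384_16896 9 13 := by decide +kernel
def d_m61440_m59392_16384_16896_13 : sl d_m61440_m59392_16384_16896 13 18 := by decide +kernel
def d_m61440_m59392_16384_16896_18 : sl d_m61440_m59392_16384_16896 18 20 := by decide +kernel
def d_m61440_m59392_16384_16896_20 : sl d_m61440_m59392_16384_16896 20 22 := by decide +kernel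
def d_m61440_m59392_16384_16896_22 : sl d_m61440_m59392_16384_16896 22 26 := by decide +kernel
def d_m61440_m59392_16384_16896_26 : sl d_m61440_m59392_16384_16896 26 30 := by decide +kernel
def d_m61440_m59392_16384_16896_30 : sl d_m61440_m59392_16384_16896 30 34 := by decide +kernel
def d_m61440_m59392_16384_16896_34 : fr d_m61440_m59392_16384_16896 34 := by decide +kernel
theorem f_m61440_m59392_16384_16896 : fr d_m61440_m59392_16384_16896 0 :=
  (d_m61440_m59392_16384_16896_0.fr (d_m61440_m59392_16384_16896_4.fr (d_m61440_m59392_16384_16896_9.fr (d_m61440_m59392_16384_16896_13.fr (d_m61440_m59392_16384_16896_18.fr (d_m61440_m59392_16384_16896_20.fr (d_m61440_m59392_16384_16896_22.fr (d_m61440_m59392_16384_16896_26.fr (d_m61440_m59392_16384_16896_30.fr d_m61440_m59392_16384_16896_34)))))))))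

noncomputable def d_m61440_m60416_16896_17408 : Cell :=
  ⟨-261683767410688,2199023255552,73667279060992,1099511627776,⟨0,-4503599627370496,0⟩,⟨0,2975510392995840,0⟩,0,-1,1,13107,1,(-160528697655296,0),⟨0,6380636733440,12416968039347191,[]⟩,[9981210677560,10942083192,10261775918,0,12763846,5958608],3,[⟨[225179981387243,628934202104,226855669561,-3909711608,1929816327,531570609],⟨0,121170791759872,711791453599935,[[-39944930310082711,707415064716037,234308843453217,-4055852766327,-4004381855545,-299713040438],[-44232625175854678,953536851876461,325142650447821,-4580570954547,-4999338859681,-297406067141],[0],[8108957154267222,-283008379334262,-105342071253503],[0],[-1485717819930099,19624876879713,9794267429952,490574411436,987732170606,0]]⟩,-46900,[⟨-29264,2,(-138538465099776,0),32⟩,⟨-11627,1,(-148434069749760,0),32⟩],13051,[⟨47745,2,(-181419418583040,0),32⟩,⟨82439,4,(-469491465060352,0),1⟩],2,0,[],0,[]⟩,⟨[281474976762552,1033136881985,360056747561,-6900143271,3721462498,933867154],⟨2,159821283065856,495729736275558,[[-76843362973906545,-254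6103634351388,0,739815185332241,0,0],[-51587998226623805,14671126527044023,-1596434402357578,0,33416900792630,0],[280160786448718279,0,204634693829096,0,0,27441105286143],[0],[0],[-79467385713336080,-8856813165007046,0,-927009060602006,0,0]]⟩,-161179,[⟨-103723,4,(40681930227712,0),6⟩,⟨-74995,3,(91259465105408,0),6⟩,⟨-46266,3,(219902325555200,-412316860416),6⟩],80516,[⟨128389,4,(-429909046460416,0),1⟩,⟨176262,5,(-434307092971520,0),1⟩,⟨224135,5,(-468391953432576,0),1⟩,⟨272008,5,(-504675837149184,0),1⟩],5,118127,[⟨161903,3,(0,0),33⟩,⟨205680,4,(0,0),33⟩],69984,[⟨84608,4,(0,0),33⟩,⟨99233,4,(0,0),33⟩,⟨128483,4,(0,0),33⟩,⟨186982,5,(0,0),33⟩]⟩]⟩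
def d_m61440_m60416_16896_17408_0 : sl d_m61440_m60416_16896_17408 0 4 := by decide +kernel
def d_m61440_m60416_16896_17408_4 : sl d_m61440_m60416_16896_17408 4 9 := by decide +kernel
def d_m61440_m60416_16896_17408_9 : sl d_m61440_m60416_16896_17408 9 13 := by decide +kernel
def d_m61440_m60416_16896_17408_13 : sl d_m61440_m60416_16896_17408 13 18 := by decide +kernel
def d_m61440_m60416_16896_17408_18 : sl d_m61440_m60416_16896_17408 18 19 := by decide +kernel
def d_m61440_m60416_16896_17408_19 : sl d_m61440_m60416_16896_17408 19 21 := by decide +kernel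
def d_m61440_m60416_16896_17408_21 : sl d_m61440_m60416_16896_17408 21 25 := by decide +kernel
def d_m61440_m60416_16896_17408_25 : fr d_m61440_m60416_16896_17408 25 := by decide +kernel
theorem f_m61440_m60416_16896_17408 : fr d_m61440_m60416_16896_17408 0 :=
  (d_m61440_m60416_16896_17408_0.fr (d_m61440_m60416_16896_17408_4.fr (d_m61440_m60416_16896_17408_9.fr (d_m61440_m60416_16896_17408_13.fr (d_m61440_m60416_16896_17408_18.fr (d_m61440_m60416_16896_17408_19.fr (d_m61440_m60416_16896_17408_21.fr d_m61440_m60416_16896_17408_25)))))))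

noncomputable def d_m60416_m59392_16896_17408 : Cell :=
  ⟨-257285720899584,2199023255552,73667279060992,1099511627776,⟨0,-3833704988278784,0⟩,⟨0,4503599627370496,-84442496368640⟩,0,-1,1,13107,1,(-164926744166400,0),⟨0,6367997722624,12441612910577145,[]⟩,[10003051066046,10942083192,10287303610,0,12763846,5974514],3,[⟨[225179981385209,595201119737,220987074375,-3746880415,1808746458,517662378],⟨0,121125261541376,712222568571561,[[-45861055583672497,860323182613904,274477586811857,-3461351579292,-3809291733718,-366291325065],[-50379541862702563,1246678216865750,398323806893107,-3538571526620,-5306960485099,-371392898690],[0],[8942470798682696,-525521502255995,-160478529514381,0,1516965808591,0],[0],[-1682461994597516,119515547991119,31190228555545]]⟩,-47015,[⟨-29332,2,(-140737488355328,0),32⟩,⟨-11649,1,(-151732604633088,0),32⟩],13051,[⟨47248,2,(-188016488349696,0),32⟩,⟨81445,4,(-478287558082560,0),1⟩],2,0,[],0,[]⟩,⟨[281474976755441,969407582673,349802483985,-6517519752,3433608807,902949741],⟨2,159786569891840,495837432289729,[[32787373990713408,2740610373234726,0],[23826506165187298,3685031766874394,-476871616469006],[27124209025026421,0,-2672050468132365]]⟩,-159897,[⟨-103141,4,(40681930227712,0),6⟩,⟨-46384,3,(124244813938688,0),6⟩],79594,[⟨123445,4,(-444202697621504,0),1⟩,⟨167297,4,(-446401720877056,0),1⟩,⟨211149,5,(-474989023199232,0),1⟩,⟨255001,5,(-505775348776960,0),1⟩],5,117187,[⟨161433,3,(0,0),33⟩,⟨205680,4,(0,0),33⟩],65608,[⟨91702,4,(0,0),33⟩,⟨117796,4,(0,0),33⟩,⟨169984,5,(0,0),33⟩]⟩]⟩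
def d_m60416_m59392_16896_17408_0 : sl d_m60416_m59392_16896_17408 0 4 := by decide +kernel
def d_m60416_m59392_16896_17408_4 : sl d_m60416_m59392_16896_17408 4 9 := by decide +kernel
def d_m60416_m59392_16896_17408_9 : sl d_m60416_m59392_16896_17408 9 13 := by decide +kernel
def d_m60416_m59392_16896_17408_13 : sl d_m60416_m59392_16896_17408 13 18 := by decide +kernel
def d_m60416_m59392_16896_17408_18 : sl d_m60416_m59392_16896_17408 18 20 := by decide +kernel
def d_m60416_m59392_16896_17408_20 : sl d_m60416_m59392_16896_17408 20 23 := by decide +kernel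
def d_m60416_m59392_16896_17408_23 : fr d_m60416_m59392_16896_17408 23 := by decide +kernel
theorem f_m60416_m59392_16896_17408 : fr d_m60416_m59392_16896_17408 0 :=
  (d_m60416_m59392_16896_17408_0.fr (d_m60416_m59392_16896_17408_4.fr (d_m60416_m59392_16896_17408_9.fr (d_m60416_m59392_16896_17408_13.fr (d_m60416_m59392_16896_17408_18.fr (d_m60416_m59392_16896_17408_20.fr d_m60416_m59392_16896_17408_23))))))

noncomputable def d_m61440_m60416_17408_18432 : Cell :=
  ⟨-261683767410688,2199023255552,76965813944320,2199023255552,⟨0,-4503599627370496,0⟩,⟨0,2861809723768832,0⟩,0,-1,1,13107,1,(-160528697655296,0),⟨0,6367154601984,12443260387617888,[]⟩,[10011987867538,10980460810,20595201438,0,25623332,23923458],3,[⟨[225179981401248,616214807401,439339603097,-3846744108,3720240653,2065676772],⟨0,122454205399040,703692387981618,[[-38523019935749853,670565599064783,435435331395549,320416391004,3127003805418,-2336545913363],[-42503037329718738,884711432247686,586989994285042,0,6262653318144,-3158786787218],[0,0,0,-2107017380913,0,0],[7598574534300695,-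230796885213125,-163056470029879,0,0,840901619764],[0],[-1370232627152076,0,2410231378767,-1825697601159,-3321549263703,0]]⟩,-47218,[⟨-29434,2,(-138538465099776,0),32⟩,⟨-11649,1,(-148434069749760,0),32⟩],13051,[⟨47380,2,(-181419418583040,0),32⟩,⟨81709,3,(-469491465060352,0),1⟩],2,0,[],0,[]⟩,⟨[281474976801182,1009363373994,696158987594,-6754163436,7123223849,3606551605],⟨2,160654865596416,493157566268741,[[-69124297127256427,-3002204363262362,945778425871000,825444310311247,0,10658415267817],[-52082114361462614,14711792494070017,-2469627626458522],[261317758912959801,0,0,0,0,76814560561815],[0,0,-920673206947560],[0],[-73861938523415660,-8988876819398170,0,-943362346242272,0,0]]⟩,-164291,[⟨-105342,4,(38482906972160,0),6⟩,⟨-75867,3,(89060441849856,0),6⟩,⟨-61130,3,(145135534866432,0),6⟩,⟨-46392,2,(-8796093022208,0),4⟩],79287,[⟨129534,4,(-429909046460416,0),1⟩,⟨179781,5,(-436506116227072,0),1⟩,⟨230028,5,(-472789999943680,0),1⟩,⟨280276,5,(-509073883660288,0),1⟩],5,117845,[⟨161762,3,(0,0),33⟩,⟨205680,4,(0,0),33⟩],74297,[⟨88382,4,(0,0),33⟩,⟨102468,4,(0,0),33⟩,⟨130639,4,(0,0),33⟩,⟨186982,5,(0,0),33⟩]⟩]⟩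
def d_m61440_m60416_17408_18432_0 : sl d_m61440_m60416_17408_18432 0 4 := by decide +kernel
def d_m61440_m60416_17408_18432_4 : sl d_m61440_m60416_17408_18432 4 9 := by decide +kernel
def d_m61440_m60416_17408_18432_9 : sl d_m61440_m60416_17408_18432 9 13 := by decide +kernel
def d_m61440_m60416_17408_18432_13 : sl d_m61440_m60416_17408_18432 13 18 := by decide +kernel
def d_m61440_m60416_17408_18432_18 : sl d_m61440_m60416_17408_18432 18 20 := by decide +kernel
def d_m61440_m60416_17408_18432_20 : sl d_m61440_m60416_17408_18432 20 22 := by decide +kernel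
def d_m61440_m60416_17408_18432_22 : sl d_m61440_m60416_17408_18432 22 26 := by decide +kernel
def d_m61440_m60416_17408_18432_26 : fr d_m61440_m60416_17408_18432 26 := by decide +kernel
theorem f_m61440_m60416_17408_18432 : fr d_m61440_m60416_17408_18432 0 :=
  (d_m61440_m60416_17408_18432_0.fr (d_m61440_m60416_17408_18432_4.fr (d_m61440_m60416_17408_18432_9.fr (d_m61440_m60416_17408_18432_13.fr (d_m61440_m60416_17408_18432_18.fr (d_m61440_m60416_17408_18432_20.fr (d_m61440_m60416_17408_18432_22.fr d_m61440_m60416_17408_18432_26)))))))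

noncomputable def d_m60416_m59392_17408_18432 : Cell :=
  ⟨-257285720899584,2199023255552,76965813944320,2199023255552,⟨0,-3958009931759616,0⟩,⟨0,4503599627370496,-84442496368640⟩,0,-1,1,13107,1,(-164926744166400,0),⟨0,6354545278976,12467951502534132,[]⟩,[10033904828824,10980460810,20646448102,0,25623332,23987330],3,[⟨[225179981397751,583357830671,427864246818,-3690465629,3490721572,2013013334],⟨0,122400924565504,704161244854410,[[-47497231948399467,908142759297465,580997429744373,-4617214929964,-8887132634408,-1686428676000],[-52008094840351495,1330801606889166,856261845245145,-4782017053120,-11429678001309,-1738007137794],[0],[9015820176904272,-584186675343085,-366401888856917,0,2495265113407,0],[0],[-1674338857781582,141268962345106,80055215486417]]⟩,-47335,[⟨-29503,2,(-14293651161088,0),4⟩,⟨-11671,1,(-151732604633088,0),32⟩],13051,[⟨46897,2,(-188016488349696,0),32⟩,⟨80743,3,(-478287558082560,0),1⟩],2,0,[],0,[]⟩,⟨[281474976789127,947737591113,676229874150,-6390199333,6582966145,3490484726],⟨2,160616587657216,493275094955461,[[193281194634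62621,3045727707875806,-1094433173467326,0,0,55225367017670],[20709537322405039,3921153790052608,-1160233220762367],[41168749513708728,0,-2854329851685178],[0],[0],[8294700303962671]]⟩,-163009,[⟨-104760,4,(38482906972160,0),6⟩,⟨-75636,3,(89060441849856,0),6⟩,⟨-46511,2,(-9895604649984,0),6⟩],78407,[⟨124622,4,(-444202697621504,0),1⟩,⟨170837,5,(-447501232504832,0),1⟩,⟨217052,5,(-478287558082560,0),1⟩,⟨263268,5,(-510173395288064,0),1⟩],5,116926,[⟨186982,4,(0,0),33⟩],69788,[⟨84437,4,(0,0),33⟩,⟨99086,4,(0,0),33⟩,⟨128385,4,(0,0),33⟩,⟨157683,5,(0,0),33⟩,⟨186982,5,(0,0),33⟩]⟩]⟩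
def d_m60416_m59392_17408_18432_0 : sl d_m60416_m59392_17408_18432 0 4 := by decide +kernel
def d_m60416_m59392_17408_18432_4 : sl d_m60416_m59392_17408_18432 4 9 := by decide +kernel
def d_m60416_m59392_17408_18432_9 : sl d_m60416_m59392_17408_18432 9 13 := by decide +kernel
def d_m60416_m59392_17408_18432_13 : sl d_m60416_m59392_17408_18432 13 18 := by decide +kernel
def d_m60416_m59392_17408_18432_18 : sl d_m60416_m59392_17408_18432 18 20 := by decide +kernel
def d_m60416_m59392_17408_18432_20 : sl d_m60416_m59392_17408_18432 20 24 := by decide +kernel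
def d_m60416_m59392_17408_18432_24 : sl d_m60416_m59392_17408_18432 24 25 := by decide +kernel
def d_m60416_m59392_17408_18432_25 : fr d_m60416_m59392_17408_18432 25 := by decide +kernel
theorem f_m60416_m59392_17408_18432 : fr d_m60416_m59392_17408_18432 0 :=
  (d_m60416_m59392_17408_18432_0.fr (d_m60416_m59392_17408_18432_4.fr (d_m60416_m59392_17408_18432_9.fr (d_m60416_m59392_17408_18432_13.fr (d_m60416_m59392_17408_18432_18.fr (d_m60416_m59392_17408_18432_20.fr (d_m60416_m59392_17408_18432_24.fr d_m60416_m59392_17408_18432_25)))))))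

noncomputable def d_m61440_m60416_18432_20480 : Cell :=
  ⟨-261683767410688,2199023255552,83562883710976,4398046511104,⟨0,-3257586665127936,0⟩,⟨0,4503599627370496,-84442496368640⟩,0,-1,1,13107,1,(-160528697655296,0),⟨0,6340285759488,12495992387864115,[]⟩,[10073864460337,11057677116,41478661251,0,51631543,96410312],3,[⟨[225179981437267,591884161665,822664047103,-3729003062,6924495931,7814837021],⟨0,125059767992320,687789453758557,[[-38156688007286634,710152424027330,902070209525821,-4469977925203,-17416062282805,-4614541166063],[-41643472559306342,1037550352120142,1325499504588035,-4634556600033,-24807418510396,-4674508508849],[0],[7036042537510942,-453179269594859,-564366372084685,0,7414426943264,0],[0],[-1304596641573071,109855064187129,123763625762067]]⟩,-47872,[⟨-29782,2,(-10995116277760,0),4⟩,⟨-11692,1,(-148434069749760,0),32⟩],13051,[⟨46685,2,(-181419418583040,0),32⟩,⟨80319,3,(-469491465060352,0),1⟩],2,0,[],0,[]⟩,⟨[281474976902517,964386155258,1299605782075,-6484817811,13079713766,13483559565],⟨2,162300784082944,488156375499414,[[150837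34359609381,816108539302843,-4655729636692095,0,0,75209084160453],[19666902481060114,2383843617167934,-2309394620138372],[30463724907915677],[0],[0,1867861789479133,0],[7010690338772630]]⟩,-171480,[⟨-109064,4,(35184372088832,0),6⟩,⟨-77856,3,(83562883710976,0),6⟩,⟨-46647,2,(-7696581394432,0),4⟩],76969,[⟨132047,4,(-429909046460416,0),1⟩,⟨187126,5,(-438705139482624,0),1⟩,⟨242204,5,(-480486581338112,0),1⟩,⟨269743,5,(-509073883660288,0),1⟩,⟨297283,5,(-524467046449152,0),1⟩],5,117654,[⟨186982,4,(0,0),33⟩],83441,[⟨98720,4,(0,0),33⟩,⟨114000,4,(0,0),33⟩,⟨144560,4,(0,0),33⟩,⟨175120,5,(0,0),33⟩,⟨205680,5,(0,0),33⟩]⟩]⟩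
def d_m61440_m60416_18432_20480_0 : sl d_m61440_m60416_18432_20480 0 4 := by decide +kernel
def d_m61440_m60416_18432_20480_4 : sl d_m61440_m60416_18432_20480 4 9 := by decide +kernel
def d_m61440_m60416_18432_20480_9 : sl d_m61440_m60416_18432_20480 9 13 := by decide +kernel
def d_m61440_m60416_18432_20480_13 : sl d_m61440_m60416_18432_20480 13 18 := by decide +kernel
def d_m61440_m60416_18432_20480_18 : sl d_m61440_m60416_18432_20480 18 19 := by decide +kernel
def d_m61440_m60416_18432_20480_19 : sl d_m61440_m60416_18432_20480 19 21 := by decide +kernel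
def d_m61440_m60416_18432_20480_21 : sl d_m61440_m60416_18432_20480 21 25 := by decide +kernel
def d_m61440_m60416_18432_20480_25 : sl d_m61440_m60416_18432_20480 25 26 := by decide +kernel
def d_m61440_m60416_18432_20480_26 : fr d_m61440_m60416_18432_20480 26 := by decide +kernel
theorem f_m61440_m60416_18432_20480 : fr d_m61440_m60416_18432_20480 0 :=
  (d_m61440_m60416_18432_20480_0.fr (d_m61440_m60416_18432_20480_4.fr (d_m61440_m60416_18432_20480_9.fr (d_m61440_m60416_18432_20480_13.fr (d_m61440_m60416_18432_20480_18.fr (d_m61440_m60416_18432_20480_19.fr (d_m61440_m60416_18432_20480_21.fr (d_m61440_m60416_18432_20480_25.fr d_m61440_m60416_18432_20480_26))))))))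

noncomputable def d_m60416_m59392_18432_20480 : Cell :=
  ⟨-257285720899584,2199023255552,83562883710976,4398046511104,⟨0,-4207534646755328,0⟩,⟨0,4503599627370496,-84442496368640⟩,0,-1,1,13107,1,(-164926744166400,0),⟨0,6327735681024,12520776198736522,[]⟩,[10095935428021,11057677116,41581924336,0,51631543,96667803],3,[⟨[225179981429395,560644947394,800678155197,-3584699478,6511060562,7625770390],⟨0,124991689195520,688323918806237,[[-50737604759020578,977991300909020,1243217463349168,-6864833048546,-25323747415252,-8356897725924],[-55205376083505560,1434900115490263,1827887891812193,-7125944763579,-36115407593405,-9628854420598],[0],[9136787153866411,-633914137259164,-777986487631457,0,10826259505433,1217135796743],[0],[-1663638969649951,155338328944519,169871008728398]]⟩,-47991,[⟨-29853,2,(-14293651161088,0),4⟩,⟨-11714,1,(-151732604633088,0),32⟩],13051,[⟨46228,2,(-188016488349696,0),32⟩,⟨79405,3,(-477188046454784,0),1⟩],2,0,[],0,[]⟩,⟨[281474976876021,906584826712,1261854355790,-6154281499,12124573968,13073454623],⟨2,162256609542144,4882892767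82428,[[19393962118907265,312128503857116,-5789011382765893,0,-249697350496817,0],[24477645559843810,3194164925487119,-2431392288326372],[39810595871603966,3281457188903545,0],[0],[0],[8697186345503132]]⟩,-170199,[⟨-108484,4,(35184372088832,0),6⟩,⟨-77627,3,(83562883710976,0),6⟩,⟨-46769,2,(-9895604649984,0),4⟩],76164,[⟨127192,4,(-444202697621504,0),1⟩,⟨178220,5,(-449700255760384,0),1⟩,⟨229248,5,(-485984139476992,0),1⟩,⟨280276,5,(-476088534827008,1168231104512),1⟩],5,116775,[⟨186982,4,(0,0),33⟩],78667,[⟨92206,4,(0,0),33⟩,⟨105745,4,(0,0),33⟩,⟨132824,4,(0,0),33⟩,⟨186982,5,(0,0),33⟩]⟩]⟩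
def d_m60416_m59392_18432_20480_0 : sl d_m60416_m59392_18432_20480 0 4 := by decide +kernel
def d_m60416_m59392_18432_20480_4 : sl d_m60416_m59392_18432_20480 4 9 := by decide +kernel
def d_m60416_m59392_18432_20480_9 : sl d_m60416_m59392_18432_20480 9 13 := by decide +kernel
def d_m60416_m59392_18432_20480_13 : sl d_m60416_m59392_18432_20480 13 18 := by decide +kernel
def d_m60416_m59392_18432_20480_18 : sl d_m60416_m59392_18432_20480 18 20 := by decide +kernel
def d_m60416_m59392_18432_20480_20 : sl d_m60416_m59392_18432_20480 20 24 := by decide +kernel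
def d_m60416_m59392_18432_20480_24 : fr d_m60416_m59392_18432_20480 24 := by decide +kernel
theorem f_m60416_m59392_18432_20480 : fr d_m60416_m59392_18432_20480 0 :=
  (d_m60416_m59392_18432_20480_0.fr (d_m60416_m59392_18432_20480_4.fr (d_m60416_m59392_18432_20480_9.fr (d_m60416_m59392_18432_20480_13.fr (d_m60416_m59392_18432_20480_18.fr (d_m60416_m59392_18432_20480_20.fr d_m60416_m59392_18432_20480_24))))))

noncomputable def d_m59392_m57344_16384_16896 : Cell :=
  ⟨-250688651132928,4398046511104,71468255805440,1099511627776,⟨0,-4503599627370496,0⟩,⟨0,4167965113057280,-84442496368640⟩,0,-1,1,13107,1,(-171523813933056,0),⟨0,6368813121536,12440019952408154,[]⟩,[10015225659287,21833174557,10301631450,0,25464150,5983482],3,[⟨[225179981548910,1112290094573,217185971200,-14269205668,3376111105,507815481],⟨0,122725953568768,702016006092405,[[-50979410345604403,1958885241300478,319282924272630,-32389718369057,-12206864374202,-393034805844],[-55735215321414491,2863947800465194,470116070001898,-41266791597252,-17556024400835,-389397358510],[0],[951609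4917899955,-1247134651020906,-200515639939978,8545471255130,5388976506867,0],[0],[-1730776453608163,298069511622513,43697604203242]]⟩,-47152,[⟨-29401,2,(-145135534866432,0),32⟩,⟨-11649,1,(-156130651144192,0),32⟩],13051,[⟨47042,2,(-196812581371904,0),32⟩,⟨81034,4,(-491481697615872,0),1⟩],2,0,[],0,[]⟩,⟨[281474977174744,1794324635963,342894348722,-24425213027,6302362343,880577980],⟨2,160831923290112,492614655781652,[[45201657793242572,4429802767312466,-2315361676767332,0,-18292776753224,5797731635490],[38398777097634643,7503682948914630,-1171273122083871],[33362419323486745,1596292642747430,0]]⟩,-157089,[⟨-101699,4,(40681930227712,0),6⟩,⟨-46309,3,(124244813938688,0),6⟩],78620,[⟨118083,4,(-461794883665920,0),1⟩,⟨157546,4,(-461794883665920,0),1⟩,⟨197009,5,(-483785116221440,0),1⟩,⟨236473,5,(-509073883660288,0),1⟩],5,116354,[⟨186982,3,(0,0),33⟩],58998,[⟨72871,4,(0,0),33⟩,⟨86744,4,(0,0),33⟩,⟨114491,4,(0,0),33⟩,⟨169984,5,(0,0),33⟩]⟩]⟩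
def d_m59392_m57344_16384_16896_0 : sl d_m59392_m57344_16384_16896 0 4 := by decide +kernel
def d_m59392_m57344_16384_16896_4 : sl d_m59392_m57344_16384_16896 4 9 := by decide +kernel
def d_m59392_m57344_16384_16896_9 : sl d_m59392_m57344_16384_16896 9 13 := by decide +kernel
def d_m59392_m57344_16384_16896_13 : sl d_m59392_m57344_16384_16896 13 17 := by decide +kernel
def d_m59392_m57344_16384_16896_17 : sl d_m59392_m57344_16384_16896 17 19 := by decide +kernel
def d_m59392_m57344_16384_16896_19 : sl d_m59392_m57344_16384_16896 19 23 := by decide +kernel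
def d_m59392_m57344_16384_16896_23 : fr d_m59392_m57344_16384_16896 23 := by decide +kernel
theorem f_m59392_m57344_16384_16896 : fr d_m59392_m57344_16384_16896 0 :=
  (d_m59392_m57344_16384_16896_0.fr (d_m59392_m57344_16384_16896_4.fr (d_m59392_m57344_16384_16896_9.fr (d_m59392_m57344_16384_16896_13.fr (d_m59392_m57344_16384_16896_17.fr (d_m59392_m57344_16384_16896_19.fr d_m59392_m57344_16384_16896_23))))))

noncomputable def d_m59392_m57344_16896_17408 : Cell :=
  ⟨-250688651132928,4398046511104,73667279060992,1099511627776,⟨0,-4503599627370496,0⟩,⟨0,4114694633684992,-84442496368640⟩,0,-1,1,13107,1,(-171523813933056,0),⟨0,6355358646272,12466355805344688,[]⟩,[10035811617052,21884166384,10325595147,0,25527692,5998373],3,[⟨[225179981543944,1097658614327,212537952769,-14135851651,3299146810,498481641],⟨0,122708486782976,702253482719407,[[-49809641186949824,1903248800874675,308921779326405,-31642603062987,-11876125303010,-384344045212],[-54230261457035271,2773238576687447,453283683253977,-40262797103813,-17069459164634,-380718093063],[0],[904291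7909708695,-1198700536134801,-191781073428922,8286873050964,5232973366318,0],[0],[-1632025762651064,285199573121811,41509838159427]]⟩,-47301,[⟨-29486,2,(-145135534866432,0),32⟩,⟨-11671,1,(-156130651144192,0),32⟩],13051,[⟨46719,2,(-196812581371904,0),32⟩,⟨80387,4,(-491481697615872,0),1⟩],2,0,[],0,[]⟩,⟨[281474977159074,1768147359160,335228558685,-24132711464,6133604273,861096638],⟨2,160814960214016,492666617569593,[[41594252090156075,3025139266020937,-2127223180265941,0,-65268924966226,0],[36711699926497532,6928795582407283,-997617853193349],[32836485547766304,3135827271149323,0]]⟩,-158544,[⟨-102500,4,(39582418599936,0),6⟩,⟨-46456,3,(122045790683136,0),6⟩],78021,[⟨118660,4,(-461794883665920,0),1⟩,⟨159300,4,(-461794883665920,0),1⟩,⟨199939,5,(-484884627849216,0),1⟩,⟨240579,5,(-511272906915840,0),1⟩],5,116195,[⟨186982,3,(0,0),33⟩],61898,[⟨75408,4,(0,0),33⟩,⟨88919,4,(0,0),33⟩,⟨115941,4,(0,0),33⟩,⟨169984,5,(0,0),33⟩]⟩]⟩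
def d_m59392_m57344_16896_17408_0 : sl d_m59392_m57344_16896_17408 0 4 := by decide +kernel
def d_m59392_m57344_16896_17408_4 : sl d_m59392_m57344_16896_17408 4 9 := by decide +kernel
def d_m59392_m57344_16896_17408_9 : sl d_m59392_m57344_16896_17408 9 13 := by decide +kernel
def d_m59392_m57344_16896_17408_13 : sl d_m59392_m57344_16896_17408 13 17 := by decide +kernel
def d_m59392_m57344_16896_17408_17 : sl d_m59392_m57344_16896_17408 17 19 := by decide +kernel
def d_m59392_m57344_16896_17408_19 : sl d_m59392_m57344_16896_17408 19 23 := by decide +kernel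
def d_m59392_m57344_16896_17408_23 : fr d_m59392_m57344_16896_17408 23 := by decide +kernel
theorem f_m59392_m57344_16896_17408 : fr d_m59392_m57344_16896_17408 0 :=
  (d_m59392_m57344_16896_17408_0.fr (d_m59392_m57344_16896_17408_4.fr (d_m59392_m57344_16896_17408_9.fr (d_m59392_m57344_16896_17408_13.fr (d_m59392_m57344_16896_17408_17.fr (d_m59392_m57344_16896_17408_19.fr d_m59392_m57344_16896_17408_23))))))

noncomputable def d_m59392_m57344_17408_18432 : Cell :=
  ⟨-250688651132928,4398046511104,76965813944320,2199023255552,⟨0,-4503599627370496,0⟩,⟨0,3975305765060608,-84442496368640⟩,0,-1,1,13107,1,(-171523813933056,0),⟨0,6341936021504,12492740801249559,[]⟩,[10066780143324,21960921621,20723318098,0,51246664,24083139],3,[⟨[225179981585439,1076195930379,411322839496,-13942711461,6376676786,1940302953],⟨0,123996316696576,694339817083068,[[-48168061013937919,1842251098580967,597461065685695,-31110829010821,-24745958751950,-1494950437220],[-52258581794446664,2680678720477210,877121710893741,-39794401429813,-35797882803374,-1481331984734],[0],[84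90948170222924,-1155221781889351,-372374946301116,8349102422451,11134974620518,0],[0],[-1515270636456628,274719163758473,81315592034536]]⟩,-47625,[⟨-29659,2,(-17592186044416,0),4⟩,⟨-11693,1,(-156130651144192,0),32⟩],13051,[⟨46385,2,(-196812581371904,0),32⟩,⟨79719,3,(-490382185988096,0),1⟩],2,0,[],0,[]⟩,⟨[281474977263382,1729937076438,647854627513,-23711529253,11784416002,3333054838],⟨2,161632386023424,490175047633454,[[35902723009848351,1577365561133327,-3715596183727051,0,-217658523824619,32045252683897],[34426421583424698,6074754625349143,-1561488936787906],[33299448371479130,4529565960459737,0]]⟩,-161656,[⟨-104120,4,(38482906972160,0),6⟩,⟨-46584,3,(119846767427584,0),6⟩],76899,[⟨119885,4,(-461794883665920,0),1⟩,⟨162872,4,(-462894395293696,0),1⟩,⟨205859,5,(-488183162732544,0),1⟩,⟨248846,5,(-514571441799168,0),1⟩],5,115955,[⟨186982,4,(0,0),33⟩],65965,[⟨78967,4,(0,0),33⟩,⟨91969,4,(0,0),33⟩,⟨117974,4,(0,0),33⟩,⟨169984,5,(0,0),33⟩]⟩]⟩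
def d_m59392_m57344_17408_18432_0 : sl d_m59392_m57344_17408_18432 0 4 := by decide +kernel
def d_m59392_m57344_17408_18432_4 : sl d_m59392_m57344_17408_18432 4 9 := by decide +kernel
def d_m59392_m57344_17408_18432_9 : sl d_m59392_m57344_17408_18432 9 13 := by decide +kernel
def d_m59392_m57344_17408_18432_13 : sl d_m59392_m57344_17408_18432 13 17 := by decide +kernel
def d_m59392_m57344_17408_18432_17 : sl d_m59392_m57344_17408_18432 17 19 := by decide +kernel
def d_m59392_m57344_17408_18432_19 : sl d_m59392_m57344_17408_18432 19 23 := by decide +kernel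
def d_m59392_m57344_17408_18432_23 : fr d_m59392_m57344_17408_18432 23 := by decide +kernel
theorem f_m59392_m57344_17408_18432 : fr d_m59392_m57344_17408_18432 0 :=
  (d_m59392_m57344_17408_18432_0.fr (d_m59392_m57344_17408_18432_4.fr (d_m59392_m57344_17408_18432_9.fr (d_m59392_m57344_17408_18432_13.fr (d_m59392_m57344_17408_18432_17.fr (d_m59392_m57344_17408_18432_19.fr d_m59392_m57344_17408_18432_23))))))

noncomputable def d_m59392_m57344_18432_20480 : Cell :=
  ⟨-250688651132928,4398046511104,83562883710976,4398046511104,⟨0,-4503599627370496,0⟩,⟨0,3781929157525504,-84442496368640⟩,0,-1,1,13107,1,(-171523813933056,0),⟨0,6315185668096,12545658514461537,[]⟩,[10129041365510,22115354232,41736818964,0,103263085,97054040],3,[⟨[225179981726687,1034894424306,768913149641,-13579410695,11928589515,7364216597],⟨0,126612944650240,678783767685297,[[-45860199474745191,1625445469071394,990735265575867,-26582578988928,-51443017541813,-18392364444946],[-49470213296060351,2224139550829484,1319096452575771,-34157102059760,-77535070521855,-26459682080064],[0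],[7700666642994336,-753215155441233,-350429311714189,7545072196415,26302262524680,7875274756613],[0],[-1359211191237651,114091168294007,0]]⟩,-48289,[⟨-30013,2,(-17592186044416,0),4⟩,⟨-11736,1,(-156130651144192,0),32⟩],13051,[⟨45747,2,(-196812581371904,0),32⟩,⟨78444,3,(-490382185988096,0),1⟩],2,0,[],0,[]⟩,⟨[281474977617499,1657020167510,1207923414333,-22927002265,21791704440,12515262055],⟨2,163248191045632,485323371852163,[[19495171403841748,2608674300252645,-5504147532044051,0,0,123789108925836],[27184989108918080,5977308928503659,-2060273462316243],[42567296233802930,1401454730474802,0],[0],[0,1754154783188199,0],[7274399364446459]]⟩,-168846,[⟨-107846,4,(35184372088832,0),6⟩,⟨-77346,3,(82463372083200,0),6⟩,⟨-46845,2,(-13194139533312,0),4⟩],74774,[⟨122544,4,(-461794883665920,0),1⟩,⟨170314,5,(-465093418549248,0),1⟩,⟨218084,5,(-494780232499200,0),1⟩,⟨265854,5,(-522268023193600,0),1⟩],5,115847,[⟨186982,4,(0,0),33⟩],74619,[⟨88664,4,(0,0),33⟩,⟨102709,4,(0,0),33⟩,⟨130800,4,(0,0),33⟩,⟨158891,5,(0,0),33⟩,⟨186982,5,(0,0),33⟩]⟩]⟩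
def d_m59392_m57344_18432_20480_0 : sl d_m59392_m57344_18432_20480 0 4 := by decide +kernel
def d_m59392_m57344_18432_20480_4 : sl d_m59392_m57344_18432_20480 4 9 := by decide +kernel
def d_m59392_m57344_18432_20480_9 : sl d_m59392_m57344_18432_20480 9 13 := by decide +kernel
def d_m59392_m57344_18432_20480_13 : sl d_m59392_m57344_18432_20480 13 18 := by decide +kernel
def d_m59392_m57344_18432_20480_18 : sl d_m59392_m57344_18432_20480 18 20 := by decide +kernel
def d_m59392_m57344_18432_20480_20 : sl d_m59392_m57344_18432_20480 20 24 := by decide +kernel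
def d_m59392_m57344_18432_20480_24 : sl d_m59392_m57344_18432_20480 24 25 := by decide +kernel
def d_m59392_m57344_18432_20480_25 : fr d_m59392_m57344_18432_20480 25 := by decide +kernel
theorem f_m59392_m57344_18432_20480 : fr d_m59392_m57344_18432_20480 0 :=
  (d_m59392_m57344_18432_20480_0.fr (d_m59392_m57344_18432_20480_4.fr (d_m59392_m57344_18432_20480_9.fr (d_m59392_m57344_18432_20480_13.fr (d_m59392_m57344_18432_20480_18.fr (d_m59392_m57344_18432_20480_20.fr (d_m59392_m57344_18432_20480_24.fr d_m59392_m57344_18432_20480_25)))))))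

noncomputable def d_m61440_m60416_20480_22528 : Cell :=
  ⟨-261683767410688,2199023255552,92358976733184,4398046511104,⟨0,-3597082355040256,0⟩,⟨0,4503599627370496,-84442496368640⟩,0,-1,1,13107,1,(-160528697655296,0),⟨0,6286927724544,12602047650708769,[]⟩,[10157041729830,11161457394,41866227155,0,52149212,97374086],3,[⟨[225179981426165,561478476538,750693976628,-3586925944,6312176658,7286361407],⟨0,124968854945792,688816565042831,[[-41355548774227287,774659520503130,960318512326250,-5227884321375,-18717411194302,-6919653302994],[-44571458732208108,1127346308095661,1397035916568195,-5418128134501,-26334576834090,-8239176000350],[0],[6995595784085751,-490318792883666,-580612160453237,0,7622550894303,1292753469196],[0],[-1267555083727302,119633799832121,124516434930441]]⟩,-48498,[⟨-30139,2,(-10995116277760,0),4⟩,⟨-11780,1,(-148434069749760,0),32⟩],13051,[⟨45459,2,(-181419418583040,0),32⟩,⟨77868,3,(-468391953432576,0),1⟩],2,0,[],0,[]⟩,⟨[281474976867039,909049930033,1181642630183,-6165860654,11722890397,12387695608],⟨2,162226405965824,488380187133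007,[[-9705529093350381,2779550713505747,-3292906715711310,-7994291870396,0,0],[5369270181652239,3301974164820611,-420349894212729],[52082290766285254,0,0,0,0,73336084737911],[0],[0],[21474269284688527]]⟩,-180380,[⟨-113818,4,(30786325577728,0),6⟩,⟨-80537,3,(78065325572096,0),6⟩,⟨-47255,2,(-7696581394432,0),4⟩],74755,[⟨104845,4,(-442003674365952,0),1⟩,⟨134935,4,(-425510999949312,0),1⟩,⟨195116,5,(-442003674365952,0),1⟩,⟨255297,5,(-458496348782592,1168231104512),1⟩,⟨285387,5,(-517869976682496,0),1⟩,⟨315478,6,(-532163627843584,0),1⟩],5,118135,[⟨186982,4,(0,0),33⟩],98387,[⟨119697,4,(0,0),33⟩,⟨141007,4,(0,0),33⟩,⟨183627,5,(0,0),33⟩,⟨226248,5,(0,0),33⟩]⟩]⟩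
def d_m61440_m60416_20480_22528_0 : sl d_m61440_m60416_20480_22528 0 4 := by decide +kernel
def d_m61440_m60416_20480_22528_4 : sl d_m61440_m60416_20480_22528 4 9 := by decide +kernel
def d_m61440_m60416_20480_22528_9 : sl d_m61440_m60416_20480_22528 9 13 := by decide +kernel
def d_m61440_m60416_20480_22528_13 : sl d_m61440_m60416_20480_22528 13 17 := by decide +kernel
def d_m61440_m60416_20480_22528_17 : sl d_m61440_m60416_20480_22528 17 20 := by decide +kernel
def d_m61440_m60416_20480_22528_20 : sl d_m61440_m60416_20480_22528 20 22 := by decide +kernel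
def d_m61440_m60416_20480_22528_22 : sl d_m61440_m60416_20480_22528 22 26 := by decide +kernel
def d_m61440_m60416_20480_22528_26 : fr d_m61440_m60416_20480_22528 26 := by decide +kernel
theorem f_m61440_m60416_20480_22528 : fr d_m61440_m60416_20480_22528 0 :=
  (d_m61440_m60416_20480_22528_0.fr (d_m61440_m60416_20480_22528_4.fr (d_m61440_m60416_20480_22528_9.fr (d_m61440_m60416_20480_22528_13.fr (d_m61440_m60416_20480_22528_17.fr (d_m61440_m60416_20480_22528_20.fr (d_m61440_m60416_20480_22528_22.fr d_m61440_m60416_20480_22528_26)))))))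

noncomputable def d_m60416_m59392_20480_22528 : Cell :=
  ⟨-257285720899584,2199023255552,92358976733184,4398046511104,⟨0,-4476348059877376,0⟩,⟨0,4503599627370496,-84442496368640⟩,0,-1,1,13107,1,(-164926744166400,0),⟨0,6274495217664,12627017689469597,[]⟩,[10179319841320,11161457394,41970525579,0,52149212,97634269],3,[⟨[225179981419767,532155791105,729845515790,-3456598324,5951007885,7122272302],⟨0,124907266244608,689311551884589,[[-52100835229602353,992942674415925,1230434656516980,-6883076718181,-24809805077742,-11383092511410],[-55812134633545133,1442773806258296,1783010072884434,-7129527830781,-34866959539067,-14633563984195],[0],[8400375451842483,-625507529027289,-732138408772973,0,10063961142081,3255150966298],[0],[-1484249846508895,152407140336217,154447716391217]]⟩,-48622,[⟨-30212,2,(-14293651161088,0),4⟩,⟨-11802,1,(-151732604633088,0),32⟩],13051,[⟨45044,2,(-186916976721920,0),32⟩,⟨77038,3,(-476088534827008,0),1⟩],2,0,[],0,[]⟩,⟨[281474976846305,855680661560,1146329029752,-5873240932,10907058953,12038452372],⟨2,162185131524096,48850447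4981616,[[12580485275274890,1471052322429930,-2007194825056613,0,0,240980861417985],[26342925053206226,3352237947672275,-1677804971650334,0,-50512215951792,0],[39549343787696906],[0],[0,2071235333811503,-3687168077751576],[5284774135149384]]⟩,-179098,[⟨-113240,4,(30786325577728,0),6⟩,⟨-80311,3,(76965813944320,0),6⟩,⟨-47381,2,(-9895604649984,0),4⟩],74019,[⟨130131,4,(-443103185993728,0),1⟩,⟨186244,5,(-452998790643712,0),1⟩,⟨242357,5,(-492581209243648,0),1⟩,⟨270413,5,(-518969488310272,0),1⟩,⟨298470,5,(-532163627843584,0),1⟩],5,117295,[⟨186982,4,(0,0),33⟩],93083,[⟨121232,4,(0,0),33⟩,⟨149381,4,(0,0),33⟩,⟨205680,5,(0,0),33⟩]⟩]⟩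
def d_m60416_m59392_20480_22528_0 : sl d_m60416_m59392_20480_22528 0 4 := by decide +kernel
def d_m60416_m59392_20480_22528_4 : sl d_m60416_m59392_20480_22528 4 9 := by decide +kernel
def d_m60416_m59392_20480_22528_9 : sl d_m60416_m59392_20480_22528 9 13 := by decide +kernel
def d_m60416_m59392_20480_22528_13 : sl d_m60416_m59392_20480_22528 13 18 := by decide +kernel
def d_m60416_m59392_20480_22528_18 : sl d_m60416_m59392_20480_22528 18 19 := by decide +kernel
def d_m60416_m59392_20480_22528_19 : sl d_m60416_m59392_20480_22528 19 21 := by decide +kernel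
def d_m60416_m59392_20480_22528_21 : sl d_m60416_m59392_20480_22528 21 24 := by decide +kernel
def d_m60416_m59392_20480_22528_24 : fr d_m60416_m59392_20480_22528 24 := by decide +kernel
theorem f_m60416_m59392_20480_22528 : fr d_m60416_m59392_20480_22528 0 :=
  (d_m60416_m59392_20480_22528_0.fr (d_m60416_m59392_20480_22528_4.fr (d_m60416_m59392_20480_22528_9.fr (d_m60416_m59392_20480_22528_13.fr (d_m60416_m59392_20480_22528_18.fr (d_m60416_m59392_20480_22528_19.fr (d_m60416_m59392_20480_22528_21.fr d_m60416_m59392_20480_22528_24)))))))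

noncomputable def d_m61440_m60416_22528_24576 : Cell :=
  ⟨-261683767410688,2199023255552,101155069755392,4398046511104,⟨0,-3946263196205056,0⟩,⟨0,4503599627370496,-84442496368640⟩,0,-1,1,13107,1,(-160528697655296,0),⟨0,6234071629824,12708895172146821,[]⟩,[10240996438596,11266278417,42257668234,0,52672293,98347915],3,[⟨[225179981417073,533136299457,681457148124,-3459728235,5773757185,6826816733],⟨0,124890198048768,689774508661158,[[-45172836741946431,780823274797616,966424446469377,-5934325480692,-18618139820003,-11434927619341],[-51345554652082762,1078003384744007,1356415992346344,-7203141063023,-23786192480711,-13994436665246],[-7275984379230798],[2165837139478896,-388327619637091,-498903230497895],[0],[-485989512026415,70777564028511,87265403743851,1311627299711,5396126280161,2645874504719]]⟩,-49148,[⟨-30509,2,(-10995116277760,0),4⟩,⟨-11869,1,(-147334558121984,0),32⟩],13051,[⟨44335,2,(-180319906955264,0),32⟩,⟨75619,3,(-467292441804800,0),1⟩],2,0,[],0,[]⟩,⟨[281474976839022,858311472475,1069278749953,-5885839045,10554397099,11448989438],⟨2,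162156826787840,488589744259428,[[939549551442526,2653813298671397,-3606838675815113,0,0,202058412576554],[13715791379872979,3043429376431113,-702629328703712],[35980325796798694],[0],[0],[10080462236725137]]⟩,-191807,[⟨-119846,4,(26388279066624,0),6⟩,⟨-83865,3,(71468255805440,0),6⟩,⟨-47884,3,(155031139516416,0),4⟩],72712,[⟨105598,4,(-443103185993728,0),1⟩,⟨138485,4,(-425510999949312,0),1⟩,⟨204258,5,(-446401720877056,0),1⟩,⟨237144,5,(-484884627849216,0),1⟩,⟨270031,5,(-507974372032512,0),1⟩,⟨302917,5,(-526666069704704,0),1⟩,⟨335804,6,(-538760697610240,0),1⟩],5,119637,[⟨186982,4,(0,0),33⟩],115199,[⟨142961,4,(0,0),33⟩,⟨170723,4,(0,0),33⟩,⟨226248,5,(0,0),33⟩]⟩]⟩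
def d_m61440_m60416_22528_24576_0 : sl d_m61440_m60416_22528_24576 0 4 := by decide +kernel
def d_m61440_m60416_22528_24576_4 : sl d_m61440_m60416_22528_24576 4 9 := by decide +kernel
def d_m61440_m60416_22528_24576_9 : sl d_m61440_m60416_22528_24576 9 13 := by decide +kernel
def d_m61440_m60416_22528_24576_13 : sl d_m61440_m60416_22528_24576 13 17 := by decide +kernel
def d_m61440_m60416_22528_24576_17 : sl d_m61440_m60416_22528_24576 17 21 := by decide +kernel
def d_m61440_m60416_22528_24576_21 : sl d_m61440_m60416_22528_24576 21 23 := by decide +kernel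
def d_m61440_m60416_22528_24576_23 : sl d_m61440_m60416_22528_24576 23 26 := by decide +kernel
def d_m61440_m60416_22528_24576_26 : fr d_m61440_m60416_22528_24576 26 := by decide +kernel
theorem f_m61440_m60416_22528_24576 : fr d_m61440_m60416_22528_24576 0 :=
  (d_m61440_m60416_22528_24576_0.fr (d_m61440_m60416_22528_24576_4.fr (d_m61440_m60416_22528_24576_9.fr (d_m61440_m60416_22528_24576_13.fr (d_m61440_m60416_22528_24576_17.fr (d_m61440_m60416_22528_24576_21.fr (d_m61440_m60416_22528_24576_23.fr d_m61440_m60416_22528_24576_26)))))))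

noncomputable def d_m60416_m59392_22528_24576 : Cell :=
  ⟨-257285720899584,2199023255552,101155069755392,4398046511104,⟨0,-4503599627370496,0⟩,⟨0,4238647389847552,-84442496368640⟩,0,-1,1,13107,1,(-164926744166400,0),⟨0,6221755580416,12734052556548063,[]⟩,[10263483771202,11266278417,42363012821,0,52672293,98610818],3,[⟨[225179981411830,505496173107,661599662035,-3341484687,5456936013,6684165934],⟨0,124835262955520,690239244405822,[[-48568719304886738,869899098413409,1032317501663220,-4242767440533,-18985262455838,-15303040221284],[-55067655532653416,1221749658195925,1427546698835256,-4366904832480,-25018407820141,-21551092966154],[-8485217891026058],[1355040510043115,-474165119395315,-493725305144994,101897932411,0,6234898819492],[0,0,0,0,-6205316890443,0],[-303723285275271,99917745832403,74528227740197]]⟩,-49276,[⟨-30584,2,(-13194139533312,0),4⟩,⟨-11892,1,(-150633093005312,0),32⟩],13051,[⟨43956,2,(-186916976721920,0),32⟩,⟨74861,3,(-474989023199232,0),1⟩],2,0,[],0,[]⟩,⟨[281474976822602,808744859294,1036048881981,-5625031605,9852975205,111504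00967],⟨2,162117655330816,488707799010684,[[0,2849261181176793,-3705312750744905,0,0,174588476424804],[16291741760320073,3275941265812796,-522013896859738],[43203024539303497],[0],[0],[12221878318235734]]⟩,-190525,[⟨-119270,4,(26388279066624,0),6⟩,⟨-83642,3,(70368744177664,0),6⟩,⟨-48014,3,(152832116260864,0),4⟩],72036,[⟨102881,4,(-456297325527040,0),1⟩,⟨133726,4,(-439804651110400,0),1⟩,⟨195416,5,(-457396837154816,0),1⟩,⟨226261,5,(-490382185988096,0),1⟩,⟨257106,5,(-511272906915840,0),1⟩,⟨287951,5,(-527765581332480,0),1⟩,⟨318797,6,(-538760697610240,0),1⟩],5,118837,[⟨186982,4,(0,0),33⟩],109365,[⟨128845,4,(0,0),33⟩,⟨148326,4,(0,0),33⟩,⟨187287,5,(0,0),33⟩,⟨226248,5,(0,0),33⟩]⟩]⟩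
def d_m60416_m59392_22528_24576_0 : sl d_m60416_m59392_22528_24576 0 4 := by decide +kernel
def d_m60416_m59392_22528_24576_4 : sl d_m60416_m59392_22528_24576 4 9 := by decide +kernel
def d_m60416_m59392_22528_24576_9 : sl d_m60416_m59392_22528_24576 9 13 := by decide +kernel
def d_m60416_m59392_22528_24576_13 : sl d_m60416_m59392_22528_24576 13 17 := by decide +kernel
def d_m60416_m59392_22528_24576_17 : sl d_m60416_m59392_22528_24576 17 21 := by decide +kernel
def d_m60416_m59392_22528_24576_21 : sl d_m60416_m59392_22528_24576 21 23 := by decide +kernel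
def d_m60416_m59392_22528_24576_23 : sl d_m60416_m59392_22528_24576 23 27 := by decide +kernel
def d_m60416_m59392_22528_24576_27 : fr d_m60416_m59392_22528_24576 27 := by decide +kernel
theorem f_m60416_m59392_22528_24576 : fr d_m60416_m59392_22528_24576 0 :=
  (d_m60416_m59392_22528_24576_0.fr (d_m60416_m59392_22528_24576_4.fr (d_m60416_m59392_22528_24576_9.fr (d_m60416_m59392_22528_24576_13.fr (d_m60416_m59392_22528_24576_17.fr (d_m60416_m59392_22528_24576_21.fr (d_m60416_m59392_22528_24576_23.fr d_m60416_m59392_22528_24576_27)))))))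

noncomputable def d_m59392_m57344_20480_24576 : Cell :=
  ⟨-250688651132928,4398046511104,96757023244288,8796093022208,⟨0,-4503599627370496,0⟩,⟨0,3308052530855936,-84442496368640⟩,0,-1,1,13107,1,(-171523813933056,0),⟨0,6262062776320,12652086877310196,[]⟩,[10254870497531,22427946025,84647871218,0,209642645,394057401],3,[⟨[225179982006355,958062351087,1331915483146,-12933672173,20986560086,26734387866],⟨0,132039453769728,648642505444080,[[-41089484946726117,1504757906414672,1871989414325929,-33168908093179,-70041083197331,-55741008011123],[-46635877189370064,2119439523074363,2652242883283453,-48093857385200,-91828078344219,-69853265762555],[-6480048447124323],[1818036314155091,-819403665203350,-998058374373336,15084873357506,0,0],[0,0,0,0,-22194249144183,0],[-373618317578667,169443717536593,179954593544673,0,0,14602916465777]]⟩,-49691,[⟨-30757,2,(-17592186044416,0),4⟩,⟨-11823,1,(-156130651144192,0),32⟩],13051,[⟨44584,2,(-195713069744128,0),32⟩,⟨76118,3,(-488183162732544,0),1⟩],2,0,[],0,[]⟩,⟨[281474978327290,1523436697918,2082946409215,-2155695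4344,37518741080,44545290795],⟨2,166418448515072,476078002210494,[[18289700640772618,1484132871585711,-6635782417406538,0,0,795702859524332],[31459810534473861,4396536959283776,-3602610161431834],[27595884255125757,2609202125257646,-24786328947758],[0],[0,0,-215106161061979]]⟩,-189172,[⟨-118278,4,(26388279066624,0),6⟩,⟨-82831,3,(70368744177664,0),6⟩,⟨-47383,2,(-12094627905536,0),4⟩],70935,[⟨129295,4,(-460695372038144,0),1⟩,⟨187655,5,(-471690488315904,0),1⟩,⟨216835,5,(-500277790638080,0),1⟩,⟨246015,5,(-516770465054720,0),1⟩,⟨275195,5,(-531064116215808,0),1⟩,⟨304375,5,(-540959720865792,0),1⟩],5,117994,[⟨186982,4,(0,0),33⟩],94924,[⟨99197,4,(0,0),33⟩,⟨103471,4,(0,0),33⟩,⟨112018,4,(0,0),33⟩,⟨120565,4,(0,0),33⟩,⟨129113,4,(0,0),33⟩,⟨146207,4,(0,0),33⟩,⟨163302,5,(0,0),33⟩,⟨197491,5,(0,0),33⟩,⟨231680,5,(0,0),33⟩]⟩]⟩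
def d_m59392_m57344_20480_24576_0 : sl d_m59392_m57344_20480_24576 0 4 := by decide +kernel
def d_m59392_m57344_20480_24576_4 : sl d_m59392_m57344_20480_24576 4 9 := by decide +kernel
def d_m59392_m57344_20480_24576_9 : sl d_m59392_m57344_20480_24576 9 13 := by decide +kernel
def d_m59392_m57344_20480_24576_13 : sl d_m59392_m57344_20480_24576 13 17 := by decide +kernel
def d_m59392_m57344_20480_24576_17 : sl d_m59392_m57344_20480_24576 17 20 := by decide +kernel
def d_m59392_m57344_20480_24576_20 : sl d_m59392_m57344_20480_24576 20 22 := by decide +kernel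
def d_m59392_m57344_20480_24576_22 : sl d_m59392_m57344_20480_24576 22 26 := by decide +kernel
def d_m59392_m57344_20480_24576_26 : sl d_m59392_m57344_20480_24576 26 30 := by decide +kernel
def d_m59392_m57344_20480_24576_30 : sl d_m59392_m57344_20480_24576 30 31 := by decide +kernel
def d_m59392_m57344_20480_24576_31 : fr d_m59392_m57344_20480_24576 31 := by decide +kernel
theorem f_m59392_m57344_20480_24576 : fr d_m59392_m57344_20480_24576 0 :=
  (d_m59392_m57344_20480_24576_0.fr (d_m59392_m57344_20480_24576_4.fr (d_m59392_m57344_20480_24576_9.fr (d_m59392_m57344_20480_24576_13.fr (d_m59392_m57344_20480_24576_17.fr (d_m59392_m57344_20480_24576_20.fr (d_m59392_m57344_20480_24576_22.fr (d_m59392_m57344_20480_24576_26.fr (d_m59392_m57344_20480_24576_30.fr d_m59392_m57344_20480_24576_31)))))))))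

noncomputable def d_m61440_m60416_24576_26624 : Cell :=
  ⟨-261683767410688,2199023255552,109951162777600,4398046511104,⟨0,-4353842707693568,0⟩,⟨0,4503599627370496,-84442496368640⟩,0,-1,1,13107,1,(-160528697655296,0),⟨0,6181712429056,12816539656004537,[]⟩,[10325736361732,11372151069,42653024923,0,53200845,99331907],3,[⟨[225179981409567,506593419799,614579472563,-3345334717,5298025136,6427596371],⟨0,124820208812032,690694616533002,[[-48792005600748220,865015021769452,1034298352932569,-5576281355874,-16190602884040,-12803294922957],[-55409529090321198,1212972448020707,1455875092376677,-6293483065329,-19464397433669,-15460012776358],[-9371556367203411],[517409049943061,-472834830483824,-552792210109529],[0],[-173233941303195,102150111668126,107101982454269,659415154189,3358803737612,2755278044682]]⟩,-49821,[⟨-30891,1,(-10995116277760,0),4⟩,⟨-11960,1,(-147334558121984,0),32⟩],13052,[⟨43298,2,(-180319906955264,0),32⟩,⟨73544,3,(-466192930177024,0),1⟩],2,0,[],0,[]⟩,⟨[281474976816636,811496375065,961674307652,-5638352177,9540825135,10644068356],⟨2,1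62092671696896,488783124328083,[[12873133711491088,2450689384180427,-4056589534878110,0,0,325074898059120],[15950031649172411,2778678807908566,-1413413822411866],[12116559553909787]]⟩,-207299,[⟨-127917,4,(21990232555520,0),6⟩,⟨-88226,3,(62672162783232,0),4⟩,⟨-48535,3,(146235046494208,0),4⟩],70818,[⟨106953,4,(-443103185993728,0),1⟩,⟨143089,4,(-425510999949312,0),1⟩,⟨179224,4,(-439804651110400,0),1⟩,⟨215360,5,(-466192930177024,0),1⟩,⟨251495,5,(-494780232499200,0),1⟩,⟨287631,5,(-517869976682496,0),1⟩,⟨323767,5,(-534362651099136,0),1⟩,⟨359903,6,(-545357767376896,0),1⟩],5,122835,[⟨186982,4,(0,0),33⟩],134691,[⟨163236,4,(0,0),33⟩,⟨191782,4,(0,0),33⟩,⟨248873,5,(0,0),33⟩]⟩]⟩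
def d_m61440_m60416_24576_26624_0 : sl d_m61440_m60416_24576_26624 0 4 := by decide +kernel
def d_m61440_m60416_24576_26624_4 : sl d_m61440_m60416_24576_26624 4 9 := by decide +kernel
def d_m61440_m60416_24576_26624_9 : sl d_m61440_m60416_24576_26624 9 13 := by decide +kernel
def d_m61440_m60416_24576_26624_13 : sl d_m61440_m60416_24576_26624 13 17 := by decide +kernel
def d_m61440_m60416_24576_26624_17 : sl d_m61440_m60416_24576_26624 17 22 := by decide +kernel
def d_m61440_m60416_24576_26624_22 : sl d_m61440_m60416_24576_26624 22 24 := by decide +kernel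
def d_m61440_m60416_24576_26624_24 : sl d_m61440_m60416_24576_26624 24 27 := by decide +kernel
def d_m61440_m60416_24576_26624_27 : fr d_m61440_m60416_24576_26624 27 := by decide +kernel
theorem f_m61440_m60416_24576_26624 : fr d_m61440_m60416_24576_26624 0 :=
  (d_m61440_m60416_24576_26624_0.fr (d_m61440_m60416_24576_26624_4.fr (d_m61440_m60416_24576_26624_9.fr (d_m61440_m60416_24576_26624_13.fr (d_m61440_m60416_24576_26624_17.fr (d_m61440_m60416_24576_26624_22.fr (d_m61440_m60416_24576_26624_24.fr d_m61440_m60416_24576_26624_27)))))))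

noncomputable def d_m60416_m59392_24576_26624 : Cell :=
  ⟨-257285720899584,2199023255552,109951162777600,4398046511104,⟨0,-4503599627370496,0⟩,⟨0,3848376596561920,-84442496368640⟩,0,-1,1,13107,1,(-164926744166400,0),⟨0,6169511657472,12841885507523418,[]⟩,[10348435014486,11372151069,42759426613,0,53200845,99597560],3,[⟨[225179981405241,480439541756,595588429015,-3237625704,5019191898,6303538010],⟨0,124769630093312,691132034281403,[[-42912044308255153,816390674301544,990274004024963,-8360924083828,-22014440650905,-17341978938004],[-48292346962562102,1382029373488521,1695201110076526,-12173145632485,-33057121129202,-25619110167825],[-8106651627640832,606623311467136,745604204926065],[98948854662112,0,0,3864200702774,11791330378280,8399943767663],[0],[-53879884876441,20443624239849,18931472693510,0,-627644672725,0]]⟩,-49954,[⟨-30969,2,(-13194139533312,0),4⟩,⟨-11983,1,(-150633093005312,0),32⟩],13052,[⟨42950,2,(-185817465094144,0),32⟩,⟨72848,3,(-473889511571456,0),1⟩],2,0,[],0,[]⟩,⟨[281474976803499,765220497153,930236118352,-5404531526,8934543623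,10388197957],⟨2,162056036220928,488893621936771,[[16805234003570194,1932212373087792,-3277480660571447,0,0,285308293681499],[18512122240192121,2365451941177131,-1622300738036992],[8875885725078856],[0],[0,139713709311449,0]]⟩,-206017,[⟨-127343,4,(21990232555520,0),6⟩,⟨-88006,3,(62672162783232,0),4⟩,⟨-48668,3,(144036023238656,0),4⟩],70194,[⟨104281,4,(-456297325527040,0),1⟩,⟨138369,4,(-439804651110400,0),1⟩,⟨206545,5,(-462894395293696,0),1⟩,⟨240632,5,(-499178279010304,0),1⟩,⟨274720,5,(-520068999938048,0),1⟩,⟨308808,5,(-535462162726912,0),1⟩,⟨342896,6,(-545357767376896,0),1⟩],5,122075,[⟨186982,4,(0,0),33⟩],128326,[⟨152806,4,(0,0),33⟩,⟨177287,4,(0,0),33⟩,⟨226248,5,(0,0),33⟩]⟩]⟩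
def d_m60416_m59392_24576_26624_0 : sl d_m60416_m59392_24576_26624 0 4 := by decide +kernel
def d_m60416_m59392_24576_26624_4 : sl d_m60416_m59392_24576_26624 4 9 := by decide +kernel
def d_m60416_m59392_24576_26624_9 : sl d_m60416_m59392_24576_26624 9 13 := by decide +kernel
def d_m60416_m59392_24576_26624_13 : sl d_m60416_m59392_24576_26624 13 17 := by decide +kernel
def d_m60416_m59392_24576_26624_17 : sl d_m60416_m59392_24576_26624 17 21 := by decide +kernel
def d_m60416_m59392_24576_26624_21 : sl d_m60416_m59392_24576_26624 21 23 := by decide +kernel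
def d_m60416_m59392_24576_26624_23 : sl d_m60416_m59392_24576_26624 23 26 := by decide +kernel
def d_m60416_m59392_24576_26624_26 : fr d_m60416_m59392_24576_26624 26 := by decide +kernel
theorem f_m60416_m59392_24576_26624 : fr d_m60416_m59392_24576_26624 0 :=
  (d_m60416_m59392_24576_26624_0.fr (d_m60416_m59392_24576_26624_4.fr (d_m60416_m59392_24576_26624_9.fr (d_m60416_m59392_24576_26624_13.fr (d_m60416_m59392_24576_26624_17.fr (d_m60416_m59392_24576_26624_21.fr (d_m60416_m59392_24576_26624_23.fr d_m60416_m59392_24576_26624_26)))))))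

noncomputable def d_m61440_m60416_26624_27648 : Cell :=
  ⟨-261683767410688,2199023255552,116548232544256,2199023255552,⟨0,-4503599627370496,0⟩,⟨0,4376601739395072,-84442496368640⟩,0,-1,1,13107,1,(-160528697655296,0),⟨0,6129845207040,12924985821210292,[]⟩,[10389812158807,11452191935,21476014378,0,26800367,25019110],3,[⟨[225179981385746,487723920778,282882369896,-3266862633,2488410660,1540871407],⟨0,122286313111552,707069698040333,[[-46793457422275941,882514384254173,516534830765874,-9417552017672,-10383063244466,-2926921586387],[-52290184948283531,1494155149542728,850087567987992,-13345335535181,-14980413873118,-3514842447480],[-8689566717851874,659156285837738,313986501359829],[0,0,-49620179494350,3933607685571,4655986068876,0],[0],[-50119963507923,24267039565396,17794885709833,0,0,613321328079]]⟩,-50130,[⟨-31091,1,(-10995116277760,0),4⟩,⟨-12052,1,(-147334558121984,0),32⟩],13052,[⟨42353,2,(-179220395327488,0),32⟩,⟨71654,3,(-465093418549248,0),1⟩],2,0,[],0,[]⟩,⟨[2702160227925500,73032291006480,31153580408325,-1481497475000,1492655962498,4054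21366719],⟨2,201702324633600,664804790432242,[[22413438532623659,0,-1870191482384467],[59729131810365556]]⟩,-129766,[⟨-89503,3,(61572651155456,0),4⟩,⟨-49240,3,(141836999983104,0),4⟩],69880,[⟨125493,4,(-434307092971520,0),1⟩,⟨181107,4,(-435406604599296,0),1⟩,⟨236720,5,(-476088534827008,0),1⟩,⟨264527,5,(-505775348776960,0),1⟩,⟨292334,5,(-522268023193600,0),1⟩],4,0,[],0,[]⟩,⟨[32425958840438198,1569713028698581,878484400075952,-51300196904591,47501325990859,16560735379425],⟨2,60497188093952,2049532671849339,[]⟩,-252639,[⟨-166521,4,(10995116277760,0),6⟩,⟨-123462,3,(31885837205504,0),4⟩],275622,[⟨306827,5,(-528865092960256,0),1⟩,⟨338032,6,(-539860209238016,0),1⟩,⟨369237,6,(-548656302260224,0),1⟩,⟨400443,4,(0,0),33⟩,⟨525265,5,(0,0),33⟩],5,0,[],0,[]⟩,⟨[281474976752806,778607541507,441823996720,-5470891206,4433183204,2529221757],⟨2,15642184777728,5065031752189397,[[4681706631150207,-36023526682422,0,184338397049,0,0],[-191140776964883,-63876814149891,0]]⟩,-236610,[],499852,[],5,136514,[⟨186982,4,(0,0),33⟩],202656,[⟨248873,5,(0,0),33⟩]⟩]⟩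
def d_m61440_m60416_26624_27648_0 : sl d_m61440_m60416_26624_27648 0 4 := by decide +kernel
def d_m61440_m60416_26624_27648_4 : sl d_m61440_m60416_26624_27648 4 9 := by decide +kernel
def d_m61440_m60416_26624_27648_9 : sl d_m61440_m60416_26624_27648 9 13 := by decide +kernel
def d_m61440_m60416_26624_27648_13 : sl d_m61440_m60416_26624_27648 13 18 := by decide +kernel
def d_m61440_m60416_26624_27648_18 : sl d_m61440_m60416_26624_27648 18 22 := by decide +kernel
def d_m61440_m60416_26624_27648_22 : sl d_m61440_m60416_26624_27648 22 28 := by decide +kernel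
def d_m61440_m60416_26624_27648_28 : sl d_m61440_m60416_26624_27648 28 29 := by decide +kernel
def d_m61440_m60416_26624_27648_29 : sl d_m61440_m60416_26624_27648 29 31 := by decide +kernel
def d_m61440_m60416_26624_27648_31 : sl d_m61440_m60416_26624_27648 31 32 := by decide +kernel
def d_m61440_m60416_26624_27648_32 : fr d_m61440_m60416_26624_27648 32 := by decide +kernel
theorem f_m61440_m60416_26624_27648 : fr d_m61440_m60416_26624_27648 0 :=
  (d_m61440_m60416_26624_27648_0.fr (d_m61440_m60416_26624_27648_4.fr (d_m61440_m60416_26624_27648_9.fr (d_m61440_m60416_26624_27648_13.fr (d_m61440_m60416_26624_27648_18.fr (d_m61440_m60416_26624_27648_22.fr (d_m61440_m60416_26624_27648_28.fr (d_m61440_m60416_26624_27648_29.fr (d_m61440_m60416_26624_27648_31.fr d_m61440_m60416_26624_27648_32)))))))))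

noncomputable def d_m61440_m60416_27648_28672 : Cell :=
  ⟨-261683767410688,2199023255552,120946279055360,2199023255552,⟨0,-4503599627370496,0⟩,⟨0,4094912014319616,-84442496368640⟩,0,-1,1,8290,0,(-160528697655296,0),⟨0,2369291354112,33439603044979498,[]⟩,[4287009789752,2930340775,5626641427,0,4340358,4155581],3,[⟨[225179981384689,475603542877,266900891045,-3217754648,2388952438,1500724692],⟨0,119255507861504,688823195236608,[[-41996216674719763,773697613913311,454450962746190,-10947018111358,-12901238211503,-4683819413010],[-48774291779505520,1371590958484076,808408013777520,-21755730250015,-28355288710739,-9444396108576],[-8039582127173277,646203612424485,374759714795117,-10816614441459,-16476495872568,-4765088971571],[0],[53211177467941,-40086703525967,-16596253850110],[-5737462240314,0,0,0,-1010463260809,0]]⟩,-50484,[⟨-29174,2,(-137438953472000,0),32⟩,⟨-7863,1,(-149533581377536,0),32⟩],8255,[⟨23876,1,(-171523813933056,0),32⟩,⟨39498,2,(-182518930210816,0),32⟩,⟨70741,3,(-463993906921472,0),1⟩],2,0,[],0,[]⟩,⟨[2702160165977946,70224324772784,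28918010976262,-1392713094530,1357666713377,365872050178],⟨2,201798305710080,665557225131631,[[19143908007942572,0,-1578723469608594],[53059091321956968]]⟩,-131618,[⟨-90602,3,(59373627899904,0),4⟩,⟨-49586,3,(139637976727552,0),4⟩],69018,[⟨122364,4,(-435406604599296,0),1⟩,⟨175711,4,(-433207581343744,0),1⟩,⟨229058,5,(-470590976688128,0),1⟩,⟨282405,5,(-458496348782592,481036337152),1⟩],4,0,[],0,[]⟩,⟨[32425956897812030,1558765177596649,812211747690346,-50728827311031,44029762365284,14637148046122],⟨2,60408977358848,2057644483263162,[]⟩,-257781,[⟨-169466,4,(9895604649984,0),6⟩,⟨-125309,3,(30786325577728,0),4⟩],266591,[⟨296826,5,(-524467046449152,0),1⟩,⟨327062,5,(-536561674354688,0),1⟩,⟨357297,6,(-545357767376896,0),1⟩,⟨387533,6,(-551954837143552,0),1⟩,⟨508476,5,(0,0),33⟩],5,0,[],0,[]⟩,⟨[281474976749783,757652533432,416388350766,-5367051370,4226326378,2449602957],⟨2,15598573518848,5079192810039961,[[2379971399250897,-25252176645444,0],[-2196177951328160]]⟩,-241501,[],484189,[],5,135570,[⟨180909,4,(0,0),33⟩,⟨226248,4,(0,0),33⟩],203856,[⟨252496,5,(0,0),33⟩,⟨301136,5,(0,0),33⟩]⟩]⟩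
def d_m61440_m60416_27648_28672_0 : sl d_m61440_m60416_27648_28672 0 4 := by decide +kernel
def d_m61440_m60416_27648_28672_4 : sl d_m61440_m60416_27648_28672 4 9 := by decide +kernel
def d_m61440_m60416_27648_28672_9 : sl d_m61440_m60416_27648_28672 9 14 := by decide +kernel
def d_m61440_m60416_27648_28672_14 : sl d_m61440_m60416_27648_28672 14 19 := by decide +kernel
def d_m61440_m60416_27648_28672_19 : sl d_m61440_m60416_27648_28672 19 23 := by decide +kernel
def d_m61440_m60416_27648_28672_23 : sl d_m61440_m60416_27648_28672 23 29 := by decide +kernel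
def d_m61440_m60416_27648_28672_29 : sl d_m61440_m60416_27648_28672 29 30 := by decide +kernel
def d_m61440_m60416_27648_28672_30 : sl d_m61440_m60416_27648_28672 30 32 := by decide +kernel
def d_m61440_m60416_27648_28672_32 : sl d_m61440_m60416_27648_28672 32 34 := by decide +kernel
def d_m61440_m60416_27648_28672_34 : fr d_m61440_m60416_27648_28672 34 := by decide +kernel
theorem f_m61440_m60416_27648_28672 : fr d_m61440_m60416_27648_28672 0 :=
  (d_m61440_m60416_27648_28672_0.fr (d_m61440_m60416_27648_28672_4.fr (d_m61440_m60416_27648_28672_9.fr (d_m61440_m60416_27648_28672_14.fr (d_m61440_m60416_27648_28672_19.fr (d_m61440_m60416_27648_28672_23.fr (d_m61440_m60416_27648_28672_29.fr (d_m61440_m60416_27648_28672_30.fr (d_m61440_m60416_27648_28672_32.fr d_m61440_m60416_27648_28672_34)))))))))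

noncomputable def d_m60416_m59392_26624_27648 : Cell :=
  ⟨-257285720899584,2199023255552,116548232544256,2199023255552,⟨0,-4503599627370496,0⟩,⟨0,3626906607943680,-84442496368640⟩,0,-1,1,13107,1,(-164926744166400,0),⟨0,6117758599168,12950521265031343,[]⟩,[10412670693574,11452191935,21529615112,0,26800367,25086044],3,[⟨[225179981384223,462574856728,273676419744,-3166205112,2361520209,1512958495],⟨0,122252620005376,707419937310296,[[-38548736350873304,715172307483342,427004412209041,-9681733382743,-12406230163416,-4312500921518],[-42476604019364771,1193242974213653,721096067805654,-15333275769110,-26308065085230,-7023897644295],[-6530589782992731,515128565401370,316235235688789,0,-14897124068604,0],[50835681907883,0,0,6593779310773,0,3548580181301],[0,0,-11775566319793],[-19312808106168,17416037677321,0,-885663836113,-946041725819,-815214901329]]⟩,-50266,[⟨-31171,1,(-13194139533312,0),4⟩,⟨-12075,1,(-150633093005312,0),32⟩],13052,[⟨42031,2,(-185817465094144,0),32⟩,⟨71010,3,(-473889511571456,0),1⟩],2,0,[],0,[]⟩,⟨[2702160022561611,60284406822519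,28941308853045,-1095956142131,1139782962580,361134633029],⟨2,202070738665472,667165530877283,[[21265604155296036,0,-1563616345667883],[51776333238687063]]⟩,-130034,[⟨-89706,3,(59373627899904,0),4⟩,⟨-49377,3,(139637976727552,0),4⟩],69281,[⟨121862,4,(-447501232504832,0),1⟩,⟨174443,4,(-447501232504832,0),1⟩,⟨227024,5,(-483785116221440,0),1⟩,⟨279606,5,(-465093418549248,481036337152),1⟩],4,0,[],0,[]⟩,⟨[32425937551973041,1260198502018306,820661376875555,-35538766251962,35701634190471,14843662252257],⟨2,60321962459136,2080816767599494,[]⟩,-252781,[⟨-167059,4,(10995116277760,0),6⟩,⟨-124199,3,(31885837205504,0),4⟩],264913,[⟨295342,5,(-531064116215808,0),1⟩,⟨325771,5,(-540959720865792,0),1⟩,⟨356200,6,(-548656302260224,0),1⟩,⟨386629,4,(0,0),33⟩,⟨508345,5,(0,0),33⟩],5,0,[],0,[]⟩,⟨[281474976748287,734520578333,426695993081,-5254742568,4160669325,2472220931],⟨2,15363788701696,5156811526370190,[[4518873565295686,-38240615952839,0,133527626679,0,-1938834866596],[-748320086998567,-51071304046926,0]]⟩,-238178,[],485318,[],5,137419,[⟨186982,4,(0,0),33⟩],196764,[⟨248873,5,(0,0),33⟩]⟩]⟩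
def d_m60416_m59392_26624_27648_0 : sl d_m60416_m59392_26624_27648 0 4 := by decide +kernel
def d_m60416_m59392_26624_27648_4 : sl d_m60416_m59392_26624_27648 4 9 := by decide +kernel
def d_m60416_m59392_26624_27648_9 : sl d_m60416_m59392_26624_27648 9 13 := by decide +kernel
def d_m60416_m59392_26624_27648_13 : sl d_m60416_m59392_26624_27648 13 18 := by decide +kernel
def d_m60416_m59392_26624_27648_18 : sl d_m60416_m59392_26624_27648 18 22 := by decide +kernel
def d_m60416_m59392_26624_27648_22 : sl d_m60416_m59392_26624_27648 22 28 := by decide +kernel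
def d_m60416_m59392_26624_27648_28 : sl d_m60416_m59392_26624_27648 28 30 := by decide +kernel
def d_m60416_m59392_26624_27648_30 : sl d_m60416_m59392_26624_27648 30 31 := by decide +kernel
def d_m60416_m59392_26624_27648_31 : fr d_m60416_m59392_26624_27648 31 := by decide +kernel
theorem f_m60416_m59392_26624_27648 : fr d_m60416_m59392_26624_27648 0 :=
  (d_m60416_m59392_26624_27648_0.fr (d_m60416_m59392_26624_27648_4.fr (d_m60416_m59392_26624_27648_9.fr (d_m60416_m59392_26624_27648_13.fr (d_m60416_m59392_26624_27648_18.fr (d_m60416_m59392_26624_27648_22.fr (d_m60416_m59392_26624_27648_28.fr (d_m60416_m59392_26624_27648_30.fr d_m60416_m59392_26624_27648_31))))))))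

end Pool.Agent.Lib.MP_d6150d_an
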