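import Pool.Agent.Lib.MP_d6150d_an.Cells

set_option maxRecDepth 100000
set_option linter.defProp false

namespace Pool.Agent.Lib.MP_d6150d_an

noncomputable def d_m60416_m59392_27648_28672 : Cell :=
  ⟨-257285720899584,2199023255552,120946279055360,2199023255552,⟨0,-4503599627370496,0⟩,⟨0,3330498029944832,-84442496368640⟩,0,-1,1,13107,1,(-164926744166400,0),⟨0,6092064555008,13005141676163071,[]⟩,[10455744078241,11505926823,21630209657,0,26934583,25211323],3,[⟨[225179981383289,451077162622,257872656975,-3121440764,2269707734,1474722286],⟨0,122245207949312,707737296870215,[[-35186236951302287,649884534721795,382817435320209,-9302795165747,-11516473820258,-3995828884828],[-38411060961904543,1086332817266758,640226211505756,-15715467353453,-24589746724695,-7027052002113],[-5599381738049665,481302533122095,276384534553999,0,-14050440154081,-1247211386612],[79537108069912,0,0,8584955586096,0,2468549331000],[0,-26569311058617,-9353361286845],[-14117585471729,0,0,-2125119007208,-931167409639,-664933573236]]⟩,-50623,[⟨-31373,1,(-13194139533312,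0),4⟩,⟨-12122,1,(-150633093005312,0),32⟩],13052,[⟨41587,2,(-185817465094144,0),32⟩,⟨70122,3,(-472789999943680,0),1⟩],2,0,[],0,[]⟩,⟨[2702159991349571,58168216281923,26851174005614,-1038972806833,1040917522600,326999239640],⟨2,202143789809664,667806995599776,[[17806475419002766,0,-1294481558534043],[44673799204476746]]⟩,-131909,[⟨-90817,3,(58274116272128,0),4⟩,⟨-49725,3,(137438953472000,0),4⟩],68442,[⟨118953,4,(-449700255760384,0),1⟩,⟨169465,4,(-445302209249280,0),1⟩,⟨219976,5,(-479387069710336,0),1⟩,⟨270488,5,(-513471930171392,0),1⟩],4,0,[],0,[]⟩,⟨[32425936507621893,1251608175471418,756679027057178,-35174388528711,33017820110975,13101973444643],⟨2,60254715183104,2087792915456515,[]⟩,-257941,[⟨-170014,4,(9895604649984,0),6⟩,⟨-126051,3,(29686813949952,0),4⟩],256557,[⟨286014,5,(-526666069704704,0),1⟩,⟨315471,5,(-538760697610240,0),1⟩,⟨344928,6,(-546457279004672,0),1⟩,⟨374386,6,(-551954837143552,0),1⟩,⟨492215,5,(0,0),33⟩],5,0,[],0,[]⟩,⟨[281474976745679,714907355947,401620034017,-5161627805,3972207209,2396828637],⟨2,15325059284992,5169843777372635,[[3238033565696227,-2000738877754,-27115342871300,0,0,-600900548645],[-265886062306763]]⟩,-243104,[],470210,[],5,136470,[⟨186982,4,(0,0),33⟩],197971,[⟨248873,5,(0,0),33⟩]⟩]⟩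
def d_m60416_m59392_27648_28672_0 : sl d_m60416_m59392_27648_28672 0 4 := by decide +kernel
def d_m60416_m59392_27648_28672_4 : sl d_m60416_m59392_27648_28672 4 9 := by decide +kernel
def d_m60416_m59392_27648_28672_9 : sl d_m60416_m59392_27648_28672 9 13 := by decide +kernel
def d_m60416_m59392_27648_28672_13 : sl d_m60416_m59392_27648_28672 13 18 := by decide +kernel
def d_m60416_m59392_27648_28672_18 : sl d_m60416_m59392_27648_28672 18 22 := by decide +kernel
def d_m60416_m59392_27648_28672_22 : sl d_m60416_m59392_27648_28672 22 28 := by decide +kernel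
def d_m60416_m59392_27648_28672_28 : sl d_m60416_m59392_27648_28672 28 30 := by decide +kernel
def d_m60416_m59392_27648_28672_30 : sl d_m60416_m59392_27648_28672 30 31 := by decide +kernel
def d_m60416_m59392_27648_28672_31 : fr d_m60416_m59392_27648_28672 31 := by decide +kernel
theorem f_m60416_m59392_27648_28672 : fr d_m60416_m59392_27648_28672 0 :=
  (d_m60416_m59392_27648_28672_0.fr (d_m60416_m59392_27648_28672_4.fr (d_m60416_m59392_27648_28672_9.fr (d_m60416_m59392_27648_28672_13.fr (d_m60416_m59392_27648_28672_18.fr (d_m60416_m59392_27648_28672_22.fr (d_m60416_m59392_27648_28672_28.fr (d_m60416_m59392_27648_28672_30.fr d_m60416_m59392_27648_28672_31))))))))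

noncomputable def d_m59392_m57344_24576_26624 : Cell :=
  ⟨-250688651132928,4398046511104,109951162777600,4398046511104,⟨0,-4503599627370496,0⟩,⟨0,2959309776355328,-84442496368640⟩,0,-1,1,13107,1,(-171523813933056,0),⟨0,6157310885888,12867331805052114,[]⟩,[10382482463284,22744302138,42919029149,0,106401690,99996040],3,[⟨[225179981609719,887600085775,567935755750,-12376663247,9292620852,6131206062],⟨0,126289076879360,682110931742175,[[-33298698301632340,1253474525941507,764299277900862,-36777346230200,-43811528119950,-15241574159074],[-36826388453677433,2095126211840837,1290253887011593,-62847880331886,-82120743776985,-24345547346138],[-5577018961853226,902953350053644,554435504387580,0,-20562204477290,0],[130187265739198,0,0,35412248640570,26686199867525,11377631237387],[0],[-12198722948804,28770049877581,11241800456041,-9176636815045,-8776211613400,-2198488727713]]⟩,-50276,[⟨-31141,2,(-17592186044416,0),4⟩,⟨-12006,1,(-156130651144192,0),32⟩],13052,[⟨42583,2,(-194613558116352,0),32⟩,⟨72115,3,(-485984139476992,0),1⟩],2,0,[],0,[]⟩,⟨[281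474977281246,1403089481102,884830176076,-20398939901,16280718935,10036936450],⟨2,162998096166912,486068023956292,[[12846588955973355,2951761969781120,-2807117166481233],[18435570603065235,3473786830860338,-731569023407841],[14262054802746517]]⟩,-204664,[⟨-126712,4,(21990232555520,0),6⟩,⟨-87736,3,(61572651155456,0),4⟩,⟨-48759,3,(141836999983104,0),4⟩],69097,[⟨101519,4,(-473889511571456,0),1⟩,⟨133941,4,(-457396837154816,0),1⟩,⟨198785,5,(-477188046454784,0),1⟩,⟨231207,5,(-507974372032512,0),1⟩,⟨263629,5,(-525566558076928,0),1⟩,⟨296051,5,(-537661185982464,0),1⟩,⟨328474,6,(-547556790632448,0),1⟩],5,121274,[⟨186982,4,(0,0),33⟩],122929,[⟨148758,4,(0,0),33⟩,⟨174588,4,(0,0),33⟩,⟨226248,5,(0,0),33⟩]⟩]⟩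
def d_m59392_m57344_24576_26624_0 : sl d_m59392_m57344_24576_26624 0 4 := by decide +kernel
def d_m59392_m57344_24576_26624_4 : sl d_m59392_m57344_24576_26624 4 9 := by decide +kernel
def d_m59392_m57344_24576_26624_9 : sl d_m59392_m57344_24576_26624 9 13 := by decide +kernel
def d_m59392_m57344_24576_26624_13 : sl d_m59392_m57344_24576_26624 13 17 := by decide +kernel
def d_m59392_m57344_24576_26624_17 : sl d_m59392_m57344_24576_26624 17 21 := by decide +kernel
def d_m59392_m57344_24576_26624_21 : sl d_m59392_m57344_24576_26624 21 23 := by decide +kernel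
def d_m59392_m57344_24576_26624_23 : sl d_m59392_m57344_24576_26624 23 26 := by decide +kernel
def d_m59392_m57344_24576_26624_26 : fr d_m59392_m57344_24576_26624 26 := by decide +kernel
theorem f_m59392_m57344_24576_26624 : fr d_m59392_m57344_24576_26624 0 :=
  (d_m59392_m57344_24576_26624_0.fr (d_m59392_m57344_24576_26624_4.fr (d_m59392_m57344_24576_26624_9.fr (d_m59392_m57344_24576_26624_13.fr (d_m59392_m57344_24576_26624_17.fr (d_m59392_m57344_24576_26624_21.fr (d_m59392_m57344_24576_26624_23.fr d_m59392_m57344_24576_26624_26)))))))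

noncomputable def d_m59392_m57344_26624_27648 : Cell :=
  ⟨-250688651132928,4398046511104,116548232544256,2199023255552,⟨0,-4503599627370496,0⟩,⟨0,2728747341971456,-84442496368640⟩,0,-1,1,13107,1,(-171523813933056,0),⟨0,6105671925760,12976157807561573,[]⟩,[10446958362188,22904383871,21610016212,0,53600734,25186444],3,[⟨[225179981501791,854489785243,260249233126,-12127286651,4383027449,1474182458],⟨0,123702303260672,698407923188061,[[-29480829285023333,1082003800959219,323701519115638,-31875386753016,-18900262818184,-3450191464738],[-31923913860207780,1788541147828242,535289048013613,-54916969995191,-38819051941560,-5676938491901],[-4302636984575429,774607921967501,223360274163740,0,-20920455547337,0],[178633757133604,0,0,32276627248888,0,2953175950196],[0,-35911250650959,-49867404876],[-11072648800587,1491279477377,3640251450350,-9095792678149,-921868418244,-705971511505]]⟩,-50591,[⟨-31345,1,(-17592186044416,0),4⟩,⟨-12099,1,(-156130651144192,0),32⟩],13052,[⟨41689,2,(-194613558116352,0),32⟩,⟨70326,3,(-484884627849216,0),1⟩],2,0,[],0,[]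⟩,⟨[281474977019188,1347247321453,404796877497,-19887715531,7605108747,2393901314],⟨2,161347749478400,491039774484273,[[14921346798557154,1928586509804043,-1017211242894996,0,0,9169912834076],[13971099297357936,2312170996867271,-467867094119791],[0],[0],[4391112893211757]]⟩,-214865,[⟨-132169,4,(18691697672192,0),6⟩,⟨-90821,3,(57174604644352,0),4⟩,⟨-49473,3,(135239930216448,0),4⟩],68229,[⟨102562,4,(-473889511571456,0),1⟩,⟨136895,4,(-457396837154816,0),1⟩,⟨171228,4,(-469491465060352,0),1⟩,⟨205562,5,(-491481697615872,0),1⟩,⟨239895,5,(-512372418543616,0),1⟩,⟨274229,5,(-529964604588032,0),1⟩,⟨308562,5,(-542059232493568,0),1⟩,⟨342896,6,(-549755813888000,0),1⟩],5,123968,[⟨186982,4,(0,0),33⟩],139020,[⟨182634,4,(0,0),33⟩,⟨226248,5,(0,0),33⟩]⟩]⟩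
def d_m59392_m57344_26624_27648_0 : sl d_m59392_m57344_26624_27648 0 4 := by decide +kernel
def d_m59392_m57344_26624_27648_4 : sl d_m59392_m57344_26624_27648 4 9 := by decide +kernel
def d_m59392_m57344_26624_27648_9 : sl d_m59392_m57344_26624_27648 9 13 := by decide +kernel
def d_m59392_m57344_26624_27648_13 : sl d_m59392_m57344_26624_27648 13 17 := by decide +kernel
def d_m59392_m57344_26624_27648_17 : sl d_m59392_m57344_26624_27648 17 22 := by decide +kernel
def d_m59392_m57344_26624_27648_22 : sl d_m59392_m57344_26624_27648 22 24 := by decide +kernel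
def d_m59392_m57344_26624_27648_24 : sl d_m59392_m57344_26624_27648 24 26 := by decide +kernel
def d_m59392_m57344_26624_27648_26 : fr d_m59392_m57344_26624_27648 26 := by decide +kernel
theorem f_m59392_m57344_26624_27648 : fr d_m59392_m57344_26624_27648 0 :=
  (d_m59392_m57344_26624_27648_0.fr (d_m59392_m57344_26624_27648_4.fr (d_m59392_m57344_26624_27648_9.fr (d_m59392_m57344_26624_27648_13.fr (d_m59392_m57344_26624_27648_17.fr (d_m59392_m57344_26624_27648_22.fr (d_m59392_m57344_26624_27648_24.fr d_m59392_m57344_26624_27648_26)))))))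

noncomputable def d_m59392_m57344_27648_28672 : Cell :=
  ⟨-250688651132928,4398046511104,120946279055360,2199023255552,⟨0,3591344278732800,0⟩,⟨0,2768647588151296,0⟩,0,1,1,13107,1,(-171523813933056,0),⟨0,6080034504704,13030873765349556,[]⟩,[10490192628097,23011853647,21711013406,0,53869166,25312247],3,[⟨[225179981495669,833121893769,244690584006,-11970690638,4219553891,1438608361],⟨0,123680102154240,698806279252492,[[30222320479187341,-1200130895213387,-355806845306111,30962451983213,19796421980296,3260693149238],[30751897712629777,-1625019379676492,-482047961116419,44492654810401,29188211033179,4640306411010],[1002682551139804],[-1914942292320403,555512391478522,157903998213554,-13717219659529,-9556351784908,-1402047260694],[0],[232502410070698,-96527276525027,-22548098892977]]⟩,-50952,[⟨-31549,1,(-17592186044416,0),4⟩,⟨-12146,1,(-156130651144192,0),32⟩],13052,[⟨41258,2,(-194613558116352,0),32⟩,⟨69464,3,(-484884627849216,0),1⟩],2,0,[],0,[]⟩,⟨[2702160967905288,91956516541515,24278640802627,-2949560722965,1495699220785,283415403426],⟨2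,201953780891648,656480453289897,[]⟩,-133578,[⟨-91701,3,(54975581388800,0),4⟩,⟨-49824,3,(133040906960896,0),4⟩],67426,[⟨115446,4,(-467292441804800,0),1⟩,⟨163467,4,(-462894395293696,0),1⟩,⟨211488,5,(-490382185988096,0),1⟩,⟨259509,5,(-518969488310272,0),1⟩],4,0,[],0,[]⟩,⟨[32426019519897148,1911635454651782,688141860590576,-92074619750620,46182912153789,11366709605982],⟨2,61001356279808,2002230550647494,[]⟩,-261004,[⟨-170958,4,(9895604649984,0),6⟩,⟨-125936,3,(28587302322176,0),4⟩],242394,[⟨271748,5,(-529964604588032,0),1⟩,⟨301103,5,(-539860209238016,0),1⟩,⟨330458,5,(-547556790632448,0),1⟩,⟨359813,6,(-553054348771328,0),1⟩,⟨477233,5,(0,0),33⟩],5,0,[],0,[]⟩,⟨[389112624464925791,24315164207134521,11259645916139748,-1242341702278839,718067036860113,213587365987348],⟨2,18872764203008,6083119819812127,[]⟩,-403600,[⟨-242448,4,(0,0),33⟩],449882,[⟨561890,5,(0,0),33⟩,⟨673899,5,(0,0),33⟩],5,0,[],0,[]⟩,⟨[281474977002445,1311441862653,380210772113,-19568938054,7275281544,2324295752],⟨2,4877742505984,16242793107856264,[[-40593782524555765,3025566705812886,-1180444537649086],[0],[0],[0,0,3923105010933965]]⟩,-377358,[],638533,[],5,211837,[⟨270160,4,(0,0),33⟩],268840,[⟨305358,5,(0,0),33⟩]⟩]⟩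
def d_m59392_m57344_27648_28672_0 : sl d_m59392_m57344_27648_28672 0 4 := by decide +kernel
def d_m59392_m57344_27648_28672_4 : sl d_m59392_m57344_27648_28672 4 9 := by decide +kernel
def d_m59392_m57344_27648_28672_9 : sl d_m59392_m57344_27648_28672 9 13 := by decide +kernel
def d_m59392_m57344_27648_28672_13 : sl d_m59392_m57344_27648_28672 13 18 := by decide +kernel
def d_m59392_m57344_27648_28672_18 : sl d_m59392_m57344_27648_28672 18 22 := by decide +kernel
def d_m59392_m57344_27648_28672_22 : sl d_m59392_m57344_27648_28672 22 27 := by decide +kernel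
def d_m59392_m57344_27648_28672_27 : sl d_m59392_m57344_27648_28672 27 33 := by decide +kernel
def d_m59392_m57344_27648_28672_33 : sl d_m59392_m57344_27648_28672 33 35 := by decide +kernel
def d_m59392_m57344_27648_28672_35 : sl d_m59392_m57344_27648_28672 35 36 := by decide +kernel
def d_m59392_m57344_27648_28672_36 : fr d_m59392_m57344_27648_28672 36 := by decide +kernel
theorem f_m59392_m57344_27648_28672 : fr d_m59392_m57344_27648_28672 0 :=
  (d_m59392_m57344_27648_28672_0.fr (d_m59392_m57344_27648_28672_4.fr (d_m59392_m57344_27648_28672_9.fr (d_m59392_m57344_27648_28672_13.fr (d_m59392_m57344_27648_28672_18.fr (d_m59392_m57344_27648_28672_22.fr (d_m59392_m57344_27648_28672_27.fr (d_m59392_m57344_27648_28672_33.fr (d_m59392_m57344_27648_28672_35.fr d_m59392_m57344_27648_28672_36)))))))))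

noncomputable def d_m57344_m55296_16384_20480 : Cell :=
  ⟨-241892558110720,4398046511104,79164837199872,8796093022208,⟨0,-4503599627370496,0⟩,⟨0,2605859737698304,-84442496368640⟩,0,-1,1,13107,1,(-180319906955264,0),⟨0,6343475462144,12489709009028834,[]⟩,[10131414765454,22012809819,83498218994,0,205501183,388342468],3,[⟨[225179982082482,955413970662,1526788287676,-12925445098,22303281417,29160028337],⟨0,132207876898816,647130303277619,[[-34355472312273993,1263453480272577,1612559806078488,-30865710745746,-57316081478855,-49484642611276],[-37228898920336367,1762997141495286,2228776750026734,-45090530948905,-71374316438342,-61778023744580],[0],[5828864827672754,-647337754441689,-723654649991460,14347284543833,0,0],[0],[-1025154529672658,119036716209087,75865733282352,0,14444490368046,12305046842396]]⟩,-48644,[⟨-30168,2,(-23089744183296,0),4⟩,⟨-11691,1,(-162727720910848,0),32⟩],13051,[⟨46090,2,(-208907209277440,0),32⟩,⟨79130,4,(-505775348776960,0),1⟩],2,0,[],0,[]⟩,⟨[281474978527562,1516239475208,2393647102776,-21505980692,40123044898,493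77204455],⟨2,166532467458048,475752048417479,[[23922835450001075,1107482708309857,-9234008094336326,18637283836984,-183716342186886,487850110179767],[28032259531122472,3855488203283083,-2416748781784931],[38300216498067627,2433392278892076,0],[0],[0,275503174755248,-1411289570278678],[1959854626966015]]⟩,-165900,[⟨-106156,4,(35184372088832,0),6⟩,⟨-76284,3,(82463372083200,0),6⟩,⟨-46412,2,(-16492674416640,0),6⟩],73517,[⟨115576,4,(-483785116221440,0),1⟩,⟨157635,4,(-481586092965888,0),1⟩,⟨199694,5,(-502476813893632,0),1⟩,⟨241754,5,(-524467046449152,0),1⟩],5,113826,[⟨186982,4,(0,0),33⟩],60315,[⟨67169,4,(0,0),33⟩,⟨74023,4,(0,0),33⟩,⟨80877,4,(0,0),33⟩,⟨87732,4,(0,0),33⟩,⟨101440,4,(0,0),33⟩,⟨115149,4,(0,0),33⟩,⟨142566,5,(0,0),33⟩,⟨169984,5,(0,0),33⟩]⟩]⟩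
def d_m57344_m55296_16384_20480_0 : sl d_m57344_m55296_16384_20480 0 4 := by decide +kernel
def d_m57344_m55296_16384_20480_4 : sl d_m57344_m55296_16384_20480 4 9 := by decide +kernel
def d_m57344_m55296_16384_20480_9 : sl d_m57344_m55296_16384_20480 9 13 := by decide +kernel
def d_m57344_m55296_16384_20480_13 : sl d_m57344_m55296_16384_20480 13 18 := by decide +kernel
def d_m57344_m55296_16384_20480_18 : sl d_m57344_m55296_16384_20480 18 20 := by decide +kernel
def d_m57344_m55296_16384_20480_20 : sl d_m57344_m55296_16384_20480 20 24 := by decide +kernel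
def d_m57344_m55296_16384_20480_24 : sl d_m57344_m55296_16384_20480 24 28 := by decide +kernel
def d_m57344_m55296_16384_20480_28 : fr d_m57344_m55296_16384_20480 28 := by decide +kernel
theorem f_m57344_m55296_16384_20480 : fr d_m57344_m55296_16384_20480 0 :=
  (d_m57344_m55296_16384_20480_0.fr (d_m57344_m55296_16384_20480_4.fr (d_m57344_m55296_16384_20480_9.fr (d_m57344_m55296_16384_20480_13.fr (d_m57344_m55296_16384_20480_18.fr (d_m57344_m55296_16384_20480_20.fr (d_m57344_m55296_16384_20480_24.fr d_m57344_m55296_16384_20480_28)))))))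

noncomputable def d_m55296_m53248_16384_20480 : Cell :=
  ⟨-233096465088512,4398046511104,79164837199872,8796093022208,⟨0,-4503599627370496,0⟩,⟨0,1702383302213632,-84442496368640⟩,0,-1,1,13107,1,(-189115999977472,0),⟨0,6318137737216,12539796602600403,[]⟩,[10175351083005,22012809819,83909221360,0,205501183,390391732],3,[⟨[225179981948313,859518442359,1448668086120,-12185426500,20100821769,27972571198],⟨0,131951891251200,648707099530349,[[-23724294424080309,862322726019324,1153203564013211,-20585827371707,-41394072199084,-35595501540346],[-26767739410875682,1201863861575347,1638183513923826,-29906303667434,-52579136692537,-44506162260108],[-3081017747549669],[1587995578047930,-447123213425157,-616248499475534,9408691318136,0,0],[0,0,0,0,-5064455301592,0],[-277103627868222,87067651269133,108957376617570,0,6381469457730,9184993736932]]⟩,-48897,[⟨-30316,2,(-28587302322176,0),4⟩,⟨-11735,1,(-170424302305280,0),32⟩],13051,[⟨45318,2,(-219902325555200,0),32⟩,⟨77585,4,(-520068999938048,0),1⟩],2,0,[],0,[]⟩,⟨[281474978134629,1351195196181,22640316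13985,-19954049656,35443292611,46921814438],⟨2,166398122459136,476136156792119,[[19060378210542084,932514084577652,-7239922046673446,0,0,434461754613453],[15894338707534537,2536876873807383,-798852511172662],[28267529274093704],[0],[0,1752098815100124,-168364426727962],[2290815576536193]]⟩,-162581,[⟨-104624,4,(35184372088832,0),6⟩,⟨-75646,3,(81363860455424,0),6⟩,⟨-46667,2,(-20890720927744,0),6⟩],72260,[⟨109552,4,(-502476813893632,0),1⟩,⟨146844,4,(-494780232499200,0),1⟩,⟨184136,5,(-509073883660288,0),1⟩,⟨221428,5,(-525566558076928,0),1⟩],5,111548,[⟨186982,4,(0,0),33⟩],55244,[⟨67654,4,(0,0),33⟩,⟨80065,4,(0,0),33⟩,⟨104887,4,(0,0),33⟩,⟨129708,5,(0,0),33⟩,⟨154530,5,(0,0),33⟩]⟩]⟩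
def d_m55296_m53248_16384_20480_0 : sl d_m55296_m53248_16384_20480 0 4 := by decide +kernel
def d_m55296_m53248_16384_20480_4 : sl d_m55296_m53248_16384_20480 4 9 := by decide +kernel
def d_m55296_m53248_16384_20480_9 : sl d_m55296_m53248_16384_20480 9 13 := by decide +kernel
def d_m55296_m53248_16384_20480_13 : sl d_m55296_m53248_16384_20480 13 18 := by decide +kernel
def d_m55296_m53248_16384_20480_18 : sl d_m55296_m53248_16384_20480 18 20 := by decide +kernel
def d_m55296_m53248_16384_20480_20 : sl d_m55296_m53248_16384_20480 20 24 := by decide +kernel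
def d_m55296_m53248_16384_20480_24 : sl d_m55296_m53248_16384_20480 24 25 := by decide +kernel
def d_m55296_m53248_16384_20480_25 : fr d_m55296_m53248_16384_20480 25 := by decide +kernel
theorem f_m55296_m53248_16384_20480 : fr d_m55296_m53248_16384_20480 0 :=
  (d_m55296_m53248_16384_20480_0.fr (d_m55296_m53248_16384_20480_4.fr (d_m55296_m53248_16384_20480_9.fr (d_m55296_m53248_16384_20480_13.fr (d_m55296_m53248_16384_20480_18.fr (d_m55296_m53248_16384_20480_20.fr (d_m55296_m53248_16384_20480_24.fr d_m55296_m53248_16384_20480_25)))))))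

noncomputable def d_m57344_m55296_20480_24576 : Cell :=
  ⟨-241892558110720,4398046511104,96757023244288,8796093022208,⟨0,-4503462188417024,0⟩,⟨0,2209842278170624,-84442496368640⟩,0,-1,1,13107,1,(-180319906955264,0),⟨0,6237197893632,12702525071808116,[]⟩,[10299635400646,22427946025,85067156507,0,209642645,396149732],3,[⟨[225179981885144,861876373998,1256800272275,-12189460463,18936090334,25717935715],⟨0,131792693624832,650181587733035,[[-27917259772964515,1051196376237691,1351257210261049,-22077978283693,-58974997496753,-50609204489452],[-31306020196354370,1640575867609180,2197066770783500,-29162507608426,-87045347528029,-74588112044198],[-4515269198593018,432708944239718,698981540063437],[640810151738608,-246726250887520,-235738715254841,0,28373651872769,24260151587456],[0,0,0,-7220939509663,0,0],[-103215621838151,64920456951613,62065763579233]]⟩,-49954,[⟨-30911,2,(-23089744183296,0),4⟩,⟨-11868,1,(-162727720910848,0),32⟩],13051,[⟨43868,2,(-207807697649664,0),32⟩,⟨74685,3,(-503576325521408,0),1⟩],2,0,[],0,[]⟩,⟨[281474977973454,1357291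032274,1959258509177,-19988162312,33166922769,42465609444],⟨2,166288127033344,476451108807938,[[0,3086046064112482,-8179702945645038,-6901997472305,0,0],[11430291244478867,3550478217851916,0],[39628901676804402,0,5209144958838386],[0],[0],[14021509584488420]]⟩,-186226,[⟨-116937,4,(26388279066624,0),6⟩,⟨-82292,3,(69269232549888,0),6⟩,⟨-47647,3,(193514046488576,-68719476736),4⟩],69761,[⟨96075,4,(-495879744126976,0),1⟩,⟨122389,4,(-477188046454784,0),1⟩,⟨175018,5,(-485984139476992,0),1⟩,⟨227647,5,(-514571441799168,0),1⟩,⟨253961,5,(-532163627843584,0),1⟩,⟨280276,5,(-540959720865792,0),1⟩],5,116156,[⟨186982,4,(0,0),33⟩],87409,[⟨102192,4,(0,0),33⟩,⟨116976,4,(0,0),33⟩,⟨146544,4,(0,0),33⟩,⟨176112,5,(0,0),33⟩,⟨205680,5,(0,0),33⟩]⟩]⟩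
def d_m57344_m55296_20480_24576_0 : sl d_m57344_m55296_20480_24576 0 4 := by decide +kernel
def d_m57344_m55296_20480_24576_4 : sl d_m57344_m55296_20480_24576 4 9 := by decide +kernel
def d_m57344_m55296_20480_24576_9 : sl d_m57344_m55296_20480_24576 9 13 := by decide +kernel
def d_m57344_m55296_20480_24576_13 : sl d_m57344_m55296_20480_24576 13 17 := by decide +kernel
def d_m57344_m55296_20480_24576_17 : sl d_m57344_m55296_20480_24576 17 20 := by decide +kernel
def d_m57344_m55296_20480_24576_20 : sl d_m57344_m55296_20480_24576 20 22 := by decide +kernel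
def d_m57344_m55296_20480_24576_22 : sl d_m57344_m55296_20480_24576 22 26 := by decide +kernel
def d_m57344_m55296_20480_24576_26 : sl d_m57344_m55296_20480_24576 26 27 := by decide +kernel
def d_m57344_m55296_20480_24576_27 : fr d_m57344_m55296_20480_24576 27 := by decide +kernel
theorem f_m57344_m55296_20480_24576 : fr d_m57344_m55296_20480_24576 0 :=
  (d_m57344_m55296_20480_24576_0.fr (d_m57344_m55296_20480_24576_4.fr (d_m57344_m55296_20480_24576_9.fr (d_m57344_m55296_20480_24576_13.fr (d_m57344_m55296_20480_24576_17.fr (d_m57344_m55296_20480_24576_20.fr (d_m57344_m55296_20480_24576_22.fr (d_m57344_m55296_20480_24576_26.fr d_m57344_m55296_20480_24576_27))))))))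

noncomputable def d_m55296_m53248_20480_24576 : Cell :=
  ⟨-233096465088512,4398046511104,96757023244288,8796093022208,⟨0,2087508724678656,0⟩,⟨0,3513347672637440,0⟩,0,1,1,13107,1,(-189115999977472,0),⟨0,6212332945408,12753367024818631,[]⟩,[10344400303762,22427946025,85486441797,0,209642645,398242063],3,[⟨[225179981791640,774590017858,1185075881080,-11567776066,17209013927,24813480094],⟨0,131575332601856,651567735005834,[[24741141732424191,-1021629252241709,-1323356361988513,30486577383115,72252752527679,60578459625069],[24948611285062947,-1398903882854757,-1837586926523887,44816885865294,106241044774360,88339751680372],[0],[-2004597992609236,492223430445201,647536580225392,-14507190816250,-34396654029963,-28097216711887],[0],[194126700536354,-89420520465795,-105622297939918]]⟩,-50226,[⟨-31070,2,(-28587302322176,0),4⟩,⟨-11913,1,(-169324790677504,0),32⟩],13051,[⟨43216,2,(-218802813927424,0),32⟩,⟨73382,3,(-516770465054720,0),1⟩],2,0,[],0,[]⟩,⟨[281474977712984,1210040219089,1842533250882,-18714051705,29600244559,40645027980],⟨2,1661689289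11360,476792881907145,[[866067527786142,-5155255833124680,662693251768582,242364450330208,0,0],[11906841836542644,-6322393073774898,0],[-58000165834681930,5813332838270994,0],[11293058690639925,0,3975718826573174],[0,0,5818543534960],[0,5315282280051384,0]]⟩,-182907,[⟨-115413,4,(26388279066624,0),6⟩,⟨-81666,3,(68169720922112,0),6⟩,⟨-47918,3,(164926744166400,-3848290697216),4⟩],68681,[⟨116498,4,(-501377302265856,0),1⟩,⟨164315,5,(-499178279010304,0),1⟩,⟨212132,5,(-520068999938048,0),1⟩,⟨259949,5,(-537661185982464,0),1⟩],5,114086,[⟨186982,4,(0,0),33⟩],81069,[⟨107547,4,(0,0),33⟩,⟨134025,4,(0,0),33⟩,⟨186982,5,(0,0),33⟩]⟩]⟩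
def d_m55296_m53248_20480_24576_0 : sl d_m55296_m53248_20480_24576 0 4 := by decide +kernel
def d_m55296_m53248_20480_24576_4 : sl d_m55296_m53248_20480_24576 4 9 := by decide +kernel
def d_m55296_m53248_20480_24576_9 : sl d_m55296_m53248_20480_24576 9 13 := by decide +kernel
def d_m55296_m53248_20480_24576_13 : sl d_m55296_m53248_20480_24576 13 18 := by decide +kernel
def d_m55296_m53248_20480_24576_18 : sl d_m55296_m53248_20480_24576 18 20 := by decide +kernel
def d_m55296_m53248_20480_24576_20 : sl d_m55296_m53248_20480_24576 20 23 := by decide +kernel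
def d_m55296_m53248_20480_24576_23 : fr d_m55296_m53248_20480_24576 23 := by decide +kernel
theorem f_m55296_m53248_20480_24576 : fr d_m55296_m53248_20480_24576 0 :=
  (d_m55296_m53248_20480_24576_0.fr (d_m55296_m53248_20480_24576_4.fr (d_m55296_m53248_20480_24576_9.fr (d_m55296_m53248_20480_24576_13.fr (d_m55296_m53248_20480_24576_18.fr (d_m55296_m53248_20480_24576_20.fr d_m55296_m53248_20480_24576_23))))))

noncomputable def d_m53248_m49152_16384_20480 : Cell :=
  ⟨-219902325555200,8796093022208,79164837199872,8796093022208,⟨0,3474482513575936,-84442496368640⟩,⟨0,3966178959556608,0⟩,0,1,1,13107,1,(-202310139510784,0),⟨0,6292800077824,12590287547197860,[]⟩,[10241251463014,44025619639,84525724909,0,411002366,393465628],3,[⟨[225179984713197,1463537382601,1337944992915,-45188162759,34841967875,26421625963],⟨0,135005645701120,632900457882121,[[44121562433972464,-3421491761408061,-2370161631279348,198069092550934,228205594158590,111506206828681],[45616931756225068,-4669467525005462,-3323817412803885,292051335407920,322372010715609,16424723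7998709],[0],[-4741899497154367,1611650704290560,1194629974981011,-95010750494699,-65991500541348,-53294796469761],[0,0,0,0,29462381837997,0],[605280978144672,-279748949588165,-195127298822051]]⟩,-49522,[⟨-30650,2,(-37383395344384,0),4⟩,⟨-11778,2,(-180319906955264,0),32⟩],13051,[⟨44572,2,(-236394999971840,0),32⟩,⟨76094,4,(-538760697610240,0),1⟩],2,0,[],0,[]⟩,⟨[281474984281621,2274739166419,2082903160668,-72605225178,59860093935,43777616201],⟨2,168106255122432,471298123106814,[[-29907972406242557,-4096355262218988,8218564385241716,-35656628526987,181680567692405,-568829620308027],[-39053473290814106,-8101152617922717,2694417950031366],[-40861939241572266,0,0,0,0,-244512502484317],[0],[0,-4906452502601150,4536572684753540],[-1799628769525334]]⟩,-158808,[⟨-102830,4,(34084860461056,0),6⟩,⟨-74841,3,(79164837199872,0),6⟩,⟨-46851,2,(-28587302322176,0),6⟩],70135,[⟨103409,4,(-527765581332480,0),1⟩,⟨136684,4,(-514571441799168,0),1⟩,⟨169958,5,(-521168511565824,0),1⟩,⟨203233,5,(-532163627843584,0),1⟩],5,108960,[⟨186982,4,(0,0),33⟩],50704,[⟨56315,3,(0,0),33⟩,⟨61926,3,(0,0),33⟩,⟨73148,4,(0,0),33⟩,⟨84370,4,(0,0),33⟩,⟨95593,4,(0,0),33⟩,⟨118037,4,(0,0),33⟩,⟨140482,5,(0,0),33⟩]⟩]⟩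
def d_m53248_m49152_16384_20480_0 : sl d_m53248_m49152_16384_20480 0 4 := by decide +kernel
def d_m53248_m49152_16384_20480_4 : sl d_m53248_m49152_16384_20480 4 9 := by decide +kernel
def d_m53248_m49152_16384_20480_9 : sl d_m53248_m49152_16384_20480 9 13 := by decide +kernel
def d_m53248_m49152_16384_20480_13 : sl d_m53248_m49152_16384_20480 13 18 := by decide +kernel
def d_m53248_m49152_16384_20480_18 : sl d_m53248_m49152_16384_20480 18 20 := by decide +kernel
def d_m53248_m49152_16384_20480_20 : sl d_m53248_m49152_16384_20480 20 24 := by decide +kernel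
def d_m53248_m49152_16384_20480_24 : sl d_m53248_m49152_16384_20480 24 27 := by decide +kernel
def d_m53248_m49152_16384_20480_27 : fr d_m53248_m49152_16384_20480 27 := by decide +kernel
theorem f_m53248_m49152_16384_20480 : fr d_m53248_m49152_16384_20480 0 :=
  (d_m53248_m49152_16384_20480_0.fr (d_m53248_m49152_16384_20480_4.fr (d_m53248_m49152_16384_20480_9.fr (d_m53248_m49152_16384_20480_13.fr (d_m53248_m49152_16384_20480_18.fr (d_m53248_m49152_16384_20480_20.fr (d_m53248_m49152_16384_20480_24.fr d_m53248_m49152_16384_20480_27)))))))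

noncomputable def d_m53248_m49152_20480_24576 : Cell :=
  ⟨-219902325555200,8796093022208,96757023244288,8796093022208,⟨0,-4503505138089984,0⟩,⟨0,-7739531067392,-276364133400576⟩,0,-1,1,13107,1,(-202310139510784,0),⟨0,6187468062720,12804617603963970,[[-2572879846693574,-3149126305071985,-2419108230079158]]⟩,[10411543476024,44855892049,86115369731,0,419285289,401380560],3,[⟨[225179984030162,1313709746176,1082593335487,-43261999223,30186401648,23630892408],⟨0,134531522363392,636125761969801,[[-9294157441652241,760022066828248,507415871046115,-48246889747729,-62795838817945,-24366968569160],[-13371155918507524,1426590994575953,962697846355129,-83970731320209,-128259692023789,-42120189703592],[-4300832563421513,718979081990583,482511784841948,0,-56913832651548,0],[148169709681535,0,0,49432802510867,16444544886278,24736434659590],[0,-19932960844597,-2137986485592],[-38250125700154,21369759445644,19004513786615,-13561505337144,-7722017593229,-6906413188495]]⟩,-50887,[⟨-31423,2,(-36283883716608,0),4⟩,⟨-11958,1,(-180319906955264,0),32⟩],13052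,[⟨42586,2,(-235295488344064,0),32⟩,⟨72121,3,(-535462162726912,0),1⟩],2,0,[],0,[]⟩,⟨[281474982530852,2032301144032,1677680301211,-68859511606,50697442391,38303068570],⟨2,167841391443968,472041859400747,[[-1850096398981020,0,-327026249076836],[-4689903049607733,887256677306502,0],[21503470327823759,990844979129558,703589259612875],[-9891559883642156],[0],[0,1260749675278154,0]]⟩,-179134,[⟨-113628,4,(25288767438848,0),6⟩,⟨-80875,3,(65970697666560,0),6⟩,⟨-48121,2,(-26388279066624,0),4⟩],66829,[⟨110560,4,(-525566558076928,0),1⟩,⟨154291,4,(-515670953426944,0),1⟩,⟨198022,5,(-528865092960256,0),1⟩,⟨219888,5,(-538760697610240,0),1⟩,⟨241754,4,(0,0),33⟩],5,111732,[⟨186982,4,(0,0),33⟩],75395,[⟨79163,3,(0,0),33⟩,⟨82931,4,(0,0),33⟩,⟨86699,4,(0,0),33⟩,⟨90468,4,(0,0),33⟩,⟨94236,4,(0,0),33⟩,⟨98005,4,(0,0),33⟩,⟨105542,4,(0,0),33⟩,⟨120615,4,(0,0),33⟩,⟨135689,4,(0,0),33⟩,⟨165836,5,(0,0),33⟩,⟨195984,5,(0,0),33⟩]⟩]⟩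
def d_m53248_m49152_20480_24576_0 : sl d_m53248_m49152_20480_24576 0 4 := by decide +kernel
def d_m53248_m49152_20480_24576_4 : sl d_m53248_m49152_20480_24576 4 9 := by decide +kernel
def d_m53248_m49152_20480_24576_9 : sl d_m53248_m49152_20480_24576 9 13 := by decide +kernel
def d_m53248_m49152_20480_24576_13 : sl d_m53248_m49152_20480_24576 13 18 := by decide +kernel
def d_m53248_m49152_20480_24576_18 : sl d_m53248_m49152_20480_24576 18 19 := by decide +kernel
def d_m53248_m49152_20480_24576_19 : sl d_m53248_m49152_20480_24576 19 21 := by decide +kernel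
def d_m53248_m49152_20480_24576_21 : sl d_m53248_m49152_20480_24576 21 25 := by decide +kernel
def d_m53248_m49152_20480_24576_25 : sl d_m53248_m49152_20480_24576 25 29 := by decide +kernel
def d_m53248_m49152_20480_24576_29 : sl d_m53248_m49152_20480_24576 29 32 := by decide +kernel
def d_m53248_m49152_20480_24576_32 : fr d_m53248_m49152_20480_24576 32 := by decide +kernel
theorem f_m53248_m49152_20480_24576 : fr d_m53248_m49152_20480_24576 0 :=
  (d_m53248_m49152_20480_24576_0.fr (d_m53248_m49152_20480_24576_4.fr (d_m53248_m49152_20480_24576_9.fr (d_m53248_m49152_20480_24576_13.fr (d_m53248_m49152_20480_24576_18.fr (d_m53248_m49152_20480_24576_19.fr (d_m53248_m49152_20480_24576_21.fr (d_m53248_m49152_20480_24576_25.fr (d_m53248_m49152_20480_24576_29.fr d_m53248_m49152_20480_24576_32)))))))))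

noncomputable def d_m57344_m53248_24576_26624 : Cell :=
  ⟨-237494511599616,8796093022208,109951162777600,4398046511104,⟨0,2697699023388672,0⟩,⟨0,2614020175560704,0⟩,0,1,1,8290,0,(-184717953466368,0),⟨0,2376061943808,33344316956322810,[]⟩,[4290967973843,11634922469,11265245908,0,34449659,16641437],3,[⟨[225179983175200,1512503793764,515298919492,-45753540958,16128489804,5829647387],⟨0,126195949109248,649429000369931,[[21909813042589591,-1826776974401823,-537179862435669,121578800601860,61602824042596,8500447599585],[23109903837787972,-2960782772700605,-763294681166010,204885674900169,96516549527865,10608668538652],[876694051014511,-968380368687388,0],[-1000392614182668,238671186066524,273231431339090,-108149085261951,-39270705544166,0],[0],[42230187730759,-54511713714410,-42326062627311,24738365111101,4282375364848,-2104763073562]]⟩,-50929,[⟨-29386,2,(-151732604633088,0),32⟩,⟨-7843,1,(-168225279049728,0),32⟩],8255,[⟨23887,1,(-200111116255232,0),32⟩,⟨39520,2,(-216603790671872,0),32⟩,⟨70786,3,(-506874860404736,0),1⟩],2,0,[],0,[]⟩,⟨[28147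4980738135,2361770945676,799497917443,-73870576522,27486650656,9433229333],⟨2,164746107092992,480910680759339,[[14937219710321007,-6743241515805421,385564776702984,579699949213038,0,0],[-6692555649995637,-5028075909131443,0],[-53555420174024980,4680011686085339,0],[23085161090977712,0,1011142091397395,749263760696410,0,0]]⟩,-201718,[⟨-125338,4,(20890720927744,0),6⟩,⟨-87148,3,(59373627899904,0),4⟩,⟨-48957,3,(137438953472000,0),4⟩],67121,[⟨96777,4,(-504675837149184,0),1⟩,⟨126434,4,(-485984139476992,0),1⟩,⟨185748,5,(-498078767382528,0),1⟩,⟨215404,5,(-520068999938048,0),1⟩,⟨245061,5,(-532163627843584,0),1⟩,⟨274718,5,(-542059232493568,0),1⟩,⟨278425,5,(-546457279004672,0),1⟩,⟨280278,5,(-507974372032512,412316860416),1⟩,⟨282132,4,(0,0),33⟩,⟨289546,4,(0,0),33⟩,⟨304375,4,(0,0),33⟩],5,119528,[⟨172888,4,(0,0),33⟩,⟨226248,4,(0,0),33⟩],113910,[⟨129490,4,(0,0),33⟩,⟨145070,4,(0,0),33⟩,⟨176231,4,(0,0),33⟩,⟨207391,5,(0,0),33⟩,⟨238552,5,(0,0),33⟩,⟨269712,5,(0,0),33⟩,⟨300873,5,(0,0),33⟩]⟩]⟩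
def d_m57344_m53248_24576_26624_0 : sl d_m57344_m53248_24576_26624 0 4 := by decide +kernel
def d_m57344_m53248_24576_26624_4 : sl d_m57344_m53248_24576_26624 4 9 := by decide +kernel
def d_m57344_m53248_24576_26624_9 : sl d_m57344_m53248_24576_26624 9 14 := by decide +kernel
def d_m57344_m53248_24576_26624_14 : sl d_m57344_m53248_24576_26624 14 18 := by decide +kernel
def d_m57344_m53248_24576_26624_18 : sl d_m57344_m53248_24576_26624 18 22 := by decide +kernel
def d_m57344_m53248_24576_26624_22 : sl d_m57344_m53248_24576_26624 22 27 := by decide +kernel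
def d_m57344_m53248_24576_26624_27 : sl d_m57344_m53248_24576_26624 27 29 := by decide +kernel
def d_m57344_m53248_24576_26624_29 : sl d_m57344_m53248_24576_26624 29 33 := by decide +kernel
def d_m57344_m53248_24576_26624_33 : sl d_m57344_m53248_24576_26624 33 36 := by decide +kernel
def d_m57344_m53248_24576_26624_36 : fr d_m57344_m53248_24576_26624 36 := by decide +kernel
theorem f_m57344_m53248_24576_26624 : fr d_m57344_m53248_24576_26624 0 :=
  (d_m57344_m53248_24576_26624_0.fr (d_m57344_m53248_24576_26624_4.fr (d_m57344_m53248_24576_26624_9.fr (d_m57344_m53248_24576_26624_14.fr (d_m57344_m53248_24576_26624_18.fr (d_m57344_m53248_24576_26624_22.fr (d_m57344_m53248_24576_26624_27.fr (d_m57344_m53248_24576_26624_29.fr (d_m57344_m53248_24576_26624_33.fr d_m57344_m53248_24576_26624_36)))))))))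

noncomputable def d_m57344_m55296_26624_27648 : Cell :=
  ⟨-241892558110720,4398046511104,116548232544256,2199023255552,⟨0,3400475932098560,0⟩,⟨0,2233786720845824,0⟩,0,1,1,13107,1,(-180319906955264,0),⟨0,6081498644480,13027736599886706,[]⟩,[10492675431720,22904383871,21717217680,0,53600734,25320311],3,[⟨[225179981482349,767779378242,243031170007,-11513439577,3992962649,1427739266],⟨0,123588870406144,699381230113613,[[22956240870766641,-901276311213105,-268731817137112,20712517163459,10814527946128,2264862263519],[22902585252720212,-1211674205925507,-356520673377130,25307760438822,13291937493387,3043177480844],[714745625159910],[-983710346959822,412641644573470,106255863421908,0,0,-767957320293],[0,0,0,0,599499874893,0],[64185388696542,-75238709128905,-11187911440815,-4745262603507,-1972678222079,0]]⟩,-50874,[⟨-31510,2,(-23089744183296,0),4⟩,⟨-12146,1,(-162727720910848,0),32⟩],13052,[⟨41119,2,(-206708186021888,0),32⟩,⟨69187,3,(-499178279010304,0),1⟩],2,0,[],0,[]⟩,⟨[281474976965328,1200804666039,376994348235,-18626612280,6802323694,2301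378871],⟨2,161265172676608,491291214283118,[[0],[20988615971785887,-2064752293381966,4940503709386462],[-21052236882855074,0,-580806186828372],[0],[0],[0,0,-4695479043327227]]⟩,-211919,[⟨-130839,4,(18691697672192,0),6⟩,⟨-90299,3,(56075093016576,0),4⟩,⟨-49759,3,(131941395333120,0),4⟩],67189,[⟨82914,3,(-507974372032512,0),1⟩,⟨98640,4,(-487083651104768,0),1⟩,⟨130091,4,(-477188046454784,0),1⟩,⟨192993,5,(-492581209243648,0),1⟩,⟨224444,5,(-517869976682496,0),1⟩,⟨255895,5,(-532163627843584,0),1⟩,⟨287346,5,(-543158744121344,0),1⟩,⟨318797,5,(-549755813888000,0),1⟩],5,122268,[⟨186982,4,(0,0),33⟩],129250,[⟨177749,4,(0,0),33⟩,⟨226248,5,(0,0),33⟩]⟩]⟩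
def d_m57344_m55296_26624_27648_0 : sl d_m57344_m55296_26624_27648 0 4 := by decide +kernel
def d_m57344_m55296_26624_27648_4 : sl d_m57344_m55296_26624_27648 4 9 := by decide +kernel
def d_m57344_m55296_26624_27648_9 : sl d_m57344_m55296_26624_27648 9 13 := by decide +kernel
def d_m57344_m55296_26624_27648_13 : sl d_m57344_m55296_26624_27648 13 17 := by decide +kernel
def d_m57344_m55296_26624_27648_17 : sl d_m57344_m55296_26624_27648 17 22 := by decide +kernel
def d_m57344_m55296_26624_27648_22 : sl d_m57344_m55296_26624_27648 22 24 := by decide +kernel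
def d_m57344_m55296_26624_27648_24 : sl d_m57344_m55296_26624_27648 24 26 := by decide +kernel
def d_m57344_m55296_26624_27648_26 : fr d_m57344_m55296_26624_27648 26 := by decide +kernel
theorem f_m57344_m55296_26624_27648 : fr d_m57344_m55296_26624_27648 0 :=
  (d_m57344_m55296_26624_27648_0.fr (d_m57344_m55296_26624_27648_4.fr (d_m57344_m55296_26624_27648_9.fr (d_m57344_m55296_26624_27648_13.fr (d_m57344_m55296_26624_27648_17.fr (d_m57344_m55296_26624_27648_22.fr (d_m57344_m55296_26624_27648_24.fr d_m57344_m55296_26624_27648_26)))))))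

noncomputable def d_m57344_m55296_27648_28672 : Cell :=
  ⟨-241892558110720,4398046511104,120946279055360,2199023255552,⟨0,2852068737941504,0⟩,⟨0,2292434499272704,0⟩,0,1,1,8290,0,(-180319906955264,0),⟨0,2357235154944,33610631985042197,[]⟩,[4313330078343,5860681551,5665704651,0,8680717,4186448],3,[⟨[225179981477502,748220009674,227761309532,-11381565728,3852238094,1395383848],⟨0,120524952371200,681410266253246,[[19231261579317525,-783359368533217,-232880538029136,26342794004522,14623258457161,2742997337281],[20079983572867617,-1287437725310076,-375386661686891,45538217110687,25389087432521,4502823907732],[840710541924190,-489506239322177,-121744933599195,0,1772598559098,0],[-614902818964428,34171364142100,25915210432024,-25911202579785,-12004869164525,-2194577135542],[0],[4048551990267,-10767767601235,-2880363005939,6692776720006,3000325505203,430138374799]]⟩,-51240,[⟨-29572,1,(-23089744183296,0),4⟩,⟨-7903,1,(-164926744166400,0),32⟩],8256,[⟨23283,1,(-194613558116352,0),32⟩,⟨38311,2,(-210006720905216,0),32⟩,⟨68366,3,(-498078767382528,0)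,1⟩],2,0,[],0,[]⟩,⟨[281474976952587,1168689720706,352976065943,-18364614222,6523825039,2238616601],⟨2,161240174428160,491367382858037,[[0,-546344363043821,0],[0],[0],[0],[-25087432386866144,1957977718521303,-604324573139832],[4568348686518161]]⟩,-224747,[⟨-137431,4,(16492674416640,0),4⟩,⟨-93773,3,(50577534877696,0),4⟩,⟨-50114,3,(126443837194240,0),4⟩],66421,[⟨100093,4,(-494780232499200,0),1⟩,⟨133766,4,(-477188046454784,0),1⟩,⟨201112,5,(-466192930177024,481036337152),1⟩,⟨234785,5,(-522268023193600,0),1⟩,⟨268458,5,(-536561674354688,0),1⟩,⟨302131,5,(-546457279004672,0),1⟩,⟨335804,6,(-551954837143552,0),1⟩],5,126165,[⟨176206,4,(0,0),33⟩,⟨226248,4,(0,0),33⟩],141381,[⟨207570,4,(0,0),33⟩,⟨273760,5,(0,0),33⟩]⟩]⟩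
def d_m57344_m55296_27648_28672_0 : sl d_m57344_m55296_27648_28672 0 4 := by decide +kernel
def d_m57344_m55296_27648_28672_4 : sl d_m57344_m55296_27648_28672 4 9 := by decide +kernel
def d_m57344_m55296_27648_28672_9 : sl d_m57344_m55296_27648_28672 9 14 := by decide +kernel
def d_m57344_m55296_27648_28672_14 : sl d_m57344_m55296_27648_28672 14 18 := by decide +kernel
def d_m57344_m55296_27648_28672_18 : sl d_m57344_m55296_27648_28672 18 23 := by decide +kernel
def d_m57344_m55296_27648_28672_23 : sl d_m57344_m55296_27648_28672 23 25 := by decide +kernel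
def d_m57344_m55296_27648_28672_25 : sl d_m57344_m55296_27648_28672 25 27 := by decide +kernel
def d_m57344_m55296_27648_28672_27 : fr d_m57344_m55296_27648_28672 27 := by decide +kernel
theorem f_m57344_m55296_27648_28672 : fr d_m57344_m55296_27648_28672 0 :=
  (d_m57344_m55296_27648_28672_0.fr (d_m57344_m55296_27648_28672_4.fr (d_m57344_m55296_27648_28672_9.fr (d_m57344_m55296_27648_28672_14.fr (d_m57344_m55296_27648_28672_18.fr (d_m57344_m55296_27648_28672_23.fr (d_m57344_m55296_27648_28672_25.fr d_m57344_m55296_27648_28672_27)))))))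

noncomputable def d_m55296_m53248_26624_27648 : Cell :=
  ⟨-233096465088512,4398046511104,116548232544256,2199023255552,⟨0,2061975144103936,0⟩,⟨0,2623885715439616,0⟩,467386931085312,1,1,13107,1,(-189115999977472,0),⟨0,6057325363200,13079727068571213,[]⟩,[10538392501253,22904383871,21824419147,0,53600734,25454179],3,[⟨[225179981467127,688200216931,226467365869,-10996770705,3662669797,1386489781],⟨0,123490626371584,700259864529013,[[15784394657170539,-626586415362219,-189767699273308,23029131794118,11640041064176,1760998656515],[15129640721416106,-930450373290465,-273242276830143,43424909238283,18085653315655,2147171474457],[52862659911502,-274442539617785,-55629016932368,15785365888719,0,0],[-512302509908041,57937427151949,37049465337947,-7018708481691,-7748195079658,0],[0],[0,-8654377961227,-3895510531869,2291880532142,1228930800210,-402607221930]]⟩,-51166,[⟨-31680,2,(-27487790694400,0),4⟩,⟨-12193,1,(-169324790677504,0),32⟩],13052,[⟨40595,2,(-217703302299648,0),32⟩,⟨68139,3,(-513471930171392,0),1⟩],2,0,[],0,[]⟩,⟨[281474976924819,10690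72059019,350499239062,-17589748451,6137816294,2220283533],⟨2,161189978701824,491520398182700,[[-7189812319772059],[8136865812845982,-1732277680990700,637584210176727],[-11408854300874561,0,-316534016221521]]⟩,-208600,[⟨-129327,4,(18691697672192,0),6⟩,⟨-89690,3,(54975581388800,0),4⟩,⟨-50053,3,(128642860449792,0),4⟩],66227,[⟨95257,4,(-514571441799168,0),1⟩,⟨124287,4,(-494780232499200,0),1⟩,⟨182348,5,(-503576325521408,0),1⟩,⟨240409,5,(-490382185988096,343597383680),1⟩,⟨269439,5,(-543158744121344,0),1⟩,⟨298470,5,(-549755813888000,0),1⟩],4,120353,[⟨186982,4,(0,0),33⟩],121008,[⟨163344,4,(0,0),33⟩,⟨205680,4,(0,0),33⟩]⟩]⟩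
def d_m55296_m53248_26624_27648_0 : sl d_m55296_m53248_26624_27648 0 4 := by decide +kernel
def d_m55296_m53248_26624_27648_4 : sl d_m55296_m53248_26624_27648 4 9 := by decide +kernel
def d_m55296_m53248_26624_27648_9 : sl d_m55296_m53248_26624_27648 9 13 := by decide +kernel
def d_m55296_m53248_26624_27648_13 : sl d_m55296_m53248_26624_27648 13 17 := by decide +kernel
def d_m55296_m53248_26624_27648_17 : sl d_m55296_m53248_26624_27648 17 20 := by decide +kernel
def d_m55296_m53248_26624_27648_20 : sl d_m55296_m53248_26624_27648 20 22 := by decide +kernel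
def d_m55296_m53248_26624_27648_22 : sl d_m55296_m53248_26624_27648 22 24 := by decide +kernel
def d_m55296_m53248_26624_27648_24 : fr d_m55296_m53248_26624_27648 24 := by decide +kernel
theorem f_m55296_m53248_26624_27648 : fr d_m55296_m53248_26624_27648 0 :=
  (d_m55296_m53248_26624_27648_0.fr (d_m55296_m53248_26624_27648_4.fr (d_m55296_m53248_26624_27648_9.fr (d_m55296_m53248_26624_27648_13.fr (d_m55296_m53248_26624_27648_17.fr (d_m55296_m53248_26624_27648_20.fr (d_m55296_m53248_26624_27648_22.fr d_m55296_m53248_26624_27648_24)))))))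

noncomputable def d_m55296_m53248_27648_28672 : Cell :=
  ⟨-233096465088512,4398046511104,120946279055360,2199023255552,⟨0,-4160732388130816,0⟩,⟨0,-27148488278016,-963960916410368⟩,0,-1,1,13107,1,(-189115999977472,0),⟨0,6031914500096,13134828520276197,[[-38886590767393991,-1174957078562638,-517878464012435]]⟩,[10582055785666,23011853647,21926490069,0,53869166,25581378],3,[⟨[225179981463237,670121722615,211450407592,-10885078964,3541044822,1357045490],⟨0,123475536052224,700622033664095,[[-15608415769495988,572062218601953,173940234604046,-19279460868882,-10939088053297,-2220450658086],[-25852758219674161,1220966695662665,370358786279097,-48723140357478,-26864658054969,-5739530805528],[-10666494289093963,818589368701785,236477987270235,-35346565029740,-18794689030184,-4274191093263],[109225683673494,145282472524220,22935750104178],[153902539256285,-21157341955973,-18672807370493,5876497857924,2847964362226,750507843704],[-13032394576807,-2799102756213,-3167729058711]]⟩,-51538,[⟨-31890,2,(-27487790694400,0),4⟩,⟨-12241,1,(-169324790677504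,0),32⟩],13052,[⟨40202,2,(-216603790671872,0),32⟩,⟨67353,3,(-512372418543616,0),1⟩],2,0,[],0,[]⟩,⟨[281474976914928,1039893570960,326970789852,-17372289989,5900931017,2163578743],⟨2,161169562206208,491582662474935,[[0,-117775247845314,-169762202832553],[0],[17299146819132008],[-18539063001334500],[2963783023025268]]⟩,-221428,[⟨-135921,4,(15393162788864,0),4⟩,⟨-93167,3,(49478023249920,0),4⟩,⟨-50413,3,(123145302310912,0),4⟩],65489,[⟨96737,4,(-513471930171392,0),1⟩,⟨127986,4,(-493680720871424,0),1⟩,⟨159234,4,(-500277790638080,0),1⟩,⟨190483,5,(-513471930171392,0),1⟩,⟨221731,5,(-527765581332480,0),1⟩,⟨252980,5,(-538760697610240,0),1⟩,⟨284229,5,(-546457279004672,0),1⟩,⟨315478,5,(-553054348771328,0),1⟩],5,124302,[⟨186982,4,(0,0),33⟩],132824,[⟨179536,4,(0,0),33⟩,⟨226248,5,(0,0),33⟩]⟩]⟩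
def d_m55296_m53248_27648_28672_0 : sl d_m55296_m53248_27648_28672 0 4 := by decide +kernel
def d_m55296_m53248_27648_28672_4 : sl d_m55296_m53248_27648_28672 4 9 := by decide +kernel
def d_m55296_m53248_27648_28672_9 : sl d_m55296_m53248_27648_28672 9 13 := by decide +kernel
def d_m55296_m53248_27648_28672_13 : sl d_m55296_m53248_27648_28672 13 17 := by decide +kernel
def d_m55296_m53248_27648_28672_17 : sl d_m55296_m53248_27648_28672 17 22 := by decide +kernel
def d_m55296_m53248_27648_28672_22 : sl d_m55296_m53248_27648_28672 22 24 := by decide +kernel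
def d_m55296_m53248_27648_28672_24 : sl d_m55296_m53248_27648_28672 24 26 := by decide +kernel
def d_m55296_m53248_27648_28672_26 : fr d_m55296_m53248_27648_28672 26 := by decide +kernel
theorem f_m55296_m53248_27648_28672 : fr d_m55296_m53248_27648_28672 0 :=
  (d_m55296_m53248_27648_28672_0.fr (d_m55296_m53248_27648_28672_4.fr (d_m55296_m53248_27648_28672_9.fr (d_m55296_m53248_27648_28672_13.fr (d_m55296_m53248_27648_28672_17.fr (d_m55296_m53248_27648_28672_22.fr (d_m55296_m53248_27648_28672_24.fr d_m55296_m53248_27648_28672_26)))))))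

noncomputable def d_m53248_m49152_24576_26624 : Cell :=
  ⟨-219902325555200,8796093022208,109951162777600,4398046511104,⟨0,4435146438606848,0⟩,⟨0,3248283765964800,-84442496368640⟩,0,1,1,13107,1,(-202310139510784,0),⟨0,6084106321920,13022152796563699,[]⟩,[10541371971896,45488604276,43663840980,0,212803380,101855611],3,[⟨[225179982746553,1209148846838,449831534072,-42028989555,13659693327,5501577918],⟨0,128709108170752,668704112574675,[[37117340353169522,-2623984403261394,-830510143473338,164705076831019,99276197115259,21638920014669],[36211596749619991,-3743605648842382,-1202069720766944,262953893348136,176965985871853,41126228700609],[799787656522297,-927151353421762,-277196553699224,0,59660211308614,18500119447925],[-994857477420002,328705149164744,129975123353885,-120810514451005,-21584748769723,-1147436291309],[0],[0,-48455952417358,-12229510079264,21597418646344,2988773768242,0]]⟩,-51512,[⟨-31829,2,(-36283883716608,0),4⟩,⟨-12145,1,(-180319906955264,0),32⟩],13052,[⟨40855,2,(-234195976716288,0),32⟩,⟨68658,3,(-532163627843584,0),1⟩],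2,0,[],0,[]⟩,⟨[281474979620311,1865188910768,695119830436,-66491367009,22573030514,8791032769],⟨2,164471880024064,481712512253273,[[-17543581982004882,-3713372059856094,2763200095415374],[-33093878060237072,-4245302779319987,1575039591289159],[-24968932735504367]]⟩,-194626,[⟨-122087,4,(20890720927744,0),6⟩,⟨-85817,3,(57174604644352,0),4⟩,⟨-49547,3,(129742372077568,0),4⟩],65297,[⟨115436,4,(-524467046449152,0),1⟩,⟨165575,4,(-516770465054720,0),1⟩,⟨215714,5,(-533263139471360,0),1⟩,⟨240784,5,(-544258255749120,0),1⟩,⟨265854,5,(-549755813888000,0),1⟩],4,115326,[⟨186982,4,(0,0),33⟩],99493,[⟨121365,4,(0,0),33⟩,⟨143237,4,(0,0),33⟩,⟨186982,4,(0,0),33⟩]⟩]⟩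
def d_m53248_m49152_24576_26624_0 : sl d_m53248_m49152_24576_26624 0 4 := by decide +kernel
def d_m53248_m49152_24576_26624_4 : sl d_m53248_m49152_24576_26624 4 9 := by decide +kernel
def d_m53248_m49152_24576_26624_9 : sl d_m53248_m49152_24576_26624 9 13 := by decide +kernel
def d_m53248_m49152_24576_26624_13 : sl d_m53248_m49152_24576_26624 13 18 := by decide +kernel
def d_m53248_m49152_24576_26624_18 : sl d_m53248_m49152_24576_26624 18 19 := by decide +kernel
def d_m53248_m49152_24576_26624_19 : sl d_m53248_m49152_24576_26624 19 21 := by decide +kernel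
def d_m53248_m49152_24576_26624_21 : sl d_m53248_m49152_24576_26624 21 24 := by decide +kernel
def d_m53248_m49152_24576_26624_24 : fr d_m53248_m49152_24576_26624 24 := by decide +kernel
theorem f_m53248_m49152_24576_26624 : fr d_m53248_m49152_24576_26624 0 :=
  (d_m53248_m49152_24576_26624_0.fr (d_m53248_m49152_24576_26624_4.fr (d_m53248_m49152_24576_26624_9.fr (d_m53248_m49152_24576_26624_13.fr (d_m53248_m49152_24576_26624_18.fr (d_m53248_m49152_24576_26624_19.fr (d_m53248_m49152_24576_26624_21.fr d_m53248_m49152_24576_26624_24)))))))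

noncomputable def d_m53248_m49152_26624_28672 : Cell :=
  ⟨-219902325555200,8796093022208,118747255799808,4398046511104,⟨0,4503599627370496,0⟩,⟨0,2313643047780352,-84442496368640⟩,0,1,1,8290,0,(-202310139510784,0),⟨0,2351400026112,33694038590514414,[]⟩,[4336881143054,11704040077,11401358322,0,34668076,16856363],3,[⟨[225179982648681,1142680243141,390500363643,-41296001865,12829698484,5279326883],⟨0,125571224764416,653015510823543,[[26941308159348443,-1862351467134672,-574659144187285,123382399663209,69150361347725,14920213390682],[27360395219652427,-2778718546527547,-865605434830876,247855939493947,134574221238992,30228652918840],[536297262281966,-789762477029659,-223330931383365,121122707778397,63877963685968,15509518492617],[-689776901319637,169474720636862,77881623069384,-7094159112128,-1621564186067,0],[32203484618937],[0,-17088067831674,-3647847864326,3608823533784,0,178863820691]]⟩,-52268,[⟨-30096,2,(-36283883716608,0),4⟩,⟨-7923,1,(-182518930210816,0),32⟩],8256,[⟨22964,1,(-219902325555200,0),32⟩,⟨37673,2,(-238594023227392,0),32⟩,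⟨67090,3,(-529964604588032,0),1⟩],2,0,[],0,[]⟩,⟨[281474979379820,1759824736228,602426620832,-65094642289,20981547278,8365400549],⟨2,164391841759232,481947045888442,[[-10776245257979045,-3772168360606005,1789947486847318],[-18033842798770782,-4345676854934830,237634421069827],[-12775503339864332]]⟩,-217655,[⟨-133958,4,(15393162788864,0),6⟩,⟨-92110,3,(47278999994368,0),4⟩,⟨-50261,3,(118747255799808,0),4⟩],63895,[⟨93068,4,(-538760697610240,0),1⟩,⟨122242,4,(-515670953426944,0),1⟩,⟨180589,5,(-520068999938048,0),1⟩,⟨209762,5,(-534362651099136,0),1⟩,⟨238936,5,(-543158744121344,0),1⟩,⟨268109,5,(-549755813888000,0),1⟩,⟨297283,5,(-554153860399104,0),1⟩],5,122184,[⟨174216,4,(0,0),33⟩,⟨226248,4,(0,0),33⟩],120527,[⟨163309,4,(0,0),33⟩,⟨206091,4,(0,0),33⟩,⟨248873,5,(0,0),33⟩]⟩]⟩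
def d_m53248_m49152_26624_28672_0 : sl d_m53248_m49152_26624_28672 0 4 := by decide +kernel
def d_m53248_m49152_26624_28672_4 : sl d_m53248_m49152_26624_28672 4 9 := by decide +kernel
def d_m53248_m49152_26624_28672_9 : sl d_m53248_m49152_26624_28672 9 14 := by decide +kernel
def d_m53248_m49152_26624_28672_14 : sl d_m53248_m49152_26624_28672 14 18 := by decide +kernel
def d_m53248_m49152_26624_28672_18 : sl d_m53248_m49152_26624_28672 18 23 := by decide +kernel
def d_m53248_m49152_26624_28672_23 : sl d_m53248_m49152_26624_28672 23 25 := by decide +kernel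
def d_m53248_m49152_26624_28672_25 : sl d_m53248_m49152_26624_28672 25 28 := by decide +kernel
def d_m53248_m49152_26624_28672_28 : fr d_m53248_m49152_26624_28672 28 := by decide +kernel
theorem f_m53248_m49152_26624_28672 : fr d_m53248_m49152_26624_28672 0 :=
  (d_m53248_m49152_26624_28672_0.fr (d_m53248_m49152_26624_28672_4.fr (d_m53248_m49152_26624_28672_9.fr (d_m53248_m49152_26624_28672_14.fr (d_m53248_m49152_26624_28672_18.fr (d_m53248_m49152_26624_28672_23.fr (d_m53248_m49152_26624_28672_25.fr d_m53248_m49152_26624_28672_28)))))))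

noncomputable def d_m49152_m47104_4096_5120 : Cell :=
  ⟨-206708186021888,4398046511104,19791209299968,2199023255552,⟨0,4021970584731648,-84442496368640⟩,⟨0,1466074201587712,-84442496368640⟩,0,1,1,13107,1,(-215504279044096,0),⟨0,6567393624064,12063866899243398,[]⟩,[9751248842073,20670729141,19990924640,0,48034941,23174741],3,[⟨[225179981558605,897128553829,554337381600,-12566173925,6553206790,2549556721],⟨0,123751900446720,693944527968002,[[30069809781649700,-1316702266773664,-551058215892555,14885468465514,20666660538534,2612993621571],[35485294478378447,-1964312719633911,-857977056921917,14980307002008,27678916996710,2608889773888],[0],[-8309234682615083,850783728682607,408063854578972],[0,0,0,0,7085161744553,0],[1469302338889627,-180240549774511,-94537826952794]]⟩,-45108,[⟨-28231,2,(-175921860444160,0),32⟩,⟨-11354,2,(-193514046488576,0),32⟩],13050,[⟨51135,3,(-256186209271808,0),32⟩,⟨89221,4,(-572845558071296,0),0⟩],3,0,[],0,[]⟩,⟨[281474977171004,1409812007648,881416253412,-20653188818,11991340428,4597689098],⟨2,161581758283776,490328632083957,[[-84361235447175800,-645479973718,13768782901219990],[-183336586776639070,0,18630036890453832],[-123760358235896258]]⟩,-115509,[⟨-79844,3,(60473139527680,0),6⟩,⟨-62011,3,(113249697660928,0),6⟩,⟨-44178,2,(-38482906972160,0),6⟩],85745,[⟨136278,4,(-531064116215808,0),0⟩],6,106269,[⟨155974,3,(0,0),33⟩,⟨205680,3,(0,0),33⟩],8498,[⟨14563,3,(0,0),33⟩,⟨20629,4,(0,0),33⟩,⟨32760,5,(0,0),33⟩,⟨44891,5,(0,0),33⟩,⟨57022,5,(0,0),33⟩,⟨81284,6,(0,0),33⟩,⟨105546,6,(0,0),33⟩]⟩]⟩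
def d_m49152_m47104_4096_5120_0 : sl d_m49152_m47104_4096_5120 0 4 := by decide +kernel
def d_m49152_m47104_4096_5120_4 : sl d_m49152_m47104_4096_5120 4 9 := by decide +kernel
def d_m49152_m47104_4096_5120_9 : sl d_m49152_m47104_4096_5120 9 14 := by decide +kernel
def d_m49152_m47104_4096_5120_14 : sl d_m49152_m47104_4096_5120 14 16 := by decide +kernel
def d_m49152_m47104_4096_5120_16 : sl d_m49152_m47104_4096_5120 16 18 := by decide +kernel
def d_m49152_m47104_4096_5120_18 : sl d_m49152_m47104_4096_5120 18 22 := by decide +kernel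
def d_m49152_m47104_4096_5120_22 : sl d_m49152_m47104_4096_5120 22 25 := by decide +kernel
def d_m49152_m47104_4096_5120_25 : fr d_m49152_m47104_4096_5120 25 := by decide +kernel
theorem f_m49152_m47104_4096_5120 : fr d_m49152_m47104_4096_5120 0 :=
  (d_m49152_m47104_4096_5120_0.fr (d_m49152_m47104_4096_5120_4.fr (d_m49152_m47104_4096_5120_9.fr (d_m49152_m47104_4096_5120_14.fr (d_m49152_m47104_4096_5120_16.fr (d_m49152_m47104_4096_5120_18.fr (d_m49152_m47104_4096_5120_22.fr d_m49152_m47104_4096_5120_25)))))))

noncomputable def d_m49152_m47104_5120_6144 : Cell :=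
  ⟨-206708186021888,4398046511104,24189255811072,2199023255552,⟨0,3659436690243584,-84442496368640⟩,⟨0,1602018506440704,-84442496368640⟩,0,1,1,13107,1,(-215504279044096,0),⟨0,6539576475648,12115182516312307,[]⟩,[9791243359777,20767038348,20083854117,0,48274376,23290084],3,[⟨[225179981547232,872730580233,533345913051,-12371245529,6262380240,2441610891],⟨0,123711267995648,694435959336145,[[28521740045416517,-1150845577685162,-480813965294383,20966819631579,20747240668959,2289707734205],[33357868731332192,-1640320933026016,-722339075352769,29244932143562,28507132798739,2362049246212],[0],[-7587626168237417,609260218067433,307823897979316,-8364573561264,0,0],[0,0,0,0,7942413295516,0],[1359194144306657,-97418554324341,-59807583854634]]⟩,-45373,[⟨-28385,2,(-175921860444160,0),32⟩,⟨-11396,2,(-192414534860800,0),32⟩],13050,[⟨50314,3,(-256186209271808,0),32⟩,⟨87579,4,(-576144092954624,0),0⟩],3,0,[],0,[]⟩,⟨[281474977138312,1368664815069,845844167388,-20258023226,11372561672,4364181436],⟨2,161544506245120,490441701554461,[[-65330729392551886,0,8623080667083595],[-136772638897410647,-10505832506430,11199759586358597],[-88545087396355201]]⟩,-116862,[⟨-80650,3,(59373627899904,0),6⟩,⟨-44437,3,(156130651144192,-1924145348608),6⟩],84254,[⟨110266,4,(-536561674354688,0),0⟩,⟨136278,4,(-529964604588032,0),0⟩],6,105692,[⟨155686,3,(0,0),33⟩,⟨205680,3,(0,0),33⟩],10623,[⟨16555,3,(0,0),33⟩,⟨22488,4,(0,0),33⟩,⟨34353,4,(0,0),33⟩,⟨46218,5,(0,0),33⟩,⟨58084,5,(0,0),33⟩,⟨81815,6,(0,0),33⟩,⟨105546,6,(0,0),33⟩]⟩]⟩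
def d_m49152_m47104_5120_6144_0 : sl d_m49152_m47104_5120_6144 0 4 := by decide +kernel
def d_m49152_m47104_5120_6144_4 : sl d_m49152_m47104_5120_6144 4 9 := by decide +kernel
def d_m49152_m47104_5120_6144_9 : sl d_m49152_m47104_5120_6144 9 14 := by decide +kernel
def d_m49152_m47104_5120_6144_14 : sl d_m49152_m47104_5120_6144 14 16 := by decide +kernel
def d_m49152_m47104_5120_6144_16 : sl d_m49152_m47104_5120_6144 16 18 := by decide +kernel
def d_m49152_m47104_5120_6144_18 : sl d_m49152_m47104_5120_6144 18 22 := by decide +kernel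
def d_m49152_m47104_5120_6144_22 : sl d_m49152_m47104_5120_6144 22 25 := by decide +kernel
def d_m49152_m47104_5120_6144_25 : fr d_m49152_m47104_5120_6144 25 := by decide +kernel
theorem f_m49152_m47104_5120_6144 : fr d_m49152_m47104_5120_6144 0 :=
  (d_m49152_m47104_5120_6144_0.fr (d_m49152_m47104_5120_6144_4.fr (d_m49152_m47104_5120_6144_9.fr (d_m49152_m47104_5120_6144_14.fr (d_m49152_m47104_5120_6144_16.fr (d_m49152_m47104_5120_6144_18.fr (d_m49152_m47104_5120_6144_22.fr d_m49152_m47104_5120_6144_25)))))))

noncomputable def d_m47104_m45056_4096_5120 : Cell :=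
  ⟨-197912092999680,4398046511104,19791209299968,2199023255552,⟨0,975034885603328,-934506936664064⟩,⟨0,4503599627370496,-84442496368640⟩,0,1,1,13107,1,(-224300372066304,0),⟨0,6540579307520,12113324979606349,[[38533923998276973]]⟩,[9792507545481,20670729141,20086994522,0,48034941,23294148],3,[⟨[225179981529829,806272407886,531689398747,-11899162894,5898164702,2428525106],⟨0,123617998143488,695010052629071,[[52022317297061004,-2062635171771012,-826691080300754,29072495522123,13384903539953,1361649446028],[89189433566713871,-3747398554544332,-1379270758286093,36795769280334,16278389430115,0],[40112931375048315,-1031141644881648,0,0,0,-41686565730],[0,1008917525583828,761413258447440,0,0,3141889396550],[0],[1671697639277081,-334775138419044,-202843773002495,-7846414266483,-2967297946536,-1839392933336]]⟩,-45336,[⟨-28366,2,(-182518930210816,0),32⟩,⟨-11396,2,(-200111116255232,0),32⟩],13050,[⟨50190,3,(-266081813921792,0),32⟩,⟨87331,4,(-587139209232384,0),0⟩],3,0,[],0,[]⟩,⟨[281474977088765,1256780559510,842593237923,-19292936042,10597170155,43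34023044],⟨2,161488321183744,490612336103894,[[-332366202111385284,-13509714021166,62375050833363402,0,0,-948878372385069],[-365488524628454475,0,54464952844703613],[-187644491304360636]]⟩,-109547,[⟨-76979,3,(63771674411008,0),6⟩,⟨-44410,3,(307863255777280,1030792151040),6⟩],84056,[⟨119808,4,(-544258255749120,0),0⟩],6,100784,[⟨135749,3,(0,0),33⟩,⟨205680,3,(0,0),33⟩],7471,[⟨10535,3,(0,0),33⟩,⟨13600,3,(0,0),33⟩,⟨19730,4,(0,0),33⟩,⟨31989,4,(0,0),33⟩,⟨44248,5,(0,0),33⟩,⟨56508,5,(0,0),33⟩,⟨81027,6,(0,0),33⟩,⟨105546,6,(0,0),33⟩]⟩]⟩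
def d_m47104_m45056_4096_5120_0 : sl d_m47104_m45056_4096_5120 0 4 := by decide +kernel
def d_m47104_m45056_4096_5120_4 : sl d_m47104_m45056_4096_5120 4 9 := by decide +kernel
def d_m47104_m45056_4096_5120_9 : sl d_m47104_m45056_4096_5120 9 14 := by decide +kernel
def d_m47104_m45056_4096_5120_14 : sl d_m47104_m45056_4096_5120 14 15 := by decide +kernel
def d_m47104_m45056_4096_5120_15 : sl d_m47104_m45056_4096_5120 15 17 := by decide +kernel
def d_m47104_m45056_4096_5120_17 : sl d_m47104_m45056_4096_5120 17 21 := by decide +kernel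
def d_m47104_m45056_4096_5120_21 : sl d_m47104_m45056_4096_5120 21 25 := by decide +kernel
def d_m47104_m45056_4096_5120_25 : fr d_m47104_m45056_4096_5120 25 := by decide +kernel
theorem f_m47104_m45056_4096_5120 : fr d_m47104_m45056_4096_5120 0 :=
  (d_m47104_m45056_4096_5120_0.fr (d_m47104_m45056_4096_5120_4.fr (d_m47104_m45056_4096_5120_9.fr (d_m47104_m45056_4096_5120_14.fr (d_m47104_m45056_4096_5120_15.fr (d_m47104_m45056_4096_5120_17.fr (d_m47104_m45056_4096_5120_21.fr d_m47104_m45056_4096_5120_25)))))))

noncomputable def d_m47104_m45056_5120_6144 : Cell :=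
  ⟨-197912092999680,4398046511104,24189255811072,2199023255552,⟨0,4503599627370496,-84442496368640⟩,⟨0,924418696019968,-117270542024704⟩,0,1,1,13107,1,(-224300372066304,0),⟨0,6512888643584,12164826866827913,[]⟩,[9832694295988,20767038348,20180402868,0,48274376,23410111],3,[⟨[225179981520755,784105107193,511373611690,-11734670940,5647932033,2329025416],⟨0,123579955675136,695474202922721,[[23606219119015836,-957866790296325,-412256058874143,14042397945292,13974172935454,3756998212552],[27900743017879401,-1385353481798456,-629556154772844,16736529755553,18518109712827,5467577393414],[0],[-6637545762270665,549284821202806,284302828817409,0,0,-1726954799881],[0,0,0,0,4638095346069,0],[1216260410389803,-103393127332794,-61663866036133,-2688946291770,0,0]]⟩,-45604,[⟨-28521,2,(-182518930210816,0),32⟩,⟨-11437,2,(-200111116255232,0),32⟩],13050,[⟨49417,3,(-266081813921792,0),32⟩,⟨85785,4,(-590437744115712,0),0⟩],3,0,[],0,[]⟩,⟨[281474977063651,1220115704284,808463663728,-18967229033,10076162919,4121672666],⟨2,161454668775424,490714595654557,[[-64418159553026918,-1112881577689,9223907311188174],[-111278938341646707,0,10472612596863125],[-63147230890595923]]⟩,-110900,[⟨-77786,3,(61572651155456,0),6⟩,⟨-44672,3,(-39582418599936,0),6⟩],82646,[⟨119808,4,(-545357767376896,0),0⟩],6,100300,[⟨135426,3,(0,0),33⟩,⟨205680,3,(0,0),33⟩],9339,[⟨15351,3,(0,0),33⟩,⟨21364,4,(0,0),33⟩,⟨33390,4,(0,0),33⟩,⟨45416,5,(0,0),33⟩,⟨57442,5,(0,0),33⟩,⟨81494,6,(0,0),33⟩,⟨105546,6,(0,0),33⟩]⟩]⟩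
def d_m47104_m45056_5120_6144_0 : sl d_m47104_m45056_5120_6144 0 4 := by decide +kernel
def d_m47104_m45056_5120_6144_4 : sl d_m47104_m45056_5120_6144 4 9 := by decide +kernel
def d_m47104_m45056_5120_6144_9 : sl d_m47104_m45056_5120_6144 9 14 := by decide +kernel
def d_m47104_m45056_5120_6144_14 : sl d_m47104_m45056_5120_6144 14 15 := by decide +kernel
def d_m47104_m45056_5120_6144_15 : sl d_m47104_m45056_5120_6144 15 17 := by decide +kernel
def d_m47104_m45056_5120_6144_17 : sl d_m47104_m45056_5120_6144 17 21 := by decide +kernel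
def d_m47104_m45056_5120_6144_21 : sl d_m47104_m45056_5120_6144 21 24 := by decide +kernel
def d_m47104_m45056_5120_6144_24 : fr d_m47104_m45056_5120_6144 24 := by decide +kernel
theorem f_m47104_m45056_5120_6144 : fr d_m47104_m45056_5120_6144 0 :=
  (d_m47104_m45056_5120_6144_0.fr (d_m47104_m45056_5120_6144_4.fr (d_m47104_m45056_5120_6144_9.fr (d_m47104_m45056_5120_6144_14.fr (d_m47104_m45056_5120_6144_15.fr (d_m47104_m45056_5120_6144_17.fr (d_m47104_m45056_5120_6144_21.fr d_m47104_m45056_5120_6144_24)))))))

noncomputable def d_m49152_m45056_6144_8192 : Cell :=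
  ⟨-202310139510784,8796093022208,30786325577728,4398046511104,⟨0,4503599627370496,-84442496368640⟩,⟨0,964825748340736,-84442496368640⟩,0,1,1,13107,1,(-219902325555200,0),⟨0,6511890857984,12166690815495571,[]⟩,[9872452522885,41825024494,40545605680,0,194544000,94098999],3,[⟨[225179983785890,1587933955995,984361865087,-47157264649,22285439931,8965119305],⟨0,129571417161728,660323530843972,[[24441059158997306,-2073403932266158,-859484713437154,99651429788298,67418577952977,12665933881768],[28495372141475182,-3017148117339128,-1298116469400274,139751896615323,90200726931183,16317887422869],[0],[-6287232193310497,1221745337901942,561291753128357,-26516846090552,0,0],[0,0,0,14062892763811,23170644119048,3713144669701],[1087759767281419,-240850003706984,-111857494748269]]⟩,-46283,[⟨-28860,2,(-178120883699712,0),32⟩,⟨-11436,2,(-196812581371904,0),32⟩],13050,[⟨49405,3,(-260584255782912,0),32⟩,⟨85760,4,(-584940185976832,0),0⟩],3,0,[],0,[]⟩,⟨[281474982311954,2473801926147,1553171559506,-76338170398,39687576068,15747529457],⟨2,165111115612160,479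847539221681,[[-45045977403453274,-5388403325499,10559283917088636],[-85160863928746315,-5388403324793,12323301701017146],[-49650479889776597]]⟩,-119808,[⟨-82197,3,(54975581388800,0),6⟩,⟨-63391,3,(105553116266496,0),6⟩,⟨-44585,2,(-41781441855488,0),6⟩],80271,[⟨108274,4,(-544258255749120,0),0⟩,⟨136278,4,(-534362651099136,0),1⟩],6,104620,[⟨155150,3,(0,0),33⟩,⟨205680,3,(0,0),33⟩],12748,[⟨14197,3,(0,0),33⟩,⟨15647,3,(0,0),33⟩,⟨17097,3,(0,0),33⟩,⟨18547,3,(0,0),33⟩,⟨19997,3,(0,0),33⟩,⟨21447,3,(0,0),33⟩,⟨24347,4,(0,0),33⟩,⟨27247,4,(0,0),33⟩,⟨30147,4,(0,0),33⟩,⟨35947,4,(0,0),33⟩,⟨41747,4,(0,0),33⟩,⟨47547,4,(0,0),33⟩,⟨59147,5,(0,0),33⟩,⟨82346,5,(0,0),33⟩,⟨105546,6,(0,0),33⟩]⟩]⟩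
def d_m49152_m45056_6144_8192_0 : sl d_m49152_m45056_6144_8192 0 4 := by decide +kernel
def d_m49152_m45056_6144_8192_4 : sl d_m49152_m45056_6144_8192 4 9 := by decide +kernel
def d_m49152_m45056_6144_8192_9 : sl d_m49152_m45056_6144_8192 9 13 := by decide +kernel
def d_m49152_m45056_6144_8192_13 : sl d_m49152_m45056_6144_8192 13 17 := by decide +kernel
def d_m49152_m45056_6144_8192_17 : sl d_m49152_m45056_6144_8192 17 19 := by decide +kernel
def d_m49152_m45056_6144_8192_19 : sl d_m49152_m45056_6144_8192 19 23 := by decide +kernel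
def d_m49152_m45056_6144_8192_23 : sl d_m49152_m45056_6144_8192 23 27 := by decide +kernel
def d_m49152_m45056_6144_8192_27 : sl d_m49152_m45056_6144_8192 27 31 := by decide +kernel
def d_m49152_m45056_6144_8192_31 : sl d_m49152_m45056_6144_8192 31 34 := by decide +kernel
def d_m49152_m45056_6144_8192_34 : fr d_m49152_m45056_6144_8192 34 := by decide +kernel
theorem f_m49152_m45056_6144_8192 : fr d_m49152_m45056_6144_8192 0 :=
  (d_m49152_m45056_6144_8192_0.fr (d_m49152_m45056_6144_8192_4.fr (d_m49152_m45056_6144_8192_9.fr (d_m49152_m45056_6144_8192_13.fr (d_m49152_m45056_6144_8192_17.fr (d_m49152_m45056_6144_8192_19.fr (d_m49152_m45056_6144_8192_23.fr (d_m49152_m45056_6144_8192_27.fr (d_m49152_m45056_6144_8192_31.fr d_m49152_m45056_6144_8192_34)))))))))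

noncomputable def d_m45056_m43008_4096_5120 : Cell :=
  ⟨-189115999977472,4398046511104,19791209299968,2199023255552,⟨0,4503599627370496,-84442496368640⟩,⟨0,771384716296192,-424056364990464⟩,0,1,1,13107,1,(-233096465088512,0),⟨0,6513764990976,12163190254655291,[]⟩,[9833766248888,20670729141,20183064405,0,48034941,23413555],3,[⟨[225179981507316,723170583204,510226418198,-11339150659,5339515840,2319899406],⟨0,123498220748800,695978698329367,[[31388596161453107,-1152531982477476,-498356318725112,10123881984392,5504356783729,1146147145718],[49092151222993073,-1780229829594295,-794161214587677],[19323034071526869,0,0,-16417097201496,-8042190419447,-1497380471654],[0,851421978724541,395471751143663],[0],[586148012122893,-206861153057902,-94628281899629,-6387888170578,-2528969893122,-302761125182]]⟩,-45570,[⟨-28504,2,(-189115999977472,0),32⟩,⟨-11437,2,(-207807697649664,0),32⟩],13050,[⟨49330,3,(-275977418571776,0),32⟩,⟨85610,4,(-600333348765696,0),0⟩],3,0,[],0,[]⟩,⟨[281474977026915,1119471677752,806281444383,-18176700035,9436154183,4101537705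],⟨2,161406338072576,490861532877850,[[-182398798918534664,-4853458071850796,34903299775510816,0,0,-112762368913765],[-225120894373263829,-5288447840085310,35066805206788358],[-103760928320618402]]⟩,-102358,[⟨-73503,3,(68169720922112,0),6⟩,⟨-44647,3,(-46179488366592,0),6⟩],82507,[⟨102801,4,(-559651418537984,0),0⟩],6,94170,[⟨140576,3,(0,0),33⟩,⟨186982,3,(0,0),33⟩],6410,[⟨9508,3,(0,0),33⟩,⟨12606,3,(0,0),33⟩,⟨18802,4,(0,0),33⟩,⟨31194,4,(0,0),33⟩,⟨43586,5,(0,0),33⟩,⟨55978,5,(0,0),33⟩,⟨80762,6,(0,0),33⟩,⟨105546,6,(0,0),33⟩]⟩]⟩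
def d_m45056_m43008_4096_5120_0 : sl d_m45056_m43008_4096_5120 0 4 := by decide +kernel
def d_m45056_m43008_4096_5120_4 : sl d_m45056_m43008_4096_5120 4 9 := by decide +kernel
def d_m45056_m43008_4096_5120_9 : sl d_m45056_m43008_4096_5120 9 14 := by decide +kernel
def d_m45056_m43008_4096_5120_14 : sl d_m45056_m43008_4096_5120 14 15 := by decide +kernel
def d_m45056_m43008_4096_5120_15 : sl d_m45056_m43008_4096_5120 15 17 := by decide +kernel
def d_m45056_m43008_4096_5120_17 : sl d_m45056_m43008_4096_5120 17 21 := by decide +kernel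
def d_m45056_m43008_4096_5120_21 : sl d_m45056_m43008_4096_5120 21 25 := by decide +kernel
def d_m45056_m43008_4096_5120_25 : fr d_m45056_m43008_4096_5120 25 := by decide +kernel
theorem f_m45056_m43008_4096_5120 : fr d_m45056_m43008_4096_5120 0 :=
  (d_m45056_m43008_4096_5120_0.fr (d_m45056_m43008_4096_5120_4.fr (d_m45056_m43008_4096_5120_9.fr (d_m45056_m43008_4096_5120_14.fr (d_m45056_m43008_4096_5120_15.fr (d_m45056_m43008_4096_5120_17.fr (d_m45056_m43008_4096_5120_21.fr d_m45056_m43008_4096_5120_25)))))))

noncomputable def d_m45056_m43008_5120_6144 : Cell :=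
  ⟨-189115999977472,4398046511104,24189255811072,2199023255552,⟨0,4503599627370496,-84442496368640⟩,⟨0,728581072224256,-406204182429696⟩,0,1,1,13107,1,(-233096465088512,0),⟨0,6486200745984,12214879746412717,[]⟩,[9874145232198,20767038348,20276951619,0,48274376,23530139],3,[⟨[225179981499959,702829404230,490508371042,-11199304832,5122698901,2227793409],⟨0,123467447140352,696408566252349,[[29193655190091452,-1118518835575060,-468192433504327,18552317869194,10433992006688,873677485952],[45074444951607974,-1858842692260767,-749078404559571,22829331923837,12735432586086,0],[17363019925861902,-334008527978699,0],[0,584712488960168,379753374161447,0,0,1916334925536],[0],[487593159612735,-162025392229953,-94082325721084,-4370995805793,-2361829578284,-1047296072796]]⟩,-45842,[⟨-28661,2,(-188016488349696,0),32⟩,⟨-11479,2,(-207807697649664,0),32⟩],13050,[⟨48599,3,(-274877906944000,0),32⟩,⟨84149,4,(-603631883649024,0),0⟩],3,0,[],0,[]⟩,⟨[281474977007190,1086380832340,773405113673,-17905211655,8992937853,3907230351],⟨2,161374343266304,490958853301713,[[-141382938306489366,-4886201743232543,21838236649231359,0,0,2],[-159377919136915453,-4886201742734397,21838236647004961],[-59734642438745791]]⟩,-103711,[⟨-74312,3,(65970697666560,0),6⟩,⟨-44913,3,(-46179488366592,0),6⟩],81169,[⟨102801,4,(-560750930165760,0),0⟩],6,93798,[⟨140390,3,(0,0),33⟩,⟨186982,3,(0,0),33⟩],8013,[⟨14108,3,(0,0),33⟩,⟨20204,4,(0,0),33⟩,⟨32396,4,(0,0),33⟩,⟨44587,5,(0,0),33⟩,⟨56779,5,(0,0),33⟩,⟨81162,6,(0,0),33⟩,⟨105546,6,(0,0),33⟩]⟩]⟩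
def d_m45056_m43008_5120_6144_0 : sl d_m45056_m43008_5120_6144 0 4 := by decide +kernel
def d_m45056_m43008_5120_6144_4 : sl d_m45056_m43008_5120_6144 4 9 := by decide +kernel
def d_m45056_m43008_5120_6144_9 : sl d_m45056_m43008_5120_6144 9 14 := by decide +kernel
def d_m45056_m43008_5120_6144_14 : sl d_m45056_m43008_5120_6144 14 15 := by decide +kernel
def d_m45056_m43008_5120_6144_15 : sl d_m45056_m43008_5120_6144 15 17 := by decide +kernel
def d_m45056_m43008_5120_6144_17 : sl d_m45056_m43008_5120_6144 17 21 := by decide +kernel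
def d_m45056_m43008_5120_6144_21 : sl d_m45056_m43008_5120_6144 21 24 := by decide +kernel
def d_m45056_m43008_5120_6144_24 : fr d_m45056_m43008_5120_6144 24 := by decide +kernel
theorem f_m45056_m43008_5120_6144 : fr d_m45056_m43008_5120_6144 0 :=
  (d_m45056_m43008_5120_6144_0.fr (d_m45056_m43008_5120_6144_4.fr (d_m45056_m43008_5120_6144_9.fr (d_m45056_m43008_5120_6144_14.fr (d_m45056_m43008_5120_6144_15.fr (d_m45056_m43008_5120_6144_17.fr (d_m45056_m43008_5120_6144_21.fr d_m45056_m43008_5120_6144_24)))))))

noncomputable def d_m43008_m40960_4096_5120 : Cell :=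
  ⟨-180319906955264,4398046511104,19791209299968,2199023255552,⟨0,4503599627370496,-84442496368640⟩,⟨0,475521599143936,-399607615979520⟩,0,1,1,13107,1,(-241892558110720,0),⟨0,6486950608896,12213467773905582,[[6053284881689677]]⟩,[9875024952296,20670729141,20279134288,0,48034941,23532962],3,[⟨[225179981489446,646406598907,489786968416,-10866443066,4858884283,2221835443],⟨0,123396217634816,696849210948437,[[24782979930463567,-1011178771545562,-467069491320286,26999397999027,18312859971623,3376820665706],[38938635553024001,-1985637976690602,-968504031383087,47379241473297,27796963564131,4925876273729],[15364682526157168,-1052692323717191,-542023872127449,13268124994790,0,0],[0,0,0,-7191871218832,-9537342567875,-1562210042541],[0],[416112697947991,-64946041676253,-36663887602635]]⟩,-45812,[⟨-28646,2,(-195713069744128,0),32⟩,⟨-11479,2,(-215504279044096,0),32⟩],13050,[⟨48542,3,(-284773511593984,0),32⟩,⟨84034,4,(-613527488299008,0),0⟩],3,0,[],0,[]⟩,⟨[281474976979442,994685624820,772094276594,-17252420265,8457253666,3894829031],⟨2,161330866618368,491091160431880,[[-159399604225056816,-2829199815814017,28476477738762434,0,0,-612503936810136],[-186558020289626170,-3161076963638678,27757610471399647],[-88921035981301982]]⟩,-93458,[⟨-69174,3,(74766790688768,0),6⟩,⟨-44890,3,(-53876069761024,0),6⟩],81080,[⟨91750,4,(-575044581326848,0),0⟩],6,85982,[⟨136482,3,(0,0),33⟩,⟨186982,3,(0,0),33⟩],5720,[⟨9169,3,(0,0),33⟩,⟨12618,3,(0,0),33⟩,⟨19517,4,(0,0),33⟩,⟨33315,5,(0,0),33⟩,⟨47112,5,(0,0),33⟩,⟨60910,5,(0,0),33⟩,⟨88505,6,(0,0),33⟩,⟨116101,6,(0,0),33⟩]⟩]⟩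
def d_m43008_m40960_4096_5120_0 : sl d_m43008_m40960_4096_5120 0 4 := by decide +kernel
def d_m43008_m40960_4096_5120_4 : sl d_m43008_m40960_4096_5120 4 9 := by decide +kernel
def d_m43008_m40960_4096_5120_9 : sl d_m43008_m40960_4096_5120 9 14 := by decide +kernel
def d_m43008_m40960_4096_5120_14 : sl d_m43008_m40960_4096_5120 14 15 := by decide +kernel
def d_m43008_m40960_4096_5120_15 : sl d_m43008_m40960_4096_5120 15 17 := by decide +kernel
def d_m43008_m40960_4096_5120_17 : sl d_m43008_m40960_4096_5120 17 21 := by decide +kernel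
def d_m43008_m40960_4096_5120_21 : sl d_m43008_m40960_4096_5120 21 25 := by decide +kernel
def d_m43008_m40960_4096_5120_25 : fr d_m43008_m40960_4096_5120 25 := by decide +kernel
theorem f_m43008_m40960_4096_5120 : fr d_m43008_m40960_4096_5120 0 :=
  (d_m43008_m40960_4096_5120_0.fr (d_m43008_m40960_4096_5120_4.fr (d_m43008_m40960_4096_5120_9.fr (d_m43008_m40960_4096_5120_14.fr (d_m43008_m40960_4096_5120_15.fr (d_m43008_m40960_4096_5120_17.fr (d_m43008_m40960_4096_5120_21.fr d_m43008_m40960_4096_5120_25)))))))

noncomputable def d_m43008_m40960_5120_6144 : Cell :=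
  ⟨-180319906955264,4398046511104,24189255811072,2199023255552,⟨0,4503599627370496,-84442496368640⟩,⟨0,480937552904192,-429281981235200⟩,0,1,1,13107,1,(-241892558110720,0),⟨0,6459512913920,12265346218650155,[[8911300556107959]]⟩,[9915596168408,20767038348,20373500370,0,48274376,23650167],3,[⟨[225179981483398,627574881672,470601238782,-10746919820,4670018292,2136267938],⟨0,123368763293696,697268664713061,[[24770257172498229,-988950653460039,-453069809891037,31885757026971,14902414243952,4618924974034],[38781430854342516,-1922141989408618,-935411906720765,67813761013375,21897663388324,6854944432828],[15186818059226537,-1003885181181853,-520585436290919,37686468527161,0,0],[0,0,0,0,-7047387998835,-2249041602255],[0],[379032103762722,-57374629749503,-34308150407696,1632962666099,0,0]]⟩,-46087,[⟨-28805,2,(-194613558116352,0),32⟩,⟨-11522,2,(-215504279044096,0),32⟩],13051,[⟨47848,3,(-284773511593984,0),32⟩,⟨82646,4,(-591537255743488,0),0⟩],3,0,[],0,[]⟩,⟨[281474976963660,964484286767,740317035696,-17024238292,8077213312,3716117001],⟨2,161302637379584,491177105400947,[[-138553736439844346,-4105368065583094,20493650961069968,0,0,-480115806118343],[-147316585845122671,-4105368065200771,18408822879283612],[-56436177748200973]]⟩,-94811,[⟨-69986,3,(73667279060992,0),6⟩,⟨-45160,3,(-52776558133248,0),6⟩],79804,[⟨91750,4,(-576144092954624,0),0⟩],6,85748,[⟨136365,3,(0,0),33⟩,⟨186982,3,(0,0),33⟩],7151,[⟨10555,3,(0,0),33⟩,⟨13960,3,(0,0),33⟩,⟨20769,4,(0,0),33⟩,⟨34388,4,(0,0),33⟩,⟨48007,5,(0,0),33⟩,⟨61626,5,(0,0),33⟩,⟨88863,6,(0,0),33⟩,⟨116101,6,(0,0),33⟩]⟩]⟩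
def d_m43008_m40960_5120_6144_0 : sl d_m43008_m40960_5120_6144 0 4 := by decide +kernel
def d_m43008_m40960_5120_6144_4 : sl d_m43008_m40960_5120_6144 4 9 := by decide +kernel
def d_m43008_m40960_5120_6144_9 : sl d_m43008_m40960_5120_6144 9 14 := by decide +kernel
def d_m43008_m40960_5120_6144_14 : sl d_m43008_m40960_5120_6144 14 15 := by decide +kernel
def d_m43008_m40960_5120_6144_15 : sl d_m43008_m40960_5120_6144 15 17 := by decide +kernel
def d_m43008_m40960_5120_6144_17 : sl d_m43008_m40960_5120_6144 17 21 := by decide +kernel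
def d_m43008_m40960_5120_6144_21 : sl d_m43008_m40960_5120_6144 21 25 := by decide +kernel
def d_m43008_m40960_5120_6144_25 : fr d_m43008_m40960_5120_6144 25 := by decide +kernel
theorem f_m43008_m40960_5120_6144 : fr d_m43008_m40960_5120_6144 0 :=
  (d_m43008_m40960_5120_6144_0.fr (d_m43008_m40960_5120_6144_4.fr (d_m43008_m40960_5120_6144_9.fr (d_m43008_m40960_5120_6144_14.fr (d_m43008_m40960_5120_6144_15.fr (d_m43008_m40960_5120_6144_17.fr (d_m43008_m40960_5120_6144_21.fr d_m43008_m40960_5120_6144_25)))))))

end Pool.Agent.Lib.MP_d6150d_an
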