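import Pool.Agent.Lib.MP_d6150d_an.Cells

set_option maxRecDepth 100000
set_option linter.defProp false

namespace Pool.Agent.Lib.MP_d6150d_an

noncomputable def d_m59392_m58368_38912_40960 : Cell :=
  ⟨-252887674388480,2199023255552,171523813933056,4398046511104,⟨0,4503599627370496,0⟩,⟨0,27762668601344,-790113776828416⟩,0,1,1,13107,1,(-169324790677504,0),⟨0,5805850492928,13646263000298491,[[61120970304973452]]⟩,[10990049277918,12143644273,45761883486,0,57058908,107085238],3,[⟨[225179981379813,318271715267,158912460392,-2675835525,2917301548,4800327079],⟨0,124481621458944,696663967506787,[[22560154445995996,-469724188178252,-478683544554752,9685608390653,19322015336206,12810349572996],[36419171406690012,-1003035855839786,-985093178629109,24935849167708,48157542047438,29999419002429],[14117783609592241,-666820220017551,-591859860564715,18470545862767,35217487752143,19917370880504],[-481836504809451,-106366997729873,-46309142512437,0,1734515481489,0],[-147265416146759,26600053647095,34378234657971,-3208303573219,-4608367394386,-2694736623504],[2000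5247146670,4416263707868,342859613974]]⟩,-55709,[⟨-34197,2,(-15393162788864,0),4⟩,⟨-12685,1,(-152832116260864,0),32⟩],13053,[⟨37336,2,(-190215511605248,0),32⟩,⟨61619,3,(-477188046454784,0),1⟩],2,0,[],0,[]⟩,⟨[281474976735260,495147809904,244685174187,-4263197865,4715943543,7461739097],⟨2,161702806683648,489961579204491,[[37504932181572971,-42672190280449,0],[-11703104815780092]]⟩,-179794,[⟨-116990,3,(29686813949952,0),4⟩,⟨-54185,3,(96757023244288,0),4⟩],59781,[⟨96476,4,(-480486581338112,0),1⟩,⟨133171,4,(-451899279015936,0),1⟩,⟨169866,4,(-462894395293696,0),3⟩,⟨206562,5,(-485984139476992,0),3⟩,⟨243257,5,(-510173395288064,0),3⟩,⟨279953,5,(-528865092960256,0),3⟩,⟨316648,5,(-542059232493568,0),3⟩,⟨353344,6,(-550855325515776,0),3⟩],4,67285,[⟨118634,4,(0,0),34⟩,⟨169984,4,(0,0),34⟩],209376,[⟨273760,4,(0,0),34⟩]⟩]⟩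
def d_m59392_m58368_38912_40960_0 : sl d_m59392_m58368_38912_40960 0 4 := by decide +kernel
def d_m59392_m58368_38912_40960_4 : sl d_m59392_m58368_38912_40960 4 9 := by decide +kernel
def d_m59392_m58368_38912_40960_9 : sl d_m59392_m58368_38912_40960 9 13 := by decide +kernel
def d_m59392_m58368_38912_40960_13 : sl d_m59392_m58368_38912_40960 13 17 := by decide +kernel
def d_m59392_m58368_38912_40960_17 : sl d_m59392_m58368_38912_40960 17 22 := by decide +kernel
def d_m59392_m58368_38912_40960_22 : sl d_m59392_m58368_38912_40960 22 24 := by decide +kernel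
def d_m59392_m58368_38912_40960_24 : sl d_m59392_m58368_38912_40960 24 25 := by decide +kernel
def d_m59392_m58368_38912_40960_25 : fr d_m59392_m58368_38912_40960 25 := by decide +kernel
theorem f_m59392_m58368_38912_40960 : fr d_m59392_m58368_38912_40960 0 :=
  (d_m59392_m58368_38912_40960_0.fr (d_m59392_m58368_38912_40960_4.fr (d_m59392_m58368_38912_40960_9.fr (d_m59392_m58368_38912_40960_13.fr (d_m59392_m58368_38912_40960_17.fr (d_m59392_m58368_38912_40960_22.fr (d_m59392_m58368_38912_40960_24.fr d_m59392_m58368_38912_40960_25)))))))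

noncomputable def d_m58368_m57344_38912_40960 : Cell :=
  ⟨-248489627877376,2199023255552,171523813933056,4398046511104,⟨0,4503599627370496,-84442496368640⟩,⟨0,333332411842560,-467747523788800⟩,0,1,1,13107,1,(-173722837188608,0),⟨0,5794425077760,13673170601727504,[[23500472189555043]]⟩,[11014287818942,12143644273,45876001302,0,57058908,107370987],3,[⟨[225179981378820,300316480595,144024491916,-2624688262,2819854411,4767064505],⟨0,124457883467776,696956202266373,[[18232900546795878,-362016635994536,-370042226657559,7250350585017,14489212442708,9821619982609],[26344853712175508,-708632255610918,-697426718867107,17932105340525,33589938702905,21655392875420],[8780913064058920,-423847157473510,-372385864866945,12933942606128,22098561229309,13369606113769],[-170330655356098,-60367022274938,-19979758516821],[-86944087108620,11328093044583,18537861836765,-2241550576416,-2951185006147,-1497596237677],[8594705127966,785116416696,0]]⟩,-55889,[⟨-34300,2,(-17592186044416,0),4⟩,⟨-12711,1,(-156130651144192,0),32⟩],13053,[⟨37138,2,(-195713069744128,0),32⟩,⟨612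24,3,(-483785116221440,0),1⟩],2,0,[],0,[]⟩,⟨[281474976732760,465947084638,221377783247,-4162188349,4525357300,7398147786],⟨2,161680223830016,490030014947265,[[16762734171938853]]⟩,-178363,[⟨-116362,3,(29686813949952,0),4⟩,⟨-54360,3,(95657511616512,0),4⟩],59416,[⟨94572,4,(-491481697615872,0),1⟩,⟨129729,4,(-462894395293696,0),1⟩,⟨164886,4,(-471690488315904,0),3⟩,⟨200043,5,(-492581209243648,0),3⟩,⟨235200,5,(-513471930171392,0),3⟩,⟨270357,5,(-529964604588032,0),3⟩,⟨305514,5,(-542059232493568,0),3⟩,⟨323092,6,(-548656302260224,0),3⟩,⟨340671,6,(-551954837143552,0),3⟩],4,66750,[⟨118367,4,(0,0),34⟩,⟨169984,4,(0,0),34⟩],201866,[⟨273760,4,(0,0),34⟩]⟩]⟩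
def d_m58368_m57344_38912_40960_0 : sl d_m58368_m57344_38912_40960 0 4 := by decide +kernel
def d_m58368_m57344_38912_40960_4 : sl d_m58368_m57344_38912_40960 4 9 := by decide +kernel
def d_m58368_m57344_38912_40960_9 : sl d_m58368_m57344_38912_40960 9 13 := by decide +kernel
def d_m58368_m57344_38912_40960_13 : sl d_m58368_m57344_38912_40960 13 17 := by decide +kernel
def d_m58368_m57344_38912_40960_17 : sl d_m58368_m57344_38912_40960 17 22 := by decide +kernel
def d_m58368_m57344_38912_40960_22 : sl d_m58368_m57344_38912_40960 22 23 := by decide +kernel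
def d_m58368_m57344_38912_40960_23 : sl d_m58368_m57344_38912_40960 23 25 := by decide +kernel
def d_m58368_m57344_38912_40960_25 : sl d_m58368_m57344_38912_40960 25 26 := by decide +kernel
def d_m58368_m57344_38912_40960_26 : fr d_m58368_m57344_38912_40960 26 := by decide +kernel
theorem f_m58368_m57344_38912_40960 : fr d_m58368_m57344_38912_40960 0 :=
  (d_m58368_m57344_38912_40960_0.fr (d_m58368_m57344_38912_40960_4.fr (d_m58368_m57344_38912_40960_9.fr (d_m58368_m57344_38912_40960_13.fr (d_m58368_m57344_38912_40960_17.fr (d_m58368_m57344_38912_40960_22.fr (d_m58368_m57344_38912_40960_23.fr (d_m58368_m57344_38912_40960_25.fr d_m58368_m57344_38912_40960_26))))))))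

noncomputable def d_m61440_m60416_40960_45056 : Cell :=
  ⟨-261683767410688,2199023255552,184717953466368,8796093022208,⟨0,4503599627370496,-84442496368640⟩,⟨0,295407850618880,-401222171361280⟩,0,1,1,13107,1,(-160528697655296,0),⟨0,5780142948352,13706955578374875,[[22166219681719174]]⟩,[11078855456448,12316376083,92356021447,0,115847107,432491070],3,[⟨[225179981300845,329583553716,207242619844,-2712645135,5718220760,19058801654],⟨0,129345628930048,667821039149991,[[18596931595708160,-408066282044168,-793768989572844,8889740928587,34094060809624,43122172436819],[27412066292975423,-834462353255856,-1549512508389403,22725018071674,81219722688990,95616762390565],[9818551117204871,-542091044555992,-898167609123328,16650292049403,55085023797382,59033306272145],[192222695150498,-104023646768547,-99592766993678],[-93826281900971,5610547499835,30526527459207,-2793997322158,-7865175826098,-6380142152455]]⟩,-57324,[⟨-35030,2,(-9895604649984,0),4⟩,⟨-12735,2,(-146235046494208,0),32⟩],13053,[⟨37153,2,(-178120883699712,0),32⟩,⟨61254,3,(-460695372038144,0),1⟩]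,2,0,[],0,[]⟩,⟨[281474976588250,514446669358,319076749692,-4338990848,9222537699,29583713320],⟨2,164719546073088,480988227553771,[[16778371907392886]]⟩,-158329,[⟨-106513,3,(40681930227712,0),4⟩,⟨-54696,3,(109951162777600,0),4⟩],58285,[⟨97159,4,(-460695372038144,0),1⟩,⟨136034,4,(-425510999949312,0),3⟩,⟨174908,4,(-436506116227072,0),3⟩,⟨213783,5,(-463993906921472,0),3⟩,⟨252657,5,(-493680720871424,0),3⟩,⟨272094,5,(-513471930171392,0),3⟩,⟨291532,5,(-524467046449152,0),3⟩,⟨310969,5,(-532163627843584,0),3⟩,⟨330407,6,(-539860209238016,0),3⟩,⟨340125,6,(-544258255749120,0),3⟩,⟨349844,6,(-546457279004672,0),3⟩,⟨354703,6,(-547556790632448,0),3⟩,⟨357133,6,(-548656302260224,0),3⟩,⟨359563,4,(0,0),34⟩,⟨369282,4,(0,0),34⟩],5,49376,[⟨101953,4,(0,0),34⟩,⟨154530,4,(0,0),34⟩],230337,[⟨280793,4,(0,0),34⟩,⟨331250,5,(0,0),34⟩]⟩]⟩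
def d_m61440_m60416_40960_45056_0 : sl d_m61440_m60416_40960_45056 0 4 := by decide +kernel
def d_m61440_m60416_40960_45056_4 : sl d_m61440_m60416_40960_45056 4 9 := by decide +kernel
def d_m61440_m60416_40960_45056_9 : sl d_m61440_m60416_40960_45056 9 13 := by decide +kernel
def d_m61440_m60416_40960_45056_13 : sl d_m61440_m60416_40960_45056 13 17 := by decide +kernel
def d_m61440_m60416_40960_45056_17 : sl d_m61440_m60416_40960_45056 17 21 := by decide +kernel
def d_m61440_m60416_40960_45056_21 : sl d_m61440_m60416_40960_45056 21 25 := by decide +kernel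
def d_m61440_m60416_40960_45056_25 : sl d_m61440_m60416_40960_45056 25 29 := by decide +kernel
def d_m61440_m60416_40960_45056_29 : sl d_m61440_m60416_40960_45056 29 31 := by decide +kernel
def d_m61440_m60416_40960_45056_31 : sl d_m61440_m60416_40960_45056 31 33 := by decide +kernel
def d_m61440_m60416_40960_45056_33 : fr d_m61440_m60416_40960_45056 33 := by decide +kernel
theorem f_m61440_m60416_40960_45056 : fr d_m61440_m60416_40960_45056 0 :=
  (d_m61440_m60416_40960_45056_0.fr (d_m61440_m60416_40960_45056_4.fr (d_m61440_m60416_40960_45056_9.fr (d_m61440_m60416_40960_45056_13.fr (d_m61440_m60416_40960_45056_17.fr (d_m61440_m60416_40960_45056_21.fr (d_m61440_m60416_40960_45056_25.fr (d_m61440_m60416_40960_45056_29.fr (d_m61440_m60416_40960_45056_31.fr d_m61440_m60416_40960_45056_33)))))))))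

noncomputable def d_m60416_m59392_40960_45056 : Cell :=
  ⟨-257285720899584,2199023255552,184717953466368,8796093022208,⟨0,4503599627370496,-84442496368640⟩,⟨0,-1271310319616,-428694711566336⟩,0,1,1,13107,1,(-164926744166400,0),⟨0,5768823963648,13733849980972512,[[30171293992447364]]⟩,[11103438234386,12316376083,92587715661,0,115847107,433652102],3,[⟨[225179981298605,311196740685,177475735657,-2658647110,5527715969,18949833582],⟨0,129303968088064,668187666544247,[[15682776143863289,-341151309585797,-662850308866690,7450345831970,28494421913034,36636524653950],[24405405172380461,-710425241906154,-1320371855125870,19180027056073,67936611632245,81781626187431],[9323472601336524,-463719656322938,-770391544681938,14134895860924,46039114427867,50888084304442],[15328951700473,-81630927924687,-69024443174175],[-96276623835755,8557210735970,35193659784434,-2388285048317,-6521638255397,-5618480060666]]⟩,-57513,[⟨-35137,2,(-12094627905536,0),4⟩,⟨-12761,2,(-149533581377536,0),32⟩],13053,[⟨36954,2,(-183618441838592,0),32⟩,⟨60855,3,(-468391953432576,0),1⟩],2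,0,[],0,[]⟩,⟨[281474976582482,484345361310,272452167588,-4231426283,8847863764,29374877419],⟨2,164690404311040,481073337883959,[[13408140829342076]]⟩,-157047,[⟨-105961,3,(40681930227712,0),4⟩,⟨-54875,3,(108851651149824,0),4⟩],57933,[⟨94725,4,(-473889511571456,0),1⟩,⟨131518,4,(-439804651110400,0),3⟩,⟨168310,4,(-448600744132608,0),3⟩,⟨205103,5,(-472789999943680,0),3⟩,⟨241895,5,(-499178279010304,0),3⟩,⟨278688,5,(-521168511565824,0),3⟩,⟨297084,5,(-533263139471360,0),3⟩,⟨315481,6,(-539860209238016,0),3⟩,⟨333877,6,(-545357767376896,0),3⟩,⟨352274,6,(-549755813888000,0),3⟩],4,48977,[⟨101753,4,(0,0),34⟩,⟨154530,4,(0,0),34⟩],219728,[⟨260432,4,(0,0),34⟩,⟨301136,4,(0,0),34⟩]⟩]⟩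
def d_m60416_m59392_40960_45056_0 : sl d_m60416_m59392_40960_45056 0 4 := by decide +kernel
def d_m60416_m59392_40960_45056_4 : sl d_m60416_m59392_40960_45056 4 9 := by decide +kernel
def d_m60416_m59392_40960_45056_9 : sl d_m60416_m59392_40960_45056 9 13 := by decide +kernel
def d_m60416_m59392_40960_45056_13 : sl d_m60416_m59392_40960_45056 13 17 := by decide +kernel
def d_m60416_m59392_40960_45056_17 : sl d_m60416_m59392_40960_45056 17 22 := by decide +kernel
def d_m60416_m59392_40960_45056_22 : sl d_m60416_m59392_40960_45056 22 24 := by decide +kernel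
def d_m60416_m59392_40960_45056_24 : sl d_m60416_m59392_40960_45056 24 26 := by decide +kernel
def d_m60416_m59392_40960_45056_26 : sl d_m60416_m59392_40960_45056 26 28 := by decide +kernel
def d_m60416_m59392_40960_45056_28 : fr d_m60416_m59392_40960_45056 28 := by decide +kernel
theorem f_m60416_m59392_40960_45056 : fr d_m60416_m59392_40960_45056 0 :=
  (d_m60416_m59392_40960_45056_0.fr (d_m60416_m59392_40960_45056_4.fr (d_m60416_m59392_40960_45056_9.fr (d_m60416_m59392_40960_45056_13.fr (d_m60416_m59392_40960_45056_17.fr (d_m60416_m59392_40960_45056_22.fr (d_m60416_m59392_40960_45056_24.fr (d_m60416_m59392_40960_45056_26.fr d_m60416_m59392_40960_45056_28))))))))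

noncomputable def d_m59392_m58368_40960_45056 : Cell :=
  ⟨-252887674388480,2199023255552,184717953466368,8796093022208,⟨0,1703512878612480,-84708817895424⟩,⟨0,-7563437408256,-256328899493888⟩,0,1,1,13107,1,(-169324790677504,0),⟨0,5757504913408,13760850130011161,[[7347330830932208]]⟩,[11128021012324,12316376083,92819409875,0,115847107,434813134],3,[⟨[225179981296640,293439004495,148063408206,-2608971741,5354279988,18852560871],⟨0,129264306028544,668542539566946,[[5447122655170226,-123857292998243,-238338735565939,2838355731091,10786186549983,13871291250413],[8067526188513248,-246372877824269,-450656638888921,7024787323455,24349163273090,29267013056792],[2864913153205140,-148411768461137,-237671167308004,4960519997187,15201665219664,16823813832197],[6209721084094,-19834537351185,-8574909216139],[-33852117196334,4236734502167,13069991803089,-766050272275,-1067554646247,-1369113887492],[0,0,0,0,535589305980,0]]⟩,-57705,[⟨-35246,2,(-14293651161088,0),4⟩,⟨-12787,2,(-152832116260864,0),32⟩],13053,[⟨36761,2,(-189115999977472,0),32⟩,⟨60470,3,(-47608853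4827008,0),1⟩],2,0,[],0,[]⟩,⟨[281474976577514,455505394784,226515009013,-4133351049,8509686525,29189451756],⟨2,164660647690240,481160274997208,[[3585443964738685]]⟩,-155694,[⟨-105375,3,(40681930227712,0),4⟩,⟨-55056,3,(107752139522048,0),4⟩],57593,[⟨92625,4,(-485984139476992,0),1⟩,⟨127657,4,(-451899279015936,0),3⟩,⟨162689,4,(-459595860410368,0),3⟩,⟨197722,5,(-480486581338112,0),3⟩,⟨232754,5,(-503576325521408,0),3⟩,⟨267787,5,(-523367534821376,0),3⟩,⟨302819,5,(-537661185982464,0),3⟩,⟨320335,6,(-545357767376896,0),3⟩,⟨337852,6,(-549755813888000,0),3⟩],4,48555,[⟨101542,4,(0,0),33⟩,⟨154530,4,(0,0),34⟩],210733,[⟨255934,4,(0,0),34⟩,⟨301136,4,(0,0),34⟩]⟩]⟩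
def d_m59392_m58368_40960_45056_0 : sl d_m59392_m58368_40960_45056 0 4 := by decide +kernel
def d_m59392_m58368_40960_45056_4 : sl d_m59392_m58368_40960_45056 4 9 := by decide +kernel
def d_m59392_m58368_40960_45056_9 : sl d_m59392_m58368_40960_45056 9 13 := by decide +kernel
def d_m59392_m58368_40960_45056_13 : sl d_m59392_m58368_40960_45056 13 17 := by decide +kernel
def d_m59392_m58368_40960_45056_17 : sl d_m59392_m58368_40960_45056 17 22 := by decide +kernel
def d_m59392_m58368_40960_45056_22 : sl d_m59392_m58368_40960_45056 22 23 := by decide +kernel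
def d_m59392_m58368_40960_45056_23 : sl d_m59392_m58368_40960_45056 23 25 := by decide +kernel
def d_m59392_m58368_40960_45056_25 : sl d_m59392_m58368_40960_45056 25 27 := by decide +kernel
def d_m59392_m58368_40960_45056_27 : fr d_m59392_m58368_40960_45056 27 := by decide +kernel
theorem f_m59392_m58368_40960_45056 : fr d_m59392_m58368_40960_45056 0 :=
  (d_m59392_m58368_40960_45056_0.fr (d_m59392_m58368_40960_45056_4.fr (d_m59392_m58368_40960_45056_9.fr (d_m59392_m58368_40960_45056_13.fr (d_m59392_m58368_40960_45056_17.fr (d_m59392_m58368_40960_45056_22.fr (d_m59392_m58368_40960_45056_23.fr (d_m59392_m58368_40960_45056_25.fr d_m59392_m58368_40960_45056_27))))))))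

noncomputable def d_m58368_m57344_40960_45056 : Cell :=
  ⟨-248489627877376,2199023255552,184717953466368,8796093022208,⟨0,647792737386496,-203629482999808⟩,⟨0,-18721762443264,-293332676771840⟩,0,1,1,13107,1,(-173722837188608,0),⟨0,5746185928704,13787956650398011,[[7758569593479121]]⟩,[11148476316249,12213739717,92948467723,-154758910,-54857869,281215255],3,[⟨[225179981294914,276253102672,118976366689,-2563264070,5196571466,18766460381],⟨0,129223710605312,668873619732534,[[4134002868945539,-94588498442070,-180754853388898,2207144133175,8377018348212,10793988739931],[6987533741071447,-205509054976486,-373678823692312,5814720998608,20215566665679,24111118148788],[3281105181205615,-145077401823438,-234827382714366,4796004089305,13990085297026,15010651738577],[264617757045136,-32519050790592,-32037499227013,821284780712,57021721281,0],[-51139547031454,611254922110,7777192352360,-362624297485,-2075373638498,-1655118261192]]⟩,-57899,[⟨-35355,2,(-17592186044416,0),4⟩,⟨-12810,2,(-156130651144192,0),32⟩],13051,[⟨36574,2,(-195713069744128,0),32⟩,⟨60098,3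,(-483785116221440,0),1⟩],2,0,[],0,[]⟩,⟨[281474976573221,427799277402,181204366562,-4043840872,8204594558,29026162489],⟨2,164633848905728,481238597271661,[[4472776163799464]]⟩,-154264,[⟨-104752,3,(40681930227712,0),4⟩,⟨-55240,3,(106652627894272,0),4⟩],57263,[⟨90752,4,(-498078767382528,0),1⟩,⟨124242,4,(-463993906921472,0),3⟩,⟨157731,4,(-468391953432576,0),3⟩,⟨191221,5,(-487083651104768,0),3⟩,⟨224710,5,(-507974372032512,0),3⟩,⟨258200,5,(-525566558076928,0),3⟩,⟨291689,5,(-538760697610240,0),3⟩,⟨325179,6,(-547556790632448,0),3⟩],4,48109,[⟨74714,3,(0,0),34⟩,⟨101319,4,(0,0),34⟩,⟨154530,4,(0,0),34⟩],202828,[⟨251982,4,(0,0),34⟩,⟨301136,4,(0,0),34⟩]⟩]⟩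
def d_m58368_m57344_40960_45056_0 : sl d_m58368_m57344_40960_45056 0 4 := by decide +kernel
def d_m58368_m57344_40960_45056_4 : sl d_m58368_m57344_40960_45056 4 9 := by decide +kernel
def d_m58368_m57344_40960_45056_9 : sl d_m58368_m57344_40960_45056 9 13 := by decide +kernel
def d_m58368_m57344_40960_45056_13 : sl d_m58368_m57344_40960_45056 13 17 := by decide +kernel
def d_m58368_m57344_40960_45056_17 : sl d_m58368_m57344_40960_45056 17 22 := by decide +kernel
def d_m58368_m57344_40960_45056_22 : sl d_m58368_m57344_40960_45056 22 23 := by decide +kernel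
def d_m58368_m57344_40960_45056_23 : sl d_m58368_m57344_40960_45056 23 25 := by decide +kernel
def d_m58368_m57344_40960_45056_25 : sl d_m58368_m57344_40960_45056 25 27 := by decide +kernel
def d_m58368_m57344_40960_45056_27 : fr d_m58368_m57344_40960_45056 27 := by decide +kernel
theorem f_m58368_m57344_40960_45056 : fr d_m58368_m57344_40960_45056 0 :=
  (d_m58368_m57344_40960_45056_0.fr (d_m58368_m57344_40960_45056_4.fr (d_m58368_m57344_40960_45056_9.fr (d_m58368_m57344_40960_45056_13.fr (d_m58368_m57344_40960_45056_17.fr (d_m58368_m57344_40960_45056_22.fr (d_m58368_m57344_40960_45056_23.fr (d_m58368_m57344_40960_45056_25.fr d_m58368_m57344_40960_45056_27))))))))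

noncomputable def d_m61440_m60416_45056_49152 : Cell :=
  ⟨-261683767410688,2199023255552,202310139510784,8796093022208,⟨0,-48932562403328,-208004980932608⟩,⟨0,100214471917568,-265431143153664⟩,0,1,1,13107,1,(-160528697655296,0),⟨0,5697364492288,13906107434372519,[[5652683574671807]]⟩,[11114596001059,766405692,-14461195154,0,-14092283635,-64380634604],3,[⟨[225179981293480,296138152056,-19496017335,-2621957993,5104038873,18872922692],⟨0,129178502627328,669014845328750,[[2935391093306233,-76570829853988,-135923739005614,1928617527023,7122327721941,8443154396893],[5396265799943218,-179589051857725,-303012554629633,5171326688746,18259433041961,19898016730225],[2961956007586106,-143005552024184,-220288891173568,4028728587273,14383723717229,13347286296419],[413516130092819,-40554595662307,-52015454941132,0,1919093240844,0],[-25918084338125,0,0,-784638568838,-1314102141746,-1869867653677],[0,1160318587249,0]]⟩,-59418,[⟨-36151,2,(-9895604649984,0),4⟩,⟨-12883,2,(-146235046494208,0),32⟩],12853,[⟨35921,2,(-177021372071936,0),32⟩,⟨58989,3,(-460695372038144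,0),1⟩],2,0,[],0,[]⟩,⟨[281474976570113,460836948212,-32225222164,-4161536324,8038520818,29236187376],⟨2,164613697634304,481297508363301,[[4162268983012290]]⟩,-119808,[⟨-88209,3,(68169720922112,0),4⟩,⟨-56610,3,(133040906960896,0),4⟩],56233,[⟨92823,4,(-468391953432576,0),3⟩,⟨129413,4,(-426610511577088,0),3⟩,⟨166003,4,(-432108069715968,0),3⟩,⟨202594,5,(-456297325527040,0),3⟩,⟨239184,5,(-484884627849216,0),3⟩,⟨275774,5,(-510173395288064,0),3⟩,⟨294069,5,(-525566558076928,0),3⟩,⟨312364,6,(-533263139471360,0),3⟩,⟨330659,6,(-539860209238016,0),3⟩,⟨348955,6,(-545357767376896,0),3⟩],5,29890,[⟨43714,3,(0,0),34⟩,⟨57538,3,(0,0),34⟩,⟨85186,4,(0,0),34⟩,⟨140482,5,(0,0),34⟩],239424,[⟨285337,4,(0,0),34⟩,⟨331250,4,(0,0),34⟩]⟩]⟩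
def d_m61440_m60416_45056_49152_0 : sl d_m61440_m60416_45056_49152 0 4 := by decide +kernel
def d_m61440_m60416_45056_49152_4 : sl d_m61440_m60416_45056_49152 4 9 := by decide +kernel
def d_m61440_m60416_45056_49152_9 : sl d_m61440_m60416_45056_49152 9 13 := by decide +kernel
def d_m61440_m60416_45056_49152_13 : sl d_m61440_m60416_45056_49152 13 17 := by decide +kernel
def d_m61440_m60416_45056_49152_17 : sl d_m61440_m60416_45056_49152 17 22 := by decide +kernel
def d_m61440_m60416_45056_49152_22 : sl d_m61440_m60416_45056_49152 22 26 := by decide +kernel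
def d_m61440_m60416_45056_49152_26 : sl d_m61440_m60416_45056_49152 26 28 := by decide +kernel
def d_m61440_m60416_45056_49152_28 : sl d_m61440_m60416_45056_49152 28 30 := by decide +kernel
def d_m61440_m60416_45056_49152_30 : fr d_m61440_m60416_45056_49152 30 := by decide +kernel
theorem f_m61440_m60416_45056_49152 : fr d_m61440_m60416_45056_49152 0 :=
  (d_m61440_m60416_45056_49152_0.fr (d_m61440_m60416_45056_49152_4.fr (d_m61440_m60416_45056_49152_9.fr (d_m61440_m60416_45056_49152_13.fr (d_m61440_m60416_45056_49152_17.fr (d_m61440_m60416_45056_49152_22.fr (d_m61440_m60416_45056_49152_26.fr (d_m61440_m60416_45056_49152_28.fr d_m61440_m60416_45056_49152_30))))))))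

noncomputable def d_m60416_m59392_45056_49152 : Cell :=
  ⟨-257285720899584,2199023255552,202310139510784,8796093022208,⟨0,-65695819759616,-123174427557888⟩,⟨0,52145197940736,-193089415151616⟩,0,1,1,13107,1,(-164926744166400,0),⟨0,5710033321984,13875253973938400,[[3128593429222679]]⟩,[11022447602368,-297210666,-42167135064,-1603760089,-13296229812,-62787444566],3,[⟨[225179981291840,278807566748,-48473105186,-2575431683,4962653561,18825278931],⟨0,129071990177792,668956903604002,[[1810836174841518,-47617080313128,-83734145416936,1251537211296,4465446057698,5377956847261],[3019357114345125,-102536600416550,-169987399029060,3224624024211,10521526390613,11591370588916],[1390757256855482,-71136853859639,-103890592867092,2375746883245,7059937615700,6883249690258],[115697833570414,-15549652789612,-13824060044762],[-15843571205868,174147595619,2834169815044,-399683411353,-991133133046,-648169855807]]⟩,-59625,[⟨-36242,2,(-12094627905536,0),4⟩,⟨-12859,2,(-149533581377536,0),32⟩],12769,[⟨35700,2,(-183618441838592,0),32⟩,⟨58632,3,(-467292441804800,0),1⟩],2,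0,[],0,[]⟩,⟨[281474976566054,432807143672,-77346565587,-4069933193,7764619233,29145992066],⟨2,164589875888128,481367168455629,[[1949420767030658]]⟩,-118526,[⟨-87666,3,(68169720922112,0),4⟩,⟨-56805,3,(131941395333120,0),4⟩],55915,[⟨90419,4,(-481586092965888,0),3⟩,⟨124923,4,(-440904162738176,0),3⟩,⟨159427,4,(-445302209249280,0),3⟩,⟨193931,5,(-466192930177024,0),3⟩,⟨228435,5,(-490382185988096,0),3⟩,⟨262939,5,(-513471930171392,0),3⟩,⟨297443,5,(-531064116215808,0),3⟩,⟨314695,6,(-539860209238016,0),3⟩,⟨331948,6,(-545357767376896,0),3⟩],5,29570,[⟨43434,3,(0,0),34⟩,⟨57298,3,(0,0),34⟩,⟨85026,4,(0,0),34⟩,⟨140482,5,(0,0),34⟩],227755,[⟨279502,4,(0,0),34⟩,⟨331250,4,(0,0),34⟩]⟩]⟩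
def d_m60416_m59392_45056_49152_0 : sl d_m60416_m59392_45056_49152 0 4 := by decide +kernel
def d_m60416_m59392_45056_49152_4 : sl d_m60416_m59392_45056_49152 4 9 := by decide +kernel
def d_m60416_m59392_45056_49152_9 : sl d_m60416_m59392_45056_49152 9 13 := by decide +kernel
def d_m60416_m59392_45056_49152_13 : sl d_m60416_m59392_45056_49152 13 17 := by decide +kernel
def d_m60416_m59392_45056_49152_17 : sl d_m60416_m59392_45056_49152 17 22 := by decide +kernel
def d_m60416_m59392_45056_49152_22 : sl d_m60416_m59392_45056_49152 22 25 := by decide +kernel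
def d_m60416_m59392_45056_49152_25 : sl d_m60416_m59392_45056_49152 25 27 := by decide +kernel
def d_m60416_m59392_45056_49152_27 : sl d_m60416_m59392_45056_49152 27 29 := by decide +kernel
def d_m60416_m59392_45056_49152_29 : fr d_m60416_m59392_45056_49152 29 := by decide +kernel
theorem f_m60416_m59392_45056_49152 : fr d_m60416_m59392_45056_49152 0 :=
  (d_m60416_m59392_45056_49152_0.fr (d_m60416_m59392_45056_49152_4.fr (d_m60416_m59392_45056_49152_9.fr (d_m60416_m59392_45056_49152_13.fr (d_m60416_m59392_45056_49152_17.fr (d_m60416_m59392_45056_49152_22.fr (d_m60416_m59392_45056_49152_25.fr (d_m60416_m59392_45056_49152_27.fr d_m60416_m59392_45056_49152_29))))))))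

noncomputable def d_m59392_m58368_45056_49152 : Cell :=
  ⟨-252887674388480,2199023255552,202310139510784,8796093022208,⟨0,-65695819759616,-123174427557888⟩,⟨0,52145197940736,-193089415151616⟩,0,1,1,13107,1,(-169324790677504,0),⟨0,5722702151680,13844537119472820,[[3163702155264436]]⟩,[10972505221982,-5120951168,-64509482476,0,-9685945861,-43222203041],3,[⟨[225179981290389,262009159606,-77176702997,-2532638084,4835352675,18787892531],⟨0,129001593569280,669070133391163,[[1718995311673422,-42879348110227,-75210019736368,1106741618182,3952431734289,4872715148529],[2825245077958362,-90260824315570,-149341621938141,2869512712331,9129356893780,10260983835469],[1258451493414759,-59898307439748,-87285031016244,2124540864456,5996445825093,5881486826244],[86764336709160,-11266820964561,-9235613323426],[-15987402905843,771573855027,2968983053975,-358225241832,-808522110119,-461617589598],[0,0,0,0,0,10493856772]]⟩,-59836,[⟨-36355,2,(-14293651161088,0),4⟩,⟨-12873,2,(-151732604633088,0),32⟩],12725,[⟨35506,2,(-189115999977472,0),32⟩,⟨58287,3,(-474989023199232,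0),1⟩],2,0,[],0,[]⟩,⟨[281474976562514,405829218893,-121942045903,-3986322471,7519852256,29075793827],⟨2,164563044925440,481445652266819,[[1959263767815260]]⟩,-117173,[⟨-87088,3,(68169720922112,0),4⟩,⟨-57002,3,(130841883705344,0),4⟩],55608,[⟨88347,4,(-493680720871424,0),3⟩,⟨121087,4,(-454098302271488,0),3⟩,⟨153827,4,(-456297325527040,0),3⟩,⟨186567,5,(-473889511571456,0),3⟩,⟨219306,5,(-495879744126976,0),3⟩,⟨252046,5,(-515670953426944,0),3⟩,⟨284786,5,(-531064116215808,0),3⟩,⟨317526,6,(-543158744121344,0),3⟩],5,29232,[⟨43138,3,(0,0),34⟩,⟨57044,3,(0,0),34⟩,⟨84857,4,(0,0),34⟩,⟨140482,5,(0,0),34⟩],217860,[⟨259498,4,(0,0),34⟩,⟨301136,4,(0,0),34⟩]⟩]⟩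
def d_m59392_m58368_45056_49152_0 : sl d_m59392_m58368_45056_49152 0 4 := by decide +kernel
def d_m59392_m58368_45056_49152_4 : sl d_m59392_m58368_45056_49152 4 9 := by decide +kernel
def d_m59392_m58368_45056_49152_9 : sl d_m59392_m58368_45056_49152 9 13 := by decide +kernel
def d_m59392_m58368_45056_49152_13 : sl d_m59392_m58368_45056_49152 13 17 := by decide +kernel
def d_m59392_m58368_45056_49152_17 : sl d_m59392_m58368_45056_49152 17 22 := by decide +kernel
def d_m59392_m58368_45056_49152_22 : sl d_m59392_m58368_45056_49152 22 24 := by decide +kernel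
def d_m59392_m58368_45056_49152_24 : sl d_m59392_m58368_45056_49152 24 26 := by decide +kernel
def d_m59392_m58368_45056_49152_26 : sl d_m59392_m58368_45056_49152 26 28 := by decide +kernel
def d_m59392_m58368_45056_49152_28 : fr d_m59392_m58368_45056_49152 28 := by decide +kernel
theorem f_m59392_m58368_45056_49152 : fr d_m59392_m58368_45056_49152 0 :=
  (d_m59392_m58368_45056_49152_0.fr (d_m59392_m58368_45056_49152_4.fr (d_m59392_m58368_45056_49152_9.fr (d_m59392_m58368_45056_49152_13.fr (d_m59392_m58368_45056_49152_17.fr (d_m59392_m58368_45056_49152_22.fr (d_m59392_m58368_45056_49152_24.fr (d_m59392_m58368_45056_49152_26.fr d_m59392_m58368_45056_49152_28))))))))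

noncomputable def d_m58368_m57344_45056_49152 : Cell :=
  ⟨-248489627877376,2199023255552,202310139510784,8796093022208,⟨0,-65695819759616,-123174427557888⟩,⟨0,52145197940736,-193089415151616⟩,0,1,1,13107,1,(-173722837188608,0),⟨0,5735370981376,13813955965730318,[[3206333927089782]]⟩,[11033509273208,-5223587534,-83778737831,-154758910,-9515240885,-13858469382],3,[⟨[225179981289099,245694933164,-105631969673,-2493295372,4721151440,18760408009],⟨0,128991923994624,669508227237870,[[1637477990324897,-38757835276553,-67736891623739,967071004281,3548601564303,4474088054304],[2653793806131185,-79863366419462,-131587292077467,2498489523927,8183847409064,9432380813017],[1145708606443492,-51408772112960,-74061583860654,2201147589672,5328859496817,5302668531340],[66318575968074,-9316375597810,-7036117822972,666825242006,248991135786,0],[-13553873774411,514619483750,2019760184023],[663280304850,0,-221482927315,0,434569858945,324385993505]]⟩,-60050,[⟨-36500,2,(-16492674416640,0),4⟩,⟨-12950,2,(-155031139516416,0),32⟩],12752,[⟨35352,2,(-194613558116352,0),32⟩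,⟨57953,3,(-482685604593664,0),1⟩],2,0,[],0,[]⟩,⟨[281474976559413,379799145007,-166062652646,-3909988734,7301786962,29024745544],⟨2,164540473802752,481511695376507,[[1968613471701923]]⟩,-115743,[⟨-86473,3,(69269232549888,0),4⟩,⟨-57203,3,(129742372077568,0),4⟩],55309,[⟨86502,4,(-504675837149184,0),3⟩,⟨117695,4,(-465093418549248,0),3⟩,⟨148888,4,(-465093418549248,0),3⟩,⟨180081,5,(-480486581338112,0),3⟩,⟨211274,5,(-500277790638080,0),3⟩,⟨242467,5,(-517869976682496,0),3⟩,⟨273660,5,(-532163627843584,0),3⟩,⟨304853,6,(-543158744121344,0),3⟩],5,28875,[⟨42825,3,(0,0),34⟩,⟨56776,3,(0,0),34⟩,⟨84678,4,(0,0),34⟩,⟨140482,5,(0,0),34⟩],209165,[⟨255150,4,(0,0),34⟩,⟨301136,4,(0,0),34⟩]⟩]⟩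
def d_m58368_m57344_45056_49152_0 : sl d_m58368_m57344_45056_49152 0 4 := by decide +kernel
def d_m58368_m57344_45056_49152_4 : sl d_m58368_m57344_45056_49152 4 9 := by decide +kernel
def d_m58368_m57344_45056_49152_9 : sl d_m58368_m57344_45056_49152 9 13 := by decide +kernel
def d_m58368_m57344_45056_49152_13 : sl d_m58368_m57344_45056_49152 13 17 := by decide +kernel
def d_m58368_m57344_45056_49152_17 : sl d_m58368_m57344_45056_49152 17 22 := by decide +kernel
def d_m58368_m57344_45056_49152_22 : sl d_m58368_m57344_45056_49152 22 24 := by decide +kernel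
def d_m58368_m57344_45056_49152_24 : sl d_m58368_m57344_45056_49152 24 26 := by decide +kernel
def d_m58368_m57344_45056_49152_26 : sl d_m58368_m57344_45056_49152 26 28 := by decide +kernel
def d_m58368_m57344_45056_49152_28 : fr d_m58368_m57344_45056_49152 28 := by decide +kernel
theorem f_m58368_m57344_45056_49152 : fr d_m58368_m57344_45056_49152 0 :=
  (d_m58368_m57344_45056_49152_0.fr (d_m58368_m57344_45056_49152_4.fr (d_m58368_m57344_45056_49152_9.fr (d_m58368_m57344_45056_49152_13.fr (d_m58368_m57344_45056_49152_17.fr (d_m58368_m57344_45056_49152_22.fr (d_m58368_m57344_45056_49152_24.fr (d_m58368_m57344_45056_49152_26.fr d_m58368_m57344_45056_49152_28))))))))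

noncomputable def d_m57344_m55296_36864_38912 : Cell :=
  ⟨-241892558110720,4398046511104,162727720910848,4398046511104,⟨0,4232926493409280,0⟩,⟨0,-27139898343424,-703907340746752⟩,0,1,1,13107,1,(-180319906955264,0),⟨0,5831586742272,13586038627412575,[[52184889345301437]]⟩,[10959164125565,24060191023,45618126001,0,112980756,106728015],3,[⟨[225179981481432,580817109030,178418938191,-10383820618,5682548939,4797362968],⟨0,125803589861376,688285644820441,[[18411643024006662,-733542773954158,-386354380875184,29625349894606,29792941170006,10281329598411],[29137718274317654,-1507883186521506,-770291150673083,74732611040297,71884656959497,22904916624721],[10558568086277562,-921591589662597,-428882411596523,54406051507563,50711426865567,14186710776924],[-753396290825320,-97032456566862,-10126037090221,0,2646861714243,0],[-80518622622524,41898994384130,30500588657549,-9260377102724,-5902730302481,-1532538223751],[30126190083201]]⟩,-55369,[⟨-34002,2,(-21990232555520,0),4⟩,⟨-12634,1,(-161628209283072,0),32⟩],13053,[⟨37534,2,(-204509162766336,0),32⟩,⟨62015,3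,(-494780232499200,0),1⟩],2,0,[],0,[]⟩,⟨[281474976944977,898998886687,274292047797,-16417935380,9123933572,7454318661],⟨2,162556200353792,487389360269767,[[23856404522171471,-9208489747499,0],[-15972208253256497]]⟩,-208277,[⟨-130950,4,(19791209299968,0),4⟩,⟨-92287,3,(54975581388800,0),4⟩,⟨-53623,3,(123145302310912,0),4⟩],59865,[⟨96416,4,(-502476813893632,0),1⟩,⟨132967,4,(-477188046454784,0),1⟩,⟨169518,4,(-487083651104768,0),1⟩,⟨206069,5,(-506874860404736,0),3⟩,⟨242620,5,(-525566558076928,0),3⟩,⟨279171,5,(-539860209238016,0),3⟩,⟨315722,5,(-548656302260224,0),3⟩,⟨333998,6,(-553054348771328,0),3⟩,⟨352274,6,(-555253372026880,0),3⟩],4,84441,[⟨127212,4,(0,0),34⟩,⟨169984,4,(0,0),34⟩],197755,[⟨273760,4,(0,0),34⟩]⟩]⟩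
def d_m57344_m55296_36864_38912_0 : sl d_m57344_m55296_36864_38912 0 4 := by decide +kernel
def d_m57344_m55296_36864_38912_4 : sl d_m57344_m55296_36864_38912 4 9 := by decide +kernel
def d_m57344_m55296_36864_38912_9 : sl d_m57344_m55296_36864_38912 9 13 := by decide +kernel
def d_m57344_m55296_36864_38912_13 : sl d_m57344_m55296_36864_38912 13 17 := by decide +kernel
def d_m57344_m55296_36864_38912_17 : sl d_m57344_m55296_36864_38912 17 22 := by decide +kernel
def d_m57344_m55296_36864_38912_22 : sl d_m57344_m55296_36864_38912 22 24 := by decide +kernel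
def d_m57344_m55296_36864_38912_24 : sl d_m57344_m55296_36864_38912 24 26 := by decide +kernel
def d_m57344_m55296_36864_38912_26 : sl d_m57344_m55296_36864_38912 26 27 := by decide +kernel
def d_m57344_m55296_36864_38912_27 : fr d_m57344_m55296_36864_38912 27 := by decide +kernel
theorem f_m57344_m55296_36864_38912 : fr d_m57344_m55296_36864_38912 0 :=
  (d_m57344_m55296_36864_38912_0.fr (d_m57344_m55296_36864_38912_4.fr (d_m57344_m55296_36864_38912_9.fr (d_m57344_m55296_36864_38912_13.fr (d_m57344_m55296_36864_38912_17.fr (d_m57344_m55296_36864_38912_22.fr (d_m57344_m55296_36864_38912_24.fr (d_m57344_m55296_36864_38912_26.fr d_m57344_m55296_36864_38912_27))))))))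

noncomputable def d_m57344_m55296_38912_40960 : Cell :=
  ⟨-241892558110720,4398046511104,171523813933056,4398046511104,⟨0,3639976193425408,-84442496368640⟩,⟨0,-14568529068032,-384074564763648⟩,0,1,1,13107,1,(-180319906955264,0),⟨0,5782999662592,13700184525224407,[[20928566313838909]]⟩,[11050645060023,24287288546,46047178026,0,114117816,107799611],3,[⟨[225179981473243,548962507947,122013206221,-10222305778,5378683263,4722659002],⟨0,125773171982336,688992127986478,[[10766147922034757,-429736022249273,-219341834683305,17852817226473,17691292662559,6044849247337],[16058099588422764,-839755582619610,-413173536158662,44064743758341,40593986327651,13398673468546],[5518667718647030,-485902039208490,-214554119422550,31589664938964,26309779203145,8390478012246],[-204715625525391,-51661166762724,-5587653977145],[-42424837078059,17491257319497,10814305252724,-5336834012762,-3347275339190,-1015177405506],[7326424847939,0,-860782028075]]⟩,-56298,[⟨-34517,2,(-20890720927744,0),4⟩,⟨-12736,1,(-161628209283072,0),32⟩],13053,[⟨36934,2,(-204509162766336,0),32⟩,⟨6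0815,3,(-494780232499200,0),1⟩],2,0,[],0,[]⟩,⟨[281474976925146,848637323849,187034188059,-16108364706,8545232949,7313742749],⟨2,162512433512448,487520621132821,[[9528697341896383]]⟩,-176848,[⟨-115676,3,(28587302322176,0),4⟩,⟨-54503,3,(93458488360960,0),4⟩],58749,[⟨92561,4,(-506874860404736,0),1⟩,⟨126373,4,(-477188046454784,0),1⟩,⟨160185,4,(-483785116221440,0),3⟩,⟨193997,5,(-501377302265856,0),3⟩,⟨227809,5,(-518969488310272,0),3⟩,⟨261621,5,(-534362651099136,0),3⟩,⟨278527,5,(-542059232493568,0),3⟩,⟨295433,5,(-546457279004672,0),3⟩,⟨312339,5,(-549755813888000,0),3⟩,⟨320792,6,(-551954837143552,0),3⟩,⟨329245,4,(0,0),34⟩],4,66183,[⟨118083,4,(0,0),34⟩,⟨169984,4,(0,0),34⟩],195096,[⟨234428,4,(0,0),34⟩,⟨273760,4,(0,0),34⟩]⟩]⟩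
def d_m57344_m55296_38912_40960_0 : sl d_m57344_m55296_38912_40960 0 4 := by decide +kernel
def d_m57344_m55296_38912_40960_4 : sl d_m57344_m55296_38912_40960 4 9 := by decide +kernel
def d_m57344_m55296_38912_40960_9 : sl d_m57344_m55296_38912_40960 9 13 := by decide +kernel
def d_m57344_m55296_38912_40960_13 : sl d_m57344_m55296_38912_40960 13 17 := by decide +kernel
def d_m57344_m55296_38912_40960_17 : sl d_m57344_m55296_38912_40960 17 21 := by decide +kernel
def d_m57344_m55296_38912_40960_21 : sl d_m57344_m55296_38912_40960 21 25 := by decide +kernel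
def d_m57344_m55296_38912_40960_25 : sl d_m57344_m55296_38912_40960 25 27 := by decide +kernel
def d_m57344_m55296_38912_40960_27 : sl d_m57344_m55296_38912_40960 27 29 := by decide +kernel
def d_m57344_m55296_38912_40960_29 : fr d_m57344_m55296_38912_40960 29 := by decide +kernel
theorem f_m57344_m55296_38912_40960 : fr d_m57344_m55296_38912_40960 0 :=
  (d_m57344_m55296_38912_40960_0.fr (d_m57344_m55296_38912_40960_4.fr (d_m57344_m55296_38912_40960_9.fr (d_m57344_m55296_38912_40960_13.fr (d_m57344_m55296_38912_40960_17.fr (d_m57344_m55296_38912_40960_21.fr (d_m57344_m55296_38912_40960_25.fr (d_m57344_m55296_38912_40960_27.fr d_m57344_m55296_38912_40960_29))))))))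

noncomputable def d_m55296_m53248_36864_38912 : Cell :=
  ⟨-233096465088512,4398046511104,162727720910848,4398046511104,⟨0,4503599627370496,-84442496368640⟩,⟨0,57591216472064,-424966528958464⟩,0,1,1,13107,1,(-189115999977472,0),⟨0,5808520953856,13639989050764462,[[27015139859890938]]⟩,[11007187924546,24060191023,45844087513,0,112980756,107293585],3,[⟨[225179981469393,513693241381,149192902298,-10039549843,5340493058,4732620255],⟨0,125721899499520,689050598026338,[[13696105485697433,-511018966669186,-270806077945757,19936702572644,20452558696796,7394981409127],[19988145758627730,-967035332964104,-498055582100826,48176164732598,45926022249194,16214122799833],[6448032570551902,-525617803346931,-245003918849391,35453821790852,27977686906460,9650486116462],[-404481635545574,-39912591009333,0,5185735783520,0,0],[-43995573888212,19392464306571,10504149421505],[9858878059516,-1416410296004,-2660580410336,1995271289837,2434740486349,802256022379]]⟩,-55730,[⟨-34208,2,(-26388279066624,0),4⟩,⟨-12685,1,(-168225279049728,0),32⟩],13053,[⟨37153,2,(-21550427904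4096,0),32⟩,⟨61253,3,(-507974372032512,0),1⟩],2,0,[],0,[]⟩,⟨[281474976915302,791525163794,228749749570,-15750177403,8465298992,7331545300],⟨2,162494892802048,487573247108465,[[15656632656606265,0,-239689401624887],[4885479646221101,1342118459702731,-855389541151004],[-4394288444145968,-2272129260487276,0],[0],[0],[-2976262277415265,-4126208058792538,0]]⟩,-204958,[⟨-129467,4,(19791209299968,0),4⟩,⟨-91722,3,(53876069761024,0),4⟩,⟨-53976,3,(119846767427584,0),4⟩],59169,[⟨76217,3,(-540959720865792,0),1⟩,⟨93266,4,(-509073883660288,0),1⟩,⟨127363,4,(-493680720871424,0),1⟩,⟨161460,4,(-500277790638080,0),1⟩,⟨195558,5,(-514571441799168,0),3⟩,⟨229655,5,(-529964604588032,0),3⟩,⟨263753,5,(-540959720865792,0),3⟩,⟨280801,5,(-547556790632448,0),3⟩,⟨297850,5,(-550855325515776,0),3⟩,⟨314899,5,(-553054348771328,0),3⟩,⟨331948,6,(-555253372026880,0),3⟩],4,83095,[⟨126539,4,(0,0),34⟩,⟨169984,4,(0,0),34⟩],186345,[⟨217609,4,(0,0),34⟩,⟨248873,4,(0,0),34⟩]⟩]⟩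
def d_m55296_m53248_36864_38912_0 : sl d_m55296_m53248_36864_38912 0 4 := by decide +kernel
def d_m55296_m53248_36864_38912_4 : sl d_m55296_m53248_36864_38912 4 9 := by decide +kernel
def d_m55296_m53248_36864_38912_9 : sl d_m55296_m53248_36864_38912 9 13 := by decide +kernel
def d_m55296_m53248_36864_38912_13 : sl d_m55296_m53248_36864_38912 13 17 := by decide +kernel
def d_m55296_m53248_36864_38912_17 : sl d_m55296_m53248_36864_38912 17 21 := by decide +kernel
def d_m55296_m53248_36864_38912_21 : sl d_m55296_m53248_36864_38912 21 26 := by decide +kernel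
def d_m55296_m53248_36864_38912_26 : sl d_m55296_m53248_36864_38912 26 28 := by decide +kernel
def d_m55296_m53248_36864_38912_28 : sl d_m55296_m53248_36864_38912 28 30 := by decide +kernel
def d_m55296_m53248_36864_38912_30 : fr d_m55296_m53248_36864_38912 30 := by decide +kernel
theorem f_m55296_m53248_36864_38912 : fr d_m55296_m53248_36864_38912 0 :=
  (d_m55296_m53248_36864_38912_0.fr (d_m55296_m53248_36864_38912_4.fr (d_m55296_m53248_36864_38912_9.fr (d_m55296_m53248_36864_38912_13.fr (d_m55296_m53248_36864_38912_17.fr (d_m55296_m53248_36864_38912_21.fr (d_m55296_m53248_36864_38912_26.fr (d_m55296_m53248_36864_38912_28.fr d_m55296_m53248_36864_38912_30))))))))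

noncomputable def d_m55296_m53248_38912_40960 : Cell :=
  ⟨-233096465088512,4398046511104,171523813933056,4398046511104,⟨0,594496488210432,-184920370577408⟩,⟨0,-18936510808064,-307895300259840⟩,0,1,1,13107,1,(-189115999977472,0),⟨0,5760148832256,13754533869132888,[[7427405754297359]]⟩,[11099122142070,24287288546,46275413658,0,114117816,108371110],3,[⟨[225179981462841,483579589745,93230525073,-9903257702,5082096917,4673239573],⟨0,125691298840576,689764279631938,[[3528381088726972,-144443021162205,-73180575011711,6314588905357,6221711173022,2169489806899],[5764611686849847,-295867393758869,-143972317171451,15720370649938,14490555594509,4824527705895],[2493151225257460,-187547275147700,-81805320862877,12986579704978,10656808344720,3385379210811],[110276347068090,-31420949652982,-7354817847681,3564130321769,2333214980409,722765599252],[-37627294525315,1607658935691,1427962649922],[4643069256085,-1164257927597,-1237459760606,0,33548382908,0]]⟩,-56675,[⟨-34732,2,(-26388279066624,0),4⟩,⟨-12788,1,(-168225279049728,0),32⟩],13054,[⟨36573,2,(-215504279044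096,0),32⟩,⟨60093,3,(-506874860404736,0),1⟩],2,0,[],0,[]⟩,⟨[281474976899763,744477458071,142322868548,-15492381990,7977777600,7220516456],⟨2,162451101057024,487704681592890,[[4006763172074275]]⟩,-173529,[⟨-114199,3,(28587302322176,0),4⟩,⟨-84534,3,(67070209294336,0),4⟩,⟨-54869,3,(129742372077568,0),4⟩],58090,[⟨89443,4,(-526666069704704,0),1⟩,⟨120797,4,(-494780232499200,0),1⟩,⟨152150,4,(-496979255754752,0),3⟩,⟨183504,5,(-510173395288064,0),3⟩,⟨214857,5,(-524467046449152,0),3⟩,⟨246211,5,(-536561674354688,0),3⟩,⟨277565,5,(-545357767376896,0),3⟩,⟨308919,5,(-551954837143552,0),3⟩],4,64941,[⟨117462,4,(0,0),34⟩,⟨169984,4,(0,0),34⟩],183051,[⟨248873,4,(0,0),34⟩]⟩]⟩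
def d_m55296_m53248_38912_40960_0 : sl d_m55296_m53248_38912_40960 0 4 := by decide +kernel
def d_m55296_m53248_38912_40960_4 : sl d_m55296_m53248_38912_40960 4 9 := by decide +kernel
def d_m55296_m53248_38912_40960_9 : sl d_m55296_m53248_38912_40960 9 13 := by decide +kernel
def d_m55296_m53248_38912_40960_13 : sl d_m55296_m53248_38912_40960 13 17 := by decide +kernel
def d_m55296_m53248_38912_40960_17 : sl d_m55296_m53248_38912_40960 17 22 := by decide +kernel
def d_m55296_m53248_38912_40960_22 : sl d_m55296_m53248_38912_40960 22 23 := by decide +kernel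
def d_m55296_m53248_38912_40960_23 : sl d_m55296_m53248_38912_40960 23 25 := by decide +kernel
def d_m55296_m53248_38912_40960_25 : sl d_m55296_m53248_38912_40960 25 26 := by decide +kernel
def d_m55296_m53248_38912_40960_26 : fr d_m55296_m53248_38912_40960 26 := by decide +kernel
theorem f_m55296_m53248_38912_40960 : fr d_m55296_m53248_38912_40960 0 :=
  (d_m55296_m53248_38912_40960_0.fr (d_m55296_m53248_38912_40960_4.fr (d_m55296_m53248_38912_40960_9.fr (d_m55296_m53248_38912_40960_13.fr (d_m55296_m53248_38912_40960_17.fr (d_m55296_m53248_38912_40960_22.fr (d_m55296_m53248_38912_40960_23.fr (d_m55296_m53248_38912_40960_25.fr d_m55296_m53248_38912_40960_26))))))))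

noncomputable def d_m53248_m51200_36864_38912 : Cell :=
  ⟨-224300372066304,4398046511104,162727720910848,4398046511104,⟨0,-12592844111872,-252332616974336⟩,⟨0,1198102602055680,-301176578899968⟩,0,1,1,13107,1,(-197912092999680,0),⟨0,5785455230976,13694369658746534,[[8479246802275617]]⟩,[11055211723527,24060191023,46070049024,0,112980756,107859156],3,[⟨[225179981459780,450272632110,120575467075,-9748433356,5055091095,4678893467],⟨0,125646510227456,689775627023822,[[4546371939353687,-173290120023470,-91751267600825,7169140724440,7350520356853,2713350275516],[7195674096298104,-341822525723958,-175593023254626,17275405163215,16663525641654,5892855328461],[2977238590993179,-204147985536328,-95317415109705,13540491689045,10404470818943,3874751974299],[118937141351992,-27067142444140,-5358776257517,3411342156952,244340322599,683249337726],[-51306047547681,5771974249652,4414218675532],[5439071659928,0,-264453155685,0,820412795792,0]]⟩,-56104,[⟨-34420,2,(-31885837205504,0),4⟩,⟨-12736,1,(-174822348816384,0),32⟩],13053,[⟨36795,2,(-226499395321856,0),32⟩,⟨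60538,3,(-520068999938048,0),1⟩],2,0,[],0,[]⟩,⟨[281474976892151,691201801547,184362395182,-15192903593,7922773615,7230443531],⟨2,162438000279552,487744015342876,[[5187661410330455,-609313479541,0],[-230961978587288]]⟩,-201185,[⟨-127762,3,(18691697672192,0),4⟩,⟨-91051,3,(52776558133248,0),4⟩,⟨-54339,3,(116548232544256,0),4⟩],58514,[⟨90418,4,(-538760697610240,0),1⟩,⟨122323,4,(-509073883660288,0),1⟩,⟨154228,4,(-511272906915840,0),1⟩,⟨186133,5,(-522268023193600,0),3⟩,⟨218038,5,(-533263139471360,0),3⟩,⟨249943,5,(-543158744121344,0),3⟩,⟨281848,5,(-549755813888000,0),3⟩,⟨313753,5,(-555253372026880,0),3⟩],4,81565,[⟨125774,4,(0,0),34⟩,⟨169984,4,(0,0),34⟩],176131,[⟨212502,4,(0,0),34⟩,⟨248873,4,(0,0),34⟩]⟩]⟩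
def d_m53248_m51200_36864_38912_0 : sl d_m53248_m51200_36864_38912 0 4 := by decide +kernel
def d_m53248_m51200_36864_38912_4 : sl d_m53248_m51200_36864_38912 4 9 := by decide +kernel
def d_m53248_m51200_36864_38912_9 : sl d_m53248_m51200_36864_38912 9 13 := by decide +kernel
def d_m53248_m51200_36864_38912_13 : sl d_m53248_m51200_36864_38912 13 17 := by decide +kernel
def d_m53248_m51200_36864_38912_17 : sl d_m53248_m51200_36864_38912 17 22 := by decide +kernel
def d_m53248_m51200_36864_38912_22 : sl d_m53248_m51200_36864_38912 22 23 := by decide +kernel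
def d_m53248_m51200_36864_38912_23 : sl d_m53248_m51200_36864_38912 23 25 := by decide +kernel
def d_m53248_m51200_36864_38912_25 : sl d_m53248_m51200_36864_38912 25 27 := by decide +kernel
def d_m53248_m51200_36864_38912_27 : fr d_m53248_m51200_36864_38912 27 := by decide +kernel
theorem f_m53248_m51200_36864_38912 : fr d_m53248_m51200_36864_38912 0 :=
  (d_m53248_m51200_36864_38912_0.fr (d_m53248_m51200_36864_38912_4.fr (d_m53248_m51200_36864_38912_9.fr (d_m53248_m51200_36864_38912_13.fr (d_m53248_m51200_36864_38912_17.fr (d_m53248_m51200_36864_38912_22.fr (d_m53248_m51200_36864_38912_23.fr (d_m53248_m51200_36864_38912_25.fr d_m53248_m51200_36864_38912_27))))))))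

noncomputable def d_m53248_m51200_38912_40960 : Cell :=
  ⟨-224300372066304,4398046511104,171523813933056,4398046511104,⟨0,-65803193942016,-124193878310912⟩,⟨0,51157355462656,-189985697300480⟩,0,1,1,13107,1,(-197912092999680,0),⟨0,5737298067456,13809316143843190,[[2769962806354234]]⟩,[11147599224117,24287288546,46503649290,0,114117816,108942609],3,[⟨[225179981454574,421600062730,64981414135,-9634013373,4837401555,4634110409],⟨0,125623693017088,690458645411029,[[1405928655820007,-58856503540856,-29643652416055,2722220598411,2682926903189,987677008675],[2180647523844652,-112094372066605,-53880729707680,6190610657311,5677472744721,1984436403742],[848400792294457,-61075493807262,-25746869468933,4295221199989,3218320808863,1041921976282],[13544799152786,-4826860026447,0,748889967402,0,0],[-10409285416368,1715300113164,701658539750],[1731349987586,-360916215369,-325137778614,66332876234,212304263004,39911076860]]⟩,-57066,[⟨-34954,2,(-31885837205504,0),4⟩,⟨-12841,2,(-174822348816384,0),32⟩],13054,[⟨36235,2,(-225399883694080,0),32⟩,⟨59416,3,(-520068999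938048,0),1⟩],2,0,[],0,[]⟩,⟨[281474976880019,646854493769,98620284427,-14978839937,7515170606,7147281837],⟨2,162396052783104,487870001405312,[[1216094472457922]]⟩,-169756,[⟨-112502,3,(28587302322176,0),4⟩,⟨-83875,3,(65970697666560,0),4⟩,⟨-55247,3,(126443837194240,0),4⟩],57468,[⟨86625,4,(-544258255749120,0),1⟩,⟨115782,4,(-511272906915840,0),1⟩,⟨144939,4,(-509073883660288,0),3⟩,⟨174096,5,(-517869976682496,0),3⟩,⟨203253,5,(-528865092960256,0),3⟩,⟨232410,5,(-538760697610240,0),3⟩,⟨261567,5,(-546457279004672,0),3⟩,⟨290724,5,(-551954837143552,0),3⟩],4,63529,[⟨116756,4,(0,0),34⟩,⟨169984,4,(0,0),34⟩],172270,[⟨248873,4,(0,0),34⟩]⟩]⟩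
def d_m53248_m51200_38912_40960_0 : sl d_m53248_m51200_38912_40960 0 4 := by decide +kernel
def d_m53248_m51200_38912_40960_4 : sl d_m53248_m51200_38912_40960 4 9 := by decide +kernel
def d_m53248_m51200_38912_40960_9 : sl d_m53248_m51200_38912_40960 9 13 := by decide +kernel
def d_m53248_m51200_38912_40960_13 : sl d_m53248_m51200_38912_40960 13 17 := by decide +kernel
def d_m53248_m51200_38912_40960_17 : sl d_m53248_m51200_38912_40960 17 22 := by decide +kernel
def d_m53248_m51200_38912_40960_22 : sl d_m53248_m51200_38912_40960 22 23 := by decide +kernel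
def d_m53248_m51200_38912_40960_23 : sl d_m53248_m51200_38912_40960 23 25 := by decide +kernel
def d_m53248_m51200_38912_40960_25 : sl d_m53248_m51200_38912_40960 25 26 := by decide +kernel
def d_m53248_m51200_38912_40960_26 : fr d_m53248_m51200_38912_40960 26 := by decide +kernel
theorem f_m53248_m51200_38912_40960 : fr d_m53248_m51200_38912_40960 0 :=
  (d_m53248_m51200_38912_40960_0.fr (d_m53248_m51200_38912_40960_4.fr (d_m53248_m51200_38912_40960_9.fr (d_m53248_m51200_38912_40960_13.fr (d_m53248_m51200_38912_40960_17.fr (d_m53248_m51200_38912_40960_22.fr (d_m53248_m51200_38912_40960_23.fr (d_m53248_m51200_38912_40960_25.fr d_m53248_m51200_38912_40960_26))))))))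

noncomputable def d_m51200_m49152_36864_38912 : Cell :=
  ⟨-215504279044096,4398046511104,162727720910848,4398046511104,⟨0,80835579478016,-238839993991168⟩,⟨0,-63720134803456,-279457986248704⟩,0,1,1,13107,1,(-206708186021888,0),⟨0,5762389508096,13749185617200681,[[5751564364925065]]⟩,[11103235522507,24060191023,46296010536,0,112980756,108424727],3,[⟨[225179981452117,389919816884,92469997065,-9503465119,4819107596,4635346454],⟨0,125578943266816,690461511091004,[[2289052098848350,-85883492128695,-45542724283196,3652106569265,3779951918984,1439578702076],[3988237740443964,-176790468849554,-91161419879931,8906681416366,8599696988676,3256644811505],[1912029090767610,-110613835707573,-52357851159515,7004176300350,5445967697733,1996739351523],[116156411619836,-15155317854421,-3368252302926,1692198527362,205624047863,0],[-38123020628622,3512795297188,2651967020444],[4734755070847,0,-177154189987,45592244823,408871726929,173812436455]]⟩,-56490,[⟨-34639,2,(-37383395344384,0),4⟩,⟨-12788,1,(-181419418583040,0),32⟩],13054,[⟨36459,2,(-236394999971840,0),32⟩,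⟨59865,3,(-532163627843584,0),1⟩],2,0,[],0,[]⟩,⟨[281474976874053,596710043920,140937413359,-14729084304,7479015470,7149053030],⟨2,162383651995648,487907258718420,[[3018456044765694,-2108262214398,0],[-607842239044261]]⟩,-196851,[⟨-125782,3,(18691697672192,0),4⟩,⟨-90247,3,(51677046505472,0),4⟩,⟨-54712,3,(113249697660928,0),4⟩],57896,[⟨87752,4,(-555253372026880,0),1⟩,⟨117608,4,(-523367534821376,0),1⟩,⟨147464,4,(-521168511565824,0),1⟩,⟨177321,5,(-527765581332480,0),1⟩,⟨207177,5,(-536561674354688,0),3⟩,⟨237033,5,(-545357767376896,0),3⟩,⟨266889,5,(-550855325515776,0),3⟩,⟨296746,5,(-555253372026880,0),3⟩],4,79808,[⟨124896,4,(0,0),34⟩,⟨169984,4,(0,0),34⟩],166583,[⟨226248,4,(0,0),34⟩]⟩]⟩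
def d_m51200_m49152_36864_38912_0 : sl d_m51200_m49152_36864_38912 0 4 := by decide +kernel
def d_m51200_m49152_36864_38912_4 : sl d_m51200_m49152_36864_38912 4 9 := by decide +kernel
def d_m51200_m49152_36864_38912_9 : sl d_m51200_m49152_36864_38912 9 13 := by decide +kernel
def d_m51200_m49152_36864_38912_13 : sl d_m51200_m49152_36864_38912 13 17 := by decide +kernel
def d_m51200_m49152_36864_38912_17 : sl d_m51200_m49152_36864_38912 17 22 := by decide +kernel
def d_m51200_m49152_36864_38912_22 : sl d_m51200_m49152_36864_38912 22 23 := by decide +kernel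
def d_m51200_m49152_36864_38912_23 : sl d_m51200_m49152_36864_38912 23 25 := by decide +kernel
def d_m51200_m49152_36864_38912_25 : sl d_m51200_m49152_36864_38912 25 26 := by decide +kernel
def d_m51200_m49152_36864_38912_26 : fr d_m51200_m49152_36864_38912 26 := by decide +kernel
theorem f_m51200_m49152_36864_38912 : fr d_m51200_m49152_36864_38912 0 :=
  (d_m51200_m49152_36864_38912_0.fr (d_m51200_m49152_36864_38912_4.fr (d_m51200_m49152_36864_38912_9.fr (d_m51200_m49152_36864_38912_13.fr (d_m51200_m49152_36864_38912_17.fr (d_m51200_m49152_36864_38912_22.fr (d_m51200_m49152_36864_38912_23.fr (d_m51200_m49152_36864_38912_25.fr d_m51200_m49152_36864_38912_26))))))))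

noncomputable def d_m51200_m49152_38912_40960 : Cell :=
  ⟨-215504279044096,4398046511104,171523813933056,4398046511104,⟨0,-65695819759616,-123174427557888⟩,⟨0,52145197940736,-193089415151616⟩,0,1,1,13107,1,(-206708186021888,0),⟨0,5714447237120,13864536542938705,[[2924148272788133]]⟩,[11191350833684,24170016027,46614612403,-176827842,-80930033,-67313735],3,[⟨[225179981448040,362435332319,37175702255,-9408308155,4638381883,4604580633],⟨0,125560603934720,691082210016567,[[1307981984072080,-49399605438079,-24965394966862,2215693750116,2218889900494,844663996814],[1995974238303454,-90564448097014,-43981953741227,4791482778785,4535960889790,1617096089515],[748945048153996,-45936528485810,-19857004661117,3008053777908,2484211825157,816917198090],[5607643374025,-2483609335756,324149576984,364026724774,64014198590,39997835226],[-7153823839744,824363019629,519731296365],[1686063144066,-560223024149,-179749569565,58473690702,91597131940,0]]⟩,-57470,[⟨-35180,2,(-37383395344384,0),4⟩,⟨-12890,2,(-181419418583040,0),32⟩],13051,[⟨35914,2,(-236394999971840,0),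32⟩,⟨58778,3,(-531064116215808,0),1⟩],2,0,[],0,[]⟩,⟨[281474976864695,554560436836,55748774549,-14552652304,7142680119,7092434201],⟨2,162346905436160,488017694588657,[[1220721356247225]]⟩,-165421,[⟨-110529,3,(28587302322176,0),4⟩,⟨-83083,3,(64871186038784,0),4⟩,⟨-55636,3,(122045790683136,0),4⟩],56879,[⟨83983,4,(-560750930165760,0),1⟩,⟨111088,4,(-525566558076928,0),1⟩,⟨138193,4,(-520068999938048,0),3⟩,⟨165298,5,(-525566558076928,0),3⟩,⟨192402,5,(-533263139471360,0),3⟩,⟨219507,5,(-540959720865792,0),3⟩,⟨246612,5,(-547556790632448,0),3⟩,⟨273717,5,(-551954837143552,0),3⟩],4,61906,[⟨108218,4,(0,0),34⟩,⟨154530,4,(0,0),34⟩],162192,[⟨226248,4,(0,0),34⟩]⟩]⟩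
def d_m51200_m49152_38912_40960_0 : sl d_m51200_m49152_38912_40960 0 4 := by decide +kernel
def d_m51200_m49152_38912_40960_4 : sl d_m51200_m49152_38912_40960 4 9 := by decide +kernel
def d_m51200_m49152_38912_40960_9 : sl d_m51200_m49152_38912_40960 9 13 := by decide +kernel
def d_m51200_m49152_38912_40960_13 : sl d_m51200_m49152_38912_40960 13 17 := by decide +kernel
def d_m51200_m49152_38912_40960_17 : sl d_m51200_m49152_38912_40960 17 22 := by decide +kernel
def d_m51200_m49152_38912_40960_22 : sl d_m51200_m49152_38912_40960 22 23 := by decide +kernel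
def d_m51200_m49152_38912_40960_23 : sl d_m51200_m49152_38912_40960 23 25 := by decide +kernel
def d_m51200_m49152_38912_40960_25 : sl d_m51200_m49152_38912_40960 25 26 := by decide +kernel
def d_m51200_m49152_38912_40960_26 : fr d_m51200_m49152_38912_40960 26 := by decide +kernel
theorem f_m51200_m49152_38912_40960 : fr d_m51200_m49152_38912_40960 0 :=
  (d_m51200_m49152_38912_40960_0.fr (d_m51200_m49152_38912_40960_4.fr (d_m51200_m49152_38912_40960_9.fr (d_m51200_m49152_38912_40960_13.fr (d_m51200_m49152_38912_40960_17.fr (d_m51200_m49152_38912_40960_22.fr (d_m51200_m49152_38912_40960_23.fr (d_m51200_m49152_38912_40960_25.fr d_m51200_m49152_38912_40960_26))))))))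

noncomputable def d_m57344_m55296_40960_45056 : Cell :=
  ⟨-241892558110720,4398046511104,184717953466368,8796093022208,⟨0,-75703093559296,-173124544888832⟩,⟨0,60859686584320,-228884343685120⟩,0,1,1,13107,1,(-180319906955264,0),⟨0,5734866944000,13815170171973811,[[4561974748260938]]⟩,[10899831412595,12861844683,73410707040,0,-19345698690,-29700837129],3,[⟨[225179981487753,502884370340,75879107670,-10006137164,9974282991,18657016745],⟨0,130454869049344,660394231934961,[[2117936303624312,-100094472215369,-94490238616447,4937022916573,9032870422727,6061169334788],[3661356030632846,-215208133943849,-192875426265072,12627323922373,20880739679934,12888197072323],[1756240808065907,-145283780275521,-114982256268665,9237332247371,13647351960145,7431437520707],[128311769595345,-26006620828653,-9559845265369],[-34515318265400,3196879649921,6055317109429,-1535677099961,-1773946613285,-583147887418]]⟩,-58346,[⟨-35504,2,(-20890720927744,0),4⟩,⟨-12661,2,(-160528697655296,0),32⟩],12839,[⟨36280,2,(-203409651138560,0),32⟩,⟨59721,3,(-493680720871424,0),1⟩],2,0,[]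,0,[]⟩,⟨[281474976954264,776273946307,114258618888,-15696216989,15606072723,28819860053],⟨2,165452682625024,478856923066876,[[2567747197012838]]⟩,-152748,[⟨-104069,3,(39582418599936,0),4⟩,⟨-55390,3,(105553116266496,0),4⟩],56654,[⟨88791,4,(-513471930171392,0),1⟩,⟨120928,4,(-478287558082560,0),3⟩,⟨153065,4,(-481586092965888,0),3⟩,⟨185203,5,(-496979255754752,0),3⟩,⟨217340,5,(-514571441799168,0),3⟩,⟨249478,5,(-529964604588032,0),3⟩,⟨265546,5,(-538760697610240,0),3⟩,⟨281615,5,(-543158744121344,0),3⟩,⟨297684,5,(-547556790632448,0),3⟩,⟨305718,5,(-549755813888000,0),3⟩,⟨313753,4,(0,0),34⟩],4,47636,[⟨74359,3,(0,0),34⟩,⟨101083,4,(0,0),34⟩,⟨154530,4,(0,0),34⟩],195701,[⟨234730,4,(0,0),34⟩,⟨273760,4,(0,0),34⟩]⟩]⟩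
def d_m57344_m55296_40960_45056_0 : sl d_m57344_m55296_40960_45056 0 4 := by decide +kernel
def d_m57344_m55296_40960_45056_4 : sl d_m57344_m55296_40960_45056 4 9 := by decide +kernel
def d_m57344_m55296_40960_45056_9 : sl d_m57344_m55296_40960_45056 9 13 := by decide +kernel
def d_m57344_m55296_40960_45056_13 : sl d_m57344_m55296_40960_45056 13 17 := by decide +kernel
def d_m57344_m55296_40960_45056_17 : sl d_m57344_m55296_40960_45056 17 21 := by decide +kernel
def d_m57344_m55296_40960_45056_21 : sl d_m57344_m55296_40960_45056 21 26 := by decide +kernel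
def d_m57344_m55296_40960_45056_26 : sl d_m57344_m55296_40960_45056 26 28 := by decide +kernel
def d_m57344_m55296_40960_45056_28 : sl d_m57344_m55296_40960_45056 28 30 := by decide +kernel
def d_m57344_m55296_40960_45056_30 : fr d_m57344_m55296_40960_45056 30 := by decide +kernel
theorem f_m57344_m55296_40960_45056 : fr d_m57344_m55296_40960_45056 0 :=
  (d_m57344_m55296_40960_45056_0.fr (d_m57344_m55296_40960_45056_4.fr (d_m57344_m55296_40960_45056_9.fr (d_m57344_m55296_40960_45056_13.fr (d_m57344_m55296_40960_45056_17.fr (d_m57344_m55296_40960_45056_21.fr (d_m57344_m55296_40960_45056_26.fr (d_m57344_m55296_40960_45056_28.fr d_m57344_m55296_40960_45056_30))))))))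

noncomputable def d_m55296_m53248_40960_45056 : Cell :=
  ⟨-233096465088512,4398046511104,184717953466368,8796093022208,⟨0,-65695819759616,-123174427557888⟩,⟨0,52145197940736,-193089415151616⟩,0,1,1,13107,1,(-189115999977472,0),⟨0,5712228909056,13869920763016334,[[3403149549736304]]⟩,[11038833445185,1958802302,27079012011,-1303363602,-27505979890,-63136830771],3,[⟨[225179981470801,439818221426,19340258717,-9721727123,9505842218,18546612770],⟨0,130403066576896,661507466961644,[[1545794110277367,-67679232383594,-63792977050562,3182464494337,6247184094181,4265695338602],[2449976295352941,-133228647609972,-118937471976192,7776935655052,13524401790081,8267487872576],[993547815656812,-77491372331252,-59619882646728,6279699295372,7848634594226,4121096451709],[27820113564927,-9510675249019,-588808691465,1674934174305,0,98690064600],[-11885674887306,634392195110,2261485620119],[2305606945524,-881348520990,-699971735608,0,547560962912,0]]⟩,-58755,[⟨-35766,2,(-25288767438848,0),4⟩,⟨-12776,2,(-167125767421952,0),32⟩],12834,[⟨35937,2,(-214404767416320,0),32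⟩,⟨59040,3,(-506874860404736,0),1⟩],2,0,[],0,[]⟩,⟨[281474976913875,676496884260,26752359442,-15150367182,14717591036,28613594419],⟨2,165384384413696,479054674982955,[[1609647445062848]]⟩,-149429,[⟨-102602,3,(39582418599936,0),4⟩,⟨-55775,3,(103354093010944,0),4⟩],56055,[⟨85726,4,(-533263139471360,0),1⟩,⟨115398,4,(-496979255754752,0),3⟩,⟨145069,4,(-495879744126976,0),3⟩,⟨174741,5,(-506874860404736,0),3⟩,⟨204412,5,(-520068999938048,0),3⟩,⟨234084,5,(-532163627843584,0),3⟩,⟨263755,5,(-542059232493568,0),3⟩,⟨293427,5,(-548656302260224,0),3⟩],4,46601,[⟨73583,3,(0,0),34⟩,⟨100565,4,(0,0),34⟩,⟨154530,4,(0,0),34⟩],183023,[⟨228391,4,(0,0),34⟩,⟨273760,4,(0,0),34⟩]⟩]⟩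
def d_m55296_m53248_40960_45056_0 : sl d_m55296_m53248_40960_45056 0 4 := by decide +kernel
def d_m55296_m53248_40960_45056_4 : sl d_m55296_m53248_40960_45056 4 9 := by decide +kernel
def d_m55296_m53248_40960_45056_9 : sl d_m55296_m53248_40960_45056 9 13 := by decide +kernel
def d_m55296_m53248_40960_45056_13 : sl d_m55296_m53248_40960_45056 13 17 := by decide +kernel
def d_m55296_m53248_40960_45056_17 : sl d_m55296_m53248_40960_45056 17 22 := by decide +kernel
def d_m55296_m53248_40960_45056_22 : sl d_m55296_m53248_40960_45056 22 23 := by decide +kernel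
def d_m55296_m53248_40960_45056_23 : sl d_m55296_m53248_40960_45056 23 25 := by decide +kernel
def d_m55296_m53248_40960_45056_25 : sl d_m55296_m53248_40960_45056 25 27 := by decide +kernel
def d_m55296_m53248_40960_45056_27 : fr d_m55296_m53248_40960_45056 27 := by decide +kernel
theorem f_m55296_m53248_40960_45056 : fr d_m55296_m53248_40960_45056 0 :=
  (d_m55296_m53248_40960_45056_0.fr (d_m55296_m53248_40960_45056_4.fr (d_m55296_m53248_40960_45056_9.fr (d_m55296_m53248_40960_45056_13.fr (d_m55296_m53248_40960_45056_17.fr (d_m55296_m53248_40960_45056_22.fr (d_m55296_m53248_40960_45056_23.fr (d_m55296_m53248_40960_45056_25.fr d_m55296_m53248_40960_45056_27))))))))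

noncomputable def d_m57344_m55296_45056_49152 : Cell :=
  ⟨-241892558110720,4398046511104,202310139510784,8796093022208,⟨0,-65695819759616,-123174427557888⟩,⟨0,52145197940736,-193089415151616⟩,0,1,1,13107,1,(-180319906955264,0),⟨0,5760708706304,13753197179248685,[[3589062124033833]]⟩,[11141950069118,-22012809819,-92951273409,0,205501183,435475540],3,[⟨[225179981465320,444086651784,-147909934308,-9761096844,9145403542,18736858923],⟨0,130373543591936,662214880129668,[[1558367393534856,-68550467026310,-59495169153111,3244643518879,6251013417202,4092713834081],[2486275854808226,-137298890336715,-112357782634308,8052891192491,13844585976736,8033096355076],[1032856185728214,-83514609454914,-59587065186674,6618963717458,8624428823856,4120274245950],[44151304929953,-12630250476268,-3444405621883,1800367392418,523796967258,156104855027],[-11432703691169,530283230560,2112096246228],[1508104175529,-683798203219,-261387276667,0,484607191451,0]]⟩,-60534,[⟨-36794,2,(-19791209299968,0),4⟩,⟨-13053,2,(-160528697655296,0),32⟩],12785,[⟨35200,2,(-203409651138560,0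),32⟩,⟨57616,3,(-492581209243648,0),1⟩],2,0,[],0,[]⟩,⟨[281474976901759,684685406416,-231473409220,-15231660635,14041069624,28982080453],⟨2,165345213218816,479168165597070,[[1986522494752085]]⟩,-114227,[⟨-85799,3,(68169720922112,0),4⟩,⟨-57370,3,(127543348822016,0),4⟩],54754,[⟨84588,4,(-520068999938048,0),3⟩,⟨114422,4,(-480486581338112,0),3⟩,⟨144256,4,(-479387069710336,0),3⟩,⟨174090,5,(-491481697615872,0),3⟩,⟨203924,5,(-507974372032512,0),3⟩,⟨233758,5,(-523367534821376,0),3⟩,⟨263592,5,(-535462162726912,0),3⟩,⟨278509,5,(-542059232493568,0),3⟩,⟨293427,5,(-546457279004672,0),3⟩],5,28497,[⟨42495,3,(0,0),34⟩,⟨56493,3,(0,0),34⟩,⟨84489,4,(0,0),34⟩,⟨140482,5,(0,0),34⟩],201325,[⟨251230,4,(0,0),34⟩,⟨301136,4,(0,0),34⟩]⟩]⟩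
def d_m57344_m55296_45056_49152_0 : sl d_m57344_m55296_45056_49152 0 4 := by decide +kernel
def d_m57344_m55296_45056_49152_4 : sl d_m57344_m55296_45056_49152 4 9 := by decide +kernel
def d_m57344_m55296_45056_49152_9 : sl d_m57344_m55296_45056_49152 9 13 := by decide +kernel
def d_m57344_m55296_45056_49152_13 : sl d_m57344_m55296_45056_49152 13 17 := by decide +kernel
def d_m57344_m55296_45056_49152_17 : sl d_m57344_m55296_45056_49152 17 22 := by decide +kernel
def d_m57344_m55296_45056_49152_22 : sl d_m57344_m55296_45056_49152 22 25 := by decide +kernel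
def d_m57344_m55296_45056_49152_25 : sl d_m57344_m55296_45056_49152 25 27 := by decide +kernel
def d_m57344_m55296_45056_49152_27 : sl d_m57344_m55296_45056_49152 27 29 := by decide +kernel
def d_m57344_m55296_45056_49152_29 : fr d_m57344_m55296_45056_49152 29 := by decide +kernel
theorem f_m57344_m55296_45056_49152 : fr d_m57344_m55296_45056_49152 0 :=
  (d_m57344_m55296_45056_49152_0.fr (d_m57344_m55296_45056_49152_4.fr (d_m57344_m55296_45056_49152_9.fr (d_m57344_m55296_45056_49152_13.fr (d_m57344_m55296_45056_49152_17.fr (d_m57344_m55296_45056_49152_22.fr (d_m57344_m55296_45056_49152_25.fr (d_m57344_m55296_45056_49152_27.fr d_m57344_m55296_45056_49152_29))))))))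

noncomputable def d_m55296_m53248_45056_49152 : Cell :=
  ⟨-233096465088512,4398046511104,202310139510784,8796093022208,⟨0,-65695819759616,-123174427557888⟩,⟨0,52145197940736,-193089415151616⟩,0,1,1,13107,1,(-189115999977472,0),⟨0,5786046365696,13692970530573219,[[3700712031811527]]⟩,[11098013751568,-22012809819,-92540271044,0,205501183,433426276],3,[⟨[225179981454120,383633132930,-203606613121,-9518010345,8826457613,18737826450],⟨0,130238186782720,662742611636872,[[1431789070450959,-56448730559011,-48305423735945,2565977763274,5053029907078,3495781377381],[2239079926869355,-108646166351572,-87772095037003,6143531238613,10710346907316,6740401956550],[888157959558234,-61654642576884,-43503430602744,4606769739111,6137521666894,3264550257764],[24836200246193,-7240767905253,-1625961493579,928196091243,0,0],[-8925154623388,1120712764093,1289785040507,-89692463161,-230851289802,0],[1248070681536,-215904729508,-259264030494,0,227034569549,0]]⟩,-60985,[⟨-37019,2,(-25288767438848,0),4⟩,⟨-13053,2,(-167125767421952,0),32⟩],12734,[⟨34867,2,(-21440476741632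0,0),32⟩,⟨57001,3,(-505775348776960,0),1⟩],2,0,[],0,[]⟩,⟨[281474976875466,589817687101,-317414154011,-14768014823,13442591887,28986734633],⟨2,165284228235264,479344964548669,[[2001921881671686]]⟩,-110908,[⟨-57790,3,(92358976733184,0),4⟩],54209,[⟨81570,4,(-539860209238016,0),3⟩,⟨108931,4,(-499178279010304,0),3⟩,⟨136292,4,(-494780232499200,0),3⟩,⟨163654,5,(-502476813893632,0),3⟩,⟨191015,5,(-514571441799168,0),3⟩,⟨218377,5,(-526666069704704,0),3⟩,⟨245738,5,(-536561674354688,0),3⟩,⟨273100,5,(-544258255749120,0),3⟩],5,27669,[⟨41770,3,(0,0),34⟩,⟨55872,3,(0,0),34⟩,⟨84075,4,(0,0),34⟩,⟨140482,5,(0,0),34⟩],187378,[⟨230569,4,(0,0),34⟩,⟨273760,4,(0,0),34⟩]⟩]⟩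
def d_m55296_m53248_45056_49152_0 : sl d_m55296_m53248_45056_49152 0 4 := by decide +kernel
def d_m55296_m53248_45056_49152_4 : sl d_m55296_m53248_45056_49152 4 9 := by decide +kernel
def d_m55296_m53248_45056_49152_9 : sl d_m55296_m53248_45056_49152 9 13 := by decide +kernel
def d_m55296_m53248_45056_49152_13 : sl d_m55296_m53248_45056_49152 13 17 := by decide +kernel
def d_m55296_m53248_45056_49152_17 : sl d_m55296_m53248_45056_49152 17 22 := by decide +kernel
def d_m55296_m53248_45056_49152_22 : sl d_m55296_m53248_45056_49152 22 23 := by decide +kernel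
def d_m55296_m53248_45056_49152_23 : sl d_m55296_m53248_45056_49152 23 25 := by decide +kernel
def d_m55296_m53248_45056_49152_25 : sl d_m55296_m53248_45056_49152 25 27 := by decide +kernel
def d_m55296_m53248_45056_49152_27 : fr d_m55296_m53248_45056_49152 27 := by decide +kernel
theorem f_m55296_m53248_45056_49152 : fr d_m55296_m53248_45056_49152 0 :=
  (d_m55296_m53248_45056_49152_0.fr (d_m55296_m53248_45056_49152_4.fr (d_m55296_m53248_45056_49152_9.fr (d_m55296_m53248_45056_49152_13.fr (d_m55296_m53248_45056_49152_17.fr (d_m55296_m53248_45056_49152_22.fr (d_m55296_m53248_45056_49152_23.fr (d_m55296_m53248_45056_49152_25.fr d_m55296_m53248_45056_49152_27))))))))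

noncomputable def d_m53248_m51200_40960_45056 : Cell :=
  ⟨-224300372066304,4398046511104,184717953466368,8796093022208,⟨0,-65695819759616,-123174427557888⟩,⟨0,52145197940736,-193089415151616⟩,0,1,1,13107,1,(-197912092999680,0),⟨0,5715034767360,13863111179091052,[[3500868761047618]]⟩,[11041006956100,-4093923,-28343538218,-1656363936,-27330762120,-62798923773],3,[⟨[225179981457708,379749682106,-36339639206,-9482799701,9129370801,18474071833],⟨0,130284370264064,662150829662636,[[1420941920827147,-56021432869401,-52514380059885,2597284057970,5036364005042,3609694837408],[2209419126175607,-106055095462324,-94557210105029,6063776013531,10474618181504,6906553413186],[858847208201310,-57060807877262,-44830008360157,4118453365948,5756199496534,3317176260485],[14101019419011,-4459365177427,0,330110482448,0,0],[-9040088092883,948094518655,1676675349575,-213166812387,0,0],[1679779892956,-740629532931,-226162645939,98183449784,294108284312,0]]⟩,-59179,[⟨-36008,2,(-30786325577728,0),4⟩,⟨-12836,2,(-173722837188608,0),32⟩],12774,[⟨35586,2,(-225399883694080,0)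,32⟩,⟨58399,3,(-518969488310272,0),1⟩],2,0,[],0,[]⟩,⟨[281474976883272,582438433519,-59136775062,-14696703322,14011207394,28479727626],⟨2,165322154311680,479234999398808,[[1619851869571833]]⟩,-145657,[⟨-100915,3,(39582418599936,0),4⟩,⟨-56172,3,(101155069755392,0),4⟩],55488,[⟨82956,4,(-550855325515776,0),1⟩,⟨110424,4,(-513471930171392,0),3⟩,⟨137892,4,(-507974372032512,0),3⟩,⟨165360,5,(-515670953426944,0),3⟩,⟨192828,5,(-525566558076928,0),3⟩,⟨220296,5,(-535462162726912,0),3⟩,⟨247764,5,(-543158744121344,0),3⟩,⟨275232,5,(-549755813888000,0),3⟩],4,45424,[⟨72700,3,(0,0),34⟩,⟨99977,4,(0,0),34⟩,⟨154530,4,(0,0),34⟩],171673,[⟨210273,4,(0,0),34⟩,⟨248873,4,(0,0),34⟩]⟩]⟩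
def d_m53248_m51200_40960_45056_0 : sl d_m53248_m51200_40960_45056 0 4 := by decide +kernel
def d_m53248_m51200_40960_45056_4 : sl d_m53248_m51200_40960_45056 4 9 := by decide +kernel
def d_m53248_m51200_40960_45056_9 : sl d_m53248_m51200_40960_45056 9 13 := by decide +kernel
def d_m53248_m51200_40960_45056_13 : sl d_m53248_m51200_40960_45056 13 17 := by decide +kernel
def d_m53248_m51200_40960_45056_17 : sl d_m53248_m51200_40960_45056 17 22 := by decide +kernel
def d_m53248_m51200_40960_45056_22 : sl d_m53248_m51200_40960_45056 22 23 := by decide +kernel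
def d_m53248_m51200_40960_45056_23 : sl d_m53248_m51200_40960_45056 23 25 := by decide +kernel
def d_m53248_m51200_40960_45056_25 : sl d_m53248_m51200_40960_45056 25 27 := by decide +kernel
def d_m53248_m51200_40960_45056_27 : fr d_m53248_m51200_40960_45056 27 := by decide +kernel
theorem f_m53248_m51200_40960_45056 : fr d_m53248_m51200_40960_45056 0 :=
  (d_m53248_m51200_40960_45056_0.fr (d_m53248_m51200_40960_45056_4.fr (d_m53248_m51200_40960_45056_9.fr (d_m53248_m51200_40960_45056_13.fr (d_m53248_m51200_40960_45056_17.fr (d_m53248_m51200_40960_45056_22.fr (d_m53248_m51200_40960_45056_23.fr (d_m53248_m51200_40960_45056_25.fr d_m53248_m51200_40960_45056_27))))))))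

noncomputable def d_m51200_m49152_40960_45056 : Cell :=
  ⟨-215504279044096,4398046511104,184717953466368,8796093022208,⟨0,-65695819759616,-123174427557888⟩,⟨0,52145197940736,-193089415151616⟩,0,1,1,13107,1,(-206708186021888,0),⟨0,5739899715584,13803056991918124,[[3491089216310035],[0,0,10062535686590]]⟩,[10910207806136,-10785336872,-74245625097,-176827842,-19154364262,-28523386381],3,[⟨[225179981447803,322149935765,-91325226892,-9284045142,8835022776,18437382419],⟨0,130107708997632,662364629635472,[[1316192158445169,-46583134701867,-43340743802642,2107827474408,4147716477125,3101092447142],[2017533250453354,-85087608248205,-75487739842712,4628773450432,8339351961833,5837927677759],[759078727042590,-43036899877064,-34011538509853,2851232142154,4442213783775,2753141659462],[6697521462514,-2273727324381,11881343154,0,28787990831,0],[-6612181092068,1108915119096,1044769689879,-321774238515,-201704031858,0],[1233698621662,-320272389306,0]]⟩,-59619,[⟨-36231,2,(-36283883716608,0),4⟩,⟨-12843,2,(-181419418583040,0),32⟩],12664,[⟨35229,2,(-23529548834406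4,0),32⟩,⟨57794,3,(-529964604588032,0),1⟩],2,0,[],0,[]⟩,⟨[281474976860483,493030217094,-143728228226,-14322595607,13463927951,28413640805],⟨2,165267819266048,479392557346982,[[1584443072218352],[-241790483540494]]⟩,-141322,[⟨-98952,3,(40681930227712,0),4⟩,⟨-56581,3,(100055558127616,0),4⟩],54949,[⟨80358,4,(-567347999932416,0),1⟩,⟨105768,4,(-528865092960256,0),3⟩,⟨131177,4,(-520068999938048,0),3⟩,⟨156587,4,(-523367534821376,0),3⟩,⟨181996,5,(-529964604588032,0),3⟩,⟨207406,5,(-537661185982464,0),3⟩,⟨232815,5,(-544258255749120,0),3⟩,⟨258225,5,(-549755813888000,0),3⟩],4,44072,[⟨71686,3,(0,0),34⟩,⟨99301,4,(0,0),34⟩,⟨154530,4,(0,0),34⟩],161065,[⟨204969,4,(0,0),34⟩,⟨248873,4,(0,0),34⟩]⟩]⟩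
def d_m51200_m49152_40960_45056_0 : sl d_m51200_m49152_40960_45056 0 4 := by decide +kernel
def d_m51200_m49152_40960_45056_4 : sl d_m51200_m49152_40960_45056 4 9 := by decide +kernel
def d_m51200_m49152_40960_45056_9 : sl d_m51200_m49152_40960_45056 9 13 := by decide +kernel
def d_m51200_m49152_40960_45056_13 : sl d_m51200_m49152_40960_45056 13 17 := by decide +kernel
def d_m51200_m49152_40960_45056_17 : sl d_m51200_m49152_40960_45056 17 22 := by decide +kernel
def d_m51200_m49152_40960_45056_22 : sl d_m51200_m49152_40960_45056 22 23 := by decide +kernel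
def d_m51200_m49152_40960_45056_23 : sl d_m51200_m49152_40960_45056 23 25 := by decide +kernel
def d_m51200_m49152_40960_45056_25 : sl d_m51200_m49152_40960_45056 25 27 := by decide +kernel
def d_m51200_m49152_40960_45056_27 : fr d_m51200_m49152_40960_45056 27 := by decide +kernel
theorem f_m51200_m49152_40960_45056 : fr d_m51200_m49152_40960_45056 0 :=
  (d_m51200_m49152_40960_45056_0.fr (d_m51200_m49152_40960_45056_4.fr (d_m51200_m49152_40960_45056_9.fr (d_m51200_m49152_40960_45056_13.fr (d_m51200_m49152_40960_45056_17.fr (d_m51200_m49152_40960_45056_22.fr (d_m51200_m49152_40960_45056_23.fr (d_m51200_m49152_40960_45056_25.fr d_m51200_m49152_40960_45056_27))))))))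

noncomputable def d_m53248_m51200_45056_49152 : Cell :=
  ⟨-224300372066304,4398046511104,202310139510784,8796093022208,⟨0,-65695819759616,-123174427557888⟩,⟨0,52145197940736,-193089415151616⟩,0,1,1,13107,1,(-197912092999680,0),⟨0,5811384090624,13633269059327457,[[3610094287891699,0,0,-80023904664827,0,0],[0,0,12890870055069,-1038384183465,0,0],[0,0,0,-47556316698,0,0],[0,0,0,-54542593624,0,0]]⟩,[11054077434017,-22012809819,-92129268678,0,205501183,431377012],3,[⟨[225179981445950,325702254102,-258699409222,-9315723164,8587523296,18773972280],⟨0,130113601798144,663197742291629,[[1327144134619214,-46837846852501,-39187929784361,2129537146336,4161014501782,2994681928916],[2042594916390623,-86779957504882,-68510159941968,4789161633791,8411009478288,5695909064710],[780566513138392,-46229755745263,-31966242671554,3273464507052,4501585822383,2723805266732],[13397286394738,-4394840913172,-955774904808,423931932784,0,0],[-6732143002941,1018238633132,721039317072,-182198812010,-221149381017,0],[1047508809353,-33806766533,-149566369746,0,9505953997,380578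2162]]⟩,-61453,[⟨-37253,2,(-29686813949952,0),4⟩,⟨-13053,2,(-173722837188608,0),32⟩],12682,[⟨34551,2,(-224300372066304,0),32⟩,⟨56421,3,(-516770465054720,0),1⟩],2,0,[],0,[]⟩,⟨[281474976856569,499728490653,-402221019850,-14385590458,12998642175,29057679731],⟨2,165227600936960,479509247061412,[[2035633898547979],[-578623630835724]]⟩,-107135,[⟨-58223,3,(92358976733184,0),4⟩],53692,[⟨78843,4,(-558551906910208,0),3⟩,⟨103995,4,(-516770465054720,0),3⟩,⟨129147,4,(-507974372032512,0),3⟩,⟨154299,4,(-512372418543616,0),3⟩,⟨179450,5,(-521168511565824,0),3⟩,⟨204602,5,(-529964604588032,0),3⟩,⟨229754,5,(-538760697610240,0),3⟩,⟨254906,5,(-545357767376896,0),3⟩],5,26728,[⟨40947,3,(0,0),34⟩,⟨55166,3,(0,0),34⟩,⟨83605,4,(0,0),34⟩,⟨140482,5,(0,0),34⟩],174895,[⟨224327,4,(0,0),34⟩,⟨273760,4,(0,0),34⟩]⟩]⟩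
def d_m53248_m51200_45056_49152_0 : sl d_m53248_m51200_45056_49152 0 4 := by decide +kernel
def d_m53248_m51200_45056_49152_4 : sl d_m53248_m51200_45056_49152 4 9 := by decide +kernel
def d_m53248_m51200_45056_49152_9 : sl d_m53248_m51200_45056_49152 9 13 := by decide +kernel
def d_m53248_m51200_45056_49152_13 : sl d_m53248_m51200_45056_49152 13 17 := by decide +kernel
def d_m53248_m51200_45056_49152_17 : sl d_m53248_m51200_45056_49152 17 22 := by decide +kernel
def d_m53248_m51200_45056_49152_22 : sl d_m53248_m51200_45056_49152 22 23 := by decide +kernel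
def d_m53248_m51200_45056_49152_23 : sl d_m53248_m51200_45056_49152 23 25 := by decide +kernel
def d_m53248_m51200_45056_49152_25 : sl d_m53248_m51200_45056_49152 25 27 := by decide +kernel
def d_m53248_m51200_45056_49152_27 : fr d_m53248_m51200_45056_49152 27 := by decide +kernel
theorem f_m53248_m51200_45056_49152 : fr d_m53248_m51200_45056_49152 0 :=
  (d_m53248_m51200_45056_49152_0.fr (d_m53248_m51200_45056_49152_4.fr (d_m53248_m51200_45056_49152_9.fr (d_m53248_m51200_45056_49152_13.fr (d_m53248_m51200_45056_49152_17.fr (d_m53248_m51200_45056_49152_22.fr (d_m53248_m51200_45056_49152_23.fr (d_m53248_m51200_45056_49152_25.fr d_m53248_m51200_45056_49152_27))))))))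

end Pool.Agent.Lib.MP_d6150d_an
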