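import Pool.Agent.Lib.MP_d6150d_an.Cells

set_option maxRecDepth 100000
set_option linter.defProp false

namespace Pool.Agent.Lib.MP_d6150d_an

noncomputable def d_m28672_m24576_57344_59392 : Cell :=
  ⟨-114349209288704,8796093022208,250688651132928,4398046511104,⟨0,1909314826534912,0⟩,⟨0,4323172346232832,0⟩,0,-1,1,13107,1,(-307863255777280,0),⟨0,6405642846208,12368495142158760,[]⟩,[10039416849308,-41825024494,-41323781681,0,194544000,96034454],3,[⟨[225179982802193,-997808935500,-830459929614,-40247751554,15543748509,7631748031],⟨0,128627770064896,666453133988813,[[10258540042404604,-213298412697611,51803387479151,148070984249,6520102232215,3011198428636],[10000090640213489,111625456487053,205681039023088,3839801166410,12825120672505,5164823722498],[0,181529306331804,101130010837656],[-359719182269229,-119068988720354,-48587644308326,-5800771580054,-8908386769276,-2769263327610],[77637103055417],[0,19816359756040,6211321843821,2184683220150,2621059073062,608657242192]]⟩,-79849,[⟨-46450,3,(-101155069755392,0),0⟩,⟨-13051,2,(-266081813921792,0),32⟩],1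1606,[⟨29445,2,(-335351046471680,0),32⟩,⟨47285,3,(-358440790654976,0),32⟩],3,0,[],0,[]⟩,⟨[281474979735600,-1520122738752,-1299289510193,-62887668715,26111572585,12992219106],⟨2,164560481484800,481453151969672,[[-6046558256761031,299786811117969,-185913105484720,0,0,-31543984800395],[3140978360219551,472356431673486,3943746345667794,88862445370663,107115947696398,74124556196176],[-16264184600538792,-785872576845580,-3184114900689523],[0],[0,-70536874901407,0,-71850496497699,-54188581806508,0],[5179829126008265]]⟩,-91750,[⟨-75306,3,(27487790694400,0),0⟩],45601,[⟨68675,4,(-641015278993408,0),3⟩,⟨91750,4,(-633318697598976,0),3⟩],6,8582,[⟨11941,2,(0,0),34⟩,⟨15301,3,(0,0),34⟩,⟨22021,3,(0,0),34⟩,⟨35461,4,(0,0),34⟩,⟨48901,5,(0,0),34⟩,⟨62341,5,(0,0),34⟩,⟨116101,6,(0,0),34⟩],80118,[⟨133550,3,(0,0),34⟩,⟨186982,3,(0,0),34⟩]⟩]⟩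
def d_m28672_m24576_57344_59392_0 : sl d_m28672_m24576_57344_59392 0 4 := by decide +kernel
def d_m28672_m24576_57344_59392_4 : sl d_m28672_m24576_57344_59392 4 9 := by decide +kernel
def d_m28672_m24576_57344_59392_9 : sl d_m28672_m24576_57344_59392 9 14 := by decide +kernel
def d_m28672_m24576_57344_59392_14 : sl d_m28672_m24576_57344_59392 14 18 := by decide +kernel
def d_m28672_m24576_57344_59392_18 : sl d_m28672_m24576_57344_59392 18 20 := by decide +kernel
def d_m28672_m24576_57344_59392_20 : sl d_m28672_m24576_57344_59392 20 22 := by decide +kernel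
def d_m28672_m24576_57344_59392_22 : sl d_m28672_m24576_57344_59392 22 24 := by decide +kernel
def d_m28672_m24576_57344_59392_24 : fr d_m28672_m24576_57344_59392 24 := by decide +kernel
theorem f_m28672_m24576_57344_59392 : fr d_m28672_m24576_57344_59392 0 :=
  (d_m28672_m24576_57344_59392_0.fr (d_m28672_m24576_57344_59392_4.fr (d_m28672_m24576_57344_59392_9.fr (d_m28672_m24576_57344_59392_14.fr (d_m28672_m24576_57344_59392_18.fr (d_m28672_m24576_57344_59392_20.fr (d_m28672_m24576_57344_59392_22.fr d_m28672_m24576_57344_59392_24)))))))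

noncomputable def d_m28672_m24576_59392_60416 : Cell :=
  ⟨-114349209288704,8796093022208,257285720899584,2199023255552,⟨0,4503599627370496,-84442496368640⟩,⟨0,4503599627370496,0⟩,0,-1,1,13107,1,(-307863255777280,0),⟨0,6432825081856,12316231431152774,[]⟩,[9977772333263,-41534076696,-20518323496,0,96548751,23830209],3,[⟨[225179982450449,-1047591929871,-442203105992,-40783481183,8201613966,2014176261],⟨0,125910280372224,682033995745154,[[22064266444745216,-515911182307687,44403145112051,0,5870191818254,1578134269769],[22671729276019110,222598526938612,215127401645600,18551479280469,12587177481910,2749807315282],[995582536565164,577796010095516,128857876238368,20917506397673,0,0],[-1096660397489254,-93291910883968,-38667748204531,-3214087393722,-9933782271777,-1532334716274],[0],[37935555795658,27184567694412,7979198615988,5759290000971,3231739783359,357901025509]]⟩,-81160,[⟨-47106,3,(-100055558127616,0),0⟩,⟨-13051,3,(-264982302294016,0),32⟩],11564,[⟨29109,2,(-335351046471680,0),32⟩,⟨46654,3,(-357341279027200,0),32⟩],3,0,[],0,[]⟩,⟨[281474978951379,-1598236334203,-693640896179,-63885398528,13897145456,3464961651],⟨2,162922305683456,486294139898343,[[-12693988947243151,-199131002654352,0],[-9802406961942225],[-2219452015562928]]⟩,-91750,[⟨-77452,3,(26388279066624,0),0⟩],45365,[⟨91750,4,(-660806488293376,0),3⟩],6,7151,[⟨10555,3,(0,0),33⟩,⟨13960,3,(0,0),34⟩,⟨20769,4,(0,0),34⟩,⟨34388,4,(0,0),34⟩,⟨61626,5,(0,0),34⟩,⟨116101,6,(0,0),34⟩],82980,[⟨147981,3,(0,0),34⟩,⟨212982,3,(0,0),34⟩]⟩]⟩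
def d_m28672_m24576_59392_60416_0 : sl d_m28672_m24576_59392_60416 0 4 := by decide +kernel
def d_m28672_m24576_59392_60416_4 : sl d_m28672_m24576_59392_60416 4 9 := by decide +kernel
def d_m28672_m24576_59392_60416_9 : sl d_m28672_m24576_59392_60416 9 14 := by decide +kernel
def d_m28672_m24576_59392_60416_14 : sl d_m28672_m24576_59392_60416 14 18 := by decide +kernel
def d_m28672_m24576_59392_60416_18 : sl d_m28672_m24576_59392_60416 18 20 := by decide +kernel
def d_m28672_m24576_59392_60416_20 : sl d_m28672_m24576_59392_60416 20 22 := by decide +kernel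
def d_m28672_m24576_59392_60416_22 : fr d_m28672_m24576_59392_60416 22 := by decide +kernel
theorem f_m28672_m24576_59392_60416 : fr d_m28672_m24576_59392_60416 0 :=
  (d_m28672_m24576_59392_60416_0.fr (d_m28672_m24576_59392_60416_4.fr (d_m28672_m24576_59392_60416_9.fr (d_m28672_m24576_59392_60416_14.fr (d_m28672_m24576_59392_60416_18.fr (d_m28672_m24576_59392_60416_20.fr d_m28672_m24576_59392_60416_22))))))

noncomputable def d_m28672_m24576_60416_61440 : Cell :=
  ⟨-114349209288704,8796093022208,261683767410688,2199023255552,⟨0,-4503599627370496,0⟩,⟨0,2224316317958144,-142247202914304⟩,0,1,1,13107,1,(-307863255777280,0),⟨0,6460136292352,12264162670709428,[]⟩,[9936912769186,-41341458282,-20423239111,0,96069883,23712072],3,[⟨[225179982489802,-1081650481435,-460688648840,-41163434398,8510857499,2091204288],⟨0,125955857907712,681530011294782,[[-9888448090661133,287014581487245,-8974351599565,2896998772226,-1590085191262,-502961815054],[-10900235766353805,-7769414338030,-86418148913614,0,-3912047959332,-845126740069],[-1373801004988086,-2627881195175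86,-74326406703726,-3388039816988,0,0],[263149547104807,0,0,1089010596909,3721836287155,369948745692],[0],[-17238856467529,-8852044851480,-1752384085120,-1649435406950,-1412122234507,-26482089339]]⟩,-82475,[⟨-47763,3,(-98956046499840,0),0⟩,⟨-13050,3,(-264982302294016,0),32⟩],11521,[⟨28946,2,(-335351046471680,0),32⟩,⟨46372,3,(-357341279027200,0),32⟩],3,0,[],0,[]⟩,⟨[281474979048291,-1651893633804,-723994891342,-64595987042,14507237423,3623797333],⟨2,162961902010368,486175980657910,[[11702262949742535,337172105905319,230076542102354,0,-17487806862393,78670732853209],[6301721125936575,-1514199111987004,0],[0,0,-580958395652255],[0],[2814926704161747],[0,1578814606775473,0]]⟩,-91750,[⟨-78627,3,(25288767438848,0),0⟩],45091,[⟨68420,4,(-641015278993408,0),3⟩,⟨91750,4,(-633318697598976,0),3⟩],6,5720,[⟨7444,2,(0,0),34⟩,⟨9169,3,(0,0),34⟩,⟨12618,3,(0,0),34⟩,⟨19517,4,(0,0),34⟩,⟨26416,4,(0,0),34⟩,⟨33315,5,(0,0),34⟩,⟨60910,5,(0,0),34⟩,⟨116101,6,(0,0),34⟩],84410,[⟨158045,3,(0,0),34⟩,⟨231680,3,(0,0),34⟩]⟩]⟩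
def d_m28672_m24576_60416_61440_0 : sl d_m28672_m24576_60416_61440 0 4 := by decide +kernel
def d_m28672_m24576_60416_61440_4 : sl d_m28672_m24576_60416_61440 4 9 := by decide +kernel
def d_m28672_m24576_60416_61440_9 : sl d_m28672_m24576_60416_61440 9 14 := by decide +kernel
def d_m28672_m24576_60416_61440_14 : sl d_m28672_m24576_60416_61440 14 18 := by decide +kernel
def d_m28672_m24576_60416_61440_18 : sl d_m28672_m24576_60416_61440 18 21 := by decide +kernel
def d_m28672_m24576_60416_61440_21 : sl d_m28672_m24576_60416_61440 21 23 := by decide +kernel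
def d_m28672_m24576_60416_61440_23 : sl d_m28672_m24576_60416_61440 23 25 := by decide +kernel
def d_m28672_m24576_60416_61440_25 : fr d_m28672_m24576_60416_61440 25 := by decide +kernel
theorem f_m28672_m24576_60416_61440 : fr d_m28672_m24576_60416_61440 0 :=
  (d_m28672_m24576_60416_61440_0.fr (d_m28672_m24576_60416_61440_4.fr (d_m28672_m24576_60416_61440_9.fr (d_m28672_m24576_60416_61440_14.fr (d_m28672_m24576_60416_61440_18.fr (d_m28672_m24576_60416_61440_21.fr (d_m28672_m24576_60416_61440_23.fr d_m28672_m24576_60416_61440_25)))))))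

noncomputable def d_m24576_m20480_49152_53248 : Cell :=
  ⟨-96757023244288,8796093022208,219902325555200,8796093022208,⟨0,3279383624155136,-84442496368640⟩,⟨0,3414357266399232,-84442496368640⟩,0,-1,1,13107,1,(-325455441821696,0),⟨0,6296862261248,12582165467452464,[]⟩,[10246597324785,-43211742314,-84578973019,0,402889882,393741789],3,[⟨[225179983823696,-1030340833501,-1324510135904,-40341085844,28693231951,26017143732],⟨0,134308491100160,636473713728265,[[14039395919326335,-367945977376475,60457976882134,-1450878349609,19366899856548,18688104286219],[14502937489304481,71400787136976,434924378375993,10526078727012,53728041582008,40627092763181],[759981597338033,354224617703919,270545888658746,15583022455937,39051814197543,23185246581806],[-588429803156696,-40697056010331,-90198582702311],[0],[10325976208339,12696082414985,13362456410575,3705978676184,4741103886394,1201200547524]]⟩,-75426,[⟨-44239,3,(-122045790683136,0),0⟩,⟨-13051,2,(-285873023221760,0),32⟩],11779,[⟨30547,2,(-351843720888320,0),32⟩,⟨49316,3,(-641015278993408,0),1⟩],2,0,[],0,[]⟩,⟨[28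1474981960987,-1573886655760,-2057706984687,-63128731057,47610670717,42940945908],⟨2,167772299395072,472236255949485,[[-3839472410300735,-125011256402371,340482755143889,0,-6705618773950,-18729592501449],[-11912664356200679,0,1681655194745859,-4406282230160,-22752802159848,0],[-15959777726636095,0,1951091221920939,0,-16240129526755,0],[-8023870813630130,6913327251058,418906832829238,0,0,-22871396400511],[-938128476147619],[0,0,239075000628352]]⟩,-102801,[⟨-69705,3,(7696581394432,0),4⟩],46725,[⟨84926,4,(-680597697593344,0),3⟩,⟨123127,4,(-608029930160128,0),3⟩],5,19234,[⟨26253,3,(0,0),34⟩,⟨33273,3,(0,0),34⟩,⟨47312,3,(0,0),34⟩,⟨61351,4,(0,0),34⟩,⟨75390,4,(0,0),34⟩,⟨131546,5,(0,0),34⟩],92158,[⟨144071,3,(0,0),34⟩,⟨195984,4,(0,0),34⟩]⟩]⟩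
def d_m24576_m20480_49152_53248_0 : sl d_m24576_m20480_49152_53248 0 4 := by decide +kernel
def d_m24576_m20480_49152_53248_4 : sl d_m24576_m20480_49152_53248 4 9 := by decide +kernel
def d_m24576_m20480_49152_53248_9 : sl d_m24576_m20480_49152_53248 9 14 := by decide +kernel
def d_m24576_m20480_49152_53248_14 : sl d_m24576_m20480_49152_53248 14 18 := by decide +kernel
def d_m24576_m20480_49152_53248_18 : sl d_m24576_m20480_49152_53248 18 19 := by decide +kernel
def d_m24576_m20480_49152_53248_19 : sl d_m24576_m20480_49152_53248 19 21 := by decide +kernel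
def d_m24576_m20480_49152_53248_21 : sl d_m24576_m20480_49152_53248 21 23 := by decide +kernel
def d_m24576_m20480_49152_53248_23 : fr d_m24576_m20480_49152_53248 23 := by decide +kernel
theorem f_m24576_m20480_49152_53248 : fr d_m24576_m20480_49152_53248 0 :=
  (d_m24576_m20480_49152_53248_0.fr (d_m24576_m20480_49152_53248_4.fr (d_m24576_m20480_49152_53248_9.fr (d_m24576_m20480_49152_53248_14.fr (d_m24576_m20480_49152_53248_18.fr (d_m24576_m20480_49152_53248_19.fr (d_m24576_m20480_49152_53248_21.fr d_m24576_m20480_49152_53248_23)))))))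

noncomputable def d_m24576_m20480_53248_55296 : Cell :=
  ⟨-96757023244288,8796093022208,233096465088512,4398046511104,⟨0,4503599627370496,-84442496368640⟩,⟨0,4503599627370496,-84442496368640⟩,0,-1,1,13107,1,(-325455441821696,0),⟨0,6350320631808,12476245989999478,[]⟩,[10120873521413,-42610999352,-41702840171,0,198455377,96976281],3,[⟨[225179982876690,-1129779128347,-761990841987,-41423665110,15893318189,7148127540],⟨0,128746396385280,666231204349532,[[22026244527085329,-610301809137190,56500080302872,-8654713563103,11454955257769,7197707999546],[23186528100658672,131270609553249,390635827318252,0,32094107030035,16883399985323],[1662391372680198,645188772794395,272476797569997,7074966137587,17471706707263,10630532711286],[-928873707808217,-19454405012097,-49729799967939,-7806350163945,-8485523640415,0],[0],[34289323113274,19203468118438,10841672433552,6417461687988,5384415594493,932274868386]]⟩,-77628,[⟨-45340,3,(-119846767427584,0),0⟩,⟨-13051,2,(-284773511593984,0),32⟩],11693,[⟨29819,2,(-351843720888320,0),32⟩,⟨47946,3,(-641015278993408,0),1⟩],3,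0,[],0,[]⟩,⟨[281474979920400,-1730310954302,-1188529177163,-65157043901,26801284874,12013475078],⟨2,164603524939776,481327253067505,[[-8243142103751215,-262175537861823,97138860703812,0,136567116348436,0],[-22976729767300325,-196666249289756,332981523800702,-4705202973404,189540192449159,-351248916265],[-19741417458344918,-41980094189347,219674999106203],[-917136517895377],[0,-35345393568907,0,0,31965205627473,0],[-3081850237978209]]⟩,-102801,[⟨-73325,3,(5497558138880,0),4⟩],46213,[⟨79981,4,(-656408441782272,0),3⟩,⟨113749,4,(-615726511554560,0),3⟩],5,16028,[⟨23907,3,(0,0),34⟩,⟨31787,3,(0,0),34⟩,⟨47546,4,(0,0),34⟩,⟨79064,4,(0,0),34⟩,⟨142101,5,(0,0),34⟩],92234,[⟨139608,3,(0,0),34⟩,⟨186982,3,(0,0),34⟩]⟩]⟩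
def d_m24576_m20480_53248_55296_0 : sl d_m24576_m20480_53248_55296 0 4 := by decide +kernel
def d_m24576_m20480_53248_55296_4 : sl d_m24576_m20480_53248_55296 4 9 := by decide +kernel
def d_m24576_m20480_53248_55296_9 : sl d_m24576_m20480_53248_55296 9 14 := by decide +kernel
def d_m24576_m20480_53248_55296_14 : sl d_m24576_m20480_53248_55296 14 18 := by decide +kernel
def d_m24576_m20480_53248_55296_18 : sl d_m24576_m20480_53248_55296 18 20 := by decide +kernel
def d_m24576_m20480_53248_55296_20 : sl d_m24576_m20480_53248_55296 20 22 := by decide +kernel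
def d_m24576_m20480_53248_55296_22 : fr d_m24576_m20480_53248_55296 22 := by decide +kernel
theorem f_m24576_m20480_53248_55296 : fr d_m24576_m20480_53248_55296 0 :=
  (d_m24576_m20480_53248_55296_0.fr (d_m24576_m20480_53248_55296_4.fr (d_m24576_m20480_53248_55296_9.fr (d_m24576_m20480_53248_55296_14.fr (d_m24576_m20480_53248_55296_18.fr (d_m24576_m20480_53248_55296_20.fr d_m24576_m20480_53248_55296_22))))))

noncomputable def d_m24576_m20480_55296_57344 : Cell :=
  ⟨-96757023244288,8796093022208,241892558110720,4398046511104,⟨0,4503599627370496,-84442496368640⟩,⟨0,4503599627370496,-84442496368640⟩,0,-1,1,13107,1,(-325455441821696,0),⟨0,6404287168512,12371113407924494,[]⟩,[10038020803512,-42216056244,-41316857386,0,196489537,96016551],3,[⟨[225179983020294,-1199518577695,-831609904476,-42236831687,17087312510,7654844614],⟨0,128886808576000,664998444703131,[[22198478156692924,-582495650173148,85758524577743,-10651999007681,9694547170060,6573164362207],[24094641500265338,227279277961027,459483722343235,0,23803028726403,12144626098930],[22699976304420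83,739102191161639,313246236785633,12024765334091,0,0],[-1025155317172503,0,-53546790971269,-5010839659226,-22120397213179,-8015987835760],[0],[59062391946490,24844283476026,15644381300431,6625794575560,8086895538393,2443842834385]]⟩,-79988,[⟨-46520,3,(-118747255799808,0),0⟩,⟨-13051,2,(-284773511593984,0),32⟩],11606,[⟨29476,2,(-351843720888320,0),32⟩,⟨47346,3,(-372734441816064,0),32⟩],3,0,[],0,[]⟩,⟨[281474980281357,-1840902465297,-1301159040887,-66692923998,29144361272,13035082538],⟨2,164702120181760,481039117347169,[[-7186642359055600,-39169303758277,366403872797780],[-18368081674083132,0,896972840120567,0,0,-854709251831],[-14444548544499211,-224196930492316,504034393386119],[0],[0],[-2081871533745925,-58618949259667,0]]⟩,-102801,[⟨-75383,3,(4398046511104,0),0⟩],45639,[⟨77807,4,(-656408441782272,0),3⟩,⟨109976,4,(-620124558065664,0),3⟩],5,12822,[⟨19276,3,(0,0),34⟩,⟨25731,3,(0,0),34⟩,⟨38641,4,(0,0),34⟩,⟨64461,5,(0,0),34⟩,⟨116101,5,(0,0),34⟩],92604,[⟨152793,3,(0,0),34⟩,⟨212982,3,(0,0),34⟩]⟩]⟩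
def d_m24576_m20480_55296_57344_0 : sl d_m24576_m20480_55296_57344 0 4 := by decide +kernel
def d_m24576_m20480_55296_57344_4 : sl d_m24576_m20480_55296_57344 4 9 := by decide +kernel
def d_m24576_m20480_55296_57344_9 : sl d_m24576_m20480_55296_57344 9 14 := by decide +kernel
def d_m24576_m20480_55296_57344_14 : sl d_m24576_m20480_55296_57344 14 18 := by decide +kernel
def d_m24576_m20480_55296_57344_18 : sl d_m24576_m20480_55296_57344 18 20 := by decide +kernel
def d_m24576_m20480_55296_57344_20 : sl d_m24576_m20480_55296_57344 20 22 := by decide +kernel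
def d_m24576_m20480_55296_57344_22 : fr d_m24576_m20480_55296_57344 22 := by decide +kernel
theorem f_m24576_m20480_55296_57344 : fr d_m24576_m20480_55296_57344 0 :=
  (d_m24576_m20480_55296_57344_0.fr (d_m24576_m20480_55296_57344_4.fr (d_m24576_m20480_55296_57344_9.fr (d_m24576_m20480_55296_57344_14.fr (d_m24576_m20480_55296_57344_18.fr (d_m24576_m20480_55296_57344_20.fr d_m24576_m20480_55296_57344_22))))))

noncomputable def d_m20480_m16384_49152_53248 : Cell :=
  ⟨-79164837199872,8796093022208,219902325555200,8796093022208,⟨0,3590064378478592,-84442496368640⟩,⟨0,3570638241398784,-84442496368640⟩,0,-1,1,13107,1,(-343047627866112,0),⟨0,6348502335488,12479819415256998,[]⟩,[10160349137338,-43211742314,-83773193256,0,402889882,389727571],3,[⟨[225179984546051,-1307798963436,-1461876198667,-43332898248,33811725404,27850118486],⟨0,134868415479808,633214239094510,[[14895082817961952,-445896719769067,107325394173965,-13842266928899,11189345404608,19496695307560],[16445664700204029,101463921328850,644142472124898,-6024827408780,31018940510830,370397853291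09],[1799927525998660,498281438586946,492934195953023,13506121347681,0,0],[-626841000764882,-8649348041314,-26269093404926,0,-32450420930632,-26399995266664],[0],[30451430780297,23889175073368,12802744534457,5930227078189,12753156367302,8861764126380]]⟩,-77867,[⟨-45459,3,(-140737488355328,0),4⟩,⟨-13051,2,(-304564720893952,0),32⟩],11691,[⟨30228,2,(-367236883677184,0),32⟩,⟨48766,3,(-654209418526720,0),1⟩],2,0,[],0,[]⟩,⟨[281474983796590,-2017621761683,-2278583393470,-68881658386,57654985112,46581074759],⟨2,168060837036032,471425490432556,[[-5907152097344575,-401351704431430,501884448941650,0,-12197816593826,-80419999669747],[-16279497358449953,-442140488286487,1962828615820303,-8865646987400,-7802678985657,-115223638256125],[-17271696937769247,0,1725175231242203],[-5492250061930134],[0],[0,194806592651274,364135762929665]]⟩,-136278,[⟨-103975,3,(-28587302322176,0),4⟩,⟨-71672,3,(-13194139533312,0),4⟩],46182,[⟨68706,4,(-664105023176704,0),3⟩,⟨91230,4,(-652010395271168,0),3⟩,⟨136278,5,(-604731395276800,0),3⟩],5,25499,[⟨35504,3,(0,0),33⟩,⟨45510,3,(0,0),34⟩,⟨65522,4,(0,0),33⟩,⟨85534,4,(0,0),34⟩,⟨105546,5,(0,0),34⟩],102002,[⟨144492,3,(0,0),34⟩,⟨186982,3,(0,0),34⟩]⟩]⟩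
def d_m20480_m16384_49152_53248_0 : sl d_m20480_m16384_49152_53248 0 4 := by decide +kernel
def d_m20480_m16384_49152_53248_4 : sl d_m20480_m16384_49152_53248 4 9 := by decide +kernel
def d_m20480_m16384_49152_53248_9 : sl d_m20480_m16384_49152_53248 9 13 := by decide +kernel
def d_m20480_m16384_49152_53248_13 : sl d_m20480_m16384_49152_53248 13 18 := by decide +kernel
def d_m20480_m16384_49152_53248_18 : sl d_m20480_m16384_49152_53248 18 20 := by decide +kernel
def d_m20480_m16384_49152_53248_20 : sl d_m20480_m16384_49152_53248 20 22 := by decide +kernel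
def d_m20480_m16384_49152_53248_22 : sl d_m20480_m16384_49152_53248 22 24 := by decide +kernel
def d_m20480_m16384_49152_53248_24 : fr d_m20480_m16384_49152_53248 24 := by decide +kernel
theorem f_m20480_m16384_49152_53248 : fr d_m20480_m16384_49152_53248 0 :=
  (d_m20480_m16384_49152_53248_0.fr (d_m20480_m16384_49152_53248_4.fr (d_m20480_m16384_49152_53248_9.fr (d_m20480_m16384_49152_53248_13.fr (d_m20480_m16384_49152_53248_18.fr (d_m20480_m16384_49152_53248_20.fr (d_m20480_m16384_49152_53248_22.fr d_m20480_m16384_49152_53248_24)))))))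

noncomputable def d_m20480_m16384_53248_55296 : Cell :=
  ⟨-79164837199872,8796093022208,233096465088512,4398046511104,⟨0,4503599627370496,-84442496368640⟩,⟨0,4503599627370496,-84442496368640⟩,0,-1,1,13107,1,(-343047627866112,0),⟨0,6402450391040,12374662423802665,[]⟩,[10035822564676,-42610999352,-41305929416,0,198455377,95988250],3,[⟨[225179983323144,-1421828870245,-834957426806,-44813733558,18936058585,7706847936],⟨0,129199157805056,663250706231791,[[20864945470800189,-676083439663867,85843585499637,-26999734078068,2079694098928,5949362729020],[23670175113763242,106986421886257,509234017990209,-25009608622476,10194591363257,11096557136277],[3218672249915643,724803302654342,413195874059537,8584845687830,0,0],[-854105602030867,0,0,0,-12841236810997,-7069428336861],[0],[74400491631476,38205274363275,12601758202744,6923914239389,4818813323334,1913589906607]]⟩,-80293,[⟨-46672,3,(-138538465099776,0),0⟩,⟨-13051,3,(-304564720893952,0),32⟩],11606,[⟨29517,2,(-367236883677184,0),32⟩,⟨47428,3,(-653109906898944,0),1⟩],3,0,[],0,[]⟩,⟨[281474981070616,-22016709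49670,-1307399752800,-71740712399,32865159478,13144442668],⟨2,164872994750464,480540567762625,[[-9500370281058922,-437412160628822,32336470040524,0,70856923787253,0],[-23663844544872680,-624216032161982,87490324148841,-5812477411677,84619036155351,-576966968732],[-17813378545185985,-248988390445848,0],[0],[0,-106148059224081,0],[-2129676385246295]]⟩,-136278,[⟨-105931,3,(-28587302322176,0),4⟩,⟨-75584,3,(-15393162788864,0),4⟩],45688,[⟨86294,4,(-689393790615552,0),3⟩,⟨126900,4,(-611328465043456,0),3⟩],5,21248,[⟨31785,3,(0,0),34⟩,⟨42322,4,(0,0),34⟩,⟨63397,4,(0,0),34⟩,⟨105546,5,(0,0),34⟩],102898,[⟨144940,3,(0,0),34⟩,⟨186982,3,(0,0),34⟩]⟩]⟩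
def d_m20480_m16384_53248_55296_0 : sl d_m20480_m16384_53248_55296 0 4 := by decide +kernel
def d_m20480_m16384_53248_55296_4 : sl d_m20480_m16384_53248_55296 4 9 := by decide +kernel
def d_m20480_m16384_53248_55296_9 : sl d_m20480_m16384_53248_55296 9 14 := by decide +kernel
def d_m20480_m16384_53248_55296_14 : sl d_m20480_m16384_53248_55296 14 18 := by decide +kernel
def d_m20480_m16384_53248_55296_18 : sl d_m20480_m16384_53248_55296 18 20 := by decide +kernel
def d_m20480_m16384_53248_55296_20 : sl d_m20480_m16384_53248_55296 20 22 := by decide +kernel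
def d_m20480_m16384_53248_55296_22 : fr d_m20480_m16384_53248_55296 22 := by decide +kernel
theorem f_m20480_m16384_53248_55296 : fr d_m20480_m16384_53248_55296 0 :=
  (d_m20480_m16384_53248_55296_0.fr (d_m20480_m16384_53248_55296_4.fr (d_m20480_m16384_53248_55296_9.fr (d_m20480_m16384_53248_55296_14.fr (d_m20480_m16384_53248_55296_18.fr (d_m20480_m16384_53248_55296_20.fr d_m20480_m16384_53248_55296_22))))))

noncomputable def d_m20480_m16384_55296_57344 : Cell :=
  ⟨-79164837199872,8796093022208,241892558110720,4398046511104,⟨0,2659894721249280,0⟩,⟨0,3206652647964672,0⟩,0,-1,1,13107,1,(-343047627866112,0),⟨0,6456911527936,12270287776355021,[]⟩,[9953758147041,-42216056244,-40923878312,0,196489537,95038726],3,[⟨[225179983535542,-1502690076138,-907951970524,-45927957051,20507377709,8293259327],⟨0,129376397164544,661827170298119,[[9247942829414320,-285776673916164,43009678955374,-10835189668685,-1743403123743,1645003417722],[9774196539603639,0,164716658206726,0,0,2777445912682],[0,55344813927653,0,16781745977823,0,0],[-1190035259462072,-2516557725849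93,-136835704166940,0,-3223224802119,-1146781206628],[0],[127207724311086,66301821569568,25680302959022,6090884879056,1541134989709,0]]⟩,-82900,[⟨-47975,3,(-136339441844224,0),0⟩,⟨-13050,3,(-303465209266176,0),32⟩],11520,[⟨29183,2,(-367236883677184,0),32⟩,⟨46846,3,(-384829069721600,0),32⟩],3,0,[],0,[]⟩,⟨[281474981633345,-2333543298375,-1426793336361,-73915566930,36040727983,14346736310],⟨2,164987897708544,480205903693310,[[-6187766603194358,535112285862926,867631496637652,0,-36957602861993,63957492378975],[1527893189079564,578006545185306,637908608663324,63626338321951,0,0],[-17876225547853982,-909364290307356,0,0,131820841597455,-37620120856812],[0],[0,-267343448359467,-106629669318038,-31851107524949,0,0],[6237404151149371,0,-741453635982830,-2950674857139,0,0]]⟩,-136278,[⟨-77829,3,(-25288767438848,0),4⟩],45129,[⟨64628,4,(-663005511548928,0),3⟩,⟨84128,4,(-665204534804480,0),3⟩,⟨123127,4,(-614626999926784,0),3⟩],5,16998,[⟨28066,3,(0,0),34⟩,⟨39135,4,(0,0),34⟩,⟨61272,4,(0,0),34⟩,⟨105546,5,(0,0),34⟩],103678,[⟨145330,3,(0,0),34⟩,⟨186982,3,(0,0),34⟩]⟩]⟩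
def d_m20480_m16384_55296_57344_0 : sl d_m20480_m16384_55296_57344 0 4 := by decide +kernel
def d_m20480_m16384_55296_57344_4 : sl d_m20480_m16384_55296_57344 4 9 := by decide +kernel
def d_m20480_m16384_55296_57344_9 : sl d_m20480_m16384_55296_57344 9 14 := by decide +kernel
def d_m20480_m16384_55296_57344_14 : sl d_m20480_m16384_55296_57344 14 18 := by decide +kernel
def d_m20480_m16384_55296_57344_18 : sl d_m20480_m16384_55296_57344 18 20 := by decide +kernel
def d_m20480_m16384_55296_57344_20 : sl d_m20480_m16384_55296_57344 20 22 := by decide +kernel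
def d_m20480_m16384_55296_57344_22 : fr d_m20480_m16384_55296_57344 22 := by decide +kernel
theorem f_m20480_m16384_55296_57344 : fr d_m20480_m16384_55296_57344 0 :=
  (d_m20480_m16384_55296_57344_0.fr (d_m20480_m16384_55296_57344_4.fr (d_m20480_m16384_55296_57344_9.fr (d_m20480_m16384_55296_57344_14.fr (d_m20480_m16384_55296_57344_18.fr (d_m20480_m16384_55296_57344_20.fr d_m20480_m16384_55296_57344_22))))))

noncomputable def d_m24576_m20480_57344_59392 : Cell :=
  ⟨-96757023244288,8796093022208,250688651132928,4398046511104,⟨0,4503599627370496,-84442496368640⟩,⟨0,3960926214553600,0⟩,0,-1,1,13107,1,(-325455441821696,0),⟨0,6458766852096,12266763048572505,[]⟩,[9955934686096,-41825024494,-40934693681,0,194544000,95066727],3,[⟨[225179983187856,-1272356962482,-904149349219,-43131216650,18433142469,8233990059],⟨0,129044714553344,663684513466131,[[19096681299967971,-532566130459065,40330952695070,-12243714794790,-1200464799472,39412549091],[20126000887581556,0,217847935914864,0,28664816005,-492844738669],[471069557478519,191784816170356,0,18968942018932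,0,0],[-1898346491856521,-329339083700109,-169685454284778],[0,0,0,0,1156747743876,-628140756269],[196716194887076,73034482890175,11970546154513,6995943850092,0,0]]⟩,-82562,[⟨-47806,3,(-116548232544256,0),0⟩,⟨-13050,3,(-283673999966208,0),32⟩],11521,[⟨29144,2,(-351843720888320,0),32⟩,⟨46767,3,(-371634930188288,0),32⟩],3,0,[],0,[]⟩,⟨[281474980710452,-1957204123886,-1419652233615,-68394117183,31817306774,14219770244],⟨2,164807921762304,480730305171850,[[-15902258676444822,-465852060218447,0],[-9261838552225854]]⟩,-102801,[⟨-77610,3,(3298534883328,0),0⟩],45082,[⟨75869,4,(-655308930154496,0),3⟩,⟨106657,4,(-623423092948992,0),3⟩],6,9616,[⟨11279,2,(0,0),34⟩,⟨12943,3,(0,0),34⟩,⟨16271,3,(0,0),34⟩,⟨22926,3,(0,0),34⟩,⟨36237,4,(0,0),34⟩,⟨62858,5,(0,0),34⟩,⟨116101,6,(0,0),34⟩],93136,[⟨140059,3,(0,0),34⟩,⟨186982,3,(0,0),34⟩]⟩]⟩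
def d_m24576_m20480_57344_59392_0 : sl d_m24576_m20480_57344_59392 0 4 := by decide +kernel
def d_m24576_m20480_57344_59392_4 : sl d_m24576_m20480_57344_59392 4 9 := by decide +kernel
def d_m24576_m20480_57344_59392_9 : sl d_m24576_m20480_57344_59392 9 14 := by decide +kernel
def d_m24576_m20480_57344_59392_14 : sl d_m24576_m20480_57344_59392 14 18 := by decide +kernel
def d_m24576_m20480_57344_59392_18 : sl d_m24576_m20480_57344_59392 18 20 := by decide +kernel
def d_m24576_m20480_57344_59392_20 : sl d_m24576_m20480_57344_59392 20 22 := by decide +kernel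
def d_m24576_m20480_57344_59392_22 : sl d_m24576_m20480_57344_59392 22 24 := by decide +kernel
def d_m24576_m20480_57344_59392_24 : fr d_m24576_m20480_57344_59392 24 := by decide +kernel
theorem f_m24576_m20480_57344_59392 : fr d_m24576_m20480_57344_59392 0 :=
  (d_m24576_m20480_57344_59392_0.fr (d_m24576_m20480_57344_59392_4.fr (d_m24576_m20480_57344_59392_9.fr (d_m24576_m20480_57344_59392_14.fr (d_m24576_m20480_57344_59392_18.fr (d_m24576_m20480_57344_59392_20.fr (d_m24576_m20480_57344_59392_22.fr d_m24576_m20480_57344_59392_24)))))))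

noncomputable def d_m24576_m20480_59392_60416 : Cell :=
  ⟨-96757023244288,8796093022208,257285720899584,2199023255552,⟨0,4503599627370496,-84442496368640⟩,⟨0,4503599627370496,0⟩,0,-1,1,13107,1,(-325455441821696,0),⟨0,6486200745984,12214879746412717,[]⟩,[9894870460842,-41534076696,-20325225994,0,96548751,23590153],3,[⟨[225179982744294,-1329209695149,-480358927358,-43859971779,9777910859,2180653448],⟨0,126272353140736,679447083005101,[[20828324159450209,-586329115733310,38342449793544,-14428601784870,-867824356253,846576407056],[21967055036495422,0,162388389837550,0,0,1409119328329],[0,137166535943778,0,21928108800760,0,0],[-2710439487423510,-476822732599036,-140998589278740,0,-824164018277,-569738005893],[0],[325605989331913,122575743204021,28143139928484,7725462678616,0,0]]⟩,-84009,[⟨-48530,3,(45079976738816,0),0⟩,⟨-13050,3,(-282574488338432,0),32⟩],11479,[⟨28815,2,(-350744209260544,0),32⟩,⟨46151,3,(-371634930188288,0),32⟩],3,0,[],0,[]⟩,⟨[281474979689718,-2048546745384,-756465260758,-69789151746,17036530302,3808406430],⟨2,163156763148288,485595331736045,[[-15906742632138008,-502231674867970,0],[-6136232610006602]]⟩,-102801,[⟨-79939,3,(2199023255552,0),0⟩],44855,[⟨74283,4,(-654209418526720,0),3⟩,⟨103711,4,(-626721627832320,0),3⟩],6,8013,[⟨11390,3,(0,0),34⟩,⟨14768,3,(0,0),34⟩,⟨21524,4,(0,0),34⟩,⟨35035,4,(0,0),34⟩,⟨62057,5,(0,0),34⟩,⟨116101,6,(0,0),34⟩],93798,[⟨140390,3,(0,0),34⟩,⟨186982,3,(0,0),34⟩]⟩]⟩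
def d_m24576_m20480_59392_60416_0 : sl d_m24576_m20480_59392_60416 0 4 := by decide +kernel
def d_m24576_m20480_59392_60416_4 : sl d_m24576_m20480_59392_60416 4 9 := by decide +kernel
def d_m24576_m20480_59392_60416_9 : sl d_m24576_m20480_59392_60416 9 14 := by decide +kernel
def d_m24576_m20480_59392_60416_14 : sl d_m24576_m20480_59392_60416 14 18 := by decide +kernel
def d_m24576_m20480_59392_60416_18 : sl d_m24576_m20480_59392_60416 18 19 := by decide +kernel
def d_m24576_m20480_59392_60416_19 : sl d_m24576_m20480_59392_60416 19 21 := by decide +kernel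
def d_m24576_m20480_59392_60416_21 : sl d_m24576_m20480_59392_60416 21 23 := by decide +kernel
def d_m24576_m20480_59392_60416_23 : fr d_m24576_m20480_59392_60416 23 := by decide +kernel
theorem f_m24576_m20480_59392_60416 : fr d_m24576_m20480_59392_60416 0 :=
  (d_m24576_m20480_59392_60416_0.fr (d_m24576_m20480_59392_60416_4.fr (d_m24576_m20480_59392_60416_9.fr (d_m24576_m20480_59392_60416_14.fr (d_m24576_m20480_59392_60416_18.fr (d_m24576_m20480_59392_60416_19.fr (d_m24576_m20480_59392_60416_21.fr d_m24576_m20480_59392_60416_23)))))))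

noncomputable def d_m24576_m20480_60416_61440 : Cell :=
  ⟨-96757023244288,8796093022208,261683767410688,2199023255552,⟨0,-4503599627370496,0⟩,⟨0,2287263358648320,-142796656738304⟩,0,1,1,13107,1,(-325455441821696,0),⟨0,6513764990976,12163190254655291,[]⟩,[9854395362371,-41341458282,-20231099346,0,96069883,23473258],3,[⟨[225179982803404,-1368319295039,-499798743647,-44377030497,10182496828,2269373230],⟨0,126333214916608,678864313717395,[[-9531740247781721,315705292865367,-11686239532489,9178185943907,534270174237,-475985713623],[-11231125526679095,0,-98809413526871,9000721390930,-118051970338,-908086598062],[-2076177235868226,-294576783162047,-85442403306910,-2442429275316,0,0],[181229291230876,0,0,0,1138062479528,580620263582],[0,8640588884187,0],[-24854490784122,-12039234393807,-3297543822397,-2377925993155,-507494457015,-146257681493]]⟩,-85461,[⟨-49256,3,(42880953483264,0),0⟩,⟨-13050,3,(-282574488338432,0),32⟩],11437,[⟨28656,2,(-350744209260544,0),32⟩,⟨45876,3,(-371634930188288,0),32⟩],3,0,[],0,[]⟩,⟨[281474979842518,-2111704771997,-788764537842,-70784349558,17856909959,3994588469],⟨2,163201925251072,485460955146774,[[14246608212632482,576866312416649,-5823006723363],[6499197075687827,0,-5797126555189],[531132127954566]]⟩,-102801,[⟨-81224,3,(2199023255552,0),0⟩],44588,[⟨73473,4,(-654209418526720,0),3⟩,⟨102358,4,(-628920651087872,0),3⟩],6,6410,[⟨9837,3,(0,0),34⟩,⟨13265,3,(0,0),34⟩,⟨20121,4,(0,0),34⟩,⟨33832,5,(0,0),34⟩,⟨61255,5,(0,0),34⟩,⟨116101,6,(0,0),34⟩],94170,[⟨153576,3,(0,0),34⟩,⟨212982,3,(0,0),34⟩]⟩]⟩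
def d_m24576_m20480_60416_61440_0 : sl d_m24576_m20480_60416_61440 0 4 := by decide +kernel
def d_m24576_m20480_60416_61440_4 : sl d_m24576_m20480_60416_61440 4 9 := by decide +kernel
def d_m24576_m20480_60416_61440_9 : sl d_m24576_m20480_60416_61440 9 14 := by decide +kernel
def d_m24576_m20480_60416_61440_14 : sl d_m24576_m20480_60416_61440 14 18 := by decide +kernel
def d_m24576_m20480_60416_61440_18 : sl d_m24576_m20480_60416_61440 18 19 := by decide +kernel
def d_m24576_m20480_60416_61440_19 : sl d_m24576_m20480_60416_61440 19 21 := by decide +kernel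
def d_m24576_m20480_60416_61440_21 : sl d_m24576_m20480_60416_61440 21 23 := by decide +kernel
def d_m24576_m20480_60416_61440_23 : fr d_m24576_m20480_60416_61440 23 := by decide +kernel
theorem f_m24576_m20480_60416_61440 : fr d_m24576_m20480_60416_61440 0 :=
  (d_m24576_m20480_60416_61440_0.fr (d_m24576_m20480_60416_61440_4.fr (d_m24576_m20480_60416_61440_9.fr (d_m24576_m20480_60416_61440_14.fr (d_m24576_m20480_60416_61440_18.fr (d_m24576_m20480_60416_61440_19.fr (d_m24576_m20480_60416_61440_21.fr d_m24576_m20480_60416_61440_23)))))))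

noncomputable def d_m20480_m16384_57344_59392 : Cell :=
  ⟨-79164837199872,8796093022208,250688651132928,4398046511104,⟨0,4503599627370496,-84442496368640⟩,⟨0,4503599627370496,0⟩,0,-1,1,13107,1,(-343047627866112,0),⟨0,6511890857984,12166690815495571,[]⟩,[9872452522885,-41825024494,-40545605680,0,194544000,94098999],3,[⟨[225179983785890,-1587933955995,-984361865087,-47157264649,22285439931,8965119305],⟨0,129571417161728,660323530843972,[[20024237190623949,-666574875550832,75449414984774,-26000979203476,-5434067942119,2586110258925],[21912310520024220,0,336571090991094,0,0,4522665415002],[0,285631125932182,0,41338069851918,6883559523950,0],[-3457124991865253,-426126449249881,-300604995699849,0,-701813011265,-1957896824727],[0],[489037867179727,140546250690092,61890760638790,15589981634105,2280552400511,0]]⟩,-85760,[⟨-49405,3,(21990232555520,0),0⟩,⟨-13050,3,(-302365697638400,0),32⟩],11436,[⟨28859,2,(-366137372049408,0),32⟩,⟨46283,3,(-384829069721600,0),32⟩],3,0,[],0,[]⟩,⟨[281474982311954,-2473801926147,-1553171559506,-76338170398,39687576068,15747529457],⟨2,165111115612160,479847539221681,[[-19262832445818212,-871056705294016,0],[-9921962072034644],[-544453986966915]]⟩,-136278,[⟨-80271,4,(-25288767438848,0),0⟩],44585,[⟨82196,4,(-667403558060032,0),3⟩,⟨119808,4,(-617925534810112,0),3⟩],6,12748,[⟨18547,3,(0,0),34⟩,⟨24347,4,(0,0),34⟩,⟨35947,4,(0,0),34⟩,⟨59147,5,(0,0),34⟩,⟨105546,6,(0,0),34⟩],104620,[⟨155150,3,(0,0),34⟩,⟨205680,3,(0,0),34⟩]⟩]⟩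
def d_m20480_m16384_57344_59392_0 : sl d_m20480_m16384_57344_59392 0 4 := by decide +kernel
def d_m20480_m16384_57344_59392_4 : sl d_m20480_m16384_57344_59392 4 9 := by decide +kernel
def d_m20480_m16384_57344_59392_9 : sl d_m20480_m16384_57344_59392 9 14 := by decide +kernel
def d_m20480_m16384_57344_59392_14 : sl d_m20480_m16384_57344_59392 14 18 := by decide +kernel
def d_m20480_m16384_57344_59392_18 : sl d_m20480_m16384_57344_59392 18 20 := by decide +kernel
def d_m20480_m16384_57344_59392_20 : sl d_m20480_m16384_57344_59392 20 22 := by decide +kernel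
def d_m20480_m16384_57344_59392_22 : fr d_m20480_m16384_57344_59392 22 := by decide +kernel
theorem f_m20480_m16384_57344_59392 : fr d_m20480_m16384_57344_59392 0 :=
  (d_m20480_m16384_57344_59392_0.fr (d_m20480_m16384_57344_59392_4.fr (d_m20480_m16384_57344_59392_9.fr (d_m20480_m16384_57344_59392_14.fr (d_m20480_m16384_57344_59392_18.fr (d_m20480_m16384_57344_59392_20.fr d_m20480_m16384_57344_59392_22))))))

noncomputable def d_m20480_m16384_59392_61440 : Cell :=
  ⟨-79164837199872,8796093022208,259484744155136,4398046511104,⟨0,-4503599627370496,0⟩,⟨0,2414523239628800,-132926100471808⟩,0,1,1,13107,1,(-343047627866112,0),⟨0,6567393624064,12063866899243398,[]⟩,[9791898189383,-41437863712,-40171072541,0,192618550,93168965],3,[⟨[225179984083172,-1678149273965,-1064724734424,-48517415045,24306145974,9737261712],⟨0,129790289641472,658698216177861,[[-9146756553183492,384067887427045,-6314471187222,12626151406454,2802394103232,-539113281291],[-10263904071860227,55446066777782,-117259486360726,0,0,-900808557181],[0,-313255624239570,0,-20920657062617,-3899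260322625,0],[1902258516895944,0,131923150857343,0,0,347106080738],[0],[-317068525475666,-28333313038167,-31364784602083,-8514962742979,-1167026339773,0]]⟩,-88920,[⟨-50985,3,(15393162788864,0),0⟩,⟨-13050,3,(-301266186010624,0),32⟩],11353,[⟨28546,2,(-366137372049408,0),32⟩,⟨45739,3,(-384829069721600,0),32⟩],3,0,[],0,[]⟩,⟨[281474983138692,-2623677331977,-1687792386331,-79047211283,43901611471,17388779855],⟨2,165244038217728,479461548894048,[[16481853423697840,931722121262339,-52361890803514],[7363604407170023,0,-50669762028771],[594652693935692]]⟩,-136278,[⟨-82941,4,(-26388279066624,0),0⟩],44058,[⟨80460,4,(-666304046432256,0),3⟩,⟨116862,4,(-621224069693440,0),3⟩],6,8498,[⟨9256,3,(0,0),33⟩,⟨10014,3,(0,0),33⟩,⟨11530,3,(0,0),33⟩,⟨14563,3,(0,0),33⟩,⟨17596,4,(0,0),33⟩,⟨20629,4,(0,0),33⟩,⟨23661,4,(0,0),33⟩,⟨26694,4,(0,0),34⟩,⟨32760,5,(0,0),34⟩,⟨57022,5,(0,0),34⟩,⟨105546,6,(0,0),34⟩],105692,[⟨155686,3,(0,0),34⟩,⟨205680,3,(0,0),34⟩]⟩]⟩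
def d_m20480_m16384_59392_61440_0 : sl d_m20480_m16384_59392_61440 0 4 := by decide +kernel
def d_m20480_m16384_59392_61440_4 : sl d_m20480_m16384_59392_61440 4 9 := by decide +kernel
def d_m20480_m16384_59392_61440_9 : sl d_m20480_m16384_59392_61440 9 14 := by decide +kernel
def d_m20480_m16384_59392_61440_14 : sl d_m20480_m16384_59392_61440 14 18 := by decide +kernel
def d_m20480_m16384_59392_61440_18 : sl d_m20480_m16384_59392_61440 18 22 := by decide +kernel
def d_m20480_m16384_59392_61440_22 : sl d_m20480_m16384_59392_61440 22 24 := by decide +kernel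
def d_m20480_m16384_59392_61440_24 : sl d_m20480_m16384_59392_61440 24 26 := by decide +kernel
def d_m20480_m16384_59392_61440_26 : sl d_m20480_m16384_59392_61440 26 28 := by decide +kernel
def d_m20480_m16384_59392_61440_28 : fr d_m20480_m16384_59392_61440 28 := by decide +kernel
theorem f_m20480_m16384_59392_61440 : fr d_m20480_m16384_59392_61440 0 :=
  (d_m20480_m16384_59392_61440_0.fr (d_m20480_m16384_59392_61440_4.fr (d_m20480_m16384_59392_61440_9.fr (d_m20480_m16384_59392_61440_14.fr (d_m20480_m16384_59392_61440_18.fr (d_m20480_m16384_59392_61440_22.fr (d_m20480_m16384_59392_61440_24.fr (d_m20480_m16384_59392_61440_26.fr d_m20480_m16384_59392_61440_28))))))))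

noncomputable def d_m16384_m12288_36864_38912 : Cell :=
  ⟨-61572651155456,8796093022208,162727720910848,4398046511104,⟨0,4503599627370496,-84442496368640⟩,⟨0,207253646868480,-468501525430272⟩,0,-1,1,13107,1,(-360639813910528,0),⟨0,6033152081920,13132134162058132,[[10338196542290033]]⟩,[10628932639781,-45916345393,-44073301691,0,214939705,102876279],3,[⟨[225179982648681,-1142680243141,-390500363643,-41296001865,12829698484,5279326883],⟨0,128605567123456,669766161695128,[[7219832574119174,-251863164699315,-10886497806007,-7746566010802,3844067869808,2787905448789],[10710081374617277,-166876078068504,58746939136251,-7781569066596,13591193460010,6480971664913],[3581587513521829,148561476826777,79808161489860,7904853575727,15404034517852,4245669835325],[-224778968740023,65237403805494,2320790893764,8932452117550,5668717823168,0],[-56840064087399,-16024956242222,-11877508353858,0,0,-547453403744],[12365891777176,-646615354570,0,-926294354476,0,0]]⟩,-67090,[⟨-40071,2,(-172623325560832,0),4⟩,⟨-13052,2,(-329853488332800,0),32⟩],12240,[⟨32254,2,(-38372955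8093824,0),32⟩,⟨52268,3,(-667403558060032,0),1⟩],2,0,[],0,[]⟩,⟨[281474979379820,-1759824736228,-602426620832,-65094642289,20981547278,8365400549],⟨2,164391841759232,481947045888442,[[-3975072996749985,0,0,0,-14816160073433,0],[-11853641343812388,480908833168848,362502900213807,-1140761545544,0,0],[-15744547774824555,125546441531195,0,0,-18080625241809,0],[0],[0],[-3960564596904690,0,10072442533401]]⟩,-297283,[⟨-238936,4,(-10995116277760,0),4⟩,⟨-180589,4,(-24189255811072,0),4⟩,⟨-122242,3,(-42880953483264,0),4⟩,⟨-93069,3,(-47278999994368,0),4⟩,⟨-63895,2,(-24189255811072,0),4⟩],50261,[⟨71185,3,(-675100139454464,0),1⟩,⟨92109,4,(-655308930154496,0),1⟩,⟨133958,4,(-610228953415680,0),1⟩,⟨175806,5,(-584940185976832,0),1⟩,⟨217655,5,(-573945069699072,0),3⟩],4,120527,[⟨163103,4,(0,0),34⟩,⟨205680,4,(0,0),34⟩],122184,[⟨186982,4,(0,0),34⟩]⟩]⟩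
def d_m16384_m12288_36864_38912_0 : sl d_m16384_m12288_36864_38912 0 4 := by decide +kernel
def d_m16384_m12288_36864_38912_4 : sl d_m16384_m12288_36864_38912 4 9 := by decide +kernel
def d_m16384_m12288_36864_38912_9 : sl d_m16384_m12288_36864_38912 9 13 := by decide +kernel
def d_m16384_m12288_36864_38912_13 : sl d_m16384_m12288_36864_38912 13 17 := by decide +kernel
def d_m16384_m12288_36864_38912_17 : sl d_m16384_m12288_36864_38912 17 22 := by decide +kernel
def d_m16384_m12288_36864_38912_22 : sl d_m16384_m12288_36864_38912 22 24 := by decide +kernel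
def d_m16384_m12288_36864_38912_24 : sl d_m16384_m12288_36864_38912 24 25 := by decide +kernel
def d_m16384_m12288_36864_38912_25 : fr d_m16384_m12288_36864_38912 25 := by decide +kernel
theorem f_m16384_m12288_36864_38912 : fr d_m16384_m12288_36864_38912 0 :=
  (d_m16384_m12288_36864_38912_0.fr (d_m16384_m12288_36864_38912_4.fr (d_m16384_m12288_36864_38912_9.fr (d_m16384_m12288_36864_38912_13.fr (d_m16384_m12288_36864_38912_17.fr (d_m16384_m12288_36864_38912_22.fr (d_m16384_m12288_36864_38912_24.fr d_m16384_m12288_36864_38912_25)))))))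

noncomputable def d_m16384_m12288_38912_40960 : Cell :=
  ⟨-61572651155456,8796093022208,171523813933056,4398046511104,⟨0,4503599627370496,-84442496368640⟩,⟨0,333504210534400,-457687485644800⟩,0,-1,1,13107,1,(-360639813910528,0),⟨0,6084106321920,13022152796563699,[[7358130968358251]]⟩,[10541371971896,-45488604276,-43663840980,0,212803380,101855611],3,[⟨[225179982746553,-1209148846838,-449831534072,-42028989555,13659693327,5501577918],⟨0,128709108170752,668704112574675,[[7578326342454232,-262237326722303,-1876363621400,-9268290147049,3748167990488,2952514290851],[11131057427990874,-143281074249852,87581493779602,-8703591518116,14405305447807,7038664650353],[3694290337852081,193750443412518,101086081741998,10773416253692,16803299665012,4763241488579],[-215604653436817,81526763477343,2317804878585,11516800660451,5858052064148,0],[-71149776572578,-12659112046143,-13873333451171,0,-306919118448,-673625171135],[15452142934928,0,0,-1228425567359,0,0]]⟩,-68658,[⟨-40855,2,(-171523813933056,0),4⟩,⟨-13052,2,(-328753976705024,0),32⟩],12145,[⟨31828,2,(-382630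046466048,0),32⟩,⟨51512,3,(-667403558060032,0),1⟩],2,0,[],0,[]⟩,⟨[281474979620311,-1865188910768,-695119830436,-66491367009,22573030514,8791032769],⟨2,164471880024064,481712512253273,[[-3020404438153289,-3325795751847,1018973043436083],[-9021026767537846,404531691690915,1547989125409269,0,25285431861128,0],[-14709251037016962,-22770806465140,0],[0],[0],[-4197892391773187]]⟩,-265854,[⟨-215715,4,(-16492674416640,0),4⟩,⟨-165576,4,(-29686813949952,0),4⟩,⟨-115437,3,(-46179488366592,0),4⟩,⟨-90367,3,(-46179488366592,0),4⟩,⟨-65297,2,(-23089744183296,0),4⟩],49547,[⟨85816,4,(-692692325498880,0),1⟩,⟨122086,4,(-620124558065664,0),1⟩,⟨158356,5,(-591537255743488,0),3⟩,⟨194626,5,(-578343116210176,0),3⟩],4,99493,[⟨143237,4,(0,0),34⟩,⟨186982,4,(0,0),34⟩],115326,[⟨186982,4,(0,0),34⟩]⟩]⟩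
def d_m16384_m12288_38912_40960_0 : sl d_m16384_m12288_38912_40960 0 4 := by decide +kernel
def d_m16384_m12288_38912_40960_4 : sl d_m16384_m12288_38912_40960 4 9 := by decide +kernel
def d_m16384_m12288_38912_40960_9 : sl d_m16384_m12288_38912_40960 9 13 := by decide +kernel
def d_m16384_m12288_38912_40960_13 : sl d_m16384_m12288_38912_40960 13 17 := by decide +kernel
def d_m16384_m12288_38912_40960_17 : sl d_m16384_m12288_38912_40960 17 21 := by decide +kernel
def d_m16384_m12288_38912_40960_21 : sl d_m16384_m12288_38912_40960 21 23 := by decide +kernel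
def d_m16384_m12288_38912_40960_23 : sl d_m16384_m12288_38912_40960 23 24 := by decide +kernel
def d_m16384_m12288_38912_40960_24 : fr d_m16384_m12288_38912_40960 24 := by decide +kernel
theorem f_m16384_m12288_38912_40960 : fr d_m16384_m12288_38912_40960 0 :=
  (d_m16384_m12288_38912_40960_0.fr (d_m16384_m12288_38912_40960_4.fr (d_m16384_m12288_38912_40960_9.fr (d_m16384_m12288_38912_40960_13.fr (d_m16384_m12288_38912_40960_17.fr (d_m16384_m12288_38912_40960_21.fr (d_m16384_m12288_38912_40960_23.fr d_m16384_m12288_38912_40960_24)))))))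

noncomputable def d_m12288_m10240_36864_38912 : Cell :=
  ⟨-48378511622144,4398046511104,162727720910848,4398046511104,⟨0,4348598552625152,0⟩,⟨0,-7602092113920,-195272097398784⟩,0,-1,1,13107,1,(-373833953443840,0),⟨0,6057325363200,13079727068571213,[[93298982319627]]⟩,[10560197429878,-22958172697,-43750892133,0,107469853,102070982],3,[⟨[225179981525687,-679125707276,-437884222172,-10940415167,7202109541,5485924816],⟨0,125942003662848,685170335499617,[[3312954885221744,-62831170296283,2680615608178,-1988320475585,554767587474,1469036666396],[4489272791900362,-27982773368555,47289144953775,-2623460372865,2584962954263,3350939051866],[1235753495844103,47076904989433,46312539272609,0,2527380850284,2054309634085],[-99087694257497,14916430848090,57765981888,274996157628,0,0],[0,-3009557132488,-4286678795511,-378516720362,-180758998415,0],[11371570101869,0,0,0,325004126691,169321103576]]⟩,-68123,[⟨-40588,2,(-190215511605248,0),4⟩,⟨-13052,2,(-345246651121664,0),32⟩],12193,[⟨31882,2,(-393625162743808,0),32⟩,⟨51572,3,(-676199651082240,0),1⟩],2,0,[],0,[]⟩,⟨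[281474977053496,-1054416701589,-677406650425,-17479957473,12035384915,8765425469],⟨2,162751534727168,486804395668736,[[-4755687040960546,79082235888333,689554734535834,-2051095936881,6956919728956,-12609583918076],[-158089353413495,0,0,0,2367452894017,0],[-3070591327884317,-150085330467772,-106764847586682,-1315787903829,0,0],[0,0,0,0,0,11048564268973],[0,0,-126943120753782],[1283195298323859,-3245269636405,0]]⟩,-315478,[⟨-190495,4,(-19791209299968,0),4⟩,⟨-128004,4,(-57174604644352,0),4⟩,⟨-65512,3,(-63771674411008,0),4⟩],50025,[⟨71450,4,(-682796720848896,0),1⟩,⟨92875,4,(-659706976665600,0),1⟩,⟨135726,4,(-612427976671232,0),1⟩,⟨178577,5,(-586039697604608,0),1⟩,⟨221428,5,(-573945069699072,0),3⟩],5,127904,[⟨177076,4,(0,0),34⟩,⟨226248,5,(0,0),34⟩],124302,[⟨186982,4,(0,0),34⟩]⟩]⟩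
def d_m12288_m10240_36864_38912_0 : sl d_m12288_m10240_36864_38912 0 4 := by decide +kernel
def d_m12288_m10240_36864_38912_4 : sl d_m12288_m10240_36864_38912 4 9 := by decide +kernel
def d_m12288_m10240_36864_38912_9 : sl d_m12288_m10240_36864_38912 9 13 := by decide +kernel
def d_m12288_m10240_36864_38912_13 : sl d_m12288_m10240_36864_38912 13 18 := by decide +kernel
def d_m12288_m10240_36864_38912_18 : sl d_m12288_m10240_36864_38912 18 20 := by decide +kernel
def d_m12288_m10240_36864_38912_20 : sl d_m12288_m10240_36864_38912 20 22 := by decide +kernel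
def d_m12288_m10240_36864_38912_22 : sl d_m12288_m10240_36864_38912 22 23 := by decide +kernel
def d_m12288_m10240_36864_38912_23 : fr d_m12288_m10240_36864_38912 23 := by decide +kernel
theorem f_m12288_m10240_36864_38912 : fr d_m12288_m10240_36864_38912 0 :=
  (d_m12288_m10240_36864_38912_0.fr (d_m12288_m10240_36864_38912_4.fr (d_m12288_m10240_36864_38912_9.fr (d_m12288_m10240_36864_38912_13.fr (d_m12288_m10240_36864_38912_18.fr (d_m12288_m10240_36864_38912_20.fr (d_m12288_m10240_36864_38912_22.fr d_m12288_m10240_36864_38912_23)))))))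

noncomputable def d_m12288_m10240_38912_40960 : Cell :=
  ⟨-48378511622144,4398046511104,171523813933056,4398046511104,⟨0,4503599627370496,-84442496368640⟩,⟨0,755050955669504,-439515646787584⟩,0,-1,1,13107,1,(-373833953443840,0),⟨0,6108507865088,12970133492748216,[[2117026546926624]]⟩,[10473277074300,-22744302138,-43344635909,0,106401690,101058652],3,[⟨[225179981543444,-716039926347,-498607543344,-11174148196,7716528463,5741042872],⟨0,126008925552640,684277315511050,[[8153271604013579,-184347317394847,-8393139610487,-4974307252670,567195999711,3010254461781],[11556633735692292,-116461942585644,108113993779248,-7197678144464,4749756431087,7582795481221],[3783619206648263,113593760329675,141450599981343,0,5801657240568,5423080439110],[-7478199227246,59807388752842,24557311141736,2264985506470,0,0],[-12807851012870,0,-6997698483708,0,-1624567616733,-846888875238],[32283762831426,-74342379278,0,0,13074754155,0]]⟩,-69768,[⟨-41410,3,(-189115999977472,0),4⟩,⟨-13052,2,(-345246651121664,0),32⟩],12099,[⟨31468,2,(-393625162743808,0),32⟩,⟨50838,3,(-675100139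454464,0),1⟩],2,0,[],0,[]⟩,⟨[281474977098667,-1114218476135,-772767931527,-17936732578,13041724712,9258524771],⟨2,162812728442880,486621428651792,[[-1781532972001763,-19189314971807,1204145446360920,0,-6560314956491,-14721004525942],[-11271135833153173,100204058738755,1818046367294757],[-20919430319183388,-78560785012969,0],[0],[0,0,75543813843849],[-6572983274455802,0,0,0,0,-32239522225487]]⟩,-284048,[⟨-229790,4,(-18691697672192,0),4⟩,⟨-175532,4,(-37383395344384,0),4⟩,⟨-121274,4,(-61572651155456,0),4⟩,⟨-94145,3,(-68169720922112,0),4⟩,⟨-67016,3,(-48378511622144,0),4⟩],49322,[⟨86591,4,(-698189883637760,0),1⟩,⟨123860,4,(-622323581321216,0),1⟩,⟨161129,5,(-592636767371264,0),3⟩,⟨198399,5,(-578343116210176,0),3⟩],5,106302,[⟨155991,4,(0,0),34⟩,⟨205680,5,(0,0),34⟩],117561,[⟨186982,4,(0,0),34⟩]⟩]⟩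
def d_m12288_m10240_38912_40960_0 : sl d_m12288_m10240_38912_40960 0 4 := by decide +kernel
def d_m12288_m10240_38912_40960_4 : sl d_m12288_m10240_38912_40960 4 9 := by decide +kernel
def d_m12288_m10240_38912_40960_9 : sl d_m12288_m10240_38912_40960 9 13 := by decide +kernel
def d_m12288_m10240_38912_40960_13 : sl d_m12288_m10240_38912_40960 13 17 := by decide +kernel
def d_m12288_m10240_38912_40960_17 : sl d_m12288_m10240_38912_40960 17 21 := by decide +kernel
def d_m12288_m10240_38912_40960_21 : sl d_m12288_m10240_38912_40960 21 23 := by decide +kernel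
def d_m12288_m10240_38912_40960_23 : sl d_m12288_m10240_38912_40960 23 24 := by decide +kernel
def d_m12288_m10240_38912_40960_24 : fr d_m12288_m10240_38912_40960 24 := by decide +kernel
theorem f_m12288_m10240_38912_40960 : fr d_m12288_m10240_38912_40960 0 :=
  (d_m12288_m10240_38912_40960_0.fr (d_m12288_m10240_38912_40960_4.fr (d_m12288_m10240_38912_40960_9.fr (d_m12288_m10240_38912_40960_13.fr (d_m12288_m10240_38912_40960_17.fr (d_m12288_m10240_38912_40960_21.fr (d_m12288_m10240_38912_40960_23.fr d_m12288_m10240_38912_40960_24)))))))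

noncomputable def d_m10240_m8192_36864_38912 : Cell :=
  ⟨-39582418599936,4398046511104,162727720910848,4398046511104,⟨0,4503599627370496,0⟩,⟨0,7039451398144,-811865068273664⟩,0,-1,1,13107,1,(-382630046466048,0),⟨0,6081498644480,13027736599886706,[[21185420238089115]]⟩,[10514373242099,-22958172697,-43535952428,0,107469853,101534117],3,[⟨[225179981550664,-757956751651,-470755338405,-11446886354,7843334539,5645028102],⟨0,126065430560768,684171847753450,[[8076268104228810,-205814644347017,-11299281880595,-7187211924142,-436867246615,3197629946997],[13562705437937428,-210463248107198,95524392720295,-13386141062724,3568147153665,8631982031936],[5661453518002242,80890291158841,156606177931874,-3263755481486,9088451705069,6740653665503],[-139192015222164,95488000532559,34651783513685,4354177718723,5567744102886,103155939894],[-138021495647987,0,-21888379070440,0,0,-1203194133610],[4394028837948,-2617627571222,-3359884460065,-1394328981025,-469714101828,0]]⟩,-69169,[⟨-41111,3,(-204509162766336,0),4⟩,⟨-13052,2,(-356241767399424,0),32⟩],12145,[⟨31710,2,(-4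00222232510464,0),32⟩,⟨51276,3,(-681697209221120,0),1⟩],2,0,[],0,[]⟩,⟨[281474977119494,-1184664485935,-729899658200,-18494280824,13322127720,9077514574],⟨2,162833964204032,486557966504744,[[-26567524096679243,0,2660394175585334,-3503921275244,17349572807463,0],[-18021114030700508,188115322693563,1380403945737243],[-11819363456409080,-294201100072189,-1934052768640650],[14831548230200576,-311401098844286,-291348480321669]]⟩,-335804,[⟨-268465,4,(-13194139533312,0),4⟩,⟨-201126,4,(-32985348833280,0),4⟩,⟨-133787,4,(-67070209294336,0),4⟩,⟨-100117,3,(-85761906966528,0),4⟩,⟨-66447,3,(-68169720922112,0),4⟩],49730,[⟨71607,4,(-686095255732224,0),1⟩,⟨93484,4,(-661905999921152,0),1⟩,⟨137238,4,(-613527488299008,0),1⟩,⟨180992,5,(-586039697604608,0),1⟩,⟨224747,5,(-573945069699072,0),3⟩],5,136145,[⟨181196,4,(0,0),34⟩,⟨226248,5,(0,0),34⟩],126165,[⟨186982,4,(0,0),34⟩]⟩]⟩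
def d_m10240_m8192_36864_38912_0 : sl d_m10240_m8192_36864_38912 0 4 := by decide +kernel
def d_m10240_m8192_36864_38912_4 : sl d_m10240_m8192_36864_38912 4 9 := by decide +kernel
def d_m10240_m8192_36864_38912_9 : sl d_m10240_m8192_36864_38912 9 13 := by decide +kernel
def d_m10240_m8192_36864_38912_13 : sl d_m10240_m8192_36864_38912 13 17 := by decide +kernel
def d_m10240_m8192_36864_38912_17 : sl d_m10240_m8192_36864_38912 17 22 := by decide +kernel
def d_m10240_m8192_36864_38912_22 : sl d_m10240_m8192_36864_38912 22 24 := by decide +kernel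
def d_m10240_m8192_36864_38912_24 : sl d_m10240_m8192_36864_38912 24 25 := by decide +kernel
def d_m10240_m8192_36864_38912_25 : fr d_m10240_m8192_36864_38912 25 := by decide +kernel
theorem f_m10240_m8192_36864_38912 : fr d_m10240_m8192_36864_38912 0 :=
  (d_m10240_m8192_36864_38912_0.fr (d_m10240_m8192_36864_38912_4.fr (d_m10240_m8192_36864_38912_9.fr (d_m10240_m8192_36864_38912_13.fr (d_m10240_m8192_36864_38912_17.fr (d_m10240_m8192_36864_38912_22.fr (d_m10240_m8192_36864_38912_24.fr d_m10240_m8192_36864_38912_25)))))))

noncomputable def d_m10240_m8192_38912_40960 : Cell :=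
  ⟨-39582418599936,4398046511104,171523813933056,4398046511104,⟨0,989977076826112,-1000141788020736⟩,⟨0,4503599627370496,-84442496368640⟩,0,-1,1,13107,1,(-382630046466048,0),⟨0,6132909408256,12918528136056677,[[15196322538592226]]⟩,[10427879768792,-22744302138,-43131832529,0,106401690,100527346],3,[⟨[225179981572536,-797988373774,-532559185801,-11723074935,8438699234,5924700331],⟨0,126140363243520,683239709889918,[[12322602796544857,-336080893337686,-17691112443812,-11598737187926,-1464891815820,4495185453763],[19564157120245149,-301658755064349,176975742758029,-20546877990811,3905149806485,12282278179987],[8051575162290565,151873624639825,273688078315561,-2529622544760,12068466100363,9593283970689],[210520607956094,142637162278580,71163707720643,9175447023730,6864462608344,0],[-226316759828058,0,-19346020444070,0,0,-1805314331220],[-12866727203144,-7767540628102,-3284020909739,-2713048795175,-132771525723,0]]⟩,-70891,[⟨-41972,3,(-203409651138560,0),4⟩,⟨-13052,2,(-356241767399424,0),32⟩],12052,[⟨31302,2,(-400222232510464,0),32⟩,⟨50552,3,(-68059769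7593344,0),1⟩],2,0,[],0,[]⟩,⟨[281474977176945,-1250679496314,-827363526508,-19045501041,14506471005,9622192253],⟨2,162901277147136,486356914511510,[[-5268171428075439,-26140408579133,2140444315749567,-33522639943430,0,0],[-20996563324268626,75058909675771,3377338262170347,0,0,-88608187109314],[-39251360769869478,-373045860826027,0],[0],[0],[-11374516011407893]]⟩,-304375,[⟨-245285,4,(-19791209299968,0),4⟩,⟨-186195,4,(-41781441855488,0),4⟩,⟨-127105,4,(-72567767433216,0),4⟩,⟨-97560,3,(-85761906966528,0),4⟩,⟨-68015,3,(-67070209294336,0),4⟩],49037,[⟨87207,4,(-701488418521088,0),1⟩,⟨125377,4,(-623423092948992,0),1⟩,⟨163547,5,(-592636767371264,0),3⟩,⟨201718,5,(-578343116210176,0),3⟩],5,113910,[⟨159795,4,(0,0),34⟩,⟨205680,5,(0,0),34⟩],119528,[⟨186982,4,(0,0),34⟩]⟩]⟩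
def d_m10240_m8192_38912_40960_0 : sl d_m10240_m8192_38912_40960 0 4 := by decide +kernel
def d_m10240_m8192_38912_40960_4 : sl d_m10240_m8192_38912_40960 4 9 := by decide +kernel
def d_m10240_m8192_38912_40960_9 : sl d_m10240_m8192_38912_40960 9 13 := by decide +kernel
def d_m10240_m8192_38912_40960_13 : sl d_m10240_m8192_38912_40960 13 17 := by decide +kernel
def d_m10240_m8192_38912_40960_17 : sl d_m10240_m8192_38912_40960 17 21 := by decide +kernel
def d_m10240_m8192_38912_40960_21 : sl d_m10240_m8192_38912_40960 21 23 := by decide +kernel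
def d_m10240_m8192_38912_40960_23 : sl d_m10240_m8192_38912_40960 23 24 := by decide +kernel
def d_m10240_m8192_38912_40960_24 : fr d_m10240_m8192_38912_40960 24 := by decide +kernel
theorem f_m10240_m8192_38912_40960 : fr d_m10240_m8192_38912_40960 0 :=
  (d_m10240_m8192_38912_40960_0.fr (d_m10240_m8192_38912_40960_4.fr (d_m10240_m8192_38912_40960_9.fr (d_m10240_m8192_38912_40960_13.fr (d_m10240_m8192_38912_40960_17.fr (d_m10240_m8192_38912_40960_21.fr (d_m10240_m8192_38912_40960_23.fr d_m10240_m8192_38912_40960_24)))))))

noncomputable def d_m16384_m12288_40960_45056 : Cell :=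
  ⟨-61572651155456,8796093022208,184717953466368,8796093022208,⟨0,4503599627370496,-84442496368640⟩,⟨0,558113820246016,-411655636779008⟩,0,-1,1,13107,1,(-360639813910528,0),⟨0,6187468062720,12804617603963970,[[3286009012722129]]⟩,[10411543476024,-44855892049,-86115369731,0,419285289,401380560],3,[⟨[225179984030162,-1313709746176,-1082593335487,-43261999223,30186401648,23630892408],⟨0,134531522363392,636125761969801,[[8547767430039663,-277248482582733,39263585018533,-12030065376804,8983469871417,14047824543533],[12417581572196408,-67682578982081,311215784976747,-13350812425397,35523072832098,34866746707423],[4106690117231542,321421333483194,305225598806780,2925333304187,34791969109345,24520352375760],[-122921401524337,127667175091466,7885854442956],[0,-7352059806570,-36277417580284,-4356790707401,-8311263752132,-3683975971753],[55338873074502]]⟩,-72121,[⟨-42587,3,(-168225279049728,0),4⟩,⟨-13052,2,(-327654465077248,0),32⟩],11958,[⟨31422,2,(-382630046466048,0),32⟩,⟨50887,3,(-667403558060032,0),1⟩],2,0,[],0,[]⟩,⟨[281474982530852,-2032301144032,-167768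0301211,-68859511606,50697442391,38303068570],⟨2,167841391443968,472041859400747,[[-4053802434449783,-3179668277977,1776241495120814],[-8788935802128272,243364186803667,2723248926374104,0,35654938231162,0],[-12928167076195724,-262284450219980,0],[0],[0],[-3052722244723046]]⟩,-241754,[⟨-154292,4,(2199023255552,-1717986918400),4⟩,⟨-110561,3,(-47278999994368,0),4⟩,⟨-66829,3,(-37383395344384,0),4⟩],48121,[⟨80874,4,(-677299162710016,0),1⟩,⟨113627,4,(-628920651087872,0),3⟩,⟨146380,4,(-597034813882368,0),3⟩,⟨179134,5,(-581641651093504,0),3⟩],5,75395,[⟨99042,4,(0,0),33⟩,⟨122689,4,(0,0),34⟩,⟨169984,5,(0,0),34⟩],111732,[⟨149357,3,(0,0),34⟩,⟨186982,4,(0,0),34⟩]⟩]⟩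
def d_m16384_m12288_40960_45056_0 : sl d_m16384_m12288_40960_45056 0 4 := by decide +kernel
def d_m16384_m12288_40960_45056_4 : sl d_m16384_m12288_40960_45056 4 9 := by decide +kernel
def d_m16384_m12288_40960_45056_9 : sl d_m16384_m12288_40960_45056 9 13 := by decide +kernel
def d_m16384_m12288_40960_45056_13 : sl d_m16384_m12288_40960_45056 13 18 := by decide +kernel
def d_m16384_m12288_40960_45056_18 : sl d_m16384_m12288_40960_45056 18 20 := by decide +kernel
def d_m16384_m12288_40960_45056_20 : sl d_m16384_m12288_40960_45056 20 22 := by decide +kernel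
def d_m16384_m12288_40960_45056_22 : sl d_m16384_m12288_40960_45056 22 24 := by decide +kernel
def d_m16384_m12288_40960_45056_24 : fr d_m16384_m12288_40960_45056 24 := by decide +kernel
theorem f_m16384_m12288_40960_45056 : fr d_m16384_m12288_40960_45056 0 :=
  (d_m16384_m12288_40960_45056_0.fr (d_m16384_m12288_40960_45056_4.fr (d_m16384_m12288_40960_45056_9.fr (d_m16384_m12288_40960_45056_13.fr (d_m16384_m12288_40960_45056_18.fr (d_m16384_m12288_40960_45056_20.fr (d_m16384_m12288_40960_45056_22.fr d_m16384_m12288_40960_45056_24)))))))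

noncomputable def d_m16384_m12288_45056_49152 : Cell :=
  ⟨-61572651155456,8796093022208,202310139510784,8796093022208,⟨0,3080956135079936,-84445549821952⟩,⟨0,2303575644438528,-84442496368640⟩,0,-1,1,13107,1,(-360639813910528,0),⟨0,6292800077824,12590287547197860,[]⟩,[10241251463014,-44025619639,-84525724909,0,411002366,393465628],3,[⟨[225179984713197,-1463537382601,-1337944992915,-45188162759,34841967875,26421625963],⟨0,135005645701120,632900457882121,[[8724289945558995,-319816216267518,53898853625427,-17254221261011,2748549202008,11965904560208],[10001300097038872,-310810970305,388708506262314,-20087483001039,13581000478663,22336256136672],[1488904362357361,304812350748435,323792527890691,660400758104,0,0],[-288533599785035,0,0,0,-18860129115866,-14939191052482],[0,-12655325023066,0],[21818048976043,12484501731136,7771105656855,3673881582140,8128973631973,4571595504002]]⟩,-76094,[⟨-44573,3,(-164926744166400,0),4⟩,⟨-13051,2,(-326554953449472,0),32⟩],11778,[⟨30650,2,(-382630046466048,0),32⟩,⟨49522,3,(-666304046432256,0),1⟩],2,0,[],0,[]⟩,⟨[2814749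84281621,-2274739166419,-2082903160668,-72605225178,59860093935,43777616201],⟨2,168106255122432,471298123106814,[[-5107516583116185,-293388119010938,541673804541057],[-12611982751985580,-392334203604940,1497884738297937,-3683126441990,0,-5652148982168],[-10159702957487434,-172407423499392,851456557094290],[0],[0],[-1268966369008048]]⟩,-203233,[⟨-136684,4,(-36283883716608,0),4⟩,⟨-103410,3,(-48378511622144,0),4⟩,⟨-70135,3,(-35184372088832,0),4⟩],46851,[⟨74840,4,(-675100139454464,0),3⟩,⟨102829,4,(-642114790621184,0),3⟩,⟨130818,4,(-606930418532352,0),3⟩,⟨158808,5,(-589338232487936,0),3⟩],5,50704,[⟨61926,3,(0,0),33⟩,⟨73148,4,(0,0),34⟩,⟨95593,4,(0,0),34⟩,⟨140482,5,(0,0),34⟩],108960,[⟨186982,4,(0,0),34⟩]⟩]⟩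
def d_m16384_m12288_45056_49152_0 : sl d_m16384_m12288_45056_49152 0 4 := by decide +kernel
def d_m16384_m12288_45056_49152_4 : sl d_m16384_m12288_45056_49152 4 9 := by decide +kernel
def d_m16384_m12288_45056_49152_9 : sl d_m16384_m12288_45056_49152 9 13 := by decide +kernel
def d_m16384_m12288_45056_49152_13 : sl d_m16384_m12288_45056_49152 13 18 := by decide +kernel
def d_m16384_m12288_45056_49152_18 : sl d_m16384_m12288_45056_49152 18 21 := by decide +kernel
def d_m16384_m12288_45056_49152_21 : sl d_m16384_m12288_45056_49152 21 23 := by decide +kernel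
def d_m16384_m12288_45056_49152_23 : sl d_m16384_m12288_45056_49152 23 24 := by decide +kernel
def d_m16384_m12288_45056_49152_24 : fr d_m16384_m12288_45056_49152 24 := by decide +kernel
theorem f_m16384_m12288_45056_49152 : fr d_m16384_m12288_45056_49152 0 :=
  (d_m16384_m12288_45056_49152_0.fr (d_m16384_m12288_45056_49152_4.fr (d_m16384_m12288_45056_49152_9.fr (d_m16384_m12288_45056_49152_13.fr (d_m16384_m12288_45056_49152_18.fr (d_m16384_m12288_45056_49152_21.fr (d_m16384_m12288_45056_49152_23.fr d_m16384_m12288_45056_49152_24)))))))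

noncomputable def d_m12288_m8192_40960_43008 : Cell :=
  ⟨-43980465111040,8796093022208,180319906955264,4398046511104,⟨0,1192136892481536,-1046475391893504⟩,⟨0,4503599627370496,-84442496368640⟩,0,-1,1,13107,1,(-378231999954944,0),⟨0,6184807497728,12810125871279237,[[14999354831153881]]⟩,[10364675193399,-45065113669,-42837063460,0,210689173,99793882],3,[⟨[225179983347919,-1592896163874,-578063686384,-46867040126,17365893364,6139699134],⟨0,129312856735744,664366532793855,[[14218081925804348,-706539900042467,4709259962810,-48604886601512,-2038759615585,5862293750908],[22706061336369922,-533627004250355,259454906489437,-80136180834631,10172078723920,14314701174617],[9415823669025461,480423303546070,345918078029031,0,18748387703740,9639699382259],[191252015962883,364403818020850,76236425794550,42257257005829,0,0],[-326606173438079,0,-24685037155949,0,-6603110512033,-1174680137601],[-18067064337210,-18384859653733,-662653084114,-10522948879908,0,0]]⟩,-72620,[⟨-42836,3,(-194613558116352,0),4⟩,⟨-13052,2,(-349644697632768,0),32⟩],11959,[⟨31091,2,(-3969236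97627136,0),32⟩,⟨50224,3,(-678398674337792,0),1⟩],2,0,[],0,[]⟩,⟨[281474981195720,-2494239813373,-898788197327,-76088193549,29951886999,10039582385],⟨2,164846498873344,480617805315403,[[-25847846182110671,-1873565012461871,0],[-31637553160093120,-811961636198580,264045741572],[-16135308041122679]]⟩,-280276,[⟨-253834,4,(-18691697672192,0),4⟩,⟨-227391,4,(-26388279066624,0),4⟩,⟨-174506,4,(-42880953483264,0),4⟩,⟨-121621,4,(-68169720922112,0),4⟩,⟨-95178,3,(-76965813944320,0),4⟩,⟨-68735,3,(-58274116272128,0),4⟩],48287,[⟨82771,4,(-686095255732224,0),1⟩,⟨117256,4,(-630020162715648,0),3⟩,⟨151741,5,(-598134325510144,0),3⟩,⟨186226,5,(-581641651093504,0),3⟩],5,96150,[⟨123532,4,(0,0),34⟩,⟨150915,4,(0,0),34⟩,⟨205680,5,(0,0),34⟩],116156,[⟨186982,4,(0,0),34⟩]⟩]⟩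
def d_m12288_m8192_40960_43008_0 : sl d_m12288_m8192_40960_43008 0 4 := by decide +kernel
def d_m12288_m8192_40960_43008_4 : sl d_m12288_m8192_40960_43008 4 9 := by decide +kernel
def d_m12288_m8192_40960_43008_9 : sl d_m12288_m8192_40960_43008 9 13 := by decide +kernel
def d_m12288_m8192_40960_43008_13 : sl d_m12288_m8192_40960_43008 13 17 := by decide +kernel
def d_m12288_m8192_40960_43008_17 : sl d_m12288_m8192_40960_43008 17 22 := by decide +kernel
def d_m12288_m8192_40960_43008_22 : sl d_m12288_m8192_40960_43008 22 23 := by decide +kernel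
def d_m12288_m8192_40960_43008_23 : sl d_m12288_m8192_40960_43008 23 25 := by decide +kernel
def d_m12288_m8192_40960_43008_25 : sl d_m12288_m8192_40960_43008 25 26 := by decide +kernel
def d_m12288_m8192_40960_43008_26 : fr d_m12288_m8192_40960_43008 26 := by decide +kernel
theorem f_m12288_m8192_40960_43008 : fr d_m12288_m8192_40960_43008 0 :=
  (d_m12288_m8192_40960_43008_0.fr (d_m12288_m8192_40960_43008_4.fr (d_m12288_m8192_40960_43008_9.fr (d_m12288_m8192_40960_43008_13.fr (d_m12288_m8192_40960_43008_17.fr (d_m12288_m8192_40960_43008_22.fr (d_m12288_m8192_40960_43008_23.fr (d_m12288_m8192_40960_43008_25.fr d_m12288_m8192_40960_43008_26))))))))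

noncomputable def d_m12288_m8192_43008_45056 : Cell :=
  ⟨-43980465111040,8796093022208,189115999977472,4398046511104,⟨0,3628693314338816,-84442496368640⟩,⟨0,2156567503831040,-84442496368640⟩,0,-1,1,13107,1,(-378231999954944,0),⟨0,6237197893632,12702525071808116,[]⟩,[10279569784790,-44645829575,-42439868485,0,208596847,98805090],3,[⟨[225179983548550,-1677307825181,-642609775335,-48089483471,18751820980,6497405745],⟨0,129474423750656,663020371620084,[[8189965391376474,-445175106783409,-138796247823,-29321251271888,-3001276761740,2410307341411],[9534625074816246,-193434512065358,153610061475445,-39494136295586,1692613341103,4514282163575],[1709252098579610,245038418466381,148380452391875,0,6421803359740,0],[-125314050183771,0,0,5442724185908,0,-2970589764770],[0,-38046387650059,0,-4956230304590,0,0],[16762716791177,0,5181699929778,0,1798705108567,868556085212]]⟩,-74593,[⟨-43822,3,(-193514046488576,0),4⟩,⟨-13051,2,(-349644697632768,0),32⟩],11869,[⟨30707,2,(-396923697627136,0),32⟩,⟨49545,3,(-678398674337792,0),1⟩],2,0,[],0,[]⟩,⟨[281474981737327,-2634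601537485,-1001533434055,-78546461863,32744642528,10745735642],⟨2,164954629210112,480302752911452,[[-6341189499360084,-140609765503678,593665850564648],[-16817866061998540,-43228605104014,890370701118525,0,10748615098079,-184518587862],[-13806010784490654],[0],[0,0,196171193982165],[-1977528004150791,-4920517674997,0]]⟩,-259949,[⟨-212577,4,(-28587302322176,0),4⟩,⟨-165205,4,(-48378511622144,0),4⟩,⟨-117833,4,(-71468255805440,0),4⟩,⟨-94147,3,(-75866302316544,0),4⟩,⟨-70460,3,(-58274116272128,0),4⟩],47639,[⟨79429,4,(-684995744104448,0),1⟩,⟨111219,4,(-636617232482304,0),3⟩,⟨143009,4,(-602532372021248,0),3⟩,⟨174799,5,(-586039697604608,0),3⟩],5,81069,[⟨94308,4,(0,0),33⟩,⟨107547,4,(0,0),34⟩,⟨134025,4,(0,0),34⟩,⟨186982,5,(0,0),34⟩],114480,[⟨186982,4,(0,0),34⟩]⟩]⟩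
def d_m12288_m8192_43008_45056_0 : sl d_m12288_m8192_43008_45056 0 4 := by decide +kernel
def d_m12288_m8192_43008_45056_4 : sl d_m12288_m8192_43008_45056 4 9 := by decide +kernel
def d_m12288_m8192_43008_45056_9 : sl d_m12288_m8192_43008_45056 9 13 := by decide +kernel
def d_m12288_m8192_43008_45056_13 : sl d_m12288_m8192_43008_45056 13 17 := by decide +kernel
def d_m12288_m8192_43008_45056_17 : sl d_m12288_m8192_43008_45056 17 22 := by decide +kernel
def d_m12288_m8192_43008_45056_22 : sl d_m12288_m8192_43008_45056 22 23 := by decide +kernel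
def d_m12288_m8192_43008_45056_23 : sl d_m12288_m8192_43008_45056 23 25 := by decide +kernel
def d_m12288_m8192_43008_45056_25 : sl d_m12288_m8192_43008_45056 25 26 := by decide +kernel
def d_m12288_m8192_43008_45056_26 : fr d_m12288_m8192_43008_45056 26 := by decide +kernel
theorem f_m12288_m8192_43008_45056 : fr d_m12288_m8192_43008_45056 0 :=
  (d_m12288_m8192_43008_45056_0.fr (d_m12288_m8192_43008_45056_4.fr (d_m12288_m8192_43008_45056_9.fr (d_m12288_m8192_43008_45056_13.fr (d_m12288_m8192_43008_45056_17.fr (d_m12288_m8192_43008_45056_22.fr (d_m12288_m8192_43008_45056_23.fr (d_m12288_m8192_43008_45056_25.fr d_m12288_m8192_43008_45056_26))))))))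

noncomputable def d_m12288_m8192_45056_47104 : Cell :=
  ⟨-43980465111040,8796093022208,197912092999680,4398046511104,⟨0,3363298695184384,-84442496368640⟩,⟨0,3719029361475584,-84442496368640⟩,0,-1,1,13107,1,(-378231999954944,0),⟨0,6290085511168,12595721018926519,[]⟩,[10195253240488,-44230708463,-42046608219,0,206526170,97826512],3,[⟨[225179983782712,-1766238912653,-709217045706,-49434497985,20307711255,6908420867],⟨0,129650417598464,661600920776108,[[11700325632595082,-673011156928088,1933349561757,-45455077805566,-5977612163786,3170620097384],[13805649260457459,-305963738075482,236698911107865,-61703695698580,0,6039477498158],[2633393741448894,361611591926892,228538326593272,0,8656018524169,0],[-159941429114885,0,0,9367844879100,0,-4051819369631],[0,-60178135710777,0,-7219991963678,0,0],[28937225380127,0,9246208890431,0,2792754948047,1188759273814]]⟩,-76723,[⟨-44887,3,(-191315023233024,0),4⟩,⟨-13051,2,(-348545186004992,0),32⟩],11780,[⟨30335,2,(-396923697627136,0),32⟩,⟨48890,3,(-677299162710016,0),1⟩],2,0,[],0,[]⟩,⟨[281474982382691,-2783941470668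,-1108319200689,-81280371967,35920046399,11565894206],⟨2,165068710805504,479970808073806,[[-9163399533468795,-418302795562927,527584177111947],[-24935824703363122,-663704194526382,1181993988996944,0,6588092846213,-1597742005121],[-20281592219063724,-356502093622812,550382505004183],[0],[0,0,22423431320305],[-2942544950485866]]⟩,-241754,[⟨-157033,4,(-43980465111040,0),4⟩,⟨-114672,4,(-73667279060992,0),4⟩,⟨-93492,3,(-75866302316544,0),4⟩,⟨-72311,3,(-59373627899904,0),4⟩],47013,[⟨76734,4,(-684995744104448,0),1⟩,⟨106456,4,(-643214302248960,0),3⟩,⟨136178,4,(-606930418532352,0),3⟩,⟨165900,5,(-589338232487936,0),3⟩],5,67855,[⟨74238,4,(0,0),33⟩,⟨80621,4,(0,0),34⟩,⟨93387,4,(0,0),34⟩,⟨118919,4,(0,0),34⟩,⟨169984,5,(0,0),34⟩],113826,[⟨186982,4,(0,0),34⟩]⟩]⟩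
def d_m12288_m8192_45056_47104_0 : sl d_m12288_m8192_45056_47104 0 4 := by decide +kernel
def d_m12288_m8192_45056_47104_4 : sl d_m12288_m8192_45056_47104 4 9 := by decide +kernel
def d_m12288_m8192_45056_47104_9 : sl d_m12288_m8192_45056_47104 9 13 := by decide +kernel
def d_m12288_m8192_45056_47104_13 : sl d_m12288_m8192_45056_47104 13 18 := by decide +kernel
def d_m12288_m8192_45056_47104_18 : sl d_m12288_m8192_45056_47104 18 22 := by decide +kernel
def d_m12288_m8192_45056_47104_22 : sl d_m12288_m8192_45056_47104 22 23 := by decide +kernel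
def d_m12288_m8192_45056_47104_23 : sl d_m12288_m8192_45056_47104 23 25 := by decide +kernel
def d_m12288_m8192_45056_47104_25 : sl d_m12288_m8192_45056_47104 25 26 := by decide +kernel
def d_m12288_m8192_45056_47104_26 : fr d_m12288_m8192_45056_47104 26 := by decide +kernel
theorem f_m12288_m8192_45056_47104 : fr d_m12288_m8192_45056_47104 0 :=
  (d_m12288_m8192_45056_47104_0.fr (d_m12288_m8192_45056_47104_4.fr (d_m12288_m8192_45056_47104_9.fr (d_m12288_m8192_45056_47104_13.fr (d_m12288_m8192_45056_47104_18.fr (d_m12288_m8192_45056_47104_22.fr (d_m12288_m8192_45056_47104_23.fr (d_m12288_m8192_45056_47104_25.fr d_m12288_m8192_45056_47104_26))))))))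

noncomputable def d_m12288_m8192_47104_49152 : Cell :=
  ⟨-43980465111040,8796093022208,206708186021888,4398046511104,⟨0,4348297904914432,-84442496368640⟩,⟨0,4292051013206016,-84442496368640⟩,0,-1,1,13107,1,(-378231999954944,0),⟨0,6343475462144,12489709009028834,[]⟩,[10111717747480,-43819707268,-41657242022,0,204476911,96858040],3,[⟨[225179984057546,-1860270565415,-778203517395,-50918337715,22059656195,7379680404],⟨0,129846677733376,660077276954286,[[16242365604288804,-993062830937985,7784581583253,-64986741210303,-11499581371393,3735605126225],[19608927639961411,-523242983893773,354226417943496,-84295990629307,-6452404480133,7171294086330],[4163418192225669,435105141896471,339930958171801,0,8626260134842,0],[-123461766535396,0,0,0,0,-4780382937526],[0,-21437297903217,0,-19830025111313,0,0],[38890841891257,36392082787077,15316608897753,0,3751893789543,1356619607860]]⟩,-79034,[⟨-46043,3,(-190215511605248,0),4⟩,⟨-13051,2,(-348545186004992,0),32⟩],11692,[⟨29975,2,(-395824185999360,0),32⟩,⟨48259,3,(-677299162710016,0),1⟩],2,0,[],0,[]⟩,⟨[2814749831577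25,-2943544205338,-1219826092336,-84332526138,39546804238,12517894183],⟨2,165191832174592,479613074521121,[[-12325348473129595,-597314649800061,354341950704332,0,1788744852262,0],[-33099334001861101,-1131264778485784,1464488270116899,-8742654757503,0,0],[-27760003447796568,-639685121380261,1184017238830892],[-2294512195574594],[0],[-3112697243221990]]⟩,-224747,[⟨-149525,4,(-49478023249920,0),4⟩,⟨-111914,4,(-74766790688768,0),4⟩,⟨-74303,3,(-69269232549888,0),4⟩],46408,[⟨74483,4,(-683896232476672,0),3⟩,⟨102559,4,(-648711860387840,0),3⟩,⟨130634,4,(-611328465043456,0),3⟩,⟨158710,5,(-592636767371264,0),3⟩],5,56072,[⟨59148,3,(0,0),33⟩,⟨62225,3,(0,0),33⟩,⟨68379,4,(0,0),33⟩,⟨80686,4,(0,0),34⟩,⟨105301,4,(0,0),34⟩,⟨154530,5,(0,0),34⟩],113842,[⟨186982,4,(0,0),34⟩]⟩]⟩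
def d_m12288_m8192_47104_49152_0 : sl d_m12288_m8192_47104_49152 0 4 := by decide +kernel
def d_m12288_m8192_47104_49152_4 : sl d_m12288_m8192_47104_49152 4 9 := by decide +kernel
def d_m12288_m8192_47104_49152_9 : sl d_m12288_m8192_47104_49152 9 13 := by decide +kernel
def d_m12288_m8192_47104_49152_13 : sl d_m12288_m8192_47104_49152 13 18 := by decide +kernel
def d_m12288_m8192_47104_49152_18 : sl d_m12288_m8192_47104_49152 18 22 := by decide +kernel
def d_m12288_m8192_47104_49152_22 : sl d_m12288_m8192_47104_49152 22 23 := by decide +kernel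
def d_m12288_m8192_47104_49152_23 : sl d_m12288_m8192_47104_49152 23 25 := by decide +kernel
def d_m12288_m8192_47104_49152_25 : sl d_m12288_m8192_47104_49152 25 26 := by decide +kernel
def d_m12288_m8192_47104_49152_26 : fr d_m12288_m8192_47104_49152 26 := by decide +kernel
theorem f_m12288_m8192_47104_49152 : fr d_m12288_m8192_47104_49152 0 :=
  (d_m12288_m8192_47104_49152_0.fr (d_m12288_m8192_47104_49152_4.fr (d_m12288_m8192_47104_49152_9.fr (d_m12288_m8192_47104_49152_13.fr (d_m12288_m8192_47104_49152_18.fr (d_m12288_m8192_47104_49152_22.fr (d_m12288_m8192_47104_49152_23.fr (d_m12288_m8192_47104_49152_25.fr d_m12288_m8192_47104_49152_26))))))))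

noncomputable def d_m8192_m6144_36864_38912 : Cell :=
  ⟨-30786325577728,4398046511104,162727720910848,4398046511104,⟨0,4503599627370496,0⟩,⟨0,214688235257856,-962984583102464⟩,1265018192527360,-1,1,13107,1,(-391426139488256,0),⟨0,6105671925760,12976157807561573,[[23167345407834526]]⟩,[10468549054321,-22958172697,-43321012723,0,107469853,100997252],3,[⟨[225179981582409,-843753002571,-504898607206,-12048228567,8600377726,5824277294],⟨0,126204699803648,683090006521121,[[9140589535164744,-292164120915885,-20953118255096,-12299917924616,-2845837155784,3500732228062],[15610973336659948,-345569095508804,112897317881904,-26311467657548,-925115251286,9808639471230],[6898296785584438,49162453819904,212595529078091,-13403383252963,7813994552104,7846315950383],[78325699936874,119352364627953,72668941894519,2370876763844,6654100957607,0],[-162972465150443,0,-11187861068926,0,0,-1539171839957],[-5074678758827,-7686204678605,-886508688467,-1731275578984,-737553402798,0]]⟩,-70305,[⟨-41679,3,(-218802813927424,0),4⟩,⟨-13052,2,(-368336395304960,0),32⟩],12098,[⟨315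43,2,(-406819302277120,0),32⟩,⟨50989,3,(-686095255732224,0),1⟩],2,0,[],0,[]⟩,⟨[281474977206685,-1329239462374,-784928312257,-19726610701,14875482600,9433701321],⟨2,162925086703616,486285839102900,[[-19164040648265081,1615131803496206,5362119887768205,-282773421279665,75994183162568,-19243305938298],[-48795674560420449,-2351556755172876,-832619040079073,337401702266605,0,0],[-36377052843745850,-2302096856525916,-4686365211059054,0,-53825334047951,0],[66338215896690469,2519762502661259,1866213954837304],[0,0,0,0,-30266709370678,0],[-16231074639832781,0,761711395535005,-109547574621504,0,-30306034745747]]⟩,-359903,[⟨-286792,4,(30786325577728,-1443109011456),4⟩,⟨-213680,4,(-36283883716608,0),4⟩,⟨-140568,4,(-79164837199872,0),4⟩,⟨-104012,3,(-105553116266496,0),4⟩,⟨-67456,3,(-89060441849856,0),4⟩],49443,[⟨71724,4,(-690493302243328,0),1⟩,⟨94005,4,(-664105023176704,0),1⟩,⟨138568,4,(-614626999926784,0),1⟩,⟨183130,5,(-586039697604608,0),1⟩,⟨227693,5,(-573945069699072,0),3⟩],5,145916,[⟨197394,4,(0,0),34⟩,⟨248873,5,(0,0),34⟩],127819,[⟨186982,4,(0,0),34⟩]⟩]⟩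
def d_m8192_m6144_36864_38912_0 : sl d_m8192_m6144_36864_38912 0 4 := by decide +kernel
def d_m8192_m6144_36864_38912_4 : sl d_m8192_m6144_36864_38912 4 9 := by decide +kernel
def d_m8192_m6144_36864_38912_9 : sl d_m8192_m6144_36864_38912 9 13 := by decide +kernel
def d_m8192_m6144_36864_38912_13 : sl d_m8192_m6144_36864_38912 13 17 := by decide +kernel
def d_m8192_m6144_36864_38912_17 : sl d_m8192_m6144_36864_38912 17 22 := by decide +kernel
def d_m8192_m6144_36864_38912_22 : sl d_m8192_m6144_36864_38912 22 24 := by decide +kernel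
def d_m8192_m6144_36864_38912_24 : sl d_m8192_m6144_36864_38912 24 25 := by decide +kernel
def d_m8192_m6144_36864_38912_25 : fr d_m8192_m6144_36864_38912 25 := by decide +kernel
theorem f_m8192_m6144_36864_38912 : fr d_m8192_m6144_36864_38912 0 :=
  (d_m8192_m6144_36864_38912_0.fr (d_m8192_m6144_36864_38912_4.fr (d_m8192_m6144_36864_38912_9.fr (d_m8192_m6144_36864_38912_13.fr (d_m8192_m6144_36864_38912_17.fr (d_m8192_m6144_36864_38912_22.fr (d_m8192_m6144_36864_38912_24.fr d_m8192_m6144_36864_38912_25)))))))

noncomputable def d_m8192_m6144_38912_40960 : Cell :=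
  ⟨-30786325577728,4398046511104,171523813933056,4398046511104,⟨0,3981615072018432,-84445415604224⟩,⟨0,1448297331949568,-84442496368640⟩,0,-1,1,13107,1,(-391426139488256,0),⟨0,6157310885888,12867331805052114,[]⟩,[10382482463284,-22744302138,-42919029149,0,106401690,99996040],3,[⟨[225179981609719,-887600085775,-567935755750,-12376663247,9292620852,6131206062],⟨0,126289076879360,682110931742175,[[6006895740106806,-210636621406650,-19477202225968,-7556798300253,-2729516190143,1850048637854],[6974655417000257,-146592890978658,84342046042487,-10580501119195,-2665436606719,3534725781996],[1317181077256005,60012231409285,101306671369427,0,686225912094,0],[-25878201333147,0,0,2288385528067,0,-2457561821528],[0,-16561324105980,-6155602909556,-791501886622,0,0],[9115829715605,-2189073939280,0,0,656132876019,772812504762]]⟩,-72115,[⟨-42584,3,(-217703302299648,0),4⟩,⟨-13052,2,(-368336395304960,0),32⟩],12006,[⟨31141,2,(-406819302277120,0),32⟩,⟨50276,3,(-686095255732224,0),1⟩],2,0,[],0,[]⟩,⟨[281474977281246,-1403089481102,-884830176076,-20398939901,16280718935,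10036936450],⟨2,162998096166912,486068023956292,[[-3926533830621618,-56137021099119,621450053965695,0,0,-175081905716],[-13884434136996752,0,920571697434853,0,5109028310098,0],[-14114002265958066],[0],[0,0,194295264511537],[-3102286828297039,-27646849996370,0,0,0,-136663142363]]⟩,-328474,[⟨-296052,4,(-15393162788864,0),4⟩,⟨-263630,4,(-25288767438848,0),4⟩,⟨-198786,4,(-46179488366592,0),4⟩,⟨-133942,4,(-85761906966528,0),4⟩,⟨-101520,3,(-105553116266496,0),4⟩,⟨-69097,3,(-89060441849856,0),4⟩],48759,[⟨87735,4,(-704786953404416,0),1⟩,⟨126711,4,(-624522604576768,0),1⟩,⟨165687,5,(-592636767371264,0),3⟩,⟨204664,5,(-578343116210176,0),3⟩],5,122929,[⟨174588,4,(0,0),34⟩,⟨226248,5,(0,0),34⟩],121274,[⟨186982,4,(0,0),34⟩]⟩]⟩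
def d_m8192_m6144_38912_40960_0 : sl d_m8192_m6144_38912_40960 0 4 := by decide +kernel
def d_m8192_m6144_38912_40960_4 : sl d_m8192_m6144_38912_40960 4 9 := by decide +kernel
def d_m8192_m6144_38912_40960_9 : sl d_m8192_m6144_38912_40960 9 13 := by decide +kernel
def d_m8192_m6144_38912_40960_13 : sl d_m8192_m6144_38912_40960 13 17 := by decide +kernel
def d_m8192_m6144_38912_40960_17 : sl d_m8192_m6144_38912_40960 17 22 := by decide +kernel
def d_m8192_m6144_38912_40960_22 : sl d_m8192_m6144_38912_40960 22 24 := by decide +kernel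
def d_m8192_m6144_38912_40960_24 : sl d_m8192_m6144_38912_40960 24 25 := by decide +kernel
def d_m8192_m6144_38912_40960_25 : fr d_m8192_m6144_38912_40960 25 := by decide +kernel
theorem f_m8192_m6144_38912_40960 : fr d_m8192_m6144_38912_40960 0 :=
  (d_m8192_m6144_38912_40960_0.fr (d_m8192_m6144_38912_40960_4.fr (d_m8192_m6144_38912_40960_9.fr (d_m8192_m6144_38912_40960_13.fr (d_m8192_m6144_38912_40960_17.fr (d_m8192_m6144_38912_40960_22.fr (d_m8192_m6144_38912_40960_24.fr d_m8192_m6144_38912_40960_25)))))))

noncomputable def d_m8192_m6144_40960_45056 : Cell :=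
  ⟨-30786325577728,4398046511104,184717953466368,8796093022208,⟨0,3312497822007296,-84445499490304⟩,⟨0,2959284006551552,-84442496368640⟩,0,-1,1,13107,1,(-391426139488256,0),⟨0,6262062776320,12652086877310196,[]⟩,[10254870497531,-22427946025,-84647871218,0,209642645,394057401],3,[⟨[225179982006355,-958062351087,-1331915483146,-12933672173,20986560086,26734387866],⟨0,132039453769728,648642505444080,[[8994429370744942,-338364281129650,-34237702081441,-13304971471484,-10926661285152,8844359955917],[10798414432718570,-244063382544994,336067467553455,-17821860826741,-12870202317619,17371156250993],[2315754665463388,89856613284510,373932791508743],[0,0,0,0,0,-12338452066592],[0,-22457095787122,-28997716825466,-4629351713529,0,0],[18485760324581,0,0,0,2049843396795,3823080405316]]⟩,-76118,[⟨-44585,3,(-215504279044096,0),4⟩,⟨-13051,2,(-367236883677184,0),32⟩],11823,[⟨30757,2,(-406819302277120,0),32⟩,⟨49691,3,(-686095255732224,0),1⟩],2,0,[],0,[]⟩,⟨[281474978327290,-1523436697918,-2082946409215,-21556954344,37518741080,44545290795],⟨2,166418448515072,4760780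02210494,[[-7688146810466932,-72728890455842,1650666160546550],[-23598597643947279,0,2360169468394592,0,8753744863834,0],[-21202531990377772],[0],[0,0,455644671264381],[-3970595280912085,-33229770859290,0]]⟩,-304375,[⟨-246015,4,(-26388279066624,0),4⟩,⟨-187655,4,(-53876069761024,0),4⟩,⟨-129295,4,(-91259465105408,0),4⟩,⟨-100115,3,(-105553116266496,0),4⟩,⟨-70935,3,(-89060441849856,0),4⟩],47383,[⟨82830,4,(-691592813871104,0),1⟩,⟨118277,4,(-633318697598976,0),3⟩,⟨153724,5,(-599233837137920,0),3⟩,⟨189172,5,(-582741162721280,0),3⟩],5,94924,[⟨108768,4,(0,0),33⟩,⟨122613,4,(0,0),34⟩,⟨150302,4,(0,0),34⟩,⟨205680,5,(0,0),34⟩],117994,[⟨186982,4,(0,0),34⟩]⟩]⟩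
def d_m8192_m6144_40960_45056_0 : sl d_m8192_m6144_40960_45056 0 4 := by decide +kernel
def d_m8192_m6144_40960_45056_4 : sl d_m8192_m6144_40960_45056 4 9 := by decide +kernel
def d_m8192_m6144_40960_45056_9 : sl d_m8192_m6144_40960_45056 9 13 := by decide +kernel
def d_m8192_m6144_40960_45056_13 : sl d_m8192_m6144_40960_45056 13 17 := by decide +kernel
def d_m8192_m6144_40960_45056_17 : sl d_m8192_m6144_40960_45056 17 22 := by decide +kernel
def d_m8192_m6144_40960_45056_22 : sl d_m8192_m6144_40960_45056 22 23 := by decide +kernel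
def d_m8192_m6144_40960_45056_23 : sl d_m8192_m6144_40960_45056 23 25 := by decide +kernel
def d_m8192_m6144_40960_45056_25 : sl d_m8192_m6144_40960_45056 25 26 := by decide +kernel
def d_m8192_m6144_40960_45056_26 : fr d_m8192_m6144_40960_45056 26 := by decide +kernel
theorem f_m8192_m6144_40960_45056 : fr d_m8192_m6144_40960_45056 0 :=
  (d_m8192_m6144_40960_45056_0.fr (d_m8192_m6144_40960_45056_4.fr (d_m8192_m6144_40960_45056_9.fr (d_m8192_m6144_40960_45056_13.fr (d_m8192_m6144_40960_45056_17.fr (d_m8192_m6144_40960_45056_22.fr (d_m8192_m6144_40960_45056_23.fr (d_m8192_m6144_40960_45056_25.fr d_m8192_m6144_40960_45056_26))))))))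

end Pool.Agent.Lib.MP_d6150d_an
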