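import Pool.Agent.Lib.MP_d6150d_an.Cells

set_option maxRecDepth 100000
set_option linter.defProp false

namespace Pool.Agent.Lib.MP_d6150d_an

noncomputable def d_m8192_m6144_45056_49152 : Cell :=
  ⟨-30786325577728,4398046511104,202310139510784,8796093022208,⟨0,4503599627370496,-84442496368640⟩,⟨0,4503599627370496,-84442496368640⟩,0,-1,1,13107,1,(-391426139488256,0),⟨0,6368813121536,12440019952408154,[]⟩,[10087478447903,-22012809819,-83087216628,0,205501183,386293204],3,[⟨[225179982259645,-1062322326474,-1609227660641,-13819813588,24940826518,30498563728],⟨0,132501195653120,645362327285624,[[16083706419062681,-683207016128491,-47426694277963,-28309101772156,-27072009065663,3629042553891],[20178970380864658,-541201708730940,689011764132032,-38217002153316,-33512230180275,6330581366940],[4992402134367787,135579480565643,731615978556727],[0,0,0,0,0,-2630932932557],[0,-43616748303552,0,-10224073642275,-6660556043993,0],[82374240091709,0,42360955548986]]⟩,-80847,[⟨-46949,3,(-212205744160768,0),4⟩,⟨-13051,3,(-366137372049408,0),3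2⟩],11647,[⟨30023,2,(-406819302277120,0),32⟩,⟨48400,3,(-686095255732224,0),1⟩],2,0,[],0,[]⟩,⟨[281474979075863,-1705414588430,-2532411192503,-23445636564,45913139894,52200790331],⟨2,166682505314304,475323804211419,[[-15998241976706715,-195895833653161,1385893724486992],[-43035344232225577,-294298065277821,3241310995932874,-712799842662,1513129222836,-9422327662020],[-33464604959197172,-149860330231210,1692501829386601],[0],[0],[-4639938790232620]]⟩,-265854,[⟨-170374,4,(-52776558133248,0),4⟩,⟨-122634,4,(-97856534872064,0),4⟩,⟨-98764,3,(-105553116266496,0),4⟩,⟨-74893,3,(-90159953477632,0),4⟩],46162,[⟨76833,4,(-690493302243328,0),3⟩,⟨107504,4,(-646512837132288,0),3⟩,⟨138175,4,(-609129441787904,0),3⟩,⟨168846,5,(-589338232487936,0),3⟩],5,66328,[⟨73868,4,(0,0),33⟩,⟨81409,4,(0,0),34⟩,⟨96491,4,(0,0),34⟩,⟨126655,4,(0,0),34⟩,⟨186982,5,(0,0),34⟩],115847,[⟨186982,4,(0,0),34⟩]⟩]⟩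
def d_m8192_m6144_45056_49152_0 : sl d_m8192_m6144_45056_49152 0 4 := by decide +kernel
def d_m8192_m6144_45056_49152_4 : sl d_m8192_m6144_45056_49152 4 9 := by decide +kernel
def d_m8192_m6144_45056_49152_9 : sl d_m8192_m6144_45056_49152 9 13 := by decide +kernel
def d_m8192_m6144_45056_49152_13 : sl d_m8192_m6144_45056_49152 13 18 := by decide +kernel
def d_m8192_m6144_45056_49152_18 : sl d_m8192_m6144_45056_49152 18 22 := by decide +kernel
def d_m8192_m6144_45056_49152_22 : sl d_m8192_m6144_45056_49152 22 23 := by decide +kernel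
def d_m8192_m6144_45056_49152_23 : sl d_m8192_m6144_45056_49152 23 25 := by decide +kernel
def d_m8192_m6144_45056_49152_25 : sl d_m8192_m6144_45056_49152 25 26 := by decide +kernel
def d_m8192_m6144_45056_49152_26 : fr d_m8192_m6144_45056_49152 26 := by decide +kernel
theorem f_m8192_m6144_45056_49152 : fr d_m8192_m6144_45056_49152 0 :=
  (d_m8192_m6144_45056_49152_0.fr (d_m8192_m6144_45056_49152_4.fr (d_m8192_m6144_45056_49152_9.fr (d_m8192_m6144_45056_49152_13.fr (d_m8192_m6144_45056_49152_18.fr (d_m8192_m6144_45056_49152_22.fr (d_m8192_m6144_45056_49152_23.fr (d_m8192_m6144_45056_49152_25.fr d_m8192_m6144_45056_49152_26))))))))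

noncomputable def d_m16384_m12288_49152_53248 : Cell :=
  ⟨-61572651155456,8796093022208,219902325555200,8796093022208,⟨0,4155359384043520,-84442496368640⟩,⟨0,4248207987048448,-84442496368640⟩,0,-1,1,13107,1,(-360639813910528,0),⟨0,6400142409728,12379124938588705,[]⟩,[10074100949890,-43211742314,-82967413492,0,402889882,385713354],3,[⟨[225179985661751,-1628179742632,-1610459624812,-47510394288,40702833102,30089892988],⟨0,135576060362752,629247621565230,[[18196091486763410,-733679700777417,136922364248296,-45318552832038,-5897244616932,21858235032945],[21548994551993661,-45319712598748,892576711387202,-53511087429874,8757188019489,41801068166681],[3746547371765942,654535888293814,683122290279600,2117669384249,0,0],[-620592143836602,0,-74875074291058,0,-27562011886249,-28238220960307],[0],[76963339531901,51823825093733,42799355818253,10689935297036,13142444601910,8323245293904]]⟩,-80747,[⟨-46899,3,(-161628209283072,0),4⟩,⟨-13051,3,(-325455441821696,0),32⟩],11604,[⟨29928,2,(-381530534838272,0),32⟩,⟨48253,3,(-666304046432256,0)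,1⟩],3,0,[],0,[]⟩,⟨[281474986809514,-2545571521584,-2521713622276,-77199874462,71660664498,51133104004],⟨2,168409746833408,470448795309328,[[-8407467153056884,-416143715137208,906211797281924],[-23597402423285109,-812431982944160,2936279196429343,-2715984239112,3147096820616,-7264967662029],[-24758596103728444,-526313930258415,2099074691072279],[-7428047676680961],[0,0,0,0,12226487506424,0],[-623029712787255]]⟩,-169756,[⟨-121845,4,(-43980465111040,0),4⟩,⟨-97889,3,(-48378511622144,0),4⟩,⟨-73933,3,(-34084860461056,0),4⟩],45661,[⟨70660,4,(-675100139454464,0),3⟩,⟨95659,4,(-652010395271168,0),3⟩,⟨145657,5,(-603631883649024,0),3⟩],5,31763,[⟨33322,3,(0,0),33⟩,⟨34881,3,(0,0),33⟩,⟨37999,3,(0,0),33⟩,⟨44235,3,(0,0),33⟩,⟨50471,4,(0,0),33⟩,⟨56708,4,(0,0),34⟩,⟨69181,4,(0,0),34⟩,⟨81654,4,(0,0),34⟩,⟨131546,5,(0,0),34⟩],109022,[⟨186982,3,(0,0),34⟩]⟩]⟩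
def d_m16384_m12288_49152_53248_0 : sl d_m16384_m12288_49152_53248 0 4 := by decide +kernel
def d_m16384_m12288_49152_53248_4 : sl d_m16384_m12288_49152_53248 4 9 := by decide +kernel
def d_m16384_m12288_49152_53248_9 : sl d_m16384_m12288_49152_53248 9 13 := by decide +kernel
def d_m16384_m12288_49152_53248_13 : sl d_m16384_m12288_49152_53248 13 18 := by decide +kernel
def d_m16384_m12288_49152_53248_18 : sl d_m16384_m12288_49152_53248 18 22 := by decide +kernel
def d_m16384_m12288_49152_53248_22 : sl d_m16384_m12288_49152_53248 22 25 := by decide +kernel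
def d_m16384_m12288_49152_53248_25 : sl d_m16384_m12288_49152_53248 25 27 := by decide +kernel
def d_m16384_m12288_49152_53248_27 : sl d_m16384_m12288_49152_53248 27 28 := by decide +kernel
def d_m16384_m12288_49152_53248_28 : fr d_m16384_m12288_49152_53248 28 := by decide +kernel
theorem f_m16384_m12288_49152_53248 : fr d_m16384_m12288_49152_53248 0 :=
  (d_m16384_m12288_49152_53248_0.fr (d_m16384_m12288_49152_53248_4.fr (d_m16384_m12288_49152_53248_9.fr (d_m16384_m12288_49152_53248_13.fr (d_m16384_m12288_49152_53248_18.fr (d_m16384_m12288_49152_53248_22.fr (d_m16384_m12288_49152_53248_25.fr (d_m16384_m12288_49152_53248_27.fr d_m16384_m12288_49152_53248_28))))))))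

noncomputable def d_m16384_m12288_53248_55296 : Cell :=
  ⟨-61572651155456,8796093022208,233096465088512,4398046511104,⟨0,4503599627370496,-84442496368640⟩,⟨0,4503599627370496,-84442496368640⟩,0,-1,1,13107,1,(-360639813910528,0),⟨0,6454580150272,12274719716368511,[]⟩,[9950771607938,-42610999352,-40909018661,0,198455377,95000219],3,[⟨[225179984032485,-1763528716842,-914646587772,-49569786636,23059164029,8392037960],⟨0,129787422048256,659550905863277,[[18930945836004818,-821801425325078,32456213896470,-36651995722265,-8987674196529,2456504410209],[21131242300611715,-40929086397992,277043128209831,0,0,4059516077144],[0,758038134870388,0,61076907035720,13535924085107,0],[-3796426013077359,0,-283989454776920,0,0,-1588151311937],[0],[605787982561345,74502812439280,62293369399359,25209408877726,4750227417815,0]]⟩,-83464,[⟨-48257,3,(3298534883328,0),0⟩,⟨-13050,3,(-324355930193920,0),32⟩],11520,[⟨29232,2,(-381530534838272,0),32⟩,⟨46944,3,(-398023209254912,0),32⟩],3,0,[],0,[]⟩,⟨[281474983027135,-2771830480082,-1439876887751,-81346408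733,41415017812,14569326894],⟨2,165203137527808,479580253070179,[[-10018644994636484,-544021470687560,667728156459900],[-22027730907065114,-1039741694039938,1233729565128820,0,10375816473792,-9287628921347],[-14426675242361562,-650243143840841,369529609630680]]⟩,-169756,[⟨-123984,4,(-43980465111040,0),4⟩,⟨-101098,3,(-48378511622144,0),4⟩,⟨-78212,3,(-37383395344384,0),4⟩],45186,[⟨90732,4,(-647612348760064,-755914244096),3⟩,⟨136278,5,(-610228953415680,0),3⟩],5,26469,[⟨36353,3,(0,0),33⟩,⟨46238,4,(0,0),34⟩,⟨66007,4,(0,0),34⟩,⟨105546,5,(0,0),34⟩],110502,[⟨158091,3,(0,0),34⟩,⟨205680,3,(0,0),34⟩]⟩]⟩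
def d_m16384_m12288_53248_55296_0 : sl d_m16384_m12288_53248_55296 0 4 := by decide +kernel
def d_m16384_m12288_53248_55296_4 : sl d_m16384_m12288_53248_55296 4 9 := by decide +kernel
def d_m16384_m12288_53248_55296_9 : sl d_m16384_m12288_53248_55296 9 13 := by decide +kernel
def d_m16384_m12288_53248_55296_13 : sl d_m16384_m12288_53248_55296 13 18 := by decide +kernel
def d_m16384_m12288_53248_55296_18 : sl d_m16384_m12288_53248_55296 18 19 := by decide +kernel
def d_m16384_m12288_53248_55296_19 : sl d_m16384_m12288_53248_55296 19 21 := by decide +kernel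
def d_m16384_m12288_53248_55296_21 : sl d_m16384_m12288_53248_55296 21 23 := by decide +kernel
def d_m16384_m12288_53248_55296_23 : fr d_m16384_m12288_53248_55296 23 := by decide +kernel
theorem f_m16384_m12288_53248_55296 : fr d_m16384_m12288_53248_55296 0 :=
  (d_m16384_m12288_53248_55296_0.fr (d_m16384_m12288_53248_55296_4.fr (d_m16384_m12288_53248_55296_9.fr (d_m16384_m12288_53248_55296_13.fr (d_m16384_m12288_53248_55296_18.fr (d_m16384_m12288_53248_55296_19.fr (d_m16384_m12288_53248_55296_21.fr d_m16384_m12288_53248_55296_23)))))))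

noncomputable def d_m16384_m12288_55296_57344 : Cell :=
  ⟨-61572651155456,8796093022208,241892558110720,4398046511104,⟨0,3989977373343744,0⟩,⟨0,4026931271958528,0⟩,0,-1,1,13107,1,(-360639813910528,0),⟨0,6509535887360,12171092333635765,[]⟩,[9869495490569,-42216056244,-40530899238,0,196489537,94060901],3,[⟨[225179984364654,-1860789370729,-991914823876,-51131178051,25171180698,9079576120],⟨0,130012192112640,657895262767012,[[14513155758868207,-636069076976729,27462158292712,-32971351158531,-6963928656457,-787768959993],[16106842726121118,0,211385661002532,-3803319749309,0,0],[0,604712496994862,0,50399470958809,9193076713000,1433767974692],[-2766142566776213,0,-199737769324861],[0],[414003738701179,46918187703281,34189329403209,21821807714936,2316862888061,690293353388]]⟩,-86394,[⟨-49722,3,(-3298534883328,0),0⟩,⟨-13050,3,(-323256418566144,0),32⟩],11436,[⟨28907,2,(-381530534838272,0),32⟩,⟨46379,3,(-396923697627136,0),32⟩],3,0,[],0,[]⟩,⟨[281474983975008,-2936659501736,-1568097117797,-84538625076,45860911889,16011488947],⟨2,16534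0497444864,479181832197868,[[-10032397402176233,1427604293246115,2197237623983211,0,0,-5333232037043],[3996305177398332,1873192635758199,734000454464157,222590487646854,67993927271379,0],[-44444828791083949,-3084968147181256,0,-184570017823256,112283107964015,0],[0],[0,-681529129776839,-1152563302489221],[17477901633010655,0,-618726102533707,0,0,64927866012726]]⟩,-169756,[⟨-125225,4,(-43980465111040,0),4⟩,⟨-80694,3,(-46179488366592,0),4⟩],44639,[⟨66605,4,(-674000627826688,0),3⟩,⟨88572,4,(-665204534804480,0),3⟩,⟨132505,5,(-613527488299008,0),3⟩],5,21175,[⟨31721,3,(0,0),34⟩,⟨42267,4,(0,0),34⟩,⟨63360,4,(0,0),34⟩,⟨105546,5,(0,0),34⟩],111575,[⟨158627,3,(0,0),34⟩,⟨205680,3,(0,0),34⟩]⟩]⟩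
def d_m16384_m12288_55296_57344_0 : sl d_m16384_m12288_55296_57344 0 4 := by decide +kernel
def d_m16384_m12288_55296_57344_4 : sl d_m16384_m12288_55296_57344 4 9 := by decide +kernel
def d_m16384_m12288_55296_57344_9 : sl d_m16384_m12288_55296_57344 9 13 := by decide +kernel
def d_m16384_m12288_55296_57344_13 : sl d_m16384_m12288_55296_57344 13 18 := by decide +kernel
def d_m16384_m12288_55296_57344_18 : sl d_m16384_m12288_55296_57344 18 19 := by decide +kernel
def d_m16384_m12288_55296_57344_19 : sl d_m16384_m12288_55296_57344 19 21 := by decide +kernel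
def d_m16384_m12288_55296_57344_21 : sl d_m16384_m12288_55296_57344 21 23 := by decide +kernel
def d_m16384_m12288_55296_57344_23 : fr d_m16384_m12288_55296_57344 23 := by decide +kernel
theorem f_m16384_m12288_55296_57344 : fr d_m16384_m12288_55296_57344 0 :=
  (d_m16384_m12288_55296_57344_0.fr (d_m16384_m12288_55296_57344_4.fr (d_m16384_m12288_55296_57344_9.fr (d_m16384_m12288_55296_57344_13.fr (d_m16384_m12288_55296_57344_18.fr (d_m16384_m12288_55296_57344_19.fr (d_m16384_m12288_55296_57344_21.fr d_m16384_m12288_55296_57344_23)))))))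

noncomputable def d_m12288_m8192_49152_51200 : Cell :=
  ⟨-43980465111040,8796093022208,215504279044096,4398046511104,⟨0,2246521298878464,0⟩,⟨0,3915906367356928,0⟩,0,-1,1,13107,1,(-378231999954944,0),⟨0,6397372727296,12384484353700910,[]⟩,[10028955573436,-43412783379,-41271729687,0,202448843,95899566],3,[⟨[225179984382237,-1960083661200,-849934721020,-52560539017,24039678348,7919736236],⟨0,130061631422464,658459757115993,[[7867405581150854,-473616209493508,3590750077393,-24238606890890,-5996482136775,1113032555911],[8553163583746522,-169682465990716,112794367739887,0,0,1902587864072],[0,285561576191994,0,40918415186066,9163407460496,0],[-1312470259183101,0,-123472103534384,0,0,-784608918193],[0],[189905137189514,29931699041844,25578280325443,17157040001064,3282996219604,0]]⟩,-81552,[⟨-47302,3,(-188016488349696,0),4⟩,⟨-13051,3,(-347445674377216,0),32⟩],11605,[⟨29627,2,(-395824185999360,0),32⟩,⟨47650,3,(-677299162710016,0),1⟩],2,0,[],0,[]⟩,⟨[281474984096949,-3114944597757,-1336856070530,-87755289143,43711478770,13624315174],⟨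2,165325369835520,479225678471202,[[-4083673763859930,1097859112945083,2274188116108685,33362886707148,164207996481935,143341247039187],[-10968593311548825,1158399980234757,464362791418789],[-32873524318382419,-3361993956473580,-2273917057347843,-66978615480396,-153558490775485,-168825239179929],[25326456305797994],[0],[397417035622393,717282071807731,344678744178064,0,40529813131688,16509348599426]]⟩,-208277,[⟨-142366,4,(-54975581388800,0),4⟩,⟨-76455,4,(-76965813944320,0),4⟩],45821,[⟨72552,4,(-683896232476672,0),3⟩,⟨99284,4,(-653109906898944,0),3⟩,⟨152748,5,(-603631883649024,0),3⟩],5,45467,[⟨57343,4,(0,0),33⟩,⟨69220,4,(0,0),34⟩,⟨92974,4,(0,0),34⟩,⟨140482,5,(0,0),34⟩],114329,[⟨160004,3,(0,0),34⟩,⟨205680,4,(0,0),34⟩]⟩]⟩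
def d_m12288_m8192_49152_51200_0 : sl d_m12288_m8192_49152_51200 0 4 := by decide +kernel
def d_m12288_m8192_49152_51200_4 : sl d_m12288_m8192_49152_51200 4 9 := by decide +kernel
def d_m12288_m8192_49152_51200_9 : sl d_m12288_m8192_49152_51200 9 13 := by decide +kernel
def d_m12288_m8192_49152_51200_13 : sl d_m12288_m8192_49152_51200 13 18 := by decide +kernel
def d_m12288_m8192_49152_51200_18 : sl d_m12288_m8192_49152_51200 18 19 := by decide +kernel
def d_m12288_m8192_49152_51200_19 : sl d_m12288_m8192_49152_51200 19 21 := by decide +kernel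
def d_m12288_m8192_49152_51200_21 : sl d_m12288_m8192_49152_51200 21 23 := by decide +kernel
def d_m12288_m8192_49152_51200_23 : fr d_m12288_m8192_49152_51200 23 := by decide +kernel
theorem f_m12288_m8192_49152_51200 : fr d_m12288_m8192_49152_51200 0 :=
  (d_m12288_m8192_49152_51200_0.fr (d_m12288_m8192_49152_51200_4.fr (d_m12288_m8192_49152_51200_9.fr (d_m12288_m8192_49152_51200_13.fr (d_m12288_m8192_49152_51200_18.fr (d_m12288_m8192_49152_51200_19.fr (d_m12288_m8192_49152_51200_21.fr d_m12288_m8192_49152_51200_23)))))))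

noncomputable def d_m12288_m8192_51200_53248 : Cell :=
  ⟨-43980465111040,8796093022208,224300372066304,4398046511104,⟨0,3224360798126080,0⟩,⟨0,4228592871407616,0⟩,0,-1,1,13107,1,(-378231999954944,0),⟨0,6451782483968,12280042379798903,[]⟩,[9946959065852,-43009894643,-40890031434,0,200441739,94950984],3,[⟨[225179984768743,-2066483066288,-924835780981,-54384786174,26287458597,8539208332],⟨0,130304181338112,656711172451732,[[11208441169630062,-731732528198492,6101986443362,-37199222269011,-8974616214097,1085995288366],[12443188574517776,-325362449161406,172211729236763,0,0,1929505948460],[0,382810511800573,0,63290376198720,13629839851263,0],[-2163652813570545,0,-193672029070387,0,0,-827836436676],[0],[337615666734837,45852978979233,43843619759990,26827107774566,4831780658343,0]]⟩,-84313,[⟨-48682,3,(-26388279066624,0),4⟩,⟨-13050,3,(-346346162749440,0),32⟩],11520,[⟨29291,2,(-395824185999360,0),32⟩,⟨47062,3,(-409018325532672,0),32⟩],3,0,[],0,[]⟩,⟨[281474985247096,-3299995335546,-1460367813274,-91613712844,48524496599,14914051131]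,⟨2,165467722153984,478813399261301,[[-5045828454818305,857791777059712,4104610264830293,0,157969019614614,17151501133686],[-12131652913029610,2706570033121818,540802460784698],[-55238401324876485,-4299424515590329,-4448764538460222,-34323488937363,-31144596668514,0],[34805682582569436,-50594173826429,0],[0],[4437060104318528,0,951560581408031]]⟩,-208277,[⟨-143535,4,(-54975581388800,0),4⟩,⟨-78792,4,(-76965813944320,0),4⟩],45252,[⟨70865,4,(-683896232476672,0),3⟩,⟨96478,4,(-657507953410048,0),3⟩,⟨147705,5,(-606930418532352,0),3⟩],5,38971,[⟨50063,4,(0,0),33⟩,⟨61156,4,(0,0),34⟩,⟨83341,4,(0,0),34⟩,⟨127711,5,(0,0),34⟩],115161,[⟨160420,3,(0,0),34⟩,⟨205680,4,(0,0),34⟩]⟩]⟩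
def d_m12288_m8192_51200_53248_0 : sl d_m12288_m8192_51200_53248 0 4 := by decide +kernel
def d_m12288_m8192_51200_53248_4 : sl d_m12288_m8192_51200_53248 4 9 := by decide +kernel
def d_m12288_m8192_51200_53248_9 : sl d_m12288_m8192_51200_53248 9 13 := by decide +kernel
def d_m12288_m8192_51200_53248_13 : sl d_m12288_m8192_51200_53248 13 18 := by decide +kernel
def d_m12288_m8192_51200_53248_18 : sl d_m12288_m8192_51200_53248 18 19 := by decide +kernel
def d_m12288_m8192_51200_53248_19 : sl d_m12288_m8192_51200_53248 19 21 := by decide +kernel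
def d_m12288_m8192_51200_53248_21 : sl d_m12288_m8192_51200_53248 21 23 := by decide +kernel
def d_m12288_m8192_51200_53248_23 : fr d_m12288_m8192_51200_53248 23 := by decide +kernel
theorem f_m12288_m8192_51200_53248 : fr d_m12288_m8192_51200_53248 0 :=
  (d_m12288_m8192_51200_53248_0.fr (d_m12288_m8192_51200_53248_4.fr (d_m12288_m8192_51200_53248_9.fr (d_m12288_m8192_51200_53248_13.fr (d_m12288_m8192_51200_53248_18.fr (d_m12288_m8192_51200_53248_19.fr (d_m12288_m8192_51200_53248_21.fr d_m12288_m8192_51200_53248_23)))))))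

noncomputable def d_m12288_m8192_53248_55296 : Cell :=
  ⟨-43980465111040,8796093022208,233096465088512,4398046511104,⟨0,-4503599627370496,0⟩,⟨0,2357833966288896,-100402611617792⟩,0,1,1,13107,1,(-378231999954944,0),⟨0,6506709909504,12176378429526702,[]⟩,[9865720651201,-42610999352,-40512107906,0,198455377,94012188],3,[⟨[225179985232857,-2180429443361,-1003407296881,-56420070880,28852710727,9251406713],⟨0,130570671554560,654834570032565,[[-6995841939763805,535070277593048,54980506634460,17798646226546,11325168610383,0],[-7957149444972276,286667511729790,0,0,13551281822655,-264986865018],[0,-275327680802038,0,-29113602395530,0,0],[1594986492031147,0,44586516448154,0,0,255367463191],[0,71049104603984,0],[-283533863808577,0,0,-11546061139778,-2260916287090,0]]⟩,-87357,[⟨-50204,3,(-32985348833280,0),0⟩,⟨-13050,3,(-346346162749440,0),32⟩],11435,[⟨28964,2,(-395824185999360,0),32⟩,⟨46494,3,(-409018325532672,0),32⟩],3,0,[],0,[]⟩,⟨[281474986672607,-3500957672848,-1591525145187,-95989576090,54128741724,16424574467],⟨2,165622475259904,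478366009129594,[[15352813260999385,989798968701361,0,0,-137999929274701,0],[12346255545471127,374237943207817,-321628758334660,0,0,19931851869535],[10766808349530527,0,-754565660324902]]⟩,-208277,[⟨-144809,4,(-54975581388800,0),4⟩,⟨-81341,4,(-76965813944320,0),4⟩],44700,[⟨69367,4,(-683896232476672,0),3⟩,⟨94035,4,(-661905999921152,0),3⟩,⟨143370,5,(-609129441787904,0),3⟩],5,32476,[⟨37042,3,(0,0),33⟩,⟨41609,4,(0,0),33⟩,⟨50743,4,(0,0),33⟩,⟨69011,4,(0,0),34⟩,⟨105546,5,(0,0),34⟩],116253,[⟨160966,3,(0,0),34⟩,⟨205680,3,(0,0),34⟩]⟩]⟩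
def d_m12288_m8192_53248_55296_0 : sl d_m12288_m8192_53248_55296 0 4 := by decide +kernel
def d_m12288_m8192_53248_55296_4 : sl d_m12288_m8192_53248_55296 4 9 := by decide +kernel
def d_m12288_m8192_53248_55296_9 : sl d_m12288_m8192_53248_55296 9 13 := by decide +kernel
def d_m12288_m8192_53248_55296_13 : sl d_m12288_m8192_53248_55296 13 18 := by decide +kernel
def d_m12288_m8192_53248_55296_18 : sl d_m12288_m8192_53248_55296 18 20 := by decide +kernel
def d_m12288_m8192_53248_55296_20 : sl d_m12288_m8192_53248_55296 20 22 := by decide +kernel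
def d_m12288_m8192_53248_55296_22 : sl d_m12288_m8192_53248_55296 22 24 := by decide +kernel
def d_m12288_m8192_53248_55296_24 : fr d_m12288_m8192_53248_55296 24 := by decide +kernel
theorem f_m12288_m8192_53248_55296 : fr d_m12288_m8192_53248_55296 0 :=
  (d_m12288_m8192_53248_55296_0.fr (d_m12288_m8192_53248_55296_4.fr (d_m12288_m8192_53248_55296_9.fr (d_m12288_m8192_53248_55296_13.fr (d_m12288_m8192_53248_55296_18.fr (d_m12288_m8192_53248_55296_20.fr (d_m12288_m8192_53248_55296_22.fr d_m12288_m8192_53248_55296_24)))))))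

noncomputable def d_m12288_m8192_55296_57344 : Cell :=
  ⟨-43980465111040,8796093022208,241892558110720,4398046511104,⟨0,1591238138527744,0⟩,⟨0,-4503599627370496,0⟩,4328343486857216,1,1,13107,1,(-378231999954944,0),⟨0,6562160312320,12073487860511923,[]⟩,[9785232834097,-42216056244,-40137920164,0,196489537,93083076],3,[⟨[225179985795772,-2303081581716,-1086246601082,-58702269363,31798503109,10073202503],⟨0,130870334128128,652801806536383,[[-5623374215498547,471433147976835,22563470455976,32611649983084,5393032553205,41709434548],[-6437077866631995,334492225842101,-52044507837130,40759075728162,0,-129203199091],[0,-121236655944810,0,0,-8452616263379,0],[1323870086557347,0,85440360875732,0,0,161617935798],[0],[-235753769913947,-21148667941845,-19546815729524,-8441106587044,-3153964456081,0]]⟩,-90739,[⟨-51895,3,(-38482906972160,0),0⟩,⟨-13050,3,(-345246651121664,0),32⟩],11352,[⟨28648,2,(-395824185999360,0),32⟩,⟨45945,3,(-409018325532672,0),32⟩],3,0,[],0,[]⟩,⟨[281474988464210,-3720625110145,-1731764923379,-100987061791,6071212017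1,18205278408],⟨2,165788599910400,477886673461351,[[9436005926239851,2318958979403619,0],[-19958524952096093,-10705006907914711,-7791203615215737,0,-131689780013544,-20626877179455],[46944363089940579,10197256435925749,8250298752438665,57974526736872,0,0],[0],[0],[-17405792438237780,-1049331090369950,-765574578080799]]⟩,-208277,[⟨-146208,4,(-54975581388800,0),4⟩,⟨-84139,4,(-76965813944320,0),4⟩],44164,[⟨56093,3,(-681697209221120,0),3⟩,⟨68022,4,(-684995744104448,0),3⟩,⟨91880,4,(-666304046432256,0),3⟩,⟨139597,5,(-612427976671232,0),3⟩],5,25980,[⟨30952,3,(0,0),33⟩,⟨35925,4,(0,0),33⟩,⟨45871,4,(0,0),33⟩,⟨55817,4,(0,0),34⟩,⟨65763,5,(0,0),34⟩,⟨105546,5,(0,0),34⟩],117547,[⟨161613,3,(0,0),34⟩,⟨205680,3,(0,0),34⟩]⟩]⟩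
def d_m12288_m8192_55296_57344_0 : sl d_m12288_m8192_55296_57344 0 4 := by decide +kernel
def d_m12288_m8192_55296_57344_4 : sl d_m12288_m8192_55296_57344 4 9 := by decide +kernel
def d_m12288_m8192_55296_57344_9 : sl d_m12288_m8192_55296_57344 9 13 := by decide +kernel
def d_m12288_m8192_55296_57344_13 : sl d_m12288_m8192_55296_57344 13 18 := by decide +kernel
def d_m12288_m8192_55296_57344_18 : sl d_m12288_m8192_55296_57344 18 22 := by decide +kernel
def d_m12288_m8192_55296_57344_22 : sl d_m12288_m8192_55296_57344 22 24 := by decide +kernel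
def d_m12288_m8192_55296_57344_24 : sl d_m12288_m8192_55296_57344 24 26 := by decide +kernel
def d_m12288_m8192_55296_57344_26 : fr d_m12288_m8192_55296_57344 26 := by decide +kernel
theorem f_m12288_m8192_55296_57344 : fr d_m12288_m8192_55296_57344 0 :=
  (d_m12288_m8192_55296_57344_0.fr (d_m12288_m8192_55296_57344_4.fr (d_m12288_m8192_55296_57344_9.fr (d_m12288_m8192_55296_57344_13.fr (d_m12288_m8192_55296_57344_18.fr (d_m12288_m8192_55296_57344_22.fr (d_m12288_m8192_55296_57344_24.fr d_m12288_m8192_55296_57344_26)))))))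

noncomputable def d_m16384_m12288_57344_59392 : Cell :=
  ⟨-61572651155456,8796093022208,250688651132928,4398046511104,⟨0,-4503599627370496,0⟩,⟨0,2416185391972352,-84442496368640⟩,0,1,1,13107,1,(-360639813910528,0),⟨0,6565014863872,12068238148233971,[]⟩,[9788970359674,-41825024494,-40156517680,0,194544000,93131271],3,[⟨[225179984762441,-1964498741780,-1073253891040,-52867529526,27580651191,9870916497],⟨0,130264542609408,656100160809053,[[-8040601633123361,472280930824452,8898647395593,17615318129613,5546470144166,-9600946516],[-9128650903353570,225055412360954,-94943355523354,0,2932049026287,-46653395426],[0,-228332419003659,0,-29857735929785,-4653424362680,0],[1798877173095240,0,123555531561558],[0],[-310437956253165,-25209722064104,-30173002410353,-12535161587667,-2146619785580,0]]⟩,-89638,[⟨-51344,3,(-8796093022208,0),0⟩,⟨-13050,3,(-322156906938368,0),32⟩],11353,[⟨28592,2,(-381530534838272,0),32⟩,⟨45832,3,(-396923697627136,0),32⟩],3,0,[],0,[]⟩,⟨[281474985143840,-3114514508690,-1704861664180,-88137111505,51029646723,17704872866],⟨2,165488947625984,478751986995520,[[14804530130731063,983057170592725,-71188584433420],[9388091692016847,268820433521205,-54654312254972],[3595756786142361]]⟩,-169756,[⟨-126584,4,(-43980465111040,0),4⟩,⟨-83411,3,(-47278999994368,0),0⟩],44108,[⟨86647,4,(-677299162710016,0),3⟩,⟨129186,5,(-615726511554560,0),3⟩],6,15880,[⟨21484,3,(0,0),33⟩,⟨27088,4,(0,0),34⟩,⟨38296,4,(0,0),34⟩,⟨60713,5,(0,0),34⟩,⟨105546,6,(0,0),34⟩],112809,[⟨159244,3,(0,0),34⟩,⟨205680,3,(0,0),34⟩]⟩]⟩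
def d_m16384_m12288_57344_59392_0 : sl d_m16384_m12288_57344_59392 0 4 := by decide +kernel
def d_m16384_m12288_57344_59392_4 : sl d_m16384_m12288_57344_59392 4 9 := by decide +kernel
def d_m16384_m12288_57344_59392_9 : sl d_m16384_m12288_57344_59392 9 14 := by decide +kernel
def d_m16384_m12288_57344_59392_14 : sl d_m16384_m12288_57344_59392 14 18 := by decide +kernel
def d_m16384_m12288_57344_59392_18 : sl d_m16384_m12288_57344_59392 18 19 := by decide +kernel
def d_m16384_m12288_57344_59392_19 : sl d_m16384_m12288_57344_59392 19 21 := by decide +kernel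
def d_m16384_m12288_57344_59392_21 : sl d_m16384_m12288_57344_59392 21 23 := by decide +kernel
def d_m16384_m12288_57344_59392_23 : fr d_m16384_m12288_57344_59392 23 := by decide +kernel
theorem f_m16384_m12288_57344_59392 : fr d_m16384_m12288_57344_59392 0 :=
  (d_m16384_m12288_57344_59392_0.fr (d_m16384_m12288_57344_59392_4.fr (d_m16384_m12288_57344_59392_9.fr (d_m16384_m12288_57344_59392_14.fr (d_m16384_m12288_57344_59392_18.fr (d_m16384_m12288_57344_59392_19.fr (d_m16384_m12288_57344_59392_21.fr d_m16384_m12288_57344_59392_23)))))))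

noncomputable def d_m16384_m12288_59392_60416 : Cell :=
  ⟨-61572651155456,8796093022208,257285720899584,2199023255552,⟨0,-4503599627370496,0⟩,⟨0,2826578107039744,-84442496368640⟩,0,1,1,13107,1,(-360639813910528,0),⟨0,6592952139776,12017099558096128,[]⟩,[9729066716001,-41534076696,-19939030990,0,96548751,23110042],3,[⟨[225179983986510,-2047002483914,-568652008462,-54299430378,14808551280,2636041675],⟨0,127360480772096,672247247736108,[[-8748654876372379,545397824075263,6497279265721,29340956943502,4083031519716,0],[-10018977878632283,285741294663790,-51854456856371,36031020138877,4722060965849,-25711302572],[0,-237568172287289,0],[2083320326135969,0,70408797624505,0,0,22668541720],[0],[-376117795589228,-28191350960500,-18043370248480,-6980714015902,-680666348337,0]]⟩,-91497,[⟨-52274,3,(-12094627905536,0),0⟩,⟨-13050,3,(-322156906938368,0),32⟩],11312,[⟨28276,2,(-381530534838272,0),32⟩,⟨45241,3,(-396923697627136,0),32⟩],3,0,[],0,[]⟩,⟨[281474983194998,-3257551497828,-906979491144,-91142464354,27739429736,4793593091],⟨2,163809476214784,483660434999884,[[16476840137976405,1185355553916276,-48922114821654],[9244079619263719,468843672569172,-48031353830515],[1996298722086098]]⟩,-169756,[⟨-128014,4,(-42880953483264,0),0⟩,⟨-86272,4,(-47278999994368,0),0⟩],43897,[⟨85068,4,(-677299162710016,0),3⟩,⟨126240,4,(-617925534810112,0),3⟩],6,13233,[⟨24772,4,(0,0),33⟩,⟨36311,4,(0,0),34⟩,⟨59389,5,(0,0),34⟩,⟨105546,6,(0,0),34⟩],114174,[⟨159927,3,(0,0),34⟩,⟨205680,3,(0,0),34⟩]⟩]⟩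
def d_m16384_m12288_59392_60416_0 : sl d_m16384_m12288_59392_60416 0 4 := by decide +kernel
def d_m16384_m12288_59392_60416_4 : sl d_m16384_m12288_59392_60416 4 9 := by decide +kernel
def d_m16384_m12288_59392_60416_9 : sl d_m16384_m12288_59392_60416 9 14 := by decide +kernel
def d_m16384_m12288_59392_60416_14 : sl d_m16384_m12288_59392_60416 14 18 := by decide +kernel
def d_m16384_m12288_59392_60416_18 : sl d_m16384_m12288_59392_60416 18 20 := by decide +kernel
def d_m16384_m12288_59392_60416_20 : sl d_m16384_m12288_59392_60416 20 22 := by decide +kernel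
def d_m16384_m12288_59392_60416_22 : fr d_m16384_m12288_59392_60416 22 := by decide +kernel
theorem f_m16384_m12288_59392_60416 : fr d_m16384_m12288_59392_60416 0 :=
  (d_m16384_m12288_59392_60416_0.fr (d_m16384_m12288_59392_60416_4.fr (d_m16384_m12288_59392_60416_9.fr (d_m16384_m12288_59392_60416_14.fr (d_m16384_m12288_59392_60416_18.fr (d_m16384_m12288_59392_60416_20.fr d_m16384_m12288_59392_60416_22))))))

noncomputable def d_m16384_m12288_60416_61440 : Cell :=
  ⟨-61572651155456,8796093022208,261683767410688,2199023255552,⟨0,-4503599627370496,0⟩,⟨0,3028420095115264,-84442496368640⟩,0,1,1,13107,1,(-360639813910528,0),⟨0,6621022257152,11966152533512410,[]⟩,[9689360548741,-41341458282,-19846819816,0,96069883,22995631],3,[⟨[225179984143788,-2104596238204,-590831958484,-55325528131,15550513286,2759186508],⟨0,127465425534976,671428480202647,[[-9211347403412507,581374982349844,7659939988096,31364388037449,2451511747183,0],[-10650981174817710,293657450152985,-53589236631032,38426763649622,0,-49708664627],[0,-269618613093921,0,0,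-3515318857042,0],[2312083284546629,0,73419188179161,0,0,46445819472],[0],[-424367137900857,-35072191101834,-18492392468458,-7360667884112,-1116683006061,0]]⟩,-93367,[⟨-53209,3,(-15393162788864,0),0⟩,⟨-33130,3,(-182518930210816,0),0⟩,⟨-13050,2,(-334251534843904,0),32⟩],11271,[⟨28126,2,(-380431023210496,0),32⟩,⟨44981,3,(-395824185999360,0),32⟩],3,0,[],0,[]⟩,⟨[281474983673456,-3358288587258,-945158884394,-93318506908,29384061670,5066687489],⟨2,163876767924224,483461832528560,[[18393868608981232,910105566568697,-29726463643040],[9134309631657658]]⟩,-169756,[⟨-128816,4,(-42880953483264,0),0⟩,⟨-87876,4,(-47278999994368,0),0⟩],43642,[⟨84264,4,(-677299162710016,0),3⟩,⟨124887,4,(-619025046437888,0),3⟩],6,10586,[⟨16521,4,(0,0),33⟩,⟨22456,4,(0,0),34⟩,⟨34326,5,(0,0),34⟩,⟨58066,5,(0,0),34⟩,⟨105546,6,(0,0),34⟩],114897,[⟨160288,3,(0,0),34⟩,⟨205680,3,(0,0),34⟩]⟩]⟩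
def d_m16384_m12288_60416_61440_0 : sl d_m16384_m12288_60416_61440 0 4 := by decide +kernel
def d_m16384_m12288_60416_61440_4 : sl d_m16384_m12288_60416_61440 4 9 := by decide +kernel
def d_m16384_m12288_60416_61440_9 : sl d_m16384_m12288_60416_61440 9 15 := by decide +kernel
def d_m16384_m12288_60416_61440_15 : sl d_m16384_m12288_60416_61440 15 19 := by decide +kernel
def d_m16384_m12288_60416_61440_19 : sl d_m16384_m12288_60416_61440 19 20 := by decide +kernel
def d_m16384_m12288_60416_61440_20 : sl d_m16384_m12288_60416_61440 20 22 := by decide +kernel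
def d_m16384_m12288_60416_61440_22 : sl d_m16384_m12288_60416_61440 22 24 := by decide +kernel
def d_m16384_m12288_60416_61440_24 : fr d_m16384_m12288_60416_61440 24 := by decide +kernel
theorem f_m16384_m12288_60416_61440 : fr d_m16384_m12288_60416_61440 0 :=
  (d_m16384_m12288_60416_61440_0.fr (d_m16384_m12288_60416_61440_4.fr (d_m16384_m12288_60416_61440_9.fr (d_m16384_m12288_60416_61440_15.fr (d_m16384_m12288_60416_61440_19.fr (d_m16384_m12288_60416_61440_20.fr (d_m16384_m12288_60416_61440_22.fr d_m16384_m12288_60416_61440_24)))))))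

noncomputable def d_m12288_m8192_57344_59392 : Cell :=
  ⟨-43980465111040,8796093022208,250688651132928,4398046511104,⟨0,2130316663717888,0⟩,⟨0,-4503599627370496,0⟩,5321069342752768,1,1,13107,1,(-378231999954944,0),⟨0,6618138804224,11971366045880485,[]⟩,[9705488196463,-41825024494,-39767429680,0,194544000,92163544],3,[⟨[225179986486445,-2435853635556,-1174076787282,-61276324486,35205998823,11026273269],⟨0,131207137722368,650585443490795,[[-6840455038679228,579322588602708,58679146680465,19690046947000,5778362928072,1142185542737],[-7950966509352671,340778487160390,-1902699342062],[0,-238766848455378,0,-32137325943129,-7909238313076,-1970705460746],[1730233314059315,0,54016211573422],[0],[-302337440646510,-46042921457943,-4253840798197,-12728554806223,-2185281481401,-846897811152]]⟩,-94528,[⟨-53789,3,(-45079976738816,0),0⟩,⟨-33420,3,(-206708186021888,0),0⟩,⟨-13050,2,(-355142255771648,0),32⟩],11270,[⟨28342,2,(-395824185999360,0),32⟩,⟨45415,3,(-409018325532672,0),32⟩],3,0,[],0,[]⟩,⟨[281474990752727,-3962494666708,-188289467486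9,-106740884996,68526388290,20322550804],⟨2,165971881558016,477358946434316,[[9729233053298706,24872331572236,0],[-24012853501480689,-15274469092372533,-6481867163450493,-41865329822237,-69284444710123,-2235351794149],[60755282264573136,22093547996990789,5853562506767307],[0],[0],[-21655990328470371,-6196535033132555,0]]⟩,-208277,[⟨-147752,4,(-53876069761024,0),4⟩,⟨-87227,4,(-76965813944320,0),0⟩],43643,[⟨55222,3,(-680597697593344,0),3⟩,⟨66801,4,(-684995744104448,0),3⟩,⟨89960,4,(-669602581315584,0),3⟩,⟨136278,5,(-614626999926784,0),3⟩],6,19484,[⟨20828,3,(0,0),33⟩,⟨22173,3,(0,0),33⟩,⟨24862,4,(0,0),33⟩,⟨30241,4,(0,0),33⟩,⟨35620,4,(0,0),33⟩,⟨40999,4,(0,0),34⟩,⟨51757,5,(0,0),34⟩,⟨62515,5,(0,0),34⟩,⟨105546,6,(0,0),34⟩],119002,[⟨162341,3,(0,0),34⟩,⟨205680,3,(0,0),34⟩]⟩]⟩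
def d_m12288_m8192_57344_59392_0 : sl d_m12288_m8192_57344_59392 0 4 := by decide +kernel
def d_m12288_m8192_57344_59392_4 : sl d_m12288_m8192_57344_59392 4 9 := by decide +kernel
def d_m12288_m8192_57344_59392_9 : sl d_m12288_m8192_57344_59392 9 14 := by decide +kernel
def d_m12288_m8192_57344_59392_14 : sl d_m12288_m8192_57344_59392 14 19 := by decide +kernel
def d_m12288_m8192_57344_59392_19 : sl d_m12288_m8192_57344_59392 19 23 := by decide +kernel
def d_m12288_m8192_57344_59392_23 : sl d_m12288_m8192_57344_59392 23 26 := by decide +kernel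
def d_m12288_m8192_57344_59392_26 : sl d_m12288_m8192_57344_59392 26 28 := by decide +kernel
def d_m12288_m8192_57344_59392_28 : sl d_m12288_m8192_57344_59392 28 30 := by decide +kernel
def d_m12288_m8192_57344_59392_30 : fr d_m12288_m8192_57344_59392 30 := by decide +kernel
theorem f_m12288_m8192_57344_59392 : fr d_m12288_m8192_57344_59392 0 :=
  (d_m12288_m8192_57344_59392_0.fr (d_m12288_m8192_57344_59392_4.fr (d_m12288_m8192_57344_59392_9.fr (d_m12288_m8192_57344_59392_14.fr (d_m12288_m8192_57344_59392_19.fr (d_m12288_m8192_57344_59392_23.fr (d_m12288_m8192_57344_59392_26.fr (d_m12288_m8192_57344_59392_28.fr d_m12288_m8192_57344_59392_30))))))))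

noncomputable def d_m12288_m8192_59392_60416 : Cell :=
  ⟨-43980465111040,8796093022208,257285720899584,2199023255552,⟨0,-4503599627370496,0⟩,⟨0,4127308952633344,-84442496368640⟩,0,1,1,13107,1,(-378231999954944,0),⟨0,6646327869440,11920591979816217,[]⟩,[9646164843581,-41534076696,-19745933488,0,96548751,22869986],3,[⟨[225179985397044,-2542996047881,-621860205925,-63429253291,19063235685,2960940033],⟨0,128221520658432,666919996527686,[[-10033913924344794,933771763653842,53104555165884,53722767468813,5053758366510,947254489910],[-11858793577396608,636294401770768,0,67060774552688,0,1274639747136],[0,-296605374192472,-29659022090412,0,-7414668425491,0],[2807513989356179,0,15112403636548],[0],[-523541259456040,-69321688474117,0,-13948293403677,-2408139862441,-340957368651]]⟩,-96728,[⟨-54889,3,(-48378511622144,0),0⟩,⟨-33970,3,(-206708186021888,0),0⟩,⟨-13050,2,(-355142255771648,0),32⟩],11230,[⟨28031,2,(-394724674371584,0),32⟩,⟨44833,3,(-407918813904896,0),32⟩],3,0,[],0,[]⟩,⟨[281474987848755,-4160808241286,-1002342421134,-11164851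2160,37697543785,5546142464],⟨2,164286051909632,482257389348765,[[20992252001267347,823139396357259,-356309274762357,0,0,37785602568568],[15323768668090013,0,-567494722407417,0,0,55448011362950],[0],[0],[13510094709094058]]⟩,-208277,[⟨-149388,4,(-53876069761024,0),4⟩,⟨-90498,4,(-76965813944320,0),0⟩],43441,[⟨65913,4,(-682796720848896,0),3⟩,⟨88386,4,(-672901116198912,0),3⟩,⟨133332,5,(-616826023182336,0),3⟩],6,16237,[⟨19027,3,(0,0),33⟩,⟨21818,4,(0,0),33⟩,⟨27400,4,(0,0),33⟩,⟨38564,4,(0,0),34⟩,⟨60891,5,(0,0),34⟩,⟨105546,6,(0,0),34⟩],120588,[⟨173418,3,(0,0),34⟩,⟨226248,3,(0,0),34⟩]⟩]⟩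
def d_m12288_m8192_59392_60416_0 : sl d_m12288_m8192_59392_60416 0 4 := by decide +kernel
def d_m12288_m8192_59392_60416_4 : sl d_m12288_m8192_59392_60416 4 9 := by decide +kernel
def d_m12288_m8192_59392_60416_9 : sl d_m12288_m8192_59392_60416 9 14 := by decide +kernel
def d_m12288_m8192_59392_60416_14 : sl d_m12288_m8192_59392_60416 14 19 := by decide +kernel
def d_m12288_m8192_59392_60416_19 : sl d_m12288_m8192_59392_60416 19 22 := by decide +kernel
def d_m12288_m8192_59392_60416_22 : sl d_m12288_m8192_59392_60416 22 24 := by decide +kernel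
def d_m12288_m8192_59392_60416_24 : sl d_m12288_m8192_59392_60416 24 26 := by decide +kernel
def d_m12288_m8192_59392_60416_26 : fr d_m12288_m8192_59392_60416 26 := by decide +kernel
theorem f_m12288_m8192_59392_60416 : fr d_m12288_m8192_59392_60416 0 :=
  (d_m12288_m8192_59392_60416_0.fr (d_m12288_m8192_59392_60416_4.fr (d_m12288_m8192_59392_60416_9.fr (d_m12288_m8192_59392_60416_14.fr (d_m12288_m8192_59392_60416_19.fr (d_m12288_m8192_59392_60416_22.fr (d_m12288_m8192_59392_60416_24.fr d_m12288_m8192_59392_60416_26)))))))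

noncomputable def d_m12288_m8192_60416_61440 : Cell :=
  ⟨-43980465111040,8796093022208,261683767410688,2199023255552,⟨0,2671065931186176,0⟩,⟨0,-4503599627370496,0⟩,4793720373248000,1,1,13107,1,(-378231999954944,0),⟨0,6674650955776,11870008374329761,[]⟩,[9606843141926,-41341458282,-19654680050,0,96069883,22756817],3,[⟨[225179985691735,-2618628658778,-646111826947,-64989551805,20139329789,3111497134],⟨0,128372243496960,665864386009818,[[-7489650779956660,704019617170179,38967256008850,26641798402770,3659073293660,122323264299],[-8874733690397293,464144203740061,0],[0,-239785532450145,-18292515586487,-45137080481766,-5051524550499,-132826014714],[2093658304362699,0,14359631867328],[0],[-372809532485630,-53225096721407,0,-18955959096226,-1424903252178,-14044909703]]⟩,-98954,[⟨-56002,3,(-50577534877696,0),0⟩,⟨-34526,3,(-205608674394112,0),0⟩,⟨-13049,2,(-354042744143872,0),32⟩],11190,[⟨27886,2,(-394724674371584,0),32⟩,⟨44582,3,(-407918813904896,0),32⟩],3,0,[],0,[]⟩,⟨[281474988884906,-4302617430980,-1045320410269,-115262257124,40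279849211,5896094750],⟨2,164373220360192,482001644421757,[[6031393722864144,6076359122720545,3348535011574246,1262259110000460,1278422093658435,526928922679586],[-41250650713805109,-17411313787347480,-7482613186230415,-1389380622339534,-1575652135929071,-623520755651276],[95568717609161696,9413255595200681,0],[0],[0,3360343521658639,4084102684877504],[-32999253122979174,0,0,22337431226741,0,0]]⟩,-208277,[⟨-150315,4,(-53876069761024,0),0⟩,⟨-92353,4,(-76965813944320,0),0⟩],43190,[⟨54288,3,(-680597697593344,0),3⟩,⟨65387,4,(-683896232476672,0),3⟩,⟨87584,4,(-675100139454464,0),3⟩,⟨131979,5,(-617925534810112,0),3⟩],6,12989,[⟨15881,3,(0,0),33⟩,⟨18773,4,(0,0),33⟩,⟨24558,4,(0,0),33⟩,⟨30343,4,(0,0),34⟩,⟨36128,5,(0,0),34⟩,⟨59267,5,(0,0),34⟩,⟨105546,6,(0,0),34⟩],121422,[⟨173835,3,(0,0),34⟩,⟨226248,3,(0,0),34⟩]⟩]⟩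
def d_m12288_m8192_60416_61440_0 : sl d_m12288_m8192_60416_61440 0 4 := by decide +kernel
def d_m12288_m8192_60416_61440_4 : sl d_m12288_m8192_60416_61440 4 9 := by decide +kernel
def d_m12288_m8192_60416_61440_9 : sl d_m12288_m8192_60416_61440 9 14 := by decide +kernel
def d_m12288_m8192_60416_61440_14 : sl d_m12288_m8192_60416_61440 14 19 := by decide +kernel
def d_m12288_m8192_60416_61440_19 : sl d_m12288_m8192_60416_61440 19 23 := by decide +kernel
def d_m12288_m8192_60416_61440_23 : sl d_m12288_m8192_60416_61440 23 24 := by decide +kernel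
def d_m12288_m8192_60416_61440_24 : sl d_m12288_m8192_60416_61440 24 26 := by decide +kernel
def d_m12288_m8192_60416_61440_26 : sl d_m12288_m8192_60416_61440 26 28 := by decide +kernel
def d_m12288_m8192_60416_61440_28 : fr d_m12288_m8192_60416_61440 28 := by decide +kernel
theorem f_m12288_m8192_60416_61440 : fr d_m12288_m8192_60416_61440 0 :=
  (d_m12288_m8192_60416_61440_0.fr (d_m12288_m8192_60416_61440_4.fr (d_m12288_m8192_60416_61440_9.fr (d_m12288_m8192_60416_61440_14.fr (d_m12288_m8192_60416_61440_19.fr (d_m12288_m8192_60416_61440_23.fr (d_m12288_m8192_60416_61440_24.fr (d_m12288_m8192_60416_61440_26.fr d_m12288_m8192_60416_61440_28))))))))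

noncomputable def d_m8192_m6144_49152_53248 : Cell :=
  ⟨-30786325577728,4398046511104,219902325555200,8796093022208,⟨0,4503599627370496,-84442496368640⟩,⟨0,4503599627370496,0⟩,0,-1,1,13107,1,(-391426139488256,0),⟨0,6477602553856,12231093522387433,[]⟩,[9923170633902,-21605871157,-81557298907,0,201444941,378688474],3,[⟨[225179982634689,-1181753914256,-1910460066071,-14920993849,30053400093,35465228092],⟨0,133069341982720,641576736102770,[[14707242495812515,-694269277985029,-63109425986257,-17814234314727,-29655521805186,0],[16915210505181996,-499401662291143,415166150601977,0,-31966810101162,1105361806282],[0,198673414947929,0,31116189184008,4332761072693,0],[-3556211480195005,0,-588908187942235,0,0,-1006815851814],[0],[642239219185452,53626462257651,157208130532154,13638750482579,6917536207667,0]]⟩,-86522,[⟨-49786,3,(-54975581388800,0),4⟩,⟨-13050,3,(-363938348793856,0),32⟩],11476,[⟨29338,2,(-406819302277120,0),32⟩,⟨47200,3,(-417814418554880,0),32⟩],3,0,[],0,[]⟩,⟨[281474980262820,-1920139851175,-3030947334354,-25875938079,57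201221701,62626933160],⟨2,166987951505408,474454365201487,[[-32106964206106040,-1256049149761597,0],[-26265100843855269,-1079470112842922,24200843754914],[-5837712766496901]]⟩,-232376,[⟨-155958,4,(-68169720922112,0),4⟩,⟨-117749,4,(-101155069755392,0),4⟩,⟨-79540,3,(-101155069755392,0),4⟩],45015,[⟨72684,4,(-690493302243328,0),3⟩,⟨100354,4,(-656408441782272,0),3⟩,⟨155694,5,(-604731395276800,0),3⟩],5,43481,[⟨45216,3,(0,0),33⟩,⟨46951,3,(0,0),33⟩,⟨50421,4,(0,0),33⟩,⟨57362,4,(0,0),33⟩,⟨64302,4,(0,0),34⟩,⟨71243,4,(0,0),34⟩,⟨99005,5,(0,0),34⟩,⟨154530,5,(0,0),34⟩],116534,[⟨161107,3,(0,0),34⟩,⟨205680,4,(0,0),34⟩]⟩]⟩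
def d_m8192_m6144_49152_53248_0 : sl d_m8192_m6144_49152_53248 0 4 := by decide +kernel
def d_m8192_m6144_49152_53248_4 : sl d_m8192_m6144_49152_53248 4 9 := by decide +kernel
def d_m8192_m6144_49152_53248_9 : sl d_m8192_m6144_49152_53248 9 13 := by decide +kernel
def d_m8192_m6144_49152_53248_13 : sl d_m8192_m6144_49152_53248 13 18 := by decide +kernel
def d_m8192_m6144_49152_53248_18 : sl d_m8192_m6144_49152_53248 18 22 := by decide +kernel
def d_m8192_m6144_49152_53248_22 : sl d_m8192_m6144_49152_53248 22 24 := by decide +kernel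
def d_m8192_m6144_49152_53248_24 : sl d_m8192_m6144_49152_53248 24 26 := by decide +kernel
def d_m8192_m6144_49152_53248_26 : sl d_m8192_m6144_49152_53248 26 28 := by decide +kernel
def d_m8192_m6144_49152_53248_28 : fr d_m8192_m6144_49152_53248 28 := by decide +kernel
theorem f_m8192_m6144_49152_53248 : fr d_m8192_m6144_49152_53248 0 :=
  (d_m8192_m6144_49152_53248_0.fr (d_m8192_m6144_49152_53248_4.fr (d_m8192_m6144_49152_53248_9.fr (d_m8192_m6144_49152_53248_13.fr (d_m8192_m6144_49152_53248_18.fr (d_m8192_m6144_49152_53248_22.fr (d_m8192_m6144_49152_53248_24.fr (d_m8192_m6144_49152_53248_26.fr d_m8192_m6144_49152_53248_28))))))))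

noncomputable def d_m8192_m6144_53248_55296 : Cell :=
  ⟨-30786325577728,4398046511104,233096465088512,4398046511104,⟨0,-4503599627370496,0⟩,⟨0,2819693274464256,-84442496368640⟩,0,1,1,13107,1,(-391426139488256,0),⟨0,6532774821888,12127796338609230,[]⟩,[9801933419867,-21305499676,-40214424840,0,99227689,93271165],3,[⟨[225179982036463,-1284084388360,-1078396058989,-15933125470,17468658637,10059177179],⟨0,127262039015424,673214017705968,[[-6554677597984365,403496067402937,64583527076970,11804545328646,8295424534117,281080049038],[-7563123678552199,395920020257752,-22632939335177,14814843212118,10741306120613,0],[0],[1656324209668504,0,104476786387097,0,0,279251463339],[0,18274934181463,0,0,2516811630143,0],[-320399464801918,0,-29566513648534,-3115516822268,0,0]]⟩,-89983,[⟨-51517,3,(-61572651155456,0),0⟩,⟨-13050,3,(-363938348793856,0),32⟩],11394,[⟨28671,2,(-405719790649344,0),32⟩,⟨45949,3,(-416714906927104,0),32⟩],3,0,[],0,[]⟩,⟨[281474978623402,-2109799812569,-1724096440575,-28193395537,34225326583,18251200865],⟨2,163685720260608,484026110477511,[[20841131987231231,736155951095343,-127347775544858],[17453215757027240,740086181228598,-113220501069196],[6774028862634332]]⟩,-232376,[⟨-158621,4,(-67070209294336,0),4⟩,⟨-84866,4,(-105553116266496,0),4⟩],44566,[⟨70003,4,(-690493302243328,0),3⟩,⟨95441,4,(-664105023176704,0),3⟩,⟨146316,5,(-610228953415680,0),3⟩],5,36234,[⟨47668,4,(0,0),33⟩,⟨59103,4,(0,0),34⟩,⟨81972,5,(0,0),34⟩,⟨127711,5,(0,0),34⟩],118641,[⟨162160,3,(0,0),34⟩,⟨205680,3,(0,0),34⟩]⟩]⟩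
def d_m8192_m6144_53248_55296_0 : sl d_m8192_m6144_53248_55296 0 4 := by decide +kernel
def d_m8192_m6144_53248_55296_4 : sl d_m8192_m6144_53248_55296 4 9 := by decide +kernel
def d_m8192_m6144_53248_55296_9 : sl d_m8192_m6144_53248_55296 9 13 := by decide +kernel
def d_m8192_m6144_53248_55296_13 : sl d_m8192_m6144_53248_55296 13 18 := by decide +kernel
def d_m8192_m6144_53248_55296_18 : sl d_m8192_m6144_53248_55296 18 19 := by decide +kernel
def d_m8192_m6144_53248_55296_19 : sl d_m8192_m6144_53248_55296 19 21 := by decide +kernel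
def d_m8192_m6144_53248_55296_21 : sl d_m8192_m6144_53248_55296 21 23 := by decide +kernel
def d_m8192_m6144_53248_55296_23 : fr d_m8192_m6144_53248_55296 23 := by decide +kernel
theorem f_m8192_m6144_53248_55296 : fr d_m8192_m6144_53248_55296 0 :=
  (d_m8192_m6144_53248_55296_0.fr (d_m8192_m6144_53248_55296_4.fr (d_m8192_m6144_53248_55296_9.fr (d_m8192_m6144_53248_55296_13.fr (d_m8192_m6144_53248_55296_18.fr (d_m8192_m6144_53248_55296_19.fr (d_m8192_m6144_53248_55296_21.fr d_m8192_m6144_53248_55296_23)))))))

noncomputable def d_m8192_m6144_55296_57344 : Cell :=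
  ⟨-30786325577728,4398046511104,241892558110720,4398046511104,⟨0,-4503599627370496,0⟩,⟨0,3702824449867776,-84442496368640⟩,0,1,1,13107,1,(-391426139488256,0),⟨0,6588472492032,12025270324156645,[]⟩,[9722036817775,-21108028122,-39843185858,0,98244769,92349707],3,[⟨[225179982166642,-1360171993195,-1166731723640,-16725526079,19432561435,11016719587],⟨0,127477948350464,671535723932525,[[-7934725940264402,528060491029715,85057035568147,11222810493975,10575409270254,391921128609],[-9314508505846279,527103803277744,-27614585227091,11064420926378,13615418842762,0],[0,0,0,-3654851627137,0,0],[2193277575412059,-8217927172652,138611259797078,0,0,419722506012],[0,23272207052054,0,0,3123868227929,0],[-435540636307628,0,-41415369958536,-3607880917483,0,0]]⟩,-93715,[⟨-53383,3,(-68169720922112,0),0⟩,⟨-33217,3,(-227598906949632,0),0⟩,⟨-13050,2,(-371634930188288,0),32⟩],11311,[⟨28361,2,(-405719790649344,0),32⟩,⟨45411,3,(-416714906927104,0),32⟩],3,0,[],0,[]⟩,⟨[281474979090835,-2254594673004,-1876896616481,-30067430320,38918451775,20401013431],⟨2,163820104187904,483629057107468,[[25816609339461717,1055701265945642,-162575537352097],[21054940105326746,1059113137408517,-145722078338336],[6166968988023526]]⟩,-232376,[⟨-160216,4,(-67070209294336,0),4⟩,⟨-88055,4,(-105553116266496,0),4⟩],44038,[⟨68664,4,(-689393790615552,0),3⟩,⟨93290,4,(-668503069687808,0),3⟩,⟨142543,5,(-613527488299008,0),3⟩],5,28986,[⟨39875,4,(0,0),33⟩,⟨50764,4,(0,0),34⟩,⟨72543,5,(0,0),34⟩,⟨116101,5,(0,0),34⟩],120028,[⟨162854,3,(0,0),34⟩,⟨205680,3,(0,0),34⟩]⟩]⟩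
def d_m8192_m6144_55296_57344_0 : sl d_m8192_m6144_55296_57344 0 4 := by decide +kernel
def d_m8192_m6144_55296_57344_4 : sl d_m8192_m6144_55296_57344 4 9 := by decide +kernel
def d_m8192_m6144_55296_57344_9 : sl d_m8192_m6144_55296_57344 9 14 := by decide +kernel
def d_m8192_m6144_55296_57344_14 : sl d_m8192_m6144_55296_57344 14 19 := by decide +kernel
def d_m8192_m6144_55296_57344_19 : sl d_m8192_m6144_55296_57344 19 20 := by decide +kernel
def d_m8192_m6144_55296_57344_20 : sl d_m8192_m6144_55296_57344 20 22 := by decide +kernel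
def d_m8192_m6144_55296_57344_22 : sl d_m8192_m6144_55296_57344 22 24 := by decide +kernel
def d_m8192_m6144_55296_57344_24 : fr d_m8192_m6144_55296_57344 24 := by decide +kernel
theorem f_m8192_m6144_55296_57344 : fr d_m8192_m6144_55296_57344 0 :=
  (d_m8192_m6144_55296_57344_0.fr (d_m8192_m6144_55296_57344_4.fr (d_m8192_m6144_55296_57344_9.fr (d_m8192_m6144_55296_57344_14.fr (d_m8192_m6144_55296_57344_19.fr (d_m8192_m6144_55296_57344_20.fr (d_m8192_m6144_55296_57344_22.fr d_m8192_m6144_55296_57344_24)))))))

noncomputable def d_m8192_m6144_57344_59392 : Cell :=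
  ⟨-30786325577728,4398046511104,250688651132928,4398046511104,⟨0,-4503599627370496,0⟩,⟨0,4432376184700928,-84442496368640⟩,0,1,1,13107,1,(-391426139488256,0),⟨0,6644700807168,11923510859802940,[]⟩,[9642877540007,-20912512247,-39475613680,0,97272000,91437748],3,[⟨[225179982333224,-1443832318590,-1261055813663,-17634455624,21741276931,12136994778],⟨0,127726858993664,669691605879861,[[-8925104591348250,590984285637869,127771941882454,9249496383463,11248089023902,1233789075996],[-10653933213311542,505820502765938,0,0,13404802405762,0],[0,-89656617006363,-74749679533440,-15486261206722,0,-1850251683554],[2653531222784959,0,51329893026987],[0],[-522180440377816,-42416649727564,-16281403347928,-6260951723474,-2240620261283,-636094532152]]⟩,-97938,[⟨-55494,3,(-74766790688768,0),0⟩,⟨-34272,3,(-226499395321856,0),0⟩,⟨-13050,2,(-371634930188288,0),32⟩],11230,[⟨28060,2,(-405719790649344,0),32⟩,⟨44891,3,(-416714906927104,0),32⟩],3,0,[],0,[]⟩,⟨[281474979724714,-2417688388070,-2043370278800,-32283080248,44632719343,22995545886],⟨2,1639670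90884608,483195512412275,[[23583310175912040,1186785755441709,-389847204986912,108205501343881,0,0],[21535118286865894,1025311916481482,-756875832190179],[9479864096858341],[0,619480654695688,0],[4724434843582843,0,-451667445507231]]⟩,-232376,[⟨-161996,4,(-65970697666560,0),4⟩,⟨-91616,4,(-104453604638720,0),4⟩],43525,[⟨67449,4,(-689393790615552,0),3⟩,⟨91374,4,(-671801604571136,0),3⟩,⟨139224,5,(-615726511554560,0),3⟩],6,21739,[⟨26976,4,(0,0),33⟩,⟨32214,4,(0,0),33⟩,⟨37452,4,(0,0),34⟩,⟨42690,4,(0,0),34⟩,⟨63642,5,(0,0),34⟩,⟨105546,6,(0,0),34⟩],121575,[⟨173911,3,(0,0),34⟩,⟨226248,4,(0,0),34⟩]⟩]⟩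
def d_m8192_m6144_57344_59392_0 : sl d_m8192_m6144_57344_59392 0 4 := by decide +kernel
def d_m8192_m6144_57344_59392_4 : sl d_m8192_m6144_57344_59392 4 9 := by decide +kernel
def d_m8192_m6144_57344_59392_9 : sl d_m8192_m6144_57344_59392 9 14 := by decide +kernel
def d_m8192_m6144_57344_59392_14 : sl d_m8192_m6144_57344_59392 14 19 := by decide +kernel
def d_m8192_m6144_57344_59392_19 : sl d_m8192_m6144_57344_59392 19 22 := by decide +kernel
def d_m8192_m6144_57344_59392_22 : sl d_m8192_m6144_57344_59392 22 24 := by decide +kernel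
def d_m8192_m6144_57344_59392_24 : sl d_m8192_m6144_57344_59392 24 26 := by decide +kernel
def d_m8192_m6144_57344_59392_26 : fr d_m8192_m6144_57344_59392 26 := by decide +kernel
theorem f_m8192_m6144_57344_59392 : fr d_m8192_m6144_57344_59392 0 :=
  (d_m8192_m6144_57344_59392_0.fr (d_m8192_m6144_57344_59392_4.fr (d_m8192_m6144_57344_59392_9.fr (d_m8192_m6144_57344_59392_14.fr (d_m8192_m6144_57344_59392_19.fr (d_m8192_m6144_57344_59392_22.fr (d_m8192_m6144_57344_59392_24.fr d_m8192_m6144_57344_59392_26)))))))

noncomputable def d_m8192_m6144_59392_60416 : Cell :=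
  ⟨-30786325577728,4398046511104,257285720899584,2199023255552,⟨0,-4044849875517440,0⟩,⟨0,4503599627370496,-84442496368640⟩,0,1,1,13107,1,(-391426139488256,0),⟨0,6673015701504,11872917144669406,[]⟩,[9583988678726,-20767038348,-19601110361,0,48274376,22689944],3,[⟨[225179981898462,-1512373593766,-668188031369,-18407627664,11876292697,3276715855],⟨0,124790423355392,686715668914305,[[-7421166705101624,573792469208323,53731851717657,8606840155030,5153447114105,257070675422],[-8902988108173194,579288019385216,0,0,6222583926011,0],[0,0,-672563066573,-14842022697850,0,-381198367783],[2258236472612520,0,65211501512524],[0,39528169818935,0],[-440299802641204,0,-20238409520962,-6398163161419,-1109231753740,-126594397388]]⟩,-100455,[⟨-56752,3,(-78065325572096,0),0⟩,⟨-34901,3,(-225399883694080,0),0⟩,⟨-13049,2,(-371634930188288,0),32⟩],11190,[⟨27756,2,(-405719790649344,0),32⟩,⟨44323,3,(-416714906927104,0),32⟩],3,0,[],0,[]⟩,⟨[281474978394263,-2554445148558,-1089514071232,-34224177621,24893904309,6328474004],⟨2,162220391923712,488398292968300,[[24613038113690634,1056152708263537,-57610978258657],[18863894565223503,1056242181231933,-57103315600365],[5161167341212522]]⟩,-232376,[⟨-163895,4,(-65970697666560,0),4⟩,⟨-95413,4,(-104453604638720,0),0⟩],43327,[⟨89802,4,(-710284511543296,0),3⟩,⟨136278,5,(-617925534810112,0),3⟩],6,18116,[⟨23580,4,(0,0),34⟩,⟨29044,4,(0,0),34⟩,⟨39973,4,(0,0),34⟩,⟨61831,5,(0,0),34⟩,⟨105546,6,(0,0),34⟩],123252,[⟨174750,3,(0,0),34⟩,⟨226248,3,(0,0),34⟩]⟩]⟩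
def d_m8192_m6144_59392_60416_0 : sl d_m8192_m6144_59392_60416 0 4 := by decide +kernel
def d_m8192_m6144_59392_60416_4 : sl d_m8192_m6144_59392_60416 4 9 := by decide +kernel
def d_m8192_m6144_59392_60416_9 : sl d_m8192_m6144_59392_60416 9 15 := by decide +kernel
def d_m8192_m6144_59392_60416_15 : sl d_m8192_m6144_59392_60416 15 19 := by decide +kernel
def d_m8192_m6144_59392_60416_19 : sl d_m8192_m6144_59392_60416 19 20 := by decide +kernel
def d_m8192_m6144_59392_60416_20 : sl d_m8192_m6144_59392_60416 20 22 := by decide +kernel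
def d_m8192_m6144_59392_60416_22 : sl d_m8192_m6144_59392_60416 22 24 := by decide +kernel
def d_m8192_m6144_59392_60416_24 : fr d_m8192_m6144_59392_60416 24 := by decide +kernel
theorem f_m8192_m6144_59392_60416 : fr d_m8192_m6144_59392_60416 0 :=
  (d_m8192_m6144_59392_60416_0.fr (d_m8192_m6144_59392_60416_4.fr (d_m8192_m6144_59392_60416_9.fr (d_m8192_m6144_59392_60416_15.fr (d_m8192_m6144_59392_60416_19.fr (d_m8192_m6144_59392_60416_20.fr (d_m8192_m6144_59392_60416_22.fr d_m8192_m6144_59392_60416_24)))))))

noncomputable def d_m8192_m6144_60416_61440 : Cell :=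
  ⟨-30786325577728,4398046511104,261683767410688,2199023255552,⟨0,-3398251139039232,0⟩,⟨0,4503599627370496,-84442496368640⟩,0,1,1,13107,1,(-391426139488256,0),⟨0,6701465272320,11822513341924748,[]⟩,[9544955325036,-20670729141,-19510575226,0,48034941,22577707],3,[⟨[225179981950294,-1561342933627,-694567039450,-18975638325,12627265987,3456734268],⟨0,124891788083200,685886297532811,[[-5783631274012342,473632959532300,47678562281715,7116841230763,3694675722904,236886658849],[-6957844903789496,480273144457050,0,0,4415368377676,0],[0,0,-18511648948120,-12372658443830,0,-369289626182],[1780319217612181,0,35532529457446],[0,34267585751051,0],[-347322920914696,0,-12945254799142,-5390463653340,-754275025127,-136914417845]]⟩,-102977,[⟨-58013,3,(-81363860455424,0),0⟩,⟨-35531,3,(-225399883694080,0),0⟩,⟨-13049,2,(-370535418560512,0),32⟩],11150,[⟨27613,2,(-405719790649344,0),32⟩,⟨44076,3,(-416714906927104,0),32⟩],3,0,[],0,[]⟩,⟨[281474978611375,-2654016922532,-1137834246777,-35684965750,26873741431,6770129745],⟨2,162287413428224,488196594279559,[[23002858511960611,693485724271505,-32936652479664],[16642741076575569,693485821946719,-7300479886475],[1517176611586375]]⟩,-232376,[⟨-164988,4,(-64871186038784,0),4⟩,⟨-97599,4,(-103354093010944,0),0⟩],43081,[⟨89003,4,(-712483534798848,0),3⟩,⟨134925,5,(-619025046437888,0),3⟩],6,14492,[⟨20182,4,(0,0),33⟩,⟨25873,4,(0,0),34⟩,⟨37255,5,(0,0),34⟩,⟨60019,5,(0,0),34⟩,⟨105546,6,(0,0),34⟩],124133,[⟨175190,3,(0,0),34⟩,⟨226248,3,(0,0),34⟩]⟩]⟩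
def d_m8192_m6144_60416_61440_0 : sl d_m8192_m6144_60416_61440 0 4 := by decide +kernel
def d_m8192_m6144_60416_61440_4 : sl d_m8192_m6144_60416_61440 4 9 := by decide +kernel
def d_m8192_m6144_60416_61440_9 : sl d_m8192_m6144_60416_61440 9 15 := by decide +kernel
def d_m8192_m6144_60416_61440_15 : sl d_m8192_m6144_60416_61440 15 19 := by decide +kernel
def d_m8192_m6144_60416_61440_19 : sl d_m8192_m6144_60416_61440 19 20 := by decide +kernel
def d_m8192_m6144_60416_61440_20 : sl d_m8192_m6144_60416_61440 20 22 := by decide +kernel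
def d_m8192_m6144_60416_61440_22 : sl d_m8192_m6144_60416_61440 22 24 := by decide +kernel
def d_m8192_m6144_60416_61440_24 : fr d_m8192_m6144_60416_61440 24 := by decide +kernel
theorem f_m8192_m6144_60416_61440 : fr d_m8192_m6144_60416_61440 0 :=
  (d_m8192_m6144_60416_61440_0.fr (d_m8192_m6144_60416_61440_4.fr (d_m8192_m6144_60416_61440_9.fr (d_m8192_m6144_60416_61440_15.fr (d_m8192_m6144_60416_61440_19.fr (d_m8192_m6144_60416_61440_20.fr (d_m8192_m6144_60416_61440_22.fr d_m8192_m6144_60416_61440_24)))))))

noncomputable def d_6144_8192_0_4096 : Cell :=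
  ⟨30786325577728,4398046511104,8796093022208,8796093022208,⟨0,-19701014986752,-103704166400000⟩,⟨0,5574867550208,19574380560384⟩,0,1,1,13107,1,(-452998790643712,0),⟨0,5942170681344,13333202138546478,[]⟩,[10753184029500,20432571867,89290982425,0,189769690,417147112],1,[⟨[1710851758046231,-279131148791504,-139901635372970,42272759905194,33783527512537,7006260401314],⟨0,2007738239549440,39666146940237,[[-85109501403985811,-640433202751900,0,-2647486903562,0,48899611695864],[-242551203019277184,2340010171111475,5078197728643541],[-191027296459886673,4475525569905818,7541209061781179,0,-6700234925729,-73868437492754],[0],[31545860480788981,-916250041710743,-2463838648569733],[-2055364908449981,579581772939856,0,-2598977501589,-6732719084104,-24919501283567]]⟩,-162615,[⟨-153226,5,(-394724674371584,0),6⟩,⟨-143836,5,(-389227116232704,0),6⟩,⟨-125057,4,(-380431023210496,0),6⟩,⟨-106278,4,(-363938348793856,0),6⟩,⟨-87499,4,(-338649581355008,0),6⟩,⟨-68720,4,(-293569604616192,0),6⟩,⟨-49941,3,(-372734441816064,0),6⟩,⟨-31162,3,(-344147139493888,0),6⟩,⟨-12382,2,(-459595860410368,0),32⟩],13052,[⟨33956,2,(-451899279015936,0),32⟩,⟨54860,3,(-717981092937728,0),0⟩,⟨75764,4,(-714682558054400,0),0⟩,⟨96668,4,(-674000627826688,0),0⟩,⟨138476,5,(-623423092948992,0),0⟩,⟨180285,5,(-592636767371264,0),0⟩,⟨222093,5,(-578343116210176,0),0⟩,⟨263901,6,(-570646534815744,0),0⟩,⟨305709,6,(-567347999932416,0),0⟩,⟨326613,6,(-565148976676864,0),0⟩,⟨347518,6,(-565148976676864,0),0⟩],5,-324582,[],-2,[]⟩]⟩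
def d_6144_8192_0_4096_0 : sl d_6144_8192_0_4096 0 4 := by decide +kernel
def d_6144_8192_0_4096_4 : sl d_6144_8192_0_4096 4 8 := by decide +kernel
def d_6144_8192_0_4096_8 : sl d_6144_8192_0_4096 8 12 := by decide +kernel
def d_6144_8192_0_4096_12 : sl d_6144_8192_0_4096 12 16 := by decide +kernel
def d_6144_8192_0_4096_16 : sl d_6144_8192_0_4096 16 20 := by decide +kernel
def d_6144_8192_0_4096_20 : fr d_6144_8192_0_4096 20 := by decide +kernel
theorem f_6144_8192_0_4096 : fr d_6144_8192_0_4096 0 :=
  (d_6144_8192_0_4096_0.fr (d_6144_8192_0_4096_4.fr (d_6144_8192_0_4096_8.fr (d_6144_8192_0_4096_12.fr (d_6144_8192_0_4096_16.fr d_6144_8192_0_4096_20)))))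

noncomputable def d_6144_8192_4096_8192 : Cell :=
  ⟨30786325577728,4398046511104,26388279066624,8796093022208,⟨0,-22458383990784,-155314557026304⟩,⟨0,4956392259584,29216028491776⟩,0,1,1,13107,1,(-452998790643712,0),⟨0,5843406749696,13558556861935727,[]⟩,[10933082635507,20815915499,90976343128,0,193580940,425558551],1,[⟨[1422990952424435,-219206494541897,-114664088487655,31591828692848,26310177505991,5656377697277],⟨0,1426546043322368,55951619271466,[[-37762566934445779,-859319482933919,0,0,86656704594879,6601060741815],[-107660319258340429,1091619344301660,3998701922737511],[-84956671417350033,4398727012093659,7945615002243862,-486561787619,-151812277559775,-6672664567920],[0,2148763542243872,3947803624757270],[15073372898725291,-299738136936617,0],[0,0,0,-481127476972,-65151343173593,0]]⟩,-162615,[⟨-153238,5,(-394724674371584,0),6⟩,⟨-143861,4,(-389227116232704,0),6⟩,⟨-125107,4,(-380431023210496,0),6⟩,⟨-87598,4,(-107752139522048,4604204941312),6⟩,⟨-68844,3,(-294669116243968,0),6⟩,⟨-50090,3,(-372734441816064,0),6⟩,⟨-31336,3,(-345246651121664,0),6⟩,⟨-12581,2,(-459595860410368,0),32⟩],13053,[⟨40804,3,(-451899279015936,0),32⟩,⟨68555,4,(-715782069682176,0),0⟩,⟨96306,4,(-682796720848896,0),0⟩,⟨124057,4,(-632219185971200,0),0⟩,⟨151808,5,(-605830906904576,0),0⟩,⟨179559,5,(-589338232487936,0),1⟩,⟨207310,5,(-579442627837952,0),1⟩,⟨235062,5,(-573945069699072,0),1⟩],4,-304296,[],14659,[]⟩]⟩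
def d_6144_8192_4096_8192_0 : sl d_6144_8192_4096_8192 0 4 := by decide +kernel
def d_6144_8192_4096_8192_4 : sl d_6144_8192_4096_8192 4 8 := by decide +kernel
def d_6144_8192_4096_8192_8 : sl d_6144_8192_4096_8192 8 12 := by decide +kernel
def d_6144_8192_4096_8192_12 : sl d_6144_8192_4096_8192 12 16 := by decide +kernel
def d_6144_8192_4096_8192_16 : fr d_6144_8192_4096_8192 16 := by decide +kernel
theorem f_6144_8192_4096_8192 : fr d_6144_8192_4096_8192 0 :=
  (d_6144_8192_4096_8192_0.fr (d_6144_8192_4096_8192_4.fr (d_6144_8192_4096_8192_8.fr (d_6144_8192_4096_8192_12.fr d_6144_8192_4096_8192_16))))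

noncomputable def d_6144_8192_8192_12288 : Cell :=
  ⟨30786325577728,4398046511104,43980465111040,8796093022208,⟨0,-23532125814784,-180031271731200⟩,⟨0,6854767804416,35362093137920⟩,0,1,1,13107,1,(-452998790643712,0),⟨0,5746482413568,13787245353783649,[]⟩,[11107518756474,20986869162,92475610043,-331863225,-168585669,102283662],1,[⟨[1189199081755065,-172505483105587,-94266143510585,23610856370930,20521185342504,4577362852785],⟨0,1086870962176000,73620338095815,[[-17733912990270822,-478619824843558,-372493006493478,-1214255667300,-451526391979,0],[-46542386936182830,0,0,0,0,-2898264739978],[-32012002724302171,774607114748709,701713614643715],[0,0,0,0,0,2887046457404],[0,0,-329956284203911],[-3216579009678755,296703332519076,0,-1213962156316,-409545097027,0]]⟩,-162615,[⟨-153251,4,(-394724674371584,0),6⟩,⟨-143886,4,(-389227116232704,0),6⟩,⟨-125157,4,(-380431023210496,0),6⟩,⟨-87698,4,(-352943232516096,0),6⟩,⟨-68969,3,(-295768627871744,0),6⟩,⟨-50240,3,(-372734441816064,0),6⟩,⟨-31511,3,(-345246651121664,0),6⟩,⟨-12781,2,(-459595860410368,0),32⟩],13048,[⟨33928,2,(-451899279015936,0),32⟩,⟨54808,3,(-719080604565504,0),0⟩,⟨75688,4,(-714682558054400,0),0⟩,⟨96569,4,(-674000627826688,0),1⟩,⟨138329,5,(-623423092948992,0),1⟩,⟨159209,5,(-598134325510144,0),1⟩,⟨180090,5,(-588238720860160,0),1⟩],4,-284010,[],22464,[]⟩]⟩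
def d_6144_8192_8192_12288_0 : sl d_6144_8192_8192_12288 0 4 := by decide +kernel
def d_6144_8192_8192_12288_4 : sl d_6144_8192_8192_12288 4 8 := by decide +kernel
def d_6144_8192_8192_12288_8 : sl d_6144_8192_8192_12288 8 12 := by decide +kernel
def d_6144_8192_8192_12288_12 : sl d_6144_8192_8192_12288 12 16 := by decide +kernel
def d_6144_8192_8192_12288_16 : fr d_6144_8192_8192_12288 16 := by decide +kernel
theorem f_6144_8192_8192_12288 : fr d_6144_8192_8192_12288 0 :=
  (d_6144_8192_8192_12288_0.fr (d_6144_8192_8192_12288_4.fr (d_6144_8192_8192_12288_8.fr (d_6144_8192_8192_12288_12.fr d_6144_8192_8192_12288_16))))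

noncomputable def d_6144_8192_12288_16384 : Cell :=
  ⟨30786325577728,4398046511104,61572651155456,8796093022208,⟨0,639950127104,12990480908288⟩,⟨0,8847632629760,41068208848896⟩,0,1,1,13107,1,(-452998790643712,0),⟨0,5721251119104,13848048390311445,[[-223640903108246,120540796534350,-172301910039460]]⟩,[10877686135472,-13992256899,-74136686047,-331863225,-19028883931,-28176256232],1,[⟨[998621082577749,-136053359183246,-77740213368106,17647026322785,16031546436331,3713203875817],⟨0,854795965825024,93835283641193,[[-1811521072180065,-150863048244657,-105678171237911,4155739081596,-6457500661198,0],[-2638615771880565,0,-115360051757814,0,0,-180339994613],[0,230465398065977,0,-9928810158622,8389025527790,0],[0],[-558800056626484],[257151763965800,80289597623129,10327275871811,-5815766935917,1902374076313,177443333842]]⟩,-162615,[⟨-153255,4,(-394724674371584,0),6⟩,⟨-143894,4,(-389227116232704,0),6⟩,⟨-125172,4,(-380431023210496,0),6⟩,⟨-87729,4,(-352943232516096,0),6⟩,⟨-50286,3,(-241892558110720,0),6⟩,⟨-31565,3,(-345246651121664,0),4⟩,⟨-12843,2,(-459595860410368,0),32⟩],12662,[⟨29365,2,(-451899279015936,0),32⟩,⟨46068,3,(-451899279015936,0),32⟩,⟨79474,4,(-714682558054400,0),1⟩,⟨112880,4,(-654209418526720,0),1⟩,⟨146287,5,(-612427976671232,0),1⟩],4,-263723,[],27371,[]⟩]⟩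
def d_6144_8192_12288_16384_0 : sl d_6144_8192_12288_16384 0 4 := by decide +kernel
def d_6144_8192_12288_16384_4 : sl d_6144_8192_12288_16384 4 8 := by decide +kernel
def d_6144_8192_12288_16384_8 : sl d_6144_8192_12288_16384 8 12 := by decide +kernel
def d_6144_8192_12288_16384_12 : fr d_6144_8192_12288_16384 12 := by decide +kernel
theorem f_6144_8192_12288_16384 : fr d_6144_8192_12288_16384 0 :=
  (d_6144_8192_12288_16384_0.fr (d_6144_8192_12288_16384_4.fr (d_6144_8192_12288_16384_8.fr d_6144_8192_12288_16384_12)))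

noncomputable def d_8192_10240_0_2048 : Cell :=
  ⟨39582418599936,4398046511104,4398046511104,4398046511104,⟨0,-18021682774016,-161241997770752⟩,⟨0,-1791001362432,18311878279168⟩,0,1,1,13107,1,(-461794883665920,0),⟨0,5914844004352,13394801741250981,[]⟩,[10749332154349,20337497815,44625815075,0,94413531,104236091],1,[⟨[1248571606654869,-171071015717420,-46904718967555,20639144261645,9283318746576,1048806575784],⟨0,940603836858368,85180936760196,[[-7913609223228352,-1915349116239935,-683673139900576,-161939745340356,355402548546,21858510173630],[-22861660272079738,-3029683632942268,-940292215998648,-200341965157261,351329068565,0],[-14239774513428164,0,0,0,0,-38885515169641],[3853816347191523,1289467027798824,0],[0,0,-376785415383813],[-3160338674671155,-174325945099650,-119769163801288,38352568136511,0,-17029811294737]]⟩,-145438,[⟨-137126,4,(-384829069721600,0),6⟩,⟨-128813,4,(-379331511582720,0),6⟩,⟨-112187,4,(-369435906932736,0),6⟩,⟨-78936,4,(-336450558099456,0),6⟩,⟨-45685,3,(2199023255552,-1030792151040),6⟩,⟨-29059,3,(-487083651104768,0),32⟩,⟨-12433,2,(-471690488315904,0),32⟩],13053,[⟨40483,3,(-457396837154816,0),32⟩,⟨67913,4,(-720180116193280,0),0⟩,⟨95343,4,(-687194767360000,0),0⟩,⟨122773,5,(-635517720854528,0),0⟩,⟨150203,5,(-606930418532352,0),0⟩,⟨177633,5,(-590437744115712,0),0⟩,⟨205063,5,(-580542139465728,0),0⟩,⟨232494,5,(-575044581326848,0),0⟩],4,-290297,[],-2,[]⟩]⟩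
def d_8192_10240_0_2048_0 : sl d_8192_10240_0_2048 0 4 := by decide +kernel
def d_8192_10240_0_2048_4 : sl d_8192_10240_0_2048 4 8 := by decide +kernel
def d_8192_10240_0_2048_8 : sl d_8192_10240_0_2048 8 12 := by decide +kernel
def d_8192_10240_0_2048_12 : sl d_8192_10240_0_2048 12 16 := by decide +kernel
def d_8192_10240_0_2048_16 : fr d_8192_10240_0_2048 16 := by decide +kernel
theorem f_8192_10240_0_2048 : fr d_8192_10240_0_2048 0 :=
  (d_8192_10240_0_2048_0.fr (d_8192_10240_0_2048_4.fr (d_8192_10240_0_2048_8.fr (d_8192_10240_0_2048_12.fr d_8192_10240_0_2048_16))))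

noncomputable def d_8192_10240_2048_4096 : Cell :=
  ⟨39582418599936,4398046511104,13194139533312,4398046511104,⟨0,-19524921327616,-172696340004864⟩,⟨0,2070174236672,28565877817344⟩,0,1,1,13107,1,(-461794883665920,0),⟨0,5865487204352,13507515982964325,[]⟩,[10838822463437,20527266968,45044847127,0,95356487,105281508],1,[⟨[1151260381298756,-153500227665511,-42904216859780,18099185468580,8297498991782,952843772581],⟨0,846424336695296,94787618700672,[[-9440148203697840,-1086603290908020,-448944236343440,-73572678387963,4704819601316,3964175568016],[-27382383179259269,-885194766154676,0,-50417774994674,2542858828787,0],[-20878574173945536,1983796102442874,1829193765875089,0,-6532940870971,-6454386067731],[-763462688935424,2049598553966928,1641206347711003,-84025244014563,0,0],[0,0,0,0,4372510103368,0],[-2187047433345251,-266426076767388,-260565168665411,60841686842636,0,-2492035800925]]⟩,-145438,[⟨-137132,4,(-384829069721600,0),6⟩,⟨-128825,4,(-379331511582720,0),6⟩,⟨-112212,4,(-369435906932736,0),6⟩,⟨-78986,4,(-336450558099456,0),6⟩,⟨-45760,3,(8796093022208,-481036337152),6⟩,⟨-29147,3,(-487083651104768,0),32⟩,⟨-12533,2,(-471690488315904,0),32⟩],13053,[⟨36448,3,(-457396837154816,0),32⟩,⟨59844,4,(-721279627821056,0),0⟩,⟨83240,4,(-716881581309952,0),0⟩,⟨106636,4,(-657507953410048,0),0⟩,⟨153428,5,(-612427976671232,0),0⟩,⟨176824,5,(-590437744115712,0),0⟩,⟨200220,5,(-581641651093504,0),0⟩],4,-281225,[],6242,[]⟩]⟩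
def d_8192_10240_2048_4096_0 : sl d_8192_10240_2048_4096 0 4 := by decide +kernel
def d_8192_10240_2048_4096_4 : sl d_8192_10240_2048_4096 4 8 := by decide +kernel
def d_8192_10240_2048_4096_8 : sl d_8192_10240_2048_4096 8 12 := by decide +kernel
def d_8192_10240_2048_4096_12 : sl d_8192_10240_2048_4096 12 16 := by decide +kernel
def d_8192_10240_2048_4096_16 : fr d_8192_10240_2048_4096 16 := by decide +kernel
theorem f_8192_10240_2048_4096 : fr d_8192_10240_2048_4096 0 :=
  (d_8192_10240_2048_4096_0.fr (d_8192_10240_2048_4096_4.fr (d_8192_10240_2048_4096_8.fr (d_8192_10240_2048_4096_12.fr d_8192_10240_2048_4096_16))))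

noncomputable def d_8192_10240_4096_8192 : Cell :=
  ⟨39582418599936,4398046511104,26388279066624,8796093022208,⟨0,-22514218565632,-218013462691840⟩,⟨0,4067334029312,37766033309696⟩,0,1,1,13107,1,(-461794883665920,0),⟨0,5816592433152,13621061431474696,[]⟩,[10974630027602,20815915499,91363505008,0,193580940,427484005],1,[⟨[1028877324174395,-130927585870264,-75222266323794,14921151282373,14050676128270,3305723354025],⟨0,898079676366848,89270535463927,[[-16736483375915200,-803939709314114,-511790304257964,-3871344131349,-1901811610344,2662245464288],[-44800036960793536,0,2180606222076249],[-31439392084214781,2686304709428830,7519065340700033,0,0,-2670641883823],[0,2042962730996460,5676631139583831,-3882130798154,-1772045645242,0],[0],[-3388961312814079,-159811523596668,-849186207937785,0,-142526650004,0]]⟩,-145438,[⟨-128838,4,(-382630046466048,0),6⟩,⟨-112237,4,(-369435906932736,0),6⟩,⟨-79035,4,(-336450558099456,0),6⟩,⟨-62435,3,(-277076930199552,0),6⟩,⟨-45834,3,(-391426139488256,0),6⟩,⟨-29233,3,(-487083651104768,0),32⟩,⟨-12632,2,(-472789999943680,0),32⟩],13053,[⟨34094,2,(-457396837154816,0),32⟩,⟨55135,3,(-722379139448832,0),0⟩,⟨76176,4,(-739971325493248,0),0⟩,⟨97218,4,(-675100139454464,0),0⟩,⟨139301,5,(-624522604576768,0),0⟩,⟨160342,5,(-598134325510144,0),1⟩,⟨181384,5,(-588238720860160,0),1⟩],4,-272153,[],11311,[]⟩]⟩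
def d_8192_10240_4096_8192_0 : sl d_8192_10240_4096_8192 0 4 := by decide +kernel
def d_8192_10240_4096_8192_4 : sl d_8192_10240_4096_8192 4 8 := by decide +kernel
def d_8192_10240_4096_8192_8 : sl d_8192_10240_4096_8192 8 12 := by decide +kernel
def d_8192_10240_4096_8192_12 : sl d_8192_10240_4096_8192 12 16 := by decide +kernel
def d_8192_10240_4096_8192_16 : fr d_8192_10240_4096_8192 16 := by decide +kernel
theorem f_8192_10240_4096_8192 : fr d_8192_10240_4096_8192 0 :=
  (d_8192_10240_4096_8192_0.fr (d_8192_10240_4096_8192_4.fr (d_8192_10240_4096_8192_8.fr (d_8192_10240_4096_8192_12.fr d_8192_10240_4096_8192_16))))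

noncomputable def d_10240_12288_0_8192 : Cell :=
  ⟨48378511622144,4398046511104,17592186044416,17592186044416,⟨0,-6150393167872,-199635599622144⟩,⟨0,-6244882448384,37219465166848⟩,0,1,1,13107,1,(-470590976688128,0),⟨0,5887517327360,13456973168050292,[]⟩,[10924997655719,20625009508,181799587826,0,383347975,1700621585],1,[⟨[867350869111902,-96025188974328,-115374516148888,9338115199015,18744116696976,9259150123587],⟨0,1141875295191040,70013695276293,[[-45302880817526248,-202321138677922,0,-6698415628596,0,0],[-120798478540254079,1740018290613397,4913756671282622,0,0,-3487455579079],[-88255445947933726,2639677556608342,7300530375229582,0,-63945997742,-3357712849292],[0],[9501901722946110,0,-2388407455574040],[-3269961938665853,698138311244383,0,-6766513401093,0,0]]⟩,-132481,[⟨-124981,4,(-376032976699392,0),6⟩,⟨-117481,4,(-369435906932736,0),6⟩,⟨-102480,4,(-357341279027200,0),6⟩,⟨-72478,4,(-322156906938368,0),6⟩,⟨-57478,3,(-422212465065984,0),6⟩,⟨-42477,3,(-410117837160448,0),6⟩,⟨-27476,3,(-503576325521408,0),32⟩,⟨-12475,2,(-484884627849216,0),32⟩],13053,[⟨36902,3,(-462894395293696,0),32⟩,⟨60751,4,(-724578162704384,0),0⟩,⟨84600,4,(-715782069682176,0),0⟩,⟨108450,4,(-656408441782272,0),0⟩,⟨156148,5,(-611328465043456,0),0⟩,⟨179997,5,(-589338232487936,0),0⟩,⟨191922,5,(-582741162721280,0),0⟩,⟨197884,5,(-580542139465728,0),0⟩,⟨203847,5,(-578343116210176,0),0⟩],4,-264435,[],-2,[]⟩]⟩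
def d_10240_12288_0_8192_0 : sl d_10240_12288_0_8192 0 4 := by decide +kernel
def d_10240_12288_0_8192_4 : sl d_10240_12288_0_8192 4 8 := by decide +kernel
def d_10240_12288_0_8192_8 : sl d_10240_12288_0_8192 8 12 := by decide +kernel
def d_10240_12288_0_8192_12 : sl d_10240_12288_0_8192 12 16 := by decide +kernel
def d_10240_12288_0_8192_16 : fr d_10240_12288_0_8192 16 := by decide +kernel
theorem f_10240_12288_0_8192 : fr d_10240_12288_0_8192 0 :=
  (d_10240_12288_0_8192_0.fr (d_10240_12288_0_8192_4.fr (d_10240_12288_0_8192_8.fr (d_10240_12288_0_8192_12.fr d_10240_12288_0_8192_16))))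

noncomputable def d_12288_16384_0_8192 : Cell :=
  ⟨61572651155456,8796093022208,17592186044416,17592186044416,⟨0,-15758235009024,-256356464459776⟩,⟨0,-1099511627776,17096821964800⟩,0,1,1,13107,1,(-483785116221440,0),⟨0,5860190650368,13519724418368158,[]⟩,[10963160391583,40662818087,182362430821,-885403281,-209937612,826652168],1,[⟨[670751380112317,-115598324750620,-75696374839046,18084707682656,20153861356798,5436513046323],⟨0,896799494438912,89364961920306,[[-4885427586794541,-465470007973196,-1273318847411009,-8324586261519,9615638022653,0],[-9653049739242760,0,-1619083477373099,0,0,-6204809553457],[-4203955182329316,426488444918394,0,0,-9710017781691,0],[0,-369381505270956,0],[-553508516925700,0,-310182111471813,0,0,-6198293035879],[0,331576264127583,37145387098689,-8226436834107,0,0]]⟩,-122178,[⟨-115324,4,(-367236883677184,0),6⟩,⟨-108470,4,(-359540302282752,0),6⟩,⟨-94761,4,(-346346162749440,0),6⟩,⟨-67344,4,(-306763744149504,0),6⟩,⟨-39927,3,(0,5428838662144),6⟩,⟨-26218,3,(-529964604588032,0),32⟩,⟨-12509,2,(-504675837149184,0),32⟩],13037,[⟨33315,2,(-470590976688128,0),32⟩,⟨53593,3,(-732274744098816,0),0⟩,⟨73871,4,(-724578162704384,0),0⟩,⟨94149,4,(-686095255732224,0),0⟩,⟨134705,5,(-631119674343424,0),0⟩,⟨154983,5,(-603631883649024,0),0⟩,⟨175262,5,(-591537255743488,0),0⟩],4,-243870,[],-2,[]⟩]⟩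
def d_12288_16384_0_8192_0 : sl d_12288_16384_0_8192 0 4 := by decide +kernel
def d_12288_16384_0_8192_4 : sl d_12288_16384_0_8192 4 8 := by decide +kernel
def d_12288_16384_0_8192_8 : sl d_12288_16384_0_8192 8 12 := by decide +kernel
def d_12288_16384_0_8192_12 : sl d_12288_16384_0_8192 12 16 := by decide +kernel
def d_12288_16384_0_8192_16 : fr d_12288_16384_0_8192 16 := by decide +kernel
theorem f_12288_16384_0_8192 : fr d_12288_16384_0_8192 0 :=
  (d_12288_16384_0_8192_0.fr (d_12288_16384_0_8192_4.fr (d_12288_16384_0_8192_8.fr (d_12288_16384_0_8192_12.fr d_12288_16384_0_8192_16))))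

end Pool.Agent.Lib.MP_d6150d_an
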